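import Pool.Agent.Lib.MP_41de88_nt.Ramif2

set_option autoImplicit false

open Polynomial WithZero Finset

namespace Pool.Agent.Lib.MP_41de88_nt

open helper22.Val

variable {L : Type*} [Field L] {v : Valuation L ℤᵐ⁰} {q : ℕ} {F D : L[X]}

/-- iterate of a polynomial map -/
noncomputable abbrev Fi (F : L[X]) (n : ℕ) (z : L) : L := (fun x => F.eval x)^[n] z

lemma Fi_succ (n : ℕ) (z : L) : Fi F (n + 1) z = Fi F n (F.eval z) := rfl

lemma Fi_succ' (n : ℕ) (z : L) : Fi F (n + 1) z = F.eval (Fi F n z) :=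
  Function.iterate_succ_apply' _ _ _

lemma Fi_add (m n : ℕ) (z : L) : Fi F (m + n) z = Fi F m (Fi F n z) :=
  Function.iterate_add_apply _ _ _ _

lemma Fi_le (hF : IntP v F) {x : L} (hx : v x ≤ 1) (n : ℕ) : v (Fi F n x) ≤ 1 := by
  induction n with
  | zero => exact hx
  | succ n ih => rw [Fi_succ']; exact hF.eval ih

lemma Fi_sub_le (hF : IntP v F) {x y : L} (hx : v x ≤ 1) (hy : v y ≤ 1) (n : ℕ) :
    v (Fi F n x - Fi F n y) ≤ v (x - y) := by
  induction n with
  | zero => exact le_rfl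
  | succ n ih =>
    rw [Fi_succ', Fi_succ']
    exact (hF.eval_sub_le (Fi_le hF hx n) (Fi_le hF hy n)).trans ih

lemma disp_sub_le (hF : IntP v F) {x y : L} (hx : v x ≤ 1) (hy : v y ≤ 1) (n : ℕ) :
    v ((Fi F n x - x) - (Fi F n y - y)) ≤ v (x - y) := by
  rw [show (Fi F n x - x) - (Fi F n y - y) = (Fi F n x - Fi F n y) - (x - y) by ring]
  exact v.map_sub_le (Fi_sub_le hF hx hy n) le_rfl

lemma WP.q_ne (h : WP v q F) : (q : L) ≠ 0 := (Valuation.ne_zero_iff v).mp h.ne

lemma WP.od_q_pos (h : WP v q F) : 0 < od v q := (od_pos h.q_ne).mpr h.lt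

lemma WP.le_one_of_Fi (h : WP v q F) {n : ℕ} {y : L} (hy : v (Fi F n y) ≤ 1) : v y ≤ 1 := by
  induction n generalizing y with
  | zero => exact hy
  | succ n ih => exact not_lt.mp fun h1 => not_lt.mpr (ih hy) (by
      rw [h.int.val_eval_of_gt (by rw [h.monic, map_one]) h1, h.deg]
      exact one_lt_pow₀ h1 h.prime.ne_zero)

lemma WP.dich (h : WP v q F) (h1 : v (F.coeff 1) ≤ v q) {x y : L} (hx : v x ≤ 1) (hy : v y ≤ 1)
    (hne : x ≠ y) : ((q - 1) * od v (x - y) < od v q ∧ F.eval x ≠ F.eval y ∧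
      od v (F.eval x - F.eval y) = q * od v (x - y)) ∨ (od v q ≤ (q - 1) * od v (x - y) ∧
        (F.eval x ≠ F.eval y → od v (x - y) + od v q ≤ od v (F.eval x - F.eval y))) := by
  have h0 := sub_ne_zero.mpr hne
  have h2 : v (F.eval x - F.eval y - (x - y) ^ q) ≤ v (q * (x - y)) := by
    have := h.sub_le le_rfl hx hy
    rw [one_pow, mul_one] at this
    rw [show F.eval x - F.eval y - (x - y) ^ q = F.eval x - F.eval y - ((x - y) ^ q
      + F.coeff 1 * (x - y)) + F.coeff 1 * (x - y) by ring, map_mul]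
    exact v.map_add_le this (by rw [map_mul]; exact mul_le_mul_left h1 _)
  have h3 := mul_ne_zero h.q_ne h0
  have h4 := pow_ne_zero q h0
  rcases lt_or_ge ((q - 1) * od v (x - y)) (od v q) with h5 | h5
  · have h6 : v (q * (x - y)) < v ((x - y) ^ q) := by
      rw [← od_lt_od h4 h3, od_pow, od_mul h.q_ne h0]; linarith
    have h7 := v.map_eq_of_sub_lt (h2.trans_lt h6)
    refine Or.inl ⟨h5, fun e => vne (v := v) h4 ?_, by rw [od_congr h7, od_pow]⟩
    rw [← h7, e, sub_self, map_zero]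
  · refine Or.inr ⟨h5, fun e => ?_⟩
    have h6 : v ((x - y) ^ q) ≤ v (q * (x - y)) := by
      rw [← od_le_od h3 h4, od_pow, od_mul h.q_ne h0]; linarith
    have h7 := v.map_add_le h2 h6
    rw [sub_add_cancel] at h7
    have := od_le_of_le (sub_ne_zero.mpr e) h7
    rw [od_mul h.q_ne h0] at this
    linarith

lemma WP.deriv_le (h : WP v q F) (h1 : v (F.coeff 1) ≤ v q) {y : L} (hy : v y ≤ 1) :
    v (F.derivative.eval y) ≤ v q := by
  rw [h.deriv_eq]
  refine v.map_add_le (v.map_add_le ?_ h1) (v.map_sum_le fun i hi => ?_)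
  · rw [map_mul, map_pow]; exact mul_le_of_le_one_right' (pow_le_one' hy _)
  · rw [mem_Ico] at hi
    rw [map_mul, map_mul, map_pow]
    exact (mul_le_of_le_one_right' (pow_le_one' hy _)).trans
      ((mul_le_of_le_one_right' (val_nat_le _)).trans (h.ci i hi.1 hi.2))

lemma WP.natDegree_deriv (h : WP v q F) : F.derivative.natDegree = q - 1 ∧
    F.derivative.leadingCoeff = q := by
  have h2 := h.prime.two_le
  have e : F.derivative.coeff (q - 1) = q := by
    rw [coeff_derivative, show q - 1 + 1 = q by omega, h.cq, one_mul, ← Nat.cast_succ,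
      show (q - 1).succ = q by omega]
  have hd : F.derivative.natDegree = q - 1 :=
    le_antisymm (h.deg ▸ natDegree_derivative_le F) (le_natDegree_of_ne_zero (e ▸ h.q_ne))
  exact ⟨hd, by rw [leadingCoeff, hd, e]⟩

lemma od_multiset_prod {s : Multiset L} (h : ∀ x ∈ s, x ≠ 0) :
    od v s.prod = (s.map (od v)).sum := by
  induction s using Multiset.induction_on with
  | empty => simp [od_one]
  | cons a s ih =>
    have h1 : ∀ x ∈ s, x ≠ 0 := fun x hx => h x (Multiset.mem_cons_of_mem hx)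
    rw [Multiset.prod_cons, Multiset.map_cons, Multiset.sum_cons, od_mul
      (h a (Multiset.mem_cons_self _ _)) (Multiset.prod_ne_zero fun h0 => h1 0 h0 rfl), ih h1]

lemma WP.close_conj (h : WP v q F) (h1 : v (F.coeff 1) ≤ v q) (j : ℕ) {x y : L} (hx : v x ≤ 1)
    (hy : v y ≤ 1) (hne : x ≠ y) (e : Fi F j x = Fi F j y) : od v q ≤ q ^ j * od v (x - y) := by
  induction j generalizing x y with
  | zero => exact absurd e hne
  | succ j ih =>
    have h0 := od_nonneg (v.map_sub_le hx hy)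
    rcases h.dich h1 hx hy hne with ⟨-, h2, h3⟩ | ⟨h2, -⟩
    · have := ih (h.int.eval hx) (h.int.eval hy) h2 e
      rwa [h3, ← mul_assoc, ← pow_succ] at this
    · refine h2.trans (mul_le_mul_of_nonneg_right ?_ h0)
      have : (q : ℤ) ≤ q ^ (j + 1) := le_self_pow₀ (by exact_mod_cast h.prime.one_le) (by omega)
      linarith

/-- the standing assumptions in the inseparable wild case -/
structure WI (v : Valuation L ℤᵐ⁰) (J : Type*) [Group J] [MulSemiringAction J L] (q : ℕ)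
    (F D : L[X]) (m C1 : ℕ) : Prop where
  inert : Inert v J
  wp : WP v q F
  three : 3 ≤ q
  c1 : v (F.coeff 1) ≤ v q
  fixF : ∀ (σ : J) i, σ • F.coeff i = F.coeff i
  fixD : ∀ (σ : J) i, σ • D.coeff i = D.coeff i
  D0 : D ≠ 0
  ord : od v q ≤ (q - 1) * Nat.card J
  mpos : 0 < m
  base : ∀ t, D.eval t = 0 → v t ≤ 1 ∧ Fi F m t ≠ t ∧ v (Fi F m t - t) < 1 ∧
    od v (Fi F m t - t) ≤ C1 * od v q

variable {J : Type*} [Group J] [Fintype J] [MulSemiringAction J L] {m C1 : ℕ}
  (h : WI v J q F D m C1)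
include h

omit [Fintype J] in
lemma WI.int {n : ℕ} {y : L} (hy : D.eval (Fi F n y) = 0) : v y ≤ 1 :=
  h.wp.le_one_of_Fi (h.base _ hy).1

omit [Fintype J] in
lemma WI.smul_Fi (σ : J) (n : ℕ) (y : L) : σ • Fi F n y = Fi F n (σ • y) :=
  (Function.Semiconj.iterate_right (f := fun x => σ • x)
    (fun x => (eval_smul_of_coeff h.fixF σ x).symm) n) y

omit [Fintype J] in
lemma WI.stab_le (n : ℕ) (y : L) :
    MulAction.stabilizer J y ≤ MulAction.stabilizer J (Fi F n y) := fun σ hσ => by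
  rw [MulAction.mem_stabilizer_iff] at hσ ⊢
  rw [h.smul_Fi, hσ]

omit h [Fintype J] in
lemma disp_eval (y : L) :
    Fi F m (F.eval y) - F.eval y = F.eval (Fi F m y) - F.eval y := by rw [← Fi_succ, Fi_succ']

omit [Fintype J] in
lemma WI.disp {n : ℕ} {y : L} (hy : D.eval (Fi F n y) = 0) : Fi F m y ≠ y ∧
    0 < od v (Fi F m y - y) ∧ (od v (Fi F m y - y) + n * od v q ≤ C1 * od v q ∨
      (q - 1) * od v (Fi F m y - y) < od v q) := by
  induction n generalizing y with
  | zero =>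
    obtain ⟨-, h1, h2, h3⟩ := h.base y hy
    exact ⟨h1, (od_pos (sub_ne_zero.mpr h1)).mpr h2, Or.inl (by simpa using h3)⟩
  | succ n ih =>
    obtain ⟨h1, h2, h3⟩ := ih (y := F.eval y) hy
    have hy1 := h.int hy
    have hq := h.wp.od_q_pos
    have h3q : (3 : ℤ) ≤ q := by exact_mod_cast h.three
    rw [disp_eval] at h2 h3
    have h4 : F.eval (Fi F m y) ≠ F.eval y := fun e => h1 (by rwa [← Fi_succ, Fi_succ'])
    have h5 : Fi F m y ≠ y := fun e => h4 (by rw [e])
    refine ⟨h5, ?_⟩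
    rcases h.wp.dich h.c1 (Fi_le h.wp.int hy1 m) hy1 h5 with ⟨h6, -, h7⟩ | ⟨h6, h7⟩
    · rw [h7] at h2
      exact ⟨(mul_pos_iff_of_pos_left (by linarith)).mp h2, Or.inr h6⟩
    · have h8 := h7 h4
      refine ⟨by nlinarith, Or.inl ?_⟩
      rcases h3 with h3 | h3
      · push_cast; linarith
      · nlinarith

omit [Fintype J] in
lemma WI.disp_small {n : ℕ} (hn : C1 ≤ n) {y : L} (hy : D.eval (Fi F n y) = 0) :
    (q - 1) * od v (Fi F m y - y) < od v q := by
  obtain ⟨-, h1, h2 | h2⟩ := h.disp hy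
  · have : (C1 : ℤ) ≤ n := by exact_mod_cast hn
    nlinarith [h.wp.od_q_pos]
  · exact h2

omit [Fintype J] in
lemma WI.disp_pow {n : ℕ} (hn : C1 ≤ n) (j : ℕ) {y : L} (hy : D.eval (Fi F (n + j) y) = 0) :
    od v (Fi F m (Fi F j y) - Fi F j y) = q ^ j * od v (Fi F m y - y) := by
  induction j generalizing y with
  | zero => rw [pow_zero, one_mul]; rfl
  | succ j ih =>
    have hy1 := h.int hy
    rw [Fi_succ, ih (y := F.eval y) hy, disp_eval]
    rcases h.wp.dich h.c1 (Fi_le h.wp.int hy1 m) hy1 (h.disp hy).1 with ⟨-, -, h7⟩ | ⟨h6, -⟩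
    · rw [h7]; ring
    · exact absurd (h.disp_small (by omega) hy) (not_lt.mpr h6)

omit [Fintype J] in
lemma WI.disp_small' (j : ℕ) {n : ℕ} (hn : C1 + j ≤ n) {y : L} (hy : D.eval (Fi F n y) = 0) :
    (q - 1) * (q ^ j * od v (Fi F m y - y)) < od v q := by
  obtain ⟨k, rfl⟩ : ∃ k, n = k + j := ⟨n - j, by omega⟩
  rw [← h.disp_pow (n := k) (by omega) j hy]
  exact h.disp_small (n := k) (by omega) (by rwa [← Fi_add])

omit [Fintype J] in
lemma WI.card_dvd (y : L) : (Nat.card (MulAction.stabilizer J y) : ℤ) ∣ od v (Fi F m y - y) :=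
  h.inert.od_dvd _ fun σ hσ => by rw [smul_sub, h.smul_Fi, hσ]

lemma WI.exists_a (j : ℕ) {y : L} (hy : D.eval (Fi F (C1 + j) y) = 0) : ∃ a : ℕ, 0 < a ∧
    od v (Fi F m y - y) = a * Nat.card (MulAction.stabilizer J y) ∧
      a * q ^ j < (MulAction.stabilizer J y).index ∧ a < D.natDegree * q ^ C1 := by
  obtain ⟨a, ha⟩ := h.card_dvd y
  have h1 := (h.disp hy).2.1
  have h2 : (0 : ℤ) < Nat.card (MulAction.stabilizer J y) := by exact_mod_cast Nat.card_pos
  have h3 : 0 < a := (mul_pos_iff_of_pos_left h2).mp (ha ▸ h1)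
  lift a to ℕ using h3.le
  have h4 := (h.disp_small' j le_rfl hy).trans_le h.ord
  have h3q : (3 : ℤ) ≤ q := by exact_mod_cast h.three
  rw [ha, ← (MulAction.stabilizer J y).index_mul_card] at h4
  have h5 : a * q ^ j < (MulAction.stabilizer J y).index := by
    have := lt_of_mul_lt_mul_left h4 (by linarith)
    push_cast at this
    have h6 : ((a * q ^ j : ℕ) : ℤ) < (MulAction.stabilizer J y).index := by
      push_cast
      nlinarith
    exact_mod_cast h6
  refine ⟨a, by exact_mod_cast h3, by rw [ha, mul_comm], h5, ?_⟩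
  obtain ⟨e1, e2⟩ := tree_finite (F := F) (by rw [h.wp.deg]; exact h.wp.prime.ne_zero) h.D0 (C1 + j)
  have h7 : (MulAction.stabilizer J y).index ≤ D.natDegree * q ^ C1 * q ^ j := by
    rw [MulAction.index_stabilizer, mul_assoc, ← pow_add, ← h.wp.deg]
    refine (Set.ncard_le_ncard ?_ e1).trans e2
    rintro _ ⟨σ, rfl⟩
    exact tree_smul h.fixF h.fixD σ hy
  exact lt_of_mul_lt_mul_right (h5.trans_le h7) (Nat.zero_le _)

lemma WI.lt_index (j : ℕ) {n : ℕ} (hn : C1 + j ≤ n) {y : L} (hy : D.eval (Fi F n y) = 0) :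
    q ^ j < (MulAction.stabilizer J y).index := by
  obtain ⟨k, rfl⟩ : ∃ k, n = C1 + k := ⟨n - C1, by omega⟩
  obtain ⟨a, h1, -, h2, -⟩ := h.exists_a k hy
  exact ((Nat.pow_le_pow_right h.wp.prime.pos (by omega)).trans
    (Nat.le_mul_of_pos_left _ h1)).trans_lt h2

lemma WI.deriv_small (hs : F.derivative.Splits) {n : ℕ} (hn : C1 + 2 ≤ n) {y : L}
    (hy : D.eval (Fi F n y) = 0) : F.derivative.eval y ≠ 0 ∧
      4 * od v (F.derivative.eval y) ≤ 5 * od v q := by
  have h3q : (3 : ℤ) ≤ q := by exact_mod_cast h.three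
  have h1 := h.disp_small' 2 hn hy
  obtain ⟨h2, h3, -⟩ := h.disp hy
  have hy1 := h.int hy
  obtain ⟨hd1, hd2⟩ := h.wp.natDegree_deriv
  have hD0 : F.derivative ≠ 0 := by rw [← leadingCoeff_ne_zero, hd2]; exact h.wp.q_ne
  have key : ∀ c ∈ F.derivative.roots, y - c ≠ 0 ∧ od v (y - c) ≤ od v (Fi F m y - y) := by
    intro c hc
    have hc' : F.derivative.eval c = 0 := isRoot_of_mem_roots hc
    by_contra hcon
    have h4 : v (y - c) < v (Fi F m y - y) := by
      rcases eq_or_ne (y - c) 0 with e | e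
      · rw [e, map_zero]; exact zero_lt_iff.mpr (vne (sub_ne_zero.mpr h2))
      · rw [← od_lt_od (sub_ne_zero.mpr h2) e]
        exact not_le.mp fun h5 => hcon ⟨e, h5⟩
    have h5 : v c ≤ 1 := val_le_of_sub_lt hy1 (by
      rw [v.map_sub_swap]; exact h4.trans ((od_pos (sub_ne_zero.mpr h2)).mp h3))
    have h6 := v.map_eq_of_sub_lt ((disp_sub_le h.wp.int h5 hy1 m).trans_lt
      (v.map_sub_swap y c ▸ h4))
    have h7 := Int.le_of_dvd (od_congr h6 ▸ h3) (h.card_dvd c)
    rw [od_congr h6] at h7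
    obtain ⟨e1, e2⟩ := tree_finite (F := F) (by rw [h.wp.deg]; exact h.wp.prime.ne_zero) hD0 0
    have h8 : (MulAction.stabilizer J c).index ≤ q - 1 := by
      rw [MulAction.index_stabilizer, ← hd1, ← mul_one F.derivative.natDegree,
        ← pow_zero F.natDegree]
      refine (Set.ncard_le_ncard ?_ e1).trans e2
      rintro _ ⟨σ, rfl⟩
      exact tree_smul (n := 0) h.fixF (coeff_derivative_smul h.fixF) σ hc'
    have h9 : ((MulAction.stabilizer J c).index : ℤ) ≤ q - 1 := by omega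
    have h10 := lt_of_mul_lt_mul_left (h1.trans_le h.ord) (by linarith)
    rw [← (MulAction.stabilizer J c).index_mul_card] at h10
    push_cast at h10
    have h11 : ((MulAction.stabilizer J c).index : ℤ) * Nat.card (MulAction.stabilizer J c)
        ≤ (q - 1) * od v (Fi F m y - y) := mul_le_mul h9 h7 (by positivity) (by linarith)
    have h12 : (q - 1 : ℤ) ≤ q ^ 2 := by nlinarith
    linarith [mul_le_mul_of_nonneg_right h12 h3.le]
  have h4 : ∀ x ∈ F.derivative.roots.map (y - ·), x ≠ 0 := by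
    intro x hx
    obtain ⟨c, hc, rfl⟩ := Multiset.mem_map.mp hx
    exact (key c hc).1
  have h5 := Multiset.prod_ne_zero fun h0 => h4 0 h0 rfl
  rw [hs.eval_eq_prod_roots, hd2]
  refine ⟨mul_ne_zero h.wp.q_ne h5, ?_⟩
  have h6 := Multiset.sum_le_card_nsmul ((F.derivative.roots.map (y - ·)).map (od v))
    (od v (Fi F m y - y)) fun x hx => by
      obtain ⟨_, hx', rfl⟩ := Multiset.mem_map.mp hx
      obtain ⟨c, hc, rfl⟩ := Multiset.mem_map.mp hx'
      exact (key c hc).2
  rw [Multiset.card_map, Multiset.card_map, ← hs.natDegree_eq_card_roots, hd1, nsmul_eq_mul,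
    Nat.cast_sub h.wp.prime.one_le] at h6
  rw [od_mul h.wp.q_ne h5, od_multiset_prod h4]
  push_cast at h6
  have h7 : 4 * ((q - 1) * od v (Fi F m y - y)) ≤ (q - 1) * (q ^ 2 * od v (Fi F m y - y)) := by
    have : (0 : ℤ) ≤ (q - 1) * od v (Fi F m y - y) := mul_nonneg (by linarith) h3.le
    have h12 : (4 : ℤ) ≤ q ^ 2 := by nlinarith
    linarith [mul_le_mul_of_nonneg_right h12 this]
  linarith

omit [Fintype J] in
lemma WI.sibling {y y' : L} (hy : v y ≤ 1) (hs : (F - C (F.eval y)).Splits)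
    (h0 : F.derivative.eval y ≠ 0) (h1 : 4 * od v (F.derivative.eval y) ≤ 5 * od v q)
    (e : F.eval y' = F.eval y) (hne : y' ≠ y) : 4 * od v (y - y') ≤ 3 * od v q := by
  classical
  have h3q : (3 : ℤ) ≤ q := by exact_mod_cast h.three
  have hd : (F - C (F.eval y)).natDegree = q := by rw [natDegree_sub_C, h.wp.deg]
  have hm : (F - C (F.eval y)).Monic := h.wp.monic.sub_of_left (degree_C_le.trans_lt
    (natDegree_pos_iff_degree_pos.mp (h.wp.deg ▸ h.wp.prime.pos)))
  have hr : ∀ z, z ∈ (F - C (F.eval y)).roots ↔ F.eval z = F.eval y := fun z => by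
    simp [hm.ne_zero, sub_eq_zero]
  have h2 := hs.eval_root_derivative hm ((hr y).mpr rfl)
  rw [derivative_sub, derivative_C, sub_zero] at h2
  have h3 : y' ∈ (F - C (F.eval y)).roots.erase y :=
    (Multiset.mem_erase_of_ne hne).mpr ((hr y').mpr e)
  have h4 : ∀ x ∈ ((F - C (F.eval y)).roots.erase y).map (y - ·), x ≠ 0 := fun x hx e =>
    h0 (h2 ▸ Multiset.prod_eq_zero (e ▸ hx))
  rw [h2, od_multiset_prod h4, ← Multiset.cons_erase h3, Multiset.map_cons, Multiset.map_cons,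
    Multiset.sum_cons] at h1
  have h5 := Multiset.card_nsmul_le_sum (s := (((((F - C (F.eval y)).roots.erase y).erase y').map
    (y - ·)).map (od v)).map fun x => (q - 1 : ℤ) * x) (a := od v q) fun x hx => by
      simp only [Multiset.mem_map] at hx
      obtain ⟨_, ⟨_, ⟨c, hc, rfl⟩, rfl⟩, rfl⟩ := hx
      have hc1 := Multiset.mem_of_mem_erase hc
      have hc2 := (hr c).mp (Multiset.mem_of_mem_erase hc1)
      have hc3 : v c ≤ 1 := h.wp.le_one_of_Fi (n := 1) (hc2 ▸ h.wp.int.eval hy :)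
      rcases h.wp.dich h.c1 hy hc3 (sub_ne_zero.mp (h4 _ (Multiset.mem_map_of_mem _ hc1))) with
        ⟨-, h6, -⟩ | ⟨h6, -⟩
      · exact absurd hc2.symm h6
      · exact h6
  rw [Multiset.sum_map_mul_left, Multiset.map_id', Multiset.card_map, Multiset.card_map,
    Multiset.card_map, Multiset.card_erase_of_mem h3, Multiset.card_erase_of_mem ((hr y).mpr rfl),
    ← hs.natDegree_eq_card_roots, hd, nsmul_eq_mul,
    show ((q.pred.pred : ℕ) : ℤ) = q - 2 by simp only [Nat.pred_eq_sub_one]; omega] at h5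
  have := h.wp.od_q_pos
  refine le_of_mul_le_mul_left (a := (q - 1 : ℤ)) ?_ (by linarith)
  nlinarith

lemma WI.dist (hs : F.derivative.Splits) {N C5 : ℕ}
    (hsp : ∀ n < N, ∀ x, D.eval (Fi F n x) = 0 → (F - C x).Splits)
    (h5 : ∀ y y', D.eval (Fi F (C1 + 2) y) = 0 → D.eval (Fi F (C1 + 2) y') = 0 → y ≠ y' →
      od v (y - y') ≤ C5 * od v q) (j : ℕ) (hj : C1 + 2 + j ≤ N) {y y' : L}
    (hy : D.eval (Fi F (C1 + 2 + j) y) = 0) (hy' : D.eval (Fi F (C1 + 2 + j) y') = 0)
    (hne : y ≠ y') : 4 * od v (y - y') ≤ 3 * od v q ∨ od v (y - y') + j * od v q ≤ C5 * od v q := by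
  induction j generalizing y y' with
  | zero => exact Or.inr (by simpa using h5 y y' hy hy' hne)
  | succ j ih =>
    have hq := h.wp.od_q_pos
    have h3q : (3 : ℤ) ≤ q := by exact_mod_cast h.three
    by_cases e : F.eval y = F.eval y'
    · obtain ⟨h1, h2⟩ := h.deriv_small hs (by omega) hy
      exact Or.inl (h.sibling (h.int hy) (hsp (C1 + 2 + j) (by omega) _ hy) h1 h2 e.symm hne.symm)
    rcases h.wp.dich h.c1 (h.int hy) (h.int hy') hne with ⟨h1, -⟩ | ⟨-, h1⟩
    · have := od_nonneg (v.map_sub_le (h.int hy) (h.int hy'))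
      exact Or.inl (by nlinarith)
    · have h2 := h1 e
      rcases ih (by omega) (y := F.eval y) (y' := F.eval y') hy hy' e with h3 | h3
      · exact Or.inl (by linarith)
      · exact Or.inr (by push_cast; linarith)

end Pool.Agent.Lib.MP_41de88_nt
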