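import Pool.Agent.Lib.MP_41de88_nt.Stable
import Pool.Agent.Lib.MP_41de88_nt.WildInsep

set_option autoImplicit false

open Polynomial NumberField IsDedekindDomain WithZero

namespace Pool.Agent.Lib.MP_41de88_nt

open helper22.Val

variable {f g : ℚ[X]} {q : ℕ} {b : ℚ}

/-- the polynomial `g (u x + b)` -/
noncomputable def aff (g : ℚ[X]) (b : ℚ) {L : Type*} [Field L] [Algebra ℚ L] (u : L) : L[X] :=
  (g.map (algebraMap ℚ L)).comp (C u * X + C (b : L))

section
variable {L : Type*} [Field L] [Algebra ℚ L] {u : L}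

lemma eval_aff (x : L) : (aff g b u).eval x = aeval (u * x + b) g := by
  simp [aff, eval_map_algebraMap]

lemma natDegree_aff (hu : u ≠ 0) : (aff g b u).natDegree = g.natDegree := by
  rw [aff, natDegree_comp, natDegree_map, natDegree_linear hu, mul_one]

lemma aff_ne_zero (hu : u ≠ 0) (hg : g ≠ 0) : aff g b u ≠ 0 := by
  rw [aff, ← leadingCoeff_ne_zero, leadingCoeff_comp (by rw [natDegree_linear hu]; simp),
    leadingCoeff_linear hu]
  exact mul_ne_zero (leadingCoeff_ne_zero.mpr (Polynomial.map_ne_zero hg)) (pow_ne_zero _ hu)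

lemma smul_coeff_aff {σ : L ≃ₐ[ℚ] L} (hσ : σ • u = u) (i : ℕ) :
    σ • (aff g b u).coeff i = (aff g b u).coeff i := by
  have : (aff g b u).map (σ : L →+* L) = aff g b u := by
    rw [aff, Polynomial.map_comp, Polynomial.map_map,
      Subsingleton.elim ((σ : L →+* L).comp _) (algebraMap ℚ L)]
    simp [show σ u = u from hσ]
  conv_rhs => rw [← this, coeff_map]
  rfl

lemma eval_aff_Fi (hu : u ≠ 0) (n : ℕ) (x : L) :
    (aff g b u).eval (Fi (cj f b u) n x) = aeval (u * x + b) (itP f g n) := by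
  rw [eval_aff, iterate_cj hu, aeval_itP]

lemma mem_rts_aff (hd : f.natDegree ≠ 0) (hg : g ≠ 0) (hu : u ≠ 0) (n : ℕ) (x : L) :
    u * x + b ∈ rts (itP f g n) L ↔ (aff g b u).eval (Fi (cj f b u) n x) = 0 := by
  rw [eval_aff_Fi hu, mem_rts (itP_ne_zero hd hg n)]

lemma splits_derivative_cj (hu : u ≠ 0) (hs : (f.derivative.map (algebraMap ℚ L)).Splits) :
    (cj f b u).derivative.Splits :=
  derivative_cj (f := f) (b := b) hu ▸ hs.comp_of_natDegree_le_one natDegree_linear_le

lemma splits_cj_sub (hd : f.natDegree ≠ 0) (hg : g ≠ 0) (hu : u ≠ 0) {n : ℕ}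
    (hs : ((itP f g (n + 1)).map (algebraMap ℚ L)).Splits) {x : L}
    (hx : (aff g b u).eval (Fi (cj f b u) n x) = 0) : (cj f b u - C x).Splits := by
  rw [eval_aff_Fi hu] at hx
  have := ((splits_sub_C hd (itP_ne_zero hd hg n) (itP_succ n ▸ hs) hx).comp_of_natDegree_le_one
    (natDegree_linear_le (a := u) (b := b))).C_mul u⁻¹
  convert this using 1
  have := algebraRat.charZero L
  refine Polynomial.funext fun z => mul_left_cancel₀ hu ?_
  simp only [eval_sub, eval_mul, eval_C, eval_comp, eval_add, eval_X, ← ev_eq, ← eval_cj hu]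
  field_simp
  ring

lemma sub_Fi_cj (hu : u ≠ 0) (n : ℕ) (x : L) :
    Fi (cj f b u) n x - x = ((ev f L)^[n] (u * x + b) - (u * x + b)) / u := by
  rw [← iterate_cj hu]
  field_simp
  ring

end

section
variable {L : Type*} [Field L] [NumberField L] {u : L}

lemma index_le_natDegree (hu : u ≠ 0) (w : HeightOneSpectrum (𝓞 L)) {p : ℚ[X]} (hp : p ≠ 0)
    {x : L} (hx : aeval (u * x + b) p = 0) :
    (MulAction.stabilizer (inJ w u) x).index ≤ p.natDegree := by
  rw [MulAction.index_stabilizer,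
    ← Set.ncard_image_of_injective _ fun _ _ e => affine_inj (b := b) hu e]
  refine (Set.ncard_le_ncard ?_ (rts p L).finite_toSet).trans
    ((Set.ncard_coe_finset _).trans_le (card_rts_le _))
  rintro _ ⟨_, ⟨σ, rfl⟩, rfl⟩
  have := smul_mem_rts hp (σ : L ≃ₐ[ℚ] L) ((mem_rts hp).mpr hx)
  rwa [smul_affine σ.2.2] at this

lemma exists_od_eq_one (w : HeightOneSpectrum (𝓞 L)) : ∃ π, od (w.valuation L) π = 1 := by
  obtain ⟨π, h⟩ := w.valuation_exists_uniformizer L
  exact ⟨π, by simp [od, h]⟩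

lemma exists_close (w : HeightOneSpectrum (𝓞 L)) (a : ℕ → L) (ha : ∀ n, w.valuation L (a n) ≤ 1) :
    ∃ i j, i < j ∧ w.valuation L (a j - a i) < 1 := by
  choose r hr using fun n => w.exists_valuation_sub_lt_of_integer (ha n) 1
  have := w.isMaximal
  obtain ⟨i, j, hij, e⟩ := Finite.exists_ne_map_eq_of_infinite
    fun n => Ideal.Quotient.mk w.asIdeal (r n)
  wlog h : i < j generalizing i j
  · exact this j i hij.symm e.symm (by omega)
  refine ⟨i, j, h, ?_⟩
  rw [Ideal.Quotient.eq, ← w.valuation_lt_one_iff_mem (K := L), Algebra.cast, map_sub] at e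
  rw [show a j - a i = (algebraMap _ L (r i) - a i) - (algebraMap _ L (r j) - a j)
    - (algebraMap _ L (r i) - algebraMap _ L (r j)) by ring]
  exact Valuation.map_sub_lt _ (Valuation.map_sub_lt _ (hr i) (hr j)) e

end

lemma exists_model (P : ℚ[X]) : ∃ (M : Type) (_ : Field M) (_ : NumberField M),
    (P.map (algebraMap ℚ M)).Splits ∧ ∀ (L : Type) [Field L] [NumberField L],
      (P.map (algebraMap ℚ L)).Splits → Nonempty (M →+* L) :=
  ⟨P.SplittingField, inferInstance, NumberField.of_module_finite ℚ _, SplittingField.splits P,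
    fun _ _ _ h => ⟨(SplittingField.lift P h).toRingHom⟩⟩

lemma splits_three {L : Type*} [Field L] [Algebra ℚ L] (hd : 2 ≤ f.natDegree) (hg : g ≠ 0)
    (hs : ((f.derivative * (scal f * g)).map (algebraMap ℚ L)).Splits) :
    (f.derivative.map (algebraMap ℚ L)).Splits ∧ ((scal f).map (algebraMap ℚ L)).Splits ∧
      (g.map (algebraMap ℚ L)).Splits := by
  have hs0 := scal_ne_zero hd
  rwa [Polynomial.map_mul, splits_mul (Polynomial.map_ne_zero (derivative_ne_zero' (by omega)))
    (Polynomial.map_ne_zero (mul_ne_zero hs0 hg)), Polynomial.map_mul,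
    splits_mul (Polynomial.map_ne_zero hs0) (Polynomial.map_ne_zero hg)] at hs

lemma mem_of_above {M L : Type*} [Field M] [NumberField M] [Field L] [NumberField L]
    {φ : M →+* L} {w0 : HeightOneSpectrum (𝓞 M)} {w : HeightOneSpectrum (𝓞 L)} {e : ℕ} (he : 0 < e)
    (hw : ∀ x, w.valuation L (φ x) = w0.valuation M x ^ e) (h : (q : 𝓞 M) ∈ w0.asIdeal) :
    (q : 𝓞 L) ∈ w.asIdeal := by
  rw [← val_natCast_lt_iff] at h ⊢
  rw [← map_natCast φ, hw]
  exact pow_lt_one₀ zero_le h he.ne'

lemma exists_od_sub (hd : 2 ≤ f.natDegree) (hq : q.Prime) {P : ℚ[X]} (hP : P ≠ 0) : ∃ C : ℕ,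
    ∀ (L : Type) [Field L] [NumberField L], ((scal f).map (algebraMap ℚ L)).Splits →
      (P.map (algebraMap ℚ L)).Splits → ∀ u : L, aeval u (scal f) = 0 →
        ∀ w : HeightOneSpectrum (𝓞 L), (q : 𝓞 L) ∈ w.asIdeal → ∀ x y : L,
          aeval (u * x + b) P = 0 → aeval (u * y + b) P = 0 →
            od (w.valuation L) (x - y) ≤ C * od (w.valuation L) q := by
  have hs0 := scal_ne_zero hd
  let M := (scal f * P).SplittingField
  have : NumberField M := NumberField.of_module_finite ℚ M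
  have hM := SplittingField.splits (scal f * P)
  rw [Polynomial.map_mul, splits_mul (Polynomial.map_ne_zero hs0) (Polynomial.map_ne_zero hP)] at hM
  obtain ⟨C, hC⟩ := exists_od_le (M := M) hq ((((rts P M).finite_toSet.prod
    (rts P M).finite_toSet).prod (rts (scal f) M).finite_toSet).image
      fun z => (z.1.1 - z.1.2) / z.2)
  refine ⟨C, fun L _ _ h1 h2 u hu w hw x y hx hy => ?_⟩
  let φ : M →+* L := (SplittingField.lift (scal f * P) (Polynomial.map_mul (algebraMap ℚ L) ▸
    h1.mul h2)).toRingHom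
  obtain ⟨x', h3, h4⟩ := exists_preimage_root φ hP hM.2 hx
  obtain ⟨y', h5, h6⟩ := exists_preimage_root φ hP hM.2 hy
  obtain ⟨u', h7, h8⟩ := exists_preimage_root φ hs0 hM.1 hu
  have := hC L φ w hw _ ⟨((x', y'), u'), ⟨⟨(mem_rts hP).mpr h3, (mem_rts hP).mpr h5⟩,
    (mem_rts hs0).mpr h7⟩, rfl⟩
  rwa [map_div₀, map_sub, h4, h6, h8, add_sub_add_right_eq_sub, ← mul_sub,
    mul_div_cancel_left₀ _ (ne_zero_of_scal hd hu)] at this

end Pool.Agent.Lib.MP_41de88_nt
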