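import Pool.Agent.Lib.MP_41de88_nt.LocalBase

set_option autoImplicit false

open Polynomial WithZero

namespace Pool.Agent.Lib.MP_41de88_nt

open helper22.Val

/-- a monic polynomial of prime degree `q` congruent to `X^q + b X + c` modulo `q` -/
structure WP {L Γ : Type*} [Field L] [LinearOrderedCommGroupWithZero Γ] (v : Valuation L Γ)
    (q : ℕ) (F : L[X]) : Prop where
  prime : q.Prime
  lt : v q < 1
  ne : v q ≠ 0
  deg : F.natDegree = q
  monic : F.Monic
  c0 : v (F.coeff 0) ≤ 1
  c1 : v (F.coeff 1) ≤ 1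
  ci : ∀ i, 2 ≤ i → i < q → v (F.coeff i) ≤ v q

section
variable {L Γ : Type*} [Field L] [LinearOrderedCommGroupWithZero Γ] {v : Valuation L Γ}
  {q : ℕ} {F : L[X]}

lemma WP.cq (h : WP v q F) : F.coeff q = 1 := by rw [← h.deg]; exact h.monic

lemma WP.int (h : WP v q F) : IntP v F := by
  intro i
  rcases lt_trichotomy i q with hi | rfl | hi
  · rcases i with _ | _ | i
    · exact h.c0
    · exact h.c1
    · exact (h.ci _ (by omega) hi).trans h.lt.le
  · rw [h.cq, map_one]
  · rw [coeff_eq_zero_of_natDegree_lt (h.deg ▸ hi), map_zero]; exact zero_le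

lemma WP.eval_eq (h : WP v q F) (x : L) : F.eval x
    = x ^ q + F.coeff 1 * x + F.coeff 0 + ∑ i ∈ Finset.Ico 2 q, F.coeff i * x ^ i := by
  rw [eval_eq_sum_range, h.deg, Finset.sum_range_succ, h.cq, Finset.range_eq_Ico,
    Finset.sum_eq_sum_Ico_succ_bot h.prime.pos, Finset.sum_eq_sum_Ico_succ_bot h.prime.one_lt]
  ring

lemma WP.deriv_eq (h : WP v q F) (x : L) : F.derivative.eval x
    = q * x ^ (q - 1) + F.coeff 1 + ∑ i ∈ Finset.Ico 2 q, F.coeff i * i * x ^ (i - 1) := by
  rw [derivative_eval, sum_over_range _ (by simp), h.deg, Finset.sum_range_succ, h.cq,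
    Finset.range_eq_Ico, Finset.sum_eq_sum_Ico_succ_bot h.prime.pos,
    Finset.sum_eq_sum_Ico_succ_bot h.prime.one_lt]
  simp only [Nat.cast_zero, mul_zero, zero_mul, zero_add, Nat.cast_one, mul_one, Nat.sub_self,
    pow_zero, one_mul]
  ring

lemma WP.sub_le (h : WP v q F) {x y : L} {t : Γ} (ht : 1 ≤ t) (hx : v x ≤ t) (hy : v y ≤ t) :
    v (F.eval x - F.eval y - ((x - y) ^ q + F.coeff 1 * (x - y)))
      ≤ v q * t ^ (q - 1) * v (x - y) := by
  have : F.eval x - F.eval y - ((x - y) ^ q + F.coeff 1 * (x - y)) = (x ^ q - y ^ q - (x - y) ^ q)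
      + ∑ i ∈ Finset.Ico 2 q, F.coeff i * (x ^ i - y ^ i) := by
    rw [h.eval_eq, h.eval_eq]
    simp only [mul_sub, Finset.sum_sub_distrib]
    ring
  rw [this]
  refine v.map_add_le (val_frob_sub_le h.prime hx hy) (v.map_sum_le fun i hi => ?_)
  rw [Finset.mem_Ico] at hi
  rw [map_mul, mul_assoc]
  exact mul_le_mul' (h.ci i hi.1 hi.2) (val_pow_sub_le ht hx hy (by omega))

lemma WP.val_eval_gt (h : WP v q F) {x : L} (hx : 1 < v (F.eval x)) :
    1 < v x ∧ v (F.eval x) = v x ^ q := by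
  have h1 : 1 < v x := not_le.mp fun h1 => not_le.mpr hx (h.int.eval h1)
  exact ⟨h1, by rw [h.int.val_eval_of_gt (by rw [h.monic, map_one]) h1, h.deg]⟩

lemma WP.crit (h : WP v q F) (h1 : v (F.coeff 1) = 1) {z : L} (hz : F.derivative.eval z = 0) :
    1 < v z ∧ v q * v z ^ (q - 1) = 1 := by
  rw [h.deriv_eq] at hz
  have h2 : 1 < v z := by
    by_contra h2
    rw [not_lt] at h2
    have : v (F.coeff 1) < 1 := by
      rw [show F.coeff 1 = -(q * z ^ (q - 1))
        - ∑ i ∈ Finset.Ico 2 q, F.coeff i * i * z ^ (i - 1) by linear_combination hz]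
      refine v.map_sub_lt ?_ (v.map_sum_lt one_ne_zero fun i hi => ?_)
      · rw [Valuation.map_neg, map_mul, map_pow]
        exact mul_lt_one_of_nonneg_of_lt_one_left zero_le h.lt (pow_le_one' h2 _)
      · rw [Finset.mem_Ico] at hi
        rw [map_mul, map_mul, map_pow, mul_assoc]
        exact mul_lt_one_of_nonneg_of_lt_one_left zero_le ((h.ci i hi.1 hi.2).trans_lt h.lt)
          (mul_le_one' (val_nat_le _) (pow_le_one' h2 _))
    exact this.ne h1
  refine ⟨h2, ?_⟩
  have h3 : v (q * z ^ (q - 1) + ∑ i ∈ Finset.Ico 2 q, F.coeff i * i * z ^ (i - 1))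
      = v (q * z ^ (q - 1)) := by
    refine v.map_add_eq_of_lt_left (v.map_sum_lt ?_ fun i hi => ?_)
    · rw [map_mul, map_pow]
      exact mul_ne_zero h.ne (pow_ne_zero _ (zero_lt_one.trans h2).ne')
    · rw [Finset.mem_Ico] at hi
      rw [map_mul, map_mul, map_mul, map_pow, map_pow]
      exact mul_lt_mul_of_le_of_lt_of_nonneg_of_pos
        ((mul_le_of_le_one_right' (val_nat_le _)).trans (h.ci i hi.1 hi.2))
        (pow_lt_pow_right₀ h2 (by omega)) zero_le (zero_lt_iff.mpr h.ne)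
  rw [show q * z ^ (q - 1) + ∑ i ∈ Finset.Ico 2 q, F.coeff i * i * z ^ (i - 1) = -F.coeff 1 by
    linear_combination hz, Valuation.map_neg, h1, map_mul, map_pow] at h3
  exact h3.symm

lemma WP.crit_eq (h : WP v q F) (h1 : v (F.coeff 1) = 1) {z z' : L}
    (hz : F.derivative.eval z = 0) (hz' : F.derivative.eval z' = 0) : v z' = v z := by
  have e1 := (h.crit h1 hz).2
  have e2 := (h.crit h1 hz').2
  have := h.prime.two_le
  exact (pow_left_inj₀ zero_le zero_le (n := q - 1) (by omega)).mp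
    (mul_left_cancel₀ h.ne (e2.trans e1.symm))

/-- the ratio of two critical points is almost a root of unity of order `q - 1` -/
lemma WP.crit_ratio (h : WP v q F) (h1 : v (F.coeff 1) = 1) {z r : L}
    (hz : F.derivative.eval z = 0) (hz' : F.derivative.eval (r * z) = 0) :
    v r = 1 ∧ v z * v (r ^ (q - 1) - 1) ≤ v (r - 1) := by
  obtain ⟨h2, h3⟩ := h.crit h1 hz
  have h0 : v z ≠ 0 := (zero_lt_one.trans h2).ne'
  have hr : v r = 1 := by
    have := h.crit_eq h1 hz hz'
    rwa [map_mul, mul_eq_right₀ h0] at this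
  refine ⟨hr, ?_⟩
  rw [h.deriv_eq] at hz hz'
  have h4 : q * z ^ (q - 1) * (r ^ (q - 1) - 1)
      = -∑ i ∈ Finset.Ico 2 q, F.coeff i * i * z ^ (i - 1) * (r ^ (i - 1) - 1 ^ (i - 1)) := by
    simp only [mul_sub, Finset.sum_sub_distrib, one_pow, mul_one, mul_pow] at hz' ⊢
    have : ∑ i ∈ Finset.Ico 2 q, F.coeff i * i * z ^ (i - 1) * r ^ (i - 1)
        = ∑ i ∈ Finset.Ico 2 q, F.coeff i * i * (r ^ (i - 1) * z ^ (i - 1)) :=
      Finset.sum_congr rfl fun i _ => by ring
    linear_combination hz' - hz + this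
  have h5 : v (r ^ (q - 1) - 1) ≤ v q * v z ^ (q - 2) * v (r - 1) := by
    have := congrArg v h4
    rw [map_mul, map_mul, map_pow, h3, one_mul, Valuation.map_neg] at this
    rw [this]
    refine v.map_sum_le fun i hi => ?_
    rw [Finset.mem_Ico] at hi
    rw [map_mul, map_mul, map_mul, map_pow]
    refine mul_le_mul' (mul_le_mul' ((mul_le_of_le_one_right' (val_nat_le _)).trans
      (h.ci i hi.1 hi.2)) (pow_le_pow_right₀ h2.le (by omega))) ?_
    simpa using val_pow_sub_le (v := v) (x := r) (y := 1) le_rfl hr.le (by simp)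
      (Nat.le_succ (i - 1))
  refine (mul_le_mul_right h5 _).trans (le_of_eq ?_)
  rw [show q - 1 = q - 2 + 1 by have := h.prime.two_le; omega, pow_succ] at h3
  rw [← mul_assoc, mul_comm (v z), mul_assoc (v q), h3, one_mul]

lemma val_pow_sub_one_eq {r : L} {m : ℕ} (hm : v m = 1) (hr : v (r - 1) < 1) :
    v (r ^ m - 1) = v (r - 1) := by
  rw [← geom_sum_mul, map_mul, val_eq_one_of_sub_lt hm, one_mul]
  rw [show (∑ i ∈ Finset.range m, r ^ i) - m = ∑ i ∈ Finset.range m, (r ^ i - 1 ^ i) by simp]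
  refine v.map_sum_lt one_ne_zero fun i _ => lt_of_le_of_lt ?_ hr
  simpa using val_pow_sub_le (v := v) (x := r) (y := 1) le_rfl
    (val_le_of_sub_lt v.map_one.le hr) (by simp) (Nat.le_succ i)

lemma WP.crit_ratio_ne (h : WP v q F) (h1 : v (F.coeff 1) = 1) {z r : L}
    (hz : F.derivative.eval z = 0) (hz' : F.derivative.eval (r * z) = 0) (hr : r ≠ 1) :
    v (r - 1) = 1 := by
  obtain ⟨h2, h3⟩ := h.crit_ratio h1 hz hz'
  refine le_antisymm (v.map_sub_le h2.le v.map_one.le) (not_lt.mp fun hlt => ?_)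
  have := h.prime.two_le
  rw [val_pow_sub_one_eq (val_nat_eq_one' h.prime h.lt
    (Nat.not_dvd_of_pos_of_lt (by omega) (by omega))) hlt] at h3
  exact not_lt.mpr h3 (lt_mul_of_one_lt_left (zero_lt_iff.mpr
    ((Valuation.ne_zero_iff _).mpr (sub_ne_zero.mpr hr))) (h.crit h1 hz).1)

lemma WP.exists_ratio (h : WP v q F) (h1 : v (F.coeff 1) = 1) {z : L}
    (hz : F.derivative.eval z = 0) (z' : L) : ∃ r, z' = r * z :=
  ⟨z' / z, (div_mul_cancel₀ _ fun h0 => by
    have := (h.crit h1 hz).1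
    rw [h0, map_zero] at this
    exact not_lt.mpr zero_le this).symm⟩

lemma WP.crit_value_inj (h : WP v q F) (h1 : v (F.coeff 1) = 1) {z z' : L}
    (hz : F.derivative.eval z = 0) (hz' : F.derivative.eval z' = 0)
    (e : F.eval z' = F.eval z) : z' = z := by
  obtain ⟨r, rfl⟩ := h.exists_ratio h1 hz z'
  by_contra hne
  have h2 := h.crit_ratio_ne h1 hz hz' (fun h => hne (by rw [h, one_mul]))
  obtain ⟨h3, h4⟩ := h.crit h1 hz
  have h5 : v (r * z - z) = v z := by rw [← sub_one_mul, map_mul, h2, one_mul]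
  have h6 := h.sub_le h3.le (h.crit_eq h1 hz hz').le le_rfl
  rw [e, sub_self, zero_sub, Valuation.map_neg, h4, one_mul, v.map_add_eq_of_lt_left, map_pow,
    h5] at h6
  · exact not_lt.mpr h6 (lt_self_pow₀ h3 h.prime.one_lt)
  · rw [map_mul, h1, one_mul, map_pow, h5]
    exact lt_self_pow₀ h3 h.prime.one_lt

lemma WP.crit_simple (h : WP v q F) (h1 : v (F.coeff 1) = 1) {z : L}
    (hz : F.derivative.eval z = 0) : F.derivative.derivative.eval z ≠ 0 := by
  obtain ⟨h3, h4⟩ := h.crit h1 hz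
  have h2 := h.prime.two_le
  have hd : F.derivative.natDegree = q - 1 := by
    refine le_antisymm (h.deg ▸ natDegree_derivative_le F) (le_natDegree_of_ne_zero ?_)
    rw [coeff_derivative, show q - 1 + 1 = q by omega, h.cq, one_mul, ← Nat.cast_succ,
      show (q - 1).succ = q by omega]
    exact (Valuation.ne_zero_iff v).mp h.ne
  intro h0
  have h5 : v (z * F.derivative.derivative.eval z) = 1 := by
    rw [derivative_eval, sum_over_range _ (by simp), hd, Finset.sum_range_succ, mul_add,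
      Finset.mul_sum]
    have e : v (z * (F.derivative.coeff (q - 1) * (q - 1 : ℕ) * z ^ (q - 1 - 1))) = 1 := by
      rw [coeff_derivative, show q - 1 + 1 = q by omega, h.cq, one_mul, ← Nat.cast_succ,
        show (q - 1).succ = q by omega, mul_left_comm, mul_pow_sub_one (by omega), map_mul,
        map_mul, val_nat_eq_one' h.prime h.lt (n := q - 1)
          (Nat.not_dvd_of_pos_of_lt (by omega) (by omega)), mul_one, map_pow, h4]
    rw [v.map_add_eq_of_lt_right, e]
    rw [e]
    refine v.map_sum_lt one_ne_zero fun i hi => ?_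
    rw [Finset.mem_range] at hi
    rcases Nat.eq_zero_or_pos i with rfl | hi0
    · simp
    rw [coeff_derivative, mul_left_comm, mul_pow_sub_one hi0.ne', map_mul, map_mul, map_mul,
      map_pow, ← h4, ← Nat.cast_succ]
    exact mul_lt_mul_of_le_of_lt_of_nonneg_of_pos
      ((mul_le_of_le_one_right' (val_nat_le _)).trans
        ((mul_le_of_le_one_right' (val_nat_le _)).trans (h.ci _ (by omega) (by omega))))
      (pow_lt_pow_right₀ h3 hi) zero_le (zero_lt_iff.mpr h.ne)
  rw [h0, mul_zero, map_zero] at h5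
  exact zero_ne_one h5

lemma WP.iterate_gt (h : WP v q F) {z : L} (hz : 1 < v z) (n : ℕ) :
    v ((fun x => F.eval x)^[n] z) = v z ^ q ^ n := by
  induction n with
  | zero => simp
  | succ n ih =>
    rw [Function.iterate_succ_apply', h.int.val_eval_of_gt (by rw [h.monic, map_one]), ih, h.deg,
      ← pow_mul, pow_succ]
    rw [ih]
    exact one_lt_pow₀ hz (pow_ne_zero _ h.prime.ne_zero)

lemma WP.tree_val (h : WP v q F) (h1 : v (F.coeff 1) = 1) {n : ℕ} {z : L}
    (hz : F.derivative.eval ((fun x => F.eval x)^[n] z) = 0) :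
    1 < v z ∧ v q * v z ^ ((q - 1) * q ^ n) = 1 := by
  induction n generalizing z with
  | zero => simpa using h.crit h1 hz
  | succ n ih =>
    obtain ⟨h2, h3⟩ := ih hz
    obtain ⟨h4, h5⟩ := h.val_eval_gt h2
    refine ⟨h4, ?_⟩
    rw [h5, ← pow_mul] at h3
    rw [← h3]; congr 2; ring

lemma WP.tree_eq (h : WP v q F) (h1 : v (F.coeff 1) = 1) {n : ℕ} {z z' : L}
    (hz : F.derivative.eval ((fun x => F.eval x)^[n] z) = 0)
    (hz' : F.derivative.eval ((fun x => F.eval x)^[n] z') = 0) : v z' = v z := by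
  have := h.prime.two_le
  exact (pow_left_inj₀ zero_le zero_le (n := (q - 1) * q ^ n)
    (mul_ne_zero (by omega) (by positivity))).mp
    (mul_left_cancel₀ h.ne ((h.tree_val h1 hz').2.trans (h.tree_val h1 hz).2.symm))

lemma WP.tree_small (h : WP v q F) (h1 : v (F.coeff 1) = 1) {n : ℕ} {z : L}
    (hz : F.derivative.eval ((fun x => F.eval x)^[n + 1] z) = 0) :
    v q * v z ^ (q - 1) < 1 ∧ v q * v z ^ q ≤ 1 := by
  obtain ⟨h2, h3⟩ := h.tree_val h1 hz
  have h4 := h.prime.two_le
  have h5 : v q * v z ^ q ≤ 1 := by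
    rw [← h3]
    refine mul_le_mul_right (pow_le_pow_right₀ h2.le ?_) _
    exact (Nat.le_self_pow (by omega) q).trans (Nat.le_mul_of_pos_left _ (by omega))
  exact ⟨(mul_lt_mul_of_pos_left (pow_lt_pow_right₀ h2 (by omega))
    (zero_lt_iff.mpr h.ne)).trans_le h5, h5⟩

lemma WP.tree_sep (h : WP v q F) (h1 : v (F.coeff 1) = 1) {n : ℕ} {z z' : L}
    (hz : F.derivative.eval ((fun x => F.eval x)^[n] z) = 0)
    (hz' : F.derivative.eval ((fun x => F.eval x)^[n] z') = 0) (hlt : v (z' - z) < 1) : z' = z := by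
  induction n generalizing z z' with
  | zero =>
    rw [Function.iterate_zero_apply] at hz hz'
    obtain ⟨r, rfl⟩ := h.exists_ratio h1 hz z'
    by_contra hne
    rw [← sub_one_mul, map_mul, h.crit_ratio_ne h1 hz hz' (fun h => hne (by rw [h, one_mul])),
      one_mul] at hlt
    exact lt_asymm hlt (h.crit h1 hz).1
  | succ n ih =>
    by_contra hne
    have h0 : 0 < v (z' - z) := zero_lt_iff.mpr ((Valuation.ne_zero_iff _).mpr (sub_ne_zero.mpr hne))
    have h2 := (h.sub_le (h.tree_val h1 hz).1.le (h.tree_eq h1 hz hz').le le_rfl).trans_lt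
      (mul_lt_of_lt_one_left h0 (h.tree_small h1 hz).1)
    have h3 : v ((z' - z) ^ q + F.coeff 1 * (z' - z)) = v (z' - z) := by
      rw [v.map_add_eq_of_lt_right] <;> rw [map_mul, h1, one_mul]
      rw [map_pow]
      exact pow_lt_self_of_lt_one₀ h0 hlt h.prime.one_lt
    have h4 := (v.map_eq_of_sub_lt (h3 ▸ h2)).trans h3
    rw [show F.eval z' = F.eval z from ih hz hz' (h4 ▸ hlt), sub_self, map_zero] at h4
    exact h0.ne h4

lemma WP.tree_lin (h : WP v q F) (h1 : v (F.coeff 1) = 1) {n : ℕ} {z z' : L}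
    (hz : F.derivative.eval ((fun x => F.eval x)^[n] z) = 0)
    (hz' : F.derivative.eval ((fun x => F.eval x)^[n] z') = 0) : ∃ j : ℕ, v (z' - j * z) ≤ 1 := by
  have hq2 := h.prime.two_le
  induction n generalizing z z' with
  | zero =>
    rw [Function.iterate_zero_apply] at hz hz'
    obtain ⟨r, rfl⟩ := h.exists_ratio h1 hz z'
    obtain ⟨h2, h3⟩ := h.crit_ratio h1 hz hz'
    obtain ⟨h4, h5⟩ := h.crit h1 hz
    have h6 : v z * v (r ^ q - r) ≤ 1 := by
      rw [show r ^ q - r = r * (r ^ (q - 1) - 1) by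
        rw [mul_sub, mul_pow_sub_one h.prime.ne_zero, mul_one], map_mul, h2, one_mul]
      exact h3.trans (v.map_sub_le h2.le v.map_one.le)
    obtain ⟨j, hj⟩ := exists_nat_close h.prime h.lt h2.le (not_le.mp fun hle =>
      not_lt.mpr h6 (h4.trans_le (le_mul_of_one_le_right' hle)))
    refine ⟨j, ?_⟩
    rw [← sub_mul, map_mul]
    refine (mul_le_mul_left hj _).trans ?_
    rcases le_total (v (r ^ q - r)) (v q) with e | e
    · rw [max_eq_right e, ← h5]
      exact mul_le_mul_right (le_self_pow₀ h4.le (by omega)) _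
    · rwa [max_eq_left e, mul_comm]
  | succ n ih =>
    obtain ⟨j, hj⟩ := ih hz hz'
    refine ⟨j, not_lt.mp fun hgt => ?_⟩
    have ht := (h.tree_val h1 hz).1
    obtain ⟨h6, h7⟩ := h.tree_small h1 hz
    have hjz : v (j * z) ≤ v z := by rw [map_mul]; exact mul_le_of_le_one_left' (val_nat_le _)
    have h2 := (h.sub_le ht.le (h.tree_eq h1 hz hz').le hjz).trans_lt
      (mul_lt_of_lt_one_left (zero_lt_one.trans hgt) h6)
    have h8 := lt_self_pow₀ hgt h.prime.one_lt
    have h3 : v ((z' - j * z) ^ q + F.coeff 1 * (z' - j * z)) = v (z' - j * z) ^ q := by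
      rw [v.map_add_eq_of_lt_left, map_pow]
      rwa [map_mul, h1, one_mul, map_pow]
    have h4 := (v.map_eq_of_sub_lt (h3 ▸ h2.trans h8)).trans h3
    have h5 : v (F.eval (j * z) - j * F.eval z) ≤ 1 := by
      have : F.eval (j * z) - j * F.eval z = ((j : L) ^ q - j) * z ^ q + F.coeff 0 * (1 - j)
          + ∑ i ∈ Finset.Ico 2 q, F.coeff i * (((j : L) ^ i - j) * z ^ i) := by
        rw [h.eval_eq, h.eval_eq]
        simp only [mul_pow, mul_add, Finset.mul_sum, sub_mul, mul_sub, Finset.sum_sub_distrib]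
        have : ∑ i ∈ Finset.Ico 2 q, j * (F.coeff i * z ^ i)
            = ∑ i ∈ Finset.Ico 2 q, F.coeff i * (j * z ^ i) :=
          Finset.sum_congr rfl fun i _ => by ring
        rw [this]; ring
      rw [this]
      refine v.map_add_le (v.map_add_le ?_ ?_) (v.map_sum_le fun i hi => ?_)
      · rw [map_mul, map_pow]
        refine (mul_le_mul_left ?_ _).trans h7
        have := val_int_le_of_dvd (v := v) (Int.prime_dvd_pow_self_sub h.prime j)
        exact_mod_cast this
      · rw [map_mul]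
        exact mul_le_one' h.c0 (v.map_sub_le v.map_one.le (val_nat_le _))
      · rw [Finset.mem_Ico] at hi
        rw [map_mul, map_mul, map_pow]
        refine (mul_le_mul' (h.ci i hi.1 hi.2) ((mul_le_of_le_one_left' ?_).trans
          (pow_le_pow_right₀ ht.le hi.2.le))).trans h7
        refine v.map_sub_le ?_ (val_nat_le _)
        rw [map_pow]; exact pow_le_one' (val_nat_le _) _
    have h9 := v.map_sub_le hj h5
    rw [sub_sub_sub_cancel_right, h4] at h9
    exact not_lt.mpr h9 (hgt.trans h8)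

end

variable {L : Type*} [Field L] {v : Valuation L ℤᵐ⁰} {J : Type*} [Group J] [Finite J]
  [MulSemiringAction J L] {q : ℕ} {F : L[X]}

omit [Finite J] in
lemma eval_smul_of_coeff (hF : ∀ (σ : J) i, σ • F.coeff i = F.coeff i) (σ : J) (x : L) :
    F.eval (σ • x) = σ • F.eval x := by
  rw [eval_eq_sum_range, eval_eq_sum_range, Finset.smul_sum]
  exact Finset.sum_congr rfl fun i _ => by rw [smul_mul', hF, smul_pow']

omit [Finite J] in
lemma tree_smul {D : L[X]} (hF : ∀ (σ : J) i, σ • F.coeff i = F.coeff i)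
    (hD : ∀ (σ : J) i, σ • D.coeff i = D.coeff i) (σ : J) {n : ℕ} {x : L}
    (hx : D.eval ((fun x => F.eval x)^[n] x) = 0) :
    D.eval ((fun x => F.eval x)^[n] (σ • x)) = 0 := by
  rw [← (Function.Semiconj.iterate_right (f := fun x => σ • x)
    (fun x => (eval_smul_of_coeff hF σ x).symm) n) x, eval_smul_of_coeff hD, hx, smul_zero]

omit [Finite J] in
lemma coeff_derivative_smul (hF : ∀ (σ : J) i, σ • F.coeff i = F.coeff i) (σ : J) (i : ℕ) :
    σ • F.derivative.coeff i = F.derivative.coeff i := by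
  rw [coeff_derivative, smul_mul', hF, ← Nat.cast_succ]
  congr 1
  exact map_natCast (MulSemiringAction.toRingHom J L σ) _

theorem wildSep_mart (hI : Inert v J) (h : WP v q F) (h1 : v (F.coeff 1) = 1)
    (hF : ∀ (σ : J) i, σ • F.coeff i = F.coeff i) {k : ℕ} (hk : ¬ q ∣ k)
    (hq : log (v q) = -(k * Nat.card J)) {n : ℕ} {y : L}
    (hy : F.derivative.eval ((fun x => F.eval x)^[n + 1] y) = 0) {y' : L}
    (hy' : F.eval y' = F.eval y) : ∃ σ : J, (∀ x, F.derivative.eval
      ((fun x => F.eval x)^[n] x) = 0 → σ • x = x) ∧ σ • y = y' := by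
  have hq2 := h.prime.two_le
  have hD := coeff_derivative_smul hF
  have hβ : F.derivative.eval ((fun x => F.eval x)^[n] (F.eval y)) = 0 := hy
  have hD0 : F.derivative ≠ 0 := by
    intro h0
    have := h.crit h1 (z := 0) (by rw [h0, eval_zero])
    simp at this
  obtain ⟨h2, h3⟩ := h.tree_val h1 hy
  have hdvd : q ^ (n + 1) ∣ (MulAction.stabilizer J y).index := by
    obtain ⟨m, hm⟩ := hI.orbit_dvd y
    have h4 := congrArg log h3
    rw [log_mul h.ne (pow_ne_zero _ (zero_lt_one.trans h2).ne'), log_pow, log_one, hq,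
      nsmul_eq_mul] at h4
    have h5 : (Nat.card J : ℤ) ≠ 0 := by exact_mod_cast Nat.card_pos.ne'
    have h6 : ((MulAction.stabilizer J y).index * k : ℤ) = (q ^ (n + 1) : ℕ) * ((q - 1 : ℕ) * m) := by
      refine mul_left_cancel₀ h5 ?_
      push_cast at h4 ⊢
      linear_combination ((q - 1 : ℕ) * q ^ (n + 1) : ℤ) * hm
        - ((MulAction.stabilizer J y).index : ℤ) * h4
    have h7 : q ^ (n + 1) ∣ (MulAction.stabilizer J y).index * k := by
      exact_mod_cast Dvd.intro _ h6.symm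
    exact (Nat.Coprime.pow_left _ ((Nat.Prime.coprime_iff_not_dvd h.prime).mpr hk)).dvd_of_dvd_mul_right
      h7
  have hfib := fibre_finite (F := F) (by rw [h.deg]; omega) (F.eval y)
  have hsub := orbit_subset_fibre (F := fun x => F.eval x) (eval_smul_of_coeff hF) y
  have hle := (Set.ncard_le_ncard hsub hfib.1).trans (hfib.2.trans h.deg.le)
  have hidx : (MulAction.stabilizer J (F.eval y)).index < q ^ (n + 1) := by
    obtain ⟨e1, e2⟩ := tree_finite (F := F) (by rw [h.deg]; omega) hD0 n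
    rw [MulAction.index_stabilizer]
    refine ((Set.ncard_le_ncard ?_ e1).trans e2).trans_lt ?_
    · rintro _ ⟨σ, rfl⟩
      exact tree_smul hF hD σ hβ
    · rw [h.deg, pow_succ']
      refine Nat.mul_lt_mul_of_pos_right ?_ (by positivity)
      have := natDegree_derivative_le F
      rw [h.deg] at this
      omega
  rw [index_stabilizer_eq (F := fun x => F.eval x) (eval_smul_of_coeff hF)] at hdvd
  have heq : (MulAction.orbit (MulAction.stabilizer J (F.eval y)) y).ncard = q := by
    by_contra hne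
    have h4 : 0 < (MulAction.orbit (MulAction.stabilizer J (F.eval y)) y).ncard :=
      (Set.ncard_pos (hfib.1.subset hsub)).mpr ⟨y, MulAction.mem_orbit_self y⟩
    have h5 := (Nat.Coprime.pow_left (n + 1) ((Nat.Prime.coprime_iff_not_dvd h.prime).mpr
      (Nat.not_dvd_of_pos_of_lt h4 (lt_of_le_of_ne hle hne)))).dvd_of_dvd_mul_left hdvd
    exact not_le.mpr hidx (Nat.le_of_dvd (Nat.pos_of_ne_zero Subgroup.FiniteIndex.index_ne_zero) h5)
  have h4 := Set.eq_of_subset_of_ncard_le hsub (by rw [heq]; exact hfib.2.trans h.deg.le) hfib.1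
  obtain ⟨σ, hσ⟩ : y' ∈ MulAction.orbit (MulAction.stabilizer J (F.eval y)) y := h4 ▸ hy'
  refine ⟨σ, fun x hx => ?_, hσ⟩
  obtain ⟨j, hj⟩ := h.tree_lin h1 hβ hx
  refine h.tree_sep h1 hx (tree_smul hF hD _ hx) ?_
  have := hI.res σ _ hj
  rwa [smul_sub, smul_mul', show (σ : J) • F.eval y = F.eval y from σ.2,
    show (σ : J) • (j : L) = j from map_natCast (MulSemiringAction.toRingHom J L σ) _,
    sub_sub_sub_cancel_right] at this

end Pool.Agent.Lib.MP_41de88_nt
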