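import Pool.Agent.Lib.MP_41de88_nt.Core
import Pool.Agent.Lib.MP_41de88_nt.WildSep

set_option autoImplicit false

open Polynomial NumberField IsDedekindDomain WithZero

namespace Pool.Agent.Lib.MP_41de88_nt

open helper22.Val

variable {f g : ℚ[X]}

section
variable {M L : Type*} [Field M] [Algebra ℚ M] [Field L] [Algebra ℚ L]

lemma wand_map (φ : M →+* L) (c : M) : Wand f (φ c) ↔ Wand f c := by
  rw [Wand, Wand, ← Set.infinite_image_iff φ.injective.injOn, ← Set.range_comp]
  simp only [Function.comp_def, map_ev_iterate]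

lemma critOK_iff (φ : M →+* L) (hf' : f.derivative ≠ 0)
    (hs : (f.derivative.map (algebraMap ℚ M)).Splits) : CritOK f L ↔ CritOK f M := by
  have h0 : ∀ (P : ℚ[X]) (c : M), aeval (φ c) P = 0 ↔ aeval c P = 0 := fun P c => by
    rw [← map_aeval_ringHom, map_eq_zero]
  constructor
  · rintro ⟨⟨c, h1, h2⟩, h3⟩
    obtain ⟨c, h4, rfl⟩ := exists_preimage_root φ hf' hs h1
    refine ⟨⟨c, h4, (wand_map φ c).mp h2⟩, fun c h5 h6 => ?_⟩
    obtain ⟨h7, h8⟩ := h3 _ ((h0 _ _).mpr h5) ((wand_map φ c).mpr h6)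
    exact ⟨fun e => h7 ((h0 _ _).mpr e), fun c' h9 e => φ.injective (h8 _ ((h0 _ _).mpr h9)
      (by rw [← map_aeval_ringHom, ← map_aeval_ringHom, e]))⟩
  · rintro ⟨⟨c, h1, h2⟩, h3⟩
    refine ⟨⟨φ c, (h0 _ _).mpr h1, (wand_map φ c).mpr h2⟩, fun c h5 h6 => ?_⟩
    obtain ⟨c, h4, rfl⟩ := exists_preimage_root φ hf' hs h5
    obtain ⟨h7, h8⟩ := h3 _ h4 ((wand_map φ c).mp h6)
    refine ⟨fun e => h7 ((h0 _ _).mp e), fun c' h9 e => ?_⟩
    obtain ⟨c', h10, rfl⟩ := exists_preimage_root φ hf' hs h9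
    rw [← map_aeval_ringHom, ← map_aeval_ringHom] at e
    rw [h8 c' h10 (φ.injective e)]

lemma critOK_of_critOK (hf' : f.derivative ≠ 0) (hM : (f.derivative.map (algebraMap ℚ M)).Splits)
    (hL : (f.derivative.map (algebraMap ℚ L)).Splits) (h : CritOK f M) : CritOK f L :=
  (critOK_iff (SplittingField.lift _ hL).toRingHom hf' (SplittingField.splits _)).mpr
    ((critOK_iff (SplittingField.lift _ hM).toRingHom hf' (SplittingField.splits _)).mp h)

lemma irreducible_of_transitive [Normal ℚ L] {P : ℚ[X]} (hP : 0 < P.natDegree)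
    (hc : P.natDegree ≤ (rts P L).card)
    (ht : ∀ x ∈ rts P L, ∀ y ∈ rts P L, ∃ σ : L ≃ₐ[ℚ] L, σ • x = y) : Irreducible P := by
  have hP0 : P ≠ 0 := ne_zero_of_natDegree_gt hP
  obtain ⟨y, hy⟩ := Finset.card_pos.mp (hP.trans_le hc)
  have hi : IsIntegral ℚ y := Algebra.IsIntegral.isIntegral y
  have h1 := minpoly.dvd ℚ y ((mem_rts hP0).mp hy)
  have h2 : rts P L ⊆ rts (minpoly ℚ y) L := fun x hx => by
    obtain ⟨σ, rfl⟩ := ht y hy x hx
    exact smul_mem_rts (minpoly.ne_zero hi) σ ((mem_rts (minpoly.ne_zero hi)).mpr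
      (minpoly.aeval ℚ y))
  exact (associated_of_dvd_of_natDegree_le h1 hP0
    (hc.trans ((Finset.card_le_card h2).trans (card_rts_le _)))).irreducible (minpoly.irreducible hi)

lemma irreducible_comp [Normal ℚ L] (hd : f.natDegree ≠ 0) {P : ℚ[X]} (hP : Irreducible P)
    (hs' : ((P.comp f).map (algebraMap ℚ L)).Splits)
    (hc : ∀ c : L, aeval c f.derivative = 0 → aeval c (P.comp f) ≠ 0)
    (ht : ∀ y ∈ rts (P.comp f) L, ∀ y' ∈ rts (P.comp f) L, ev f L y = ev f L y' →
      ∃ σ : L ≃ₐ[ℚ] L, σ • y = y') : Irreducible (P.comp f) := by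
  have hP0 : P.comp f ≠ 0 := itP_ne_zero (n := 1) hd hP.ne_zero
  have hsep : (P.comp f).Separable := by
    rw [← separable_map (algebraMap ℚ L), ← nodup_roots_iff_of_splits (Polynomial.map_ne_zero hP0)
      hs']
    classical
    rw [Multiset.nodup_iff_count_le_one]
    intro y
    rw [count_roots]
    by_contra hlt
    obtain ⟨h1, h2⟩ := (one_lt_rootMultiplicity_iff_isRoot (Polynomial.map_ne_zero hP0)).mp
      (not_le.mp hlt)
    rw [IsRoot, eval_map_algebraMap] at h1
    rw [IsRoot, derivative_map, eval_map_algebraMap, derivative_comp, map_mul, mul_eq_zero,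
      aeval_comp] at h2
    rcases h2 with h2 | h2
    · exact hc y h2 h1
    · rw [aeval_comp] at h1
      exact hP.separable.aeval_derivative_ne_zero h1 h2
  refine irreducible_of_transitive (L := L) ?_ (card_rts hsep hs').ge fun x hx y hy => ?_
  · rw [natDegree_comp]
    exact Nat.mul_pos hP.natDegree_pos (Nat.pos_of_ne_zero hd)
  · have h1 : ∀ z ∈ rts (P.comp f) L, ev f L z ∈ rts P L := fun z hz => by
      rwa [mem_rts hP.ne_zero, ev, ← aeval_comp, ← mem_rts hP0]
    obtain ⟨σ, hσ⟩ := exists_smul_eq hP (h1 x hx) (h1 y hy)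
    obtain ⟨τ, hτ⟩ := ht _ (smul_mem_rts hP0 σ hx) y hy (by rw [smul_ev, hσ])
    exact ⟨τ * σ, by rw [mul_smul, hτ]⟩

end

lemma exists_galois {P Q : ℚ[X]} (hP : P ≠ 0) (hQ : Q ≠ 0) :
    ∃ (L : Type) (_ : Field L) (_ : NumberField L) (_ : IsGalois ℚ L),
      (P.map (algebraMap ℚ L)).Splits ∧ (Q.map (algebraMap ℚ L)).Splits := by
  have : NumberField (P * Q).SplittingField := NumberField.of_module_finite ℚ _
  have : IsSplittingField ℚ (P * Q).SplittingField (P * Q) := IsSplittingField.splittingField _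
  have : Normal ℚ (P * Q).SplittingField := Normal.of_isSplittingField (P * Q)
  have hs := SplittingField.splits (P * Q)
  rw [Polynomial.map_mul, splits_mul (Polynomial.map_ne_zero hP) (Polynomial.map_ne_zero hQ)] at hs
  exact ⟨(P * Q).SplittingField, inferInstance, inferInstance, ⟨⟩, hs⟩

lemma exists_ext (M : Type) [Field M] [NumberField M] (P : ℚ[X]) :
    ∃ (L : Type) (_ : Field L) (_ : NumberField L) (_ : M →+* L),
      (P.map (algebraMap ℚ L)).Splits := by
  have : NumberField (P.map (algebraMap ℚ M)).SplittingField := NumberField.of_module_finite M _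
  refine ⟨(P.map (algebraMap ℚ M)).SplittingField, inferInstance, inferInstance,
    algebraMap M _, ?_⟩
  have := SplittingField.splits (P.map (algebraMap ℚ M))
  rwa [Polynomial.map_map, Subsingleton.elim ((algebraMap M _).comp _) (algebraMap ℚ _)] at this

/-- the conjugate `x ↦ f (x + b) - b` -/
noncomputable def ctr (f : ℚ[X]) (b : ℚ) : ℚ[X] := f.comp (X + C b) - C b

lemma natDegree_ctr (b : ℚ) : (ctr f b).natDegree = f.natDegree := by
  rw [ctr, natDegree_sub_C, natDegree_comp, natDegree_X_add_C, mul_one]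

/-- the conjugate `x ↦ (f (u x + b) - b) / u` -/
noncomputable def cj (f : ℚ[X]) (b : ℚ) {L : Type*} [Field L] [Algebra ℚ L] (u : L) : L[X] :=
  C u⁻¹ * ((ctr f b).map (algebraMap ℚ L)).comp (C u * X)

section
variable {L : Type*} [Field L] [Algebra ℚ L] {b : ℚ} {u : L}

lemma coeff_cj (i : ℕ) : (cj f b u).coeff i = u⁻¹ * (((ctr f b).coeff i : L) * u ^ i) := by
  rw [cj, coeff_C_mul, comp_C_mul_X_coeff, coeff_map, eq_ratCast]

lemma natDegree_cj (hu : u ≠ 0) : (cj f b u).natDegree = f.natDegree := by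
  rw [cj, natDegree_C_mul (inv_ne_zero hu), natDegree_comp, natDegree_map, natDegree_ctr,
    natDegree_C_mul_X _ hu, mul_one]

lemma eval_cj (hu : u ≠ 0) (x : L) : u * (cj f b u).eval x + b = ev f L (u * x + b) := by
  simp [cj, ctr, ev, eval_map_algebraMap, aeval_comp, hu]

lemma iterate_cj (hu : u ≠ 0) (n : ℕ) (x : L) :
    u * (fun x => (cj f b u).eval x)^[n] x + b = (ev f L)^[n] (u * x + b) :=
  (Function.Semiconj.iterate_right (f := fun x => u * x + b) (eval_cj hu) n) x

lemma derivative_cj (hu : u ≠ 0) : (cj f b u).derivative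
    = (f.derivative.map (algebraMap ℚ L)).comp (C u * X + C (b : L)) := by
  simp only [cj, ctr, derivative_mul, derivative_C, zero_mul, zero_add, derivative_comp,
    derivative_X, mul_one, derivative_map, derivative_sub, derivative_add, add_zero, sub_zero,
    one_mul, ← mul_assoc, ← C_mul, inv_mul_cancel₀ hu, map_one, Polynomial.map_comp, comp_assoc]
  simp

lemma eval_derivative_cj (hu : u ≠ 0) (x : L) :
    (cj f b u).derivative.eval x = aeval (u * x + b) f.derivative := by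
  simp [derivative_cj hu, eval_map_algebraMap]

lemma eval_derivative_two_cj (hu : u ≠ 0) (x : L) :
    (cj f b u).derivative.derivative.eval x = u * aeval (u * x + b) f.derivative.derivative := by
  rw [derivative_cj hu, derivative_comp, derivative_map]
  simp [eval_map_algebraMap]

lemma exists_affine (hu : u ≠ 0) (b : ℚ) (y : L) : ∃ x, y = u * x + b :=
  ⟨(y - b) / u, by field_simp; ring⟩

lemma affine_inj (hu : u ≠ 0) {x y : L} (h : u * x + b = u * y + b) : x = y :=
  mul_left_cancel₀ hu (add_right_cancel h)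

lemma smul_affine {σ : L ≃ₐ[ℚ] L} (hσ : σ • u = u) (x : L) :
    σ • (u * x + b) = u * σ • x + b := by
  rw [smul_add, smul_mul', hσ, show σ • (b : L) = b from map_ratCast σ b]

lemma smul_coeff_cj {σ : L ≃ₐ[ℚ] L} (hσ : σ • u = u) (i : ℕ) :
    σ • (cj f b u).coeff i = (cj f b u).coeff i := by
  rw [coeff_cj, smul_mul', smul_mul', smul_inv'', smul_pow', hσ,
    show σ • ((ctr f b).coeff i : L) = (ctr f b).coeff i from map_ratCast σ _]

end

/-- the polynomial defining the scaling factor -/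
noncomputable def scal (f : ℚ[X]) : ℚ[X] := C f.leadingCoeff * X ^ (f.natDegree - 1) - 1

lemma natDegree_scal (hf : f ≠ 0) : (scal f).natDegree = f.natDegree - 1 := by
  rw [scal, ← C_1, natDegree_sub_C, natDegree_C_mul_X_pow _ _ (leadingCoeff_ne_zero.mpr hf)]

lemma scal_ne_zero (hd : 2 ≤ f.natDegree) : scal f ≠ 0 :=
  ne_zero_of_natDegree_gt (n := 0) (by
    rw [natDegree_scal (ne_zero_of_natDegree_gt (n := 0) (by omega))]; omega)

lemma coeff_ctr_top (hd : f.natDegree ≠ 0) (b : ℚ) :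
    (ctr f b).coeff f.natDegree = f.leadingCoeff := by
  rw [ctr, coeff_sub, coeff_C_of_ne_zero hd, sub_zero]
  have := leadingCoeff_comp (p := f) (q := X + C b) (by simp)
  rwa [leadingCoeff_X_add_C, one_pow, mul_one, leadingCoeff, natDegree_comp, natDegree_X_add_C,
    mul_one] at this

section
variable {L : Type*} [Field L] [Algebra ℚ L] {b : ℚ} {u : L}

lemma aeval_scal : aeval u (scal f) = 0 ↔ (f.leadingCoeff : L) * u ^ (f.natDegree - 1) = 1 := by
  simp [scal, sub_eq_zero]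

lemma exists_scal (hd : 2 ≤ f.natDegree) (hs : ((scal f).map (algebraMap ℚ L)).Splits) :
    ∃ u : L, aeval u (scal f) = 0 := by
  obtain ⟨u, hu⟩ := hs.exists_eval_eq_zero (by
    rw [degree_map]
    refine (natDegree_pos_iff_degree_pos.mp ?_).ne'
    rw [natDegree_scal (ne_zero_of_natDegree_gt (n := 0) (by omega))]; omega)
  exact ⟨u, by rwa [eval_map_algebraMap] at hu⟩

lemma ne_zero_of_scal (hd : 2 ≤ f.natDegree) (hu : aeval u (scal f) = 0) : u ≠ 0 := by
  rintro rfl
  rw [aeval_scal, zero_pow (by omega), mul_zero] at hu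
  exact zero_ne_one hu

lemma monic_cj (hd : 2 ≤ f.natDegree) (hu : aeval u (scal f) = 0) : (cj f b u).Monic := by
  have hu0 := ne_zero_of_scal hd hu
  rw [Monic, leadingCoeff, natDegree_cj hu0, coeff_cj, coeff_ctr_top (by omega),
    ← mul_pow_sub_one (n := f.natDegree) (by omega), mul_left_comm _ u, aeval_scal.mp hu, mul_one,
    inv_mul_cancel₀ hu0]

end

section
variable {L : Type*} [Field L] [NumberField L] {b : ℚ} {u : L} {w : HeightOneSpectrum (𝓞 L)}
  {q : ℕ}

lemma log_coeff_cj (hd : 2 ≤ f.natDegree) (hu : aeval u (scal f) = 0) (hq : q.Prime)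
    (hw : (q : 𝓞 L) ∈ w.asIdeal) {i : ℕ} (hi : (ctr f b).coeff i ≠ 0) :
    ((f.natDegree : ℤ) - 1) * log (w.valuation L ((cj f b u).coeff i))
      = ((f.natDegree - 1) * padicValRat q ((ctr f b).coeff i)
        - (i - 1) * padicValRat q f.leadingCoeff) * log (w.valuation L q) := by
  have hu0 := ne_zero_of_scal hd hu
  have hl : f.leadingCoeff ≠ 0 :=
    leadingCoeff_ne_zero.mpr (ne_zero_of_natDegree_gt (n := 0) (by omega))
  have h1 := congrArg (fun x => log (w.valuation L x)) (aeval_scal.mp hu)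
  simp only [map_mul, map_pow, map_one, log_one] at h1
  rw [log_mul (val_ne_zero (Rat.cast_ne_zero.mpr hl)) (pow_ne_zero _ (val_ne_zero hu0)), log_pow,
    log_val_rat hq hw hl, nsmul_eq_mul, Nat.cast_sub (by omega)] at h1
  rw [coeff_cj, map_mul, map_mul, map_inv₀, map_pow, log_mul (inv_ne_zero (val_ne_zero hu0))
    (mul_ne_zero (val_ne_zero (Rat.cast_ne_zero.mpr hi)) (pow_ne_zero _ (val_ne_zero hu0))),
    log_mul (val_ne_zero (Rat.cast_ne_zero.mpr hi)) (pow_ne_zero _ (val_ne_zero hu0)), log_inv,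
    log_pow, log_val_rat hq hw hi, nsmul_eq_mul]
  push_cast at h1
  linear_combination ((i : ℤ) - 1) * h1

lemma coeff_cj_ne_zero (hd : 2 ≤ f.natDegree) (hu : aeval u (scal f) = 0) {i : ℕ}
    (hi : (ctr f b).coeff i ≠ 0) : (cj f b u).coeff i ≠ 0 := by
  have hu0 := ne_zero_of_scal hd hu
  rw [coeff_cj]
  exact mul_ne_zero (inv_ne_zero hu0) (mul_ne_zero (Rat.cast_ne_zero.mpr hi) (pow_ne_zero _ hu0))

lemma val_coeff_cj_le (hd : 2 ≤ f.natDegree) (hu : aeval u (scal f) = 0) (hq : q.Prime)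
    (hw : (q : 𝓞 L) ∈ w.asIdeal) {i : ℕ} (c : ℕ) (h : (ctr f b).coeff i ≠ 0 →
      (i - 1) * padicValRat q f.leadingCoeff + (f.natDegree - 1) * c
        ≤ (f.natDegree - 1) * padicValRat q ((ctr f b).coeff i)) :
    w.valuation L ((cj f b u).coeff i) ≤ w.valuation L q ^ c := by
  by_cases hi : (ctr f b).coeff i = 0
  · rw [coeff_cj, hi]; simp
  have h1 := log_coeff_cj hd hu hq hw hi
  have h2 := log_val_prime_neg hq hw
  have h3 := h hi
  rw [← log_le_log (val_ne_zero (coeff_cj_ne_zero hd hu hi))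
    (pow_ne_zero _ (val_ne_zero (Nat.cast_ne_zero.mpr hq.ne_zero))), log_pow, nsmul_eq_mul]
  have h4 : (0 : ℤ) < f.natDegree - 1 := by omega
  refine le_of_mul_le_mul_left ?_ h4
  nlinarith

lemma val_coeff_cj_lt (hd : 2 ≤ f.natDegree) (hu : aeval u (scal f) = 0) (hq : q.Prime)
    (hw : (q : 𝓞 L) ∈ w.asIdeal) {i : ℕ} (h : (ctr f b).coeff i ≠ 0 →
      (i - 1) * padicValRat q f.leadingCoeff
        < (f.natDegree - 1) * padicValRat q ((ctr f b).coeff i)) :
    w.valuation L ((cj f b u).coeff i) < 1 := by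
  by_cases hi : (ctr f b).coeff i = 0
  · rw [coeff_cj, hi]; simp
  have h1 := log_coeff_cj hd hu hq hw hi
  have h2 := log_val_prime_neg hq hw
  have h3 := h hi
  rw [← log_lt_log (val_ne_zero (coeff_cj_ne_zero hd hu hi)) one_ne_zero, log_one]
  have h4 : (0 : ℤ) < f.natDegree - 1 := by omega
  refine lt_of_mul_lt_mul_left ?_ h4.le
  nlinarith

/-- inertia elements fixing the scaling factor -/
abbrev inJ (w : HeightOneSpectrum (𝓞 L)) (u : L) : Subgroup (L ≃ₐ[ℚ] L) :=
  w.asIdeal.inertia (L ≃ₐ[ℚ] L) ⊓ MulAction.stabilizer (L ≃ₐ[ℚ] L) u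

lemma inert_inJ [IsGalois ℚ L] : Inert (w.valuation L) (inJ w u) := by
  refine ⟨fun σ x => val_smul σ.2.1 x, fun σ x hx => val_smul_sub_lt σ.2.1 hx, fun H x hx => ?_⟩
  rw [← Subgroup.card_map_of_injective (K := H) (inJ w u).subtype_injective]
  refine card_dvd_log_val _ ((Subgroup.map_subtype_le _).trans inf_le_left) ?_
  rintro _ ⟨σ, hσ, rfl⟩
  exact hx σ hσ

lemma log_val_inJ [IsGalois ℚ L] (hd : 2 ≤ f.natDegree) (hu : aeval u (scal f) = 0) (hq : q.Prime)
    (hw : (q : 𝓞 L) ∈ w.asIdeal) : ∃ k : ℕ, 0 < k ∧ k < f.natDegree ∧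
      log (w.valuation L q) = -(k * Nat.card (inJ w u)) := by
  set I := w.asIdeal.inertia (L ≃ₐ[ℚ] L)
  refine ⟨(MulAction.stabilizer I u).index, Nat.pos_of_ne_zero Subgroup.FiniteIndex.index_ne_zero,
    ?_, ?_⟩
  · have hs := scal_ne_zero hd
    have : (rts (scal f) L).card < f.natDegree := by
      have := card_rts_le (L := L) (scal f)
      rw [natDegree_scal (ne_zero_of_natDegree_gt (n := 0) (by omega))] at this
      omega
    refine lt_of_le_of_lt ?_ this
    rw [MulAction.index_stabilizer, ← Set.ncard_coe_finset]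
    refine Set.ncard_le_ncard ?_ (Finset.finite_toSet _)
    rintro _ ⟨σ, rfl⟩
    exact smul_mem_rts hs _ ((mem_rts hs).mpr hu)
  · rw [log_val_prime (G := L ≃ₐ[ℚ] L) hq hw, ← (MulAction.stabilizer I u).index_mul_card,
      Nat.cast_mul]
    congr 3
    refine Nat.card_congr ⟨fun σ => ⟨σ.1.1, σ.1.2, σ.2⟩, fun σ => ⟨⟨σ.1, σ.2.1⟩, σ.2.2⟩,
      fun _ => rfl, fun _ => rfl⟩

end

end Pool.Agent.Lib.MP_41de88_nt
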