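import Pool.Agent.Lib.helper57.PNT

set_option autoImplicit false

open Filter Topology Finset

namespace Pool.Agent.Lib.MP_41de88_nt

open scoped Classical in
/-- Chebyshev function of a set -/
noncomputable def thetaS (S : Set ℕ) (x : ℝ) : ℝ :=
  ∑ p ∈ (Icc 1 ⌊x⌋₊).filter (· ∈ S), Real.log p

lemma thetaS_nonneg (S : Set ℕ) (x : ℝ) : 0 ≤ thetaS S x :=
  sum_nonneg fun _ _ => Real.log_natCast_nonneg _

lemma thetaS_mono {S T : Set ℕ} (h : S ⊆ T) (x : ℝ) : thetaS S x ≤ thetaS T x := by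
  classical
  refine sum_le_sum_of_subset_of_nonneg (fun p hp => ?_) fun _ _ _ => Real.log_natCast_nonneg _
  simp only [mem_filter] at hp ⊢
  exact ⟨hp.1, h hp.2⟩

lemma thetaS_union (S T : Set ℕ) (x : ℝ) : thetaS (S ∪ T) x ≤ thetaS S x + thetaS T x := by
  classical
  simp only [thetaS, sum_filter, ← sum_add_distrib]
  refine sum_le_sum fun p _ => ?_
  have := Real.log_natCast_nonneg p
  by_cases h1 : p ∈ S <;> by_cases h2 : p ∈ T <;> simp [h1, h2, this]

/-- sets of logarithmic weight `o(x)` -/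
def Small (S : Set ℕ) : Prop := ∀ ε : ℝ, 0 < ε → ∀ᶠ x : ℝ in atTop, thetaS S x ≤ ε * x

lemma Small.mono {S T : Set ℕ} (hT : Small T) (h : S ⊆ T) : Small S := fun ε hε =>
  (hT ε hε).mono fun x hx => (thetaS_mono h x).trans hx

lemma Small.union {S T : Set ℕ} (hS : Small S) (hT : Small T) : Small (S ∪ T) := fun ε hε => by
  filter_upwards [hS _ (half_pos hε), hT _ (half_pos hε)] with x h1 h2
  linarith [thetaS_union S T x]

lemma small_of_finite {S : Set ℕ} (hS : S.Finite) : Small S := by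
  classical
  intro ε hε
  filter_upwards [eventually_ge_atTop ((∑ p ∈ hS.toFinset, Real.log p) / ε)] with x hx
  rw [div_le_iff₀ hε, mul_comm] at hx
  refine le_trans (sum_le_sum_of_subset_of_nonneg (fun p hp => ?_)
    fun _ _ _ => Real.log_natCast_nonneg _) hx
  exact hS.mem_toFinset.mpr (mem_filter.mp hp).2

lemma small_biUnion {ι : Type*} {s : Set ι} (hs : s.Finite) {S : ι → Set ℕ}
    (h : ∀ i ∈ s, Small (S i)) : Small (⋃ i ∈ s, S i) := by
  induction s, hs using Set.Finite.induction_on with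
  | empty => simpa using small_of_finite Set.finite_empty
  | insert _ _ ih =>
    rw [Set.biUnion_insert]
    exact (h _ (Set.mem_insert _ _)).union (ih fun i hi => h i (Set.mem_insert_of_mem _ hi))

lemma small_of_approx {S : Set ℕ} (h : ∀ ε : ℝ, 0 < ε → ∃ T U : Set ℕ, Small U ∧ S ⊆ T ∪ U ∧
    ∀ᶠ x : ℝ in atTop, thetaS T x ≤ ε * x) : Small S := fun ε hε => by
  obtain ⟨T, U, hU, hS, hT⟩ := h _ (half_pos hε)
  filter_upwards [hU _ (half_pos hε), hT] with x h1 h2
  linarith [thetaS_union T U x, thetaS_mono hS x]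

lemma ncard_eq (S : Set ℕ) (hS : ∀ p ∈ S, p.Prime) [DecidablePred (· ∈ S)] (n : ℕ) :
    {p | p ≤ n ∧ p ∈ S}.ncard = ((Icc 1 n).filter (· ∈ S)).card := by
  rw [← Set.ncard_coe_finset]
  congr 1
  ext p
  simp only [Set.mem_ofPred_eq, coe_filter, mem_Icc]
  exact ⟨fun h => ⟨⟨(hS p h.2).one_le, h.1⟩, h.2⟩, fun h => ⟨h.1.2, h.2⟩⟩

lemma count_log_sub (S : Set ℕ) (hS : ∀ p ∈ S, p.Prime) (n : ℕ) :
    0 ≤ ({p | p ≤ n ∧ p ∈ S}.ncard : ℝ) * Real.log n - thetaS S n ∧
    ({p | p ≤ n ∧ p ∈ S}.ncard : ℝ) * Real.log n - thetaS S n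
      ≤ Nat.primeCounting n * Real.log n - Chebyshev.theta n := by
  classical
  have h1 : ∀ p ∈ Icc 1 n, 0 ≤ Real.log n - Real.log p := fun p hp => by
    rw [mem_Icc] at hp
    exact sub_nonneg.mpr (Real.log_le_log (by exact_mod_cast hp.1) (by exact_mod_cast hp.2))
  have h2 : (Nat.primeCounting n : ℝ) * Real.log n - Chebyshev.theta n
      = ∑ p ∈ (Icc 1 n).filter Nat.Prime, (Real.log n - Real.log p) := by
    rw [sum_sub_distrib, sum_const, nsmul_eq_mul, Chebyshev.theta, Nat.floor_natCast]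
    congr 2
    rw [← Nat.primesLE_card_eq_primeCounting]
    congr 2
    ext p
    simp only [Nat.mem_primesLE, mem_filter, mem_Icc]
    exact ⟨fun h => ⟨⟨h.2.one_le, h.1⟩, h.2⟩, fun h => ⟨h.1.2, h.2⟩⟩
  rw [h2, ncard_eq S hS, thetaS, Nat.floor_natCast, ← nsmul_eq_mul, ← sum_const,
    ← sum_sub_distrib]
  refine ⟨sum_nonneg fun p hp => h1 p (mem_filter.mp hp).1,
    sum_le_sum_of_subset_of_nonneg (fun p hp => ?_) fun p hp _ => h1 p (mem_filter.mp hp).1⟩
  rw [mem_filter] at hp ⊢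
  exact ⟨hp.1, hS p hp.2⟩

lemma tendsto_pi_log : Tendsto (fun n : ℕ => (Nat.primeCounting n : ℝ) * Real.log n / n) atTop
    (𝓝 1) := by
  have := helper57.pnt_pi.comp tendsto_natCast_atTop_atTop
  refine this.congr fun n => ?_
  simp only [Function.comp, Nat.floor_natCast]
  rw [div_div_eq_mul_div]

/-- passing from the logarithmic weight to the natural density among primes -/
theorem tendsto_density {S : Set ℕ} (hS : ∀ p ∈ S, p.Prime) {δ : ℝ}
    (h : Tendsto (fun x : ℝ => thetaS S x / x) atTop (𝓝 δ)) :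
    Tendsto (fun n : ℕ => ({p | p ≤ n ∧ p ∈ S}.ncard : ℝ) / Nat.primeCounting n) atTop (𝓝 δ) := by
  have h1 := h.comp tendsto_natCast_atTop_atTop
  have h2 := tendsto_pi_log.sub (helper57.pnt_theta.comp tendsto_natCast_atTop_atTop)
  rw [sub_self] at h2
  have h3 : Tendsto (fun n : ℕ => (({p | p ≤ n ∧ p ∈ S}.ncard : ℝ) * Real.log n - thetaS S n) / n)
      atTop (𝓝 0) := by
    refine squeeze_zero (fun n => div_nonneg (count_log_sub S hS n).1 (Nat.cast_nonneg _))
      (fun n => ?_) h2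
    simp only [Function.comp]
    rw [← sub_div]
    exact div_le_div_of_nonneg_right (count_log_sub S hS n).2 (Nat.cast_nonneg _)
  have h4 := (h3.add h1).div tendsto_pi_log one_ne_zero
  rw [zero_add, div_one] at h4
  refine h4.congr' ?_
  filter_upwards [eventually_gt_atTop 1] with n hn
  have e1 : (n : ℝ) ≠ 0 := by positivity
  have e2 : Real.log n ≠ 0 := (Real.log_pos (by exact_mod_cast hn)).ne'
  simp only [Function.comp, Pi.div_apply]
  rw [← add_div, sub_add_cancel, div_div_div_cancel_right₀ e1, mul_div_mul_right _ _ e2]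

theorem Small.tendsto {S : Set ℕ} (h : Small S) (hS : ∀ p ∈ S, p.Prime) :
    Tendsto (fun n : ℕ => ({p | p ≤ n ∧ p ∈ S}.ncard : ℝ) / Nat.primeCounting n) atTop (𝓝 0) := by
  refine tendsto_density hS (tendsto_order.mpr ⟨fun a ha => ?_, fun a ha => ?_⟩)
  · filter_upwards [eventually_ge_atTop 0] with x hx
    exact ha.trans_le (div_nonneg (thetaS_nonneg S x) hx)
  · filter_upwards [h _ (half_pos ha), eventually_gt_atTop 0] with x h1 hx
    rw [div_lt_iff₀ hx]
    nlinarith

end Pool.Agent.Lib.MP_41de88_nt
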