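import Pool.Agent.Lib.MP_41de88_nt.Levels
import Pool.Agent.Lib.MP_41de88_nt.Small

set_option autoImplicit false

open Polynomial NumberField IsDedekindDomain WithZero Filter

namespace Pool.Agent.Lib.MP_41de88_nt

open helper22.Val

/-- primes modulo which `P` has a root -/
def RootMod (P : ℚ[X]) : Set ℕ :=
  {p | p.Prime ∧ ∃ a : ℚ, 0 ≤ padicValRat p a ∧ (P.eval a = 0 ∨ 0 < padicValRat p (P.eval a))}

lemma val_frob_lt {L G : Type*} [Field L] [NumberField L] [Group G] [MulSemiringAction G L]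
    {w : HeightOneSpectrum (𝓞 L)} {σ : G} {p : ℕ} (hp : p ≠ 0)
    (h : ∀ y : 𝓞 L, σ • y - y ^ p ∈ w.asIdeal) {x : L} (hx : w.valuation L x < 1) :
    w.valuation L (σ • x) < 1 := by
  obtain ⟨n, ⟨d, hd⟩, e⟩ := w.exists_primeCompl_mul_eq_of_integer x hx.le
  have hd' : d ∉ w.asIdeal := hd
  have h1 : n ∈ w.asIdeal := by
    rw [← w.valuation_lt_one_iff_mem (K := L), Algebra.cast, ← e, map_mul]
    exact mul_lt_one_of_nonneg_of_lt_one_left zero_le hx (w.valuation_le_one d)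
  have h2 : σ • n ∈ w.asIdeal := by
    simpa using add_mem (h n) (Ideal.pow_mem_of_mem _ h1 p (Nat.pos_of_ne_zero hp))
  have h3 : σ • d ∉ w.asIdeal := fun h3 => hd' (w.isPrime.mem_of_pow_mem p (by
    simpa using sub_mem h3 (h d)))
  rw [← w.valuation_lt_one_iff_mem (K := L)] at h2
  rw [← w.valuation_eq_one_iff_notMem (K := L)] at h3
  have h4 := congrArg (fun z => w.valuation L (σ • z)) e
  simp only [smul_mul', map_mul] at h4
  rw [show σ • algebraMap (𝓞 L) L d = algebraMap (𝓞 L) L (σ • d) from rfl] at h4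
  rw [show w.valuation L (algebraMap (𝓞 L) L (σ • d)) = 1 from h3, mul_one] at h4
  rw [h4]
  exact h2

lemma val_aeval_rat_lt {L : Type*} [Field L] [NumberField L] {w : HeightOneSpectrum (𝓞 L)}
    {p : ℕ} (hp : p.Prime) (hw : (p : 𝓞 L) ∈ w.asIdeal) {P : ℚ[X]} {a : ℚ}
    (h : P.eval a = 0 ∨ 0 < padicValRat p (P.eval a)) : w.valuation L (aeval (a : L) P) < 1 := by
  have e : aeval (a : L) P = ((P.eval a : ℚ) : L) := by
    rw [← eq_ratCast (algebraMap ℚ L), aeval_algebraMap_apply]; simp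
  rw [e]
  rcases eq_or_ne (P.eval a) 0 with h0 | h0
  · simp [h0]
  · exact (val_rat_lt_one_iff hp hw h0).mpr (h.resolve_left h0)

lemma exists_frob_fixed {P : ℚ[X]} (hP : P.Separable) : ∃ N : ℕ,
    ∀ (L : Type) [Field L] [NumberField L], (P.map (algebraMap ℚ L)).Splits →
      ∀ p ∈ RootMod P, N < p → ∀ Q : Ideal (𝓞 L), Q.IsPrime → (p : 𝓞 L) ∈ Q →
        ∀ σ : L ≃ₐ[ℚ] L, (∀ y : 𝓞 L, σ • y - y ^ p ∈ Q) → ∃ y ∈ rts P L, σ • y = y := by
  obtain ⟨N, hN⟩ := (ev_good (M := ℚ) P).and (ev_sep hP)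
  refine ⟨N, fun L _ _ hs p hp hNp Q hQ hpQ σ hσ => ?_⟩
  obtain ⟨hp, a, -, ha⟩ := hp
  let w : HeightOneSpectrum (𝓞 L) := ⟨Q, hQ, helper22.PIT.ne_bot_of_prime_mem hp hpQ⟩
  obtain ⟨h1, h2⟩ := hN L (algebraMap ℚ L) p hp hNp w hpQ
  obtain ⟨y, h3, h4⟩ := h1.exists_root_close hP.ne_zero hs (val_aeval_rat_lt hp hpQ ha)
  refine ⟨y, (mem_rts hP.ne_zero).mpr h3, h2 _ _ (by rw [smul_aeval, h3, smul_zero]) h3 ?_⟩
  have h5 := val_frob_lt (w := w) hp.ne_zero hσ h4
  have := Valuation.map_sub_lt _ h4 h5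
  rwa [smul_sub, show σ • (a : L) = a from map_ratCast σ a, sub_sub_sub_cancel_left] at this

variable {f g : ℚ[X]}

/-- the fixer of level `n` is transitive on the fibres of level `n + 1` -/
def MartLevel (f g : ℚ[X]) (L : Type) [Field L] [Algebra ℚ L] (n : ℕ) : Prop :=
  ∀ y ∈ rts (itP f g (n + 1)) L, ∀ y' ∈ rts (itP f g (n + 1)) L, ev f L y = ev f L y' →
    ∃ h ∈ fixer (L ≃ₐ[ℚ] L) (rts (itP f g n) L), h • y = y'

theorem core_rootMod (hd : 3 ≤ f.natDegree) (hodd : Odd f.natDegree)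
    (hirr : ∀ n, Irreducible (itP f g n))
    (hc : ∀ (M : Type) [Field M] [NumberField M], (f.derivative.map (algebraMap ℚ M)).Splits →
      CritOK f M) (h : ℚ[X]) (hh : h ≠ 0) (K : ℕ)
    (hm : ∀ (N : ℕ) (L : Type) [Field L] [NumberField L] [IsGalois ℚ L],
      (h.map (algebraMap ℚ L)).Splits → (∀ j ≤ N, ((itP f g j).map (algebraMap ℚ L)).Splits) →
        ∃ B : Finset ℕ, B.card ≤ K ∧ ∀ n < N, n ∉ B → MartLevel f g L n) {ε : ℝ} (hε : 0 < ε) :
    ∃ N, ∀ᶠ x : ℝ in atTop, thetaS (RootMod (itP f g N)) x ≤ ε * x := by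
  classical
  have hd0 : f.natDegree ≠ 0 := by omega
  have hf' := derivative_ne_zero' hd0
  have hg : g ≠ 0 := (hirr 0).ne_zero
  have hh' := mul_ne_zero hf' hh
  set D := max (max f.natDegree g.natDegree) (f.derivative * h).natDegree with hD
  have hD0 : (0 : ℝ) < D.factorial := by exact_mod_cast D.factorial_pos
  obtain ⟨R, hR⟩ := fix_small_mart.{0, 0} f.natDegree K (by omega)
    (ε := ε / (4 * D.factorial)) (by positivity)
  obtain ⟨N, -, hN⟩ := exists_levels hd hirr hc 0 R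
  refine ⟨N, ?_⟩
  let L := (bigP f g (f.derivative * h) N).SplittingField
  have : NumberField L := NumberField.of_module_finite ℚ L
  have : IsSplittingField ℚ L (bigP f g (f.derivative * h) N) := IsSplittingField.splittingField _
  have : Normal ℚ L := Normal.of_isSplittingField (bigP f g (f.derivative * h) N)
  have : IsGalois ℚ L := ⟨⟩
  obtain ⟨hs, hs1⟩ := (splits_bigP_iff (L := L) hd0 hg hh' N).mp (SplittingField.splits _)
  rw [Polynomial.map_mul, splits_mul (Polynomial.map_ne_zero hf') (Polynomial.map_ne_zero hh)] at hs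
  obtain ⟨good, hgood, hgood'⟩ := hN L hs.1 hs1
  obtain ⟨B, hB, hB'⟩ := hm N L hs.2 hs1
  have hP := fun n => itP_ne_zero (f := f) hd0 hg n
  have hWV : ∀ n, ∀ y ∈ rts (itP f g (n + 1)) L, ev f L y ∈ rts (itP f g n) L := fun n y hy => by
    rwa [mem_rts (hP _), ← aeval_itP_succ, ← mem_rts (hP _)]
  have hfib : ∀ n < N, ∀ x ∈ rts (itP f g n) L,
      ((rts (itP f g (n + 1)) L).filter fun y => ev f L y = x).card = f.natDegree := by
    intro n hn x hx
    rw [itP_succ]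
    exact card_fib hd0 (hP n) (itP_succ n ▸ (hirr (n + 1)).separable) (itP_succ n ▸ hs1 _ hn)
      ((mem_rts (hP n)).mp hx)
  have h1 := hR (L ≃ₐ[ℚ] L) L (fun n => rts (itP f g n) L) (ev f L) N B good hB smul_ev
    (fun n _ => hWV n) (fun n _ σ y hy => smul_mem_rts (hP n) σ hy)
    (fun n _ x => card_fib_le hd0 _ x) (fun n hn x hx => by
      obtain ⟨y, hy⟩ := Finset.card_pos.mp (hfib n hn x hx ▸ Nat.pos_of_ne_zero hd0)
      exact ⟨y, Finset.mem_filter.mp hy⟩)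
    (fun n _ x hx y hy => exists_smul_eq (hirr n) hx hy) hB' (fun n hn => by
      obtain ⟨-, h2, τ, h3, h4, h5⟩ := hgood' n hn
      exact ⟨h2, nonconst smul_ev (hWV n) (fun σ y hy => smul_mem_rts (hP _) σ hy)
        (fun σ y hy => smul_mem_rts (hP _) σ hy)
        (fun x hx y hy => exists_smul_eq (hirr _) hx hy)
        (fun y hy => by rw [hfib n h2 _ (hWV n y hy)]; exact hodd) τ h3 h4 h5⟩) hgood
  obtain ⟨N₀, hN₀⟩ := exists_frob_fixed (hirr N).separable
  have h2 := helper22.PIT.frob_theta_bound L (L ≃ₐ[ℚ] L)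
    (Finset.univ.filter fun σ : L ≃ₐ[ℚ] L => 0 < nfix (rts (itP f g N) L) σ) D.factorial hD0.le
    (fun σ hσ τ e => by
      obtain ⟨y, hy⟩ := Finset.card_pos.mp (Finset.mem_filter.mp hσ).2
      obtain ⟨h3, h4⟩ := Finset.mem_filter.mp hy
      refine Finset.mem_filter.mpr ⟨Finset.mem_univ _, Finset.card_pos.mpr
        ⟨y, Finset.mem_filter.mpr ⟨h3, ?_⟩⟩⟩
      have : Subgroup.zpowers σ ≤ MulAction.stabilizer _ y := Subgroup.zpowers_le.mpr h4
      exact this (e ▸ Subgroup.mem_zpowers τ))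
    (fun σ => by
      exact_mod_cast orderOf_le hd0 hg hh' (N := N) (by omega) (by omega) (by omega) σ)
    (RootMod (itP f g N)) N₀ (fun p hp => ⟨hp.1, fun h3 Q hQ hpQ σ hσ => by
      obtain ⟨y, hy⟩ := hN₀ L (hs1 N le_rfl) p hp h3 Q hQ hpQ σ hσ
      exact Finset.mem_filter.mpr ⟨Finset.mem_univ _, Finset.card_pos.mpr
        ⟨y, Finset.mem_filter.mpr hy⟩⟩⟩) (half_pos hε)
  filter_upwards [h2, eventually_ge_atTop 0] with x hx hx0
  refine le_trans hx (mul_le_mul_of_nonneg_right ?_ hx0)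
  have hG : (0 : ℝ) < Nat.card (L ≃ₐ[ℚ] L) := by exact_mod_cast Nat.card_pos
  rw [← Nat.card_eq_fintype_card] at h1
  have : 2 * (D.factorial : ℝ) * (Finset.univ.filter fun σ : L ≃ₐ[ℚ] L =>
      0 < nfix (rts (itP f g N) L) σ).card / Nat.card (L ≃ₐ[ℚ] L) ≤ ε / 2 := by
    rw [div_le_iff₀ hG]
    refine (mul_le_mul_of_nonneg_left h1 (by positivity)).trans (le_of_eq ?_)
    field_simp
    ring
  linarith

/-- primes at which the orbit of `α` meets a root of `g` -/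
def OrbMod (f g : ℚ[X]) (α : ℚ) : Set ℕ :=
  {p | p.Prime ∧ (∀ n, 0 ≤ padicValRat p ((fun x => f.eval x)^[n] α)) ∧
    ∃ n, 0 < padicValRat p (g.eval ((fun x => f.eval x)^[n] α))}

lemma eval_itP (n : ℕ) (a : ℚ) : (itP f g n).eval a = g.eval ((fun x => f.eval x)^[n] a) := by
  induction n generalizing a with
  | zero => rfl
  | succ n ih => rw [itP_succ, eval_comp, ih, Function.iterate_succ_apply]

lemma finite_padicValRat_pos (a : ℚ) : {p : ℕ | p.Prime ∧ 0 < padicValRat p a}.Finite := by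
  refine (Set.finite_Iic a.num.natAbs).subset fun p hp => ?_
  have h1 := hp.2
  rw [padicValRat_def, padicValInt] at h1
  have h2 : padicValNat p a.num.natAbs ≠ 0 := by omega
  have h3 : a.num.natAbs ≠ 0 := fun h => h2 (by rw [h, padicValNat_zero_right])
  exact Nat.le_of_dvd (Nat.pos_of_ne_zero h3) (dvd_of_one_le_padicValNat (by omega))

theorem small_orbMod (α : ℚ) (h : ∀ ε : ℝ, 0 < ε →
    ∃ N, ∀ᶠ x : ℝ in atTop, thetaS (RootMod (itP f g N)) x ≤ ε * x) : Small (OrbMod f g α) := by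
  refine small_of_approx fun ε hε => ?_
  obtain ⟨N, hN⟩ := h ε hε
  refine ⟨_, _, small_of_finite ((Set.finite_Iio N).biUnion fun n _ =>
    finite_padicValRat_pos (g.eval ((fun x => f.eval x)^[n] α))), ?_, hN⟩
  rintro p ⟨hp, h1, n, h2⟩
  rcases lt_or_ge n N with h | h
  · exact Or.inr (Set.mem_biUnion (x := n) h ⟨hp, h2⟩)
  · refine Or.inl ⟨hp, _, h1 (n - N), Or.inr ?_⟩
    rwa [eval_itP, ← Function.iterate_add_apply, Nat.add_sub_cancel' h]

end Pool.Agent.Lib.MP_41de88_nt
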