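import Mathlib

set_option autoImplicit false

open Polynomial NumberField IsDedekindDomain

namespace Pool.Agent.Lib.MP_41de88_nt

/-- The set `S(f, α)`: primes `p` at which `f` and `α` are `p`-integral and some `f^n(α)` is
congruent to a `P`-integral critical point of `f` in `K` modulo a prime `P` of `K` above `p`. -/
def critPrimes (f : ℚ[X]) (α : ℚ) (K : Type) [Field K] [NumberField K] : Set ℕ :=
  {p | p.Prime ∧ (∀ i, 0 ≤ padicValRat p (f.coeff i)) ∧ 0 ≤ padicValRat p α ∧
    ∃ (n : ℕ) (c : K) (P : HeightOneSpectrum (𝓞 K)), aeval c f.derivative = 0 ∧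
      (p : 𝓞 K) ∈ P.asIdeal ∧ P.valuation K c ≤ 1 ∧
      P.valuation K (algebraMap ℚ K ((fun x => f.eval x)^[n] α) - c) < 1}

end Pool.Agent.Lib.MP_41de88_nt
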