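import Pool.Agent.Lib.MP_41de88_nt.Tree
import Pool.Agent.Lib.helper22.Siegel
import Pool.Agent.Lib.helper22.ValPoly

set_option autoImplicit false

open Polynomial NumberField IsDedekindDomain WithZero

namespace Pool.Agent.Lib.MP_41de88_nt

open helper22.Val

/-- a property holds at every place above every large prime in every extension -/
def Ev (M : Type) [Field M]
    (Q : ∀ (L : Type) [Field L] [NumberField L], (M →+* L) → HeightOneSpectrum (𝓞 L) → Prop) :
    Prop :=
  ∃ N : ℕ, ∀ (L : Type) [Field L] [NumberField L] (φ : M →+* L) (p : ℕ), p.Prime → N < p →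
    ∀ w : HeightOneSpectrum (𝓞 L), (p : 𝓞 L) ∈ w.asIdeal → Q L φ w

section
variable {M : Type} [Field M]
  {Q R : ∀ (L : Type) [Field L] [NumberField L], (M →+* L) → HeightOneSpectrum (𝓞 L) → Prop}

lemma Ev.mono (h : Ev M Q)
    (hQ : ∀ (L : Type) [Field L] [NumberField L] φ w, Q L φ w → R L φ w) : Ev M R := by
  obtain ⟨N, hN⟩ := h
  exact ⟨N, fun L _ _ φ p hp hNp w hw => hQ L φ w (hN L φ p hp hNp w hw)⟩

lemma Ev.and (h1 : Ev M Q) (h2 : Ev M R) : Ev M fun L _ _ φ w => Q L φ w ∧ R L φ w := by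
  obtain ⟨N, hN⟩ := h1
  obtain ⟨N', hN'⟩ := h2
  exact ⟨max N N', fun L _ _ φ p hp hNp w hw => ⟨hN L φ p hp ((le_max_left _ _).trans_lt hNp) w hw,
    hN' L φ p hp ((le_max_right _ _).trans_lt hNp) w hw⟩⟩

lemma ev_forall {ι : Type*} {s : Set ι} (hs : s.Finite)
    {Q : ι → ∀ (L : Type) [Field L] [NumberField L], (M →+* L) → HeightOneSpectrum (𝓞 L) → Prop}
    (h : ∀ i ∈ s, Ev M (Q i)) : Ev M fun L _ _ φ w => ∀ i ∈ s, Q i L φ w := by
  choose! N hN using h
  obtain ⟨B, hB⟩ := (hs.image N).bddAbove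
  exact ⟨B, fun L _ _ φ p hp hNp w hw i hi =>
    hN i hi L φ p hp ((hB ⟨i, hi, rfl⟩).trans_lt hNp) w hw⟩

variable [NumberField M]

lemma ev_unit (a : M) : Ev M fun L _ _ φ w => a ≠ 0 → w.valuation L (φ a) = 1 := by
  by_cases ha : a = 0
  · exact ⟨0, fun _ _ _ _ _ _ _ _ _ h => absurd ha h⟩
  · obtain ⟨N, hN⟩ := exists_bound_unit ha
    exact ⟨N, fun L _ _ φ p hp hNp w hw _ => hN L φ p hp hNp w hw⟩

lemma ev_units {s : Set M} (hs : s.Finite) :
    Ev M fun L _ _ φ w => ∀ a ∈ s, a ≠ 0 → w.valuation L (φ a) = 1 :=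
  ev_forall hs fun a _ => ev_unit a

end

/-- good reduction of a rational polynomial -/
def GoodP {L Γ : Type*} [Field L] [Algebra ℚ L] [LinearOrderedCommGroupWithZero Γ]
    (v : Valuation L Γ) (P : ℚ[X]) : Prop :=
  IntP v (P.map (algebraMap ℚ L)) ∧ (P ≠ 0 → v (P.map (algebraMap ℚ L)).leadingCoeff = 1)

lemma ev_good {M : Type} [Field M] [NumberField M] (P : ℚ[X]) :
    Ev M fun L _ _ _ w => GoodP (w.valuation L) P := by
  refine (ev_units (M := M) ((P.coeffs.finite_toSet).image (algebraMap ℚ M))).mono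
    fun L _ _ φ w h => ?_
  have key : ∀ i, P.coeff i ≠ 0 → w.valuation L (algebraMap ℚ L (P.coeff i)) = 1 := by
    intro i hi
    have := h _ ⟨_, coeff_mem_coeffs hi, rfl⟩ (by simpa using hi)
    simpa using this
  refine ⟨fun i => ?_, fun hP => ?_⟩
  · rw [coeff_map]
    by_cases hi : P.coeff i = 0
    · simp [hi]
    · exact (key i hi).le
  · rw [leadingCoeff_map]
    exact key _ (leadingCoeff_ne_zero.mpr hP)

section
variable {L Γ : Type*} [Field L] [Algebra ℚ L] [LinearOrderedCommGroupWithZero Γ]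
  {v : Valuation L Γ} {P : ℚ[X]}

lemma GoodP.aeval_le (h : GoodP v P) {x : L} (hx : v x ≤ 1) : v (aeval x P) ≤ 1 := by
  rw [← eval_map_algebraMap]; exact h.1.eval hx

lemma GoodP.sub_lt (h : GoodP v P) {x y : L} (hx : v x ≤ 1) (hy : v y ≤ 1) (hxy : v (x - y) < 1) :
    v (aeval x P - aeval y P) < 1 := by
  rw [← eval_map_algebraMap, ← eval_map_algebraMap]; exact h.1.eval_sub_lt hx hy hxy

lemma GoodP.le_one (h : GoodP v P) (hd : P.natDegree ≠ 0) {x : L} (hx : v (aeval x P) ≤ 1) :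
    v x ≤ 1 := by
  rw [← eval_map_algebraMap] at hx
  exact h.1.le_one_of_eval (h.2 (ne_zero_of_natDegree_gt (Nat.pos_of_ne_zero hd)))
    (by rwa [natDegree_map]) hx

lemma GoodP.root_le_one (h : GoodP v P) (hP : P ≠ 0) {x : L} (hx : aeval x P = 0) : v x ≤ 1 := by
  refine h.le_one (fun hd => ?_) (by simp [hx])
  rw [eq_C_of_natDegree_eq_zero hd] at hx hP
  rw [aeval_C, map_eq_zero] at hx
  exact hP (by rw [hx, map_zero])

lemma GoodP.iterate_le (h : GoodP v P) {x : L} (hx : v x ≤ 1) (n : ℕ) :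
    v ((ev P L)^[n] x) ≤ 1 := by
  induction n with
  | zero => exact hx
  | succ n ih => rw [Function.iterate_succ_apply']; exact h.aeval_le ih

lemma GoodP.iterate_sub_lt (h : GoodP v P) {x y : L} (hx : v x ≤ 1) (hy : v y ≤ 1)
    (hxy : v (x - y) < 1) (n : ℕ) : v ((ev P L)^[n] x - (ev P L)^[n] y) < 1 := by
  induction n with
  | zero => exact hxy
  | succ n ih =>
    rw [Function.iterate_succ_apply', Function.iterate_succ_apply']
    exact h.sub_lt (h.iterate_le hx n) (h.iterate_le hy n) ih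

lemma GoodP.itP_root_le {f g : ℚ[X]} (hf : GoodP v f) (hg : GoodP v g) (hd : f.natDegree ≠ 0)
    (hg0 : g ≠ 0) {n : ℕ} {y : L} (hy : aeval y (itP f g n) = 0) : v y ≤ 1 := by
  rw [aeval_itP] at hy
  have := hg.root_le_one hg0 hy
  clear hy
  induction n generalizing y with
  | zero => exact this
  | succ n ih => exact hf.le_one hd (ih this)

lemma GoodP.exists_root_close (h : GoodP v P) (hP : P ≠ 0) (hs : (P.map (algebraMap ℚ L)).Splits)
    {a : L} (ha : v (aeval a P) < 1) : ∃ y, aeval y P = 0 ∧ v (a - y) < 1 := by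
  rw [← eval_map_algebraMap] at ha
  obtain ⟨y, h1, h2⟩ := helper22.Val.exists_root_close hs (h.2 hP) ha
  exact ⟨y, by rwa [eval_map_algebraMap] at h1, h2⟩

end

lemma ev_sep {M : Type} [Field M] [NumberField M] {P : ℚ[X]} (hP : P.Separable) :
    Ev M fun L _ _ _ w => ∀ x y : L, aeval x P = 0 → aeval y P = 0 →
      w.valuation L (x - y) < 1 → x = y := by
  obtain ⟨a, b, hab⟩ := hP
  have hP0 : P ≠ 0 := Separable.ne_zero ⟨a, b, hab⟩
  refine ((ev_good (M := M) P).and (ev_good b)).mono fun L _ _ _ w h x y hx hy hxy => ?_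
  by_contra hne
  have h1 := h.1.root_le_one hP0 hx
  have h2 := h.1.root_le_one hP0 hy
  have h3 := h.1.1.derivative_lt h1 h2 hne hxy
    (by rw [eval_map_algebraMap, eval_map_algebraMap, hx, hy])
  rw [derivative_map, eval_map_algebraMap] at h3
  have h4 := congrArg (fun Q => w.valuation L (aeval y Q)) hab
  simp only [map_add, map_mul, hy, mul_zero, zero_add, map_one] at h4
  exact (mul_lt_one_of_nonneg_of_lt_one_right (h.2.aeval_le h2) zero_le h3).ne h4

end Pool.Agent.Lib.MP_41de88_nt
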