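import Mathlib

set_option autoImplicit false

open Finset

namespace Pool.Agent.Lib.MP_41de88_nt

variable {G L : Type*} [Group G] [Fintype G] [MulAction G L] [DecidableEq L]

lemma sum_fix_le (V : Finset L) (hV : ∀ x ∈ V, ∀ y ∈ V, ∃ σ : G, σ • x = y) :
    ∑ σ : G, (V.filter fun y => σ • y = y).card ≤ Fintype.card G := by
  classical
  rcases V.eq_empty_or_nonempty with rfl | hne
  · simp
  have h1 : ∑ σ : G, (V.filter fun y => σ • y = y).card
      = ∑ y ∈ V, (univ.filter fun σ : G => σ • y = y).card := by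
    simp only [card_filter]
    exact sum_comm
  have h2 : ∀ y ∈ V, V.card * (univ.filter fun σ : G => σ • y = y).card ≤ Fintype.card G := by
    intro y hy
    have h3 := Nat.card_congr (MulAction.orbitProdStabilizerEquivGroup G y)
    rw [Nat.card_prod, Nat.card_eq_fintype_card (α := G)] at h3
    rw [← h3]
    refine Nat.mul_le_mul ?_ (le_of_eq ?_)
    · rw [Nat.card_coe_set_eq, ← Set.ncard_coe_finset]
      exact Set.ncard_le_ncard (fun z hz => hV y hy z hz) (Set.finite_range _)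
    · rw [Nat.card_eq_fintype_card, ← Fintype.card_subtype]
      exact Fintype.card_congr (Equiv.refl _)
  rw [h1]
  have h4 := sum_le_sum h2
  rw [← mul_sum, sum_const, smul_eq_mul] at h4
  exact Nat.le_of_mul_le_mul_left h4 hne.card_pos

open scoped Classical in
/-- elements of `A` with a fixed point in `V` -/
noncomputable def fixSet (A : Subgroup G) (V : Finset L) : Finset G :=
  univ.filter fun σ => σ ∈ A ∧ ∃ y ∈ V, σ • y = y

lemma mem_fixSet {A : Subgroup G} {V : Finset L} {σ : G} :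
    σ ∈ fixSet A V ↔ σ ∈ A ∧ ∃ y ∈ V, σ • y = y := by simp [fixSet]

lemma fixSet_subset {A : Subgroup G} {V W : Finset L} {f : L → L}
    (hf : ∀ (σ : G) x, f (σ • x) = σ • f x) (hWV : ∀ y ∈ W, f y ∈ V) :
    fixSet A W ⊆ fixSet A V := by
  intro σ hσ
  obtain ⟨h1, y, hy, h2⟩ := mem_fixSet.mp hσ
  exact mem_fixSet.mpr ⟨h1, f y, hWV y hy, by rw [← hf, h2]⟩

lemma kill_step (A : Subgroup G) {V W : Finset L} {f : L → L} {d M : ℕ} (hd : 1 ≤ d) (hM : 1 ≤ M)
    (hf : ∀ (σ : G) x, f (σ • x) = σ • f x) (hWV : ∀ y ∈ W, f y ∈ V)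
    (hVG : ∀ (σ : G), ∀ y ∈ V, σ • y ∈ V) (hWG : ∀ (σ : G), ∀ y ∈ W, σ • y ∈ W)
    (hfib : ∀ x, (W.filter fun y => f y = x).card ≤ d)
    (hV : ∀ x ∈ V, ∀ y ∈ V, ∃ σ : G, σ • x = y)
    (hkill : ∀ σ ∈ A, ∃ h ∈ A, (∀ x ∈ V, h • x = x) ∧ ∀ y ∈ W, h • σ • y ≠ y) :
    ((fixSet A V).card - (Fintype.card G : ℝ) / M) / ((d * M) ^ (d * M) : ℕ)
      ≤ (fixSet A V).card - (fixSet A W).card := by
  classical
  set Q := (d * M) ^ (d * M) with hQ
  have hdM : 1 ≤ d * M := Nat.mul_pos hd hM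
  have hQ0 : 0 < Q := pow_pos hdM _
  set H : Finset G := univ.filter fun h => h ∈ A ∧ ∀ x ∈ V, h • x = x with hH
  have hHm : ∀ h, h ∈ H ↔ h ∈ A ∧ ∀ x ∈ V, h • x = x := by simp [hH]
  have hHinv : ∀ h ∈ H, h⁻¹ ∈ H := by
    intro h hh
    obtain ⟨h1, h2⟩ := (hHm h).mp hh
    exact (hHm _).mpr ⟨inv_mem h1, fun x hx => by rw [inv_smul_eq_iff, h2 x hx]⟩
  have hHmul : ∀ h ∈ H, ∀ k ∈ H, h * k ∈ H := by
    intro h hh k hk
    obtain ⟨h1, h2⟩ := (hHm h).mp hh
    obtain ⟨k1, k2⟩ := (hHm k).mp hk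
    exact (hHm _).mpr ⟨mul_mem h1 k1, fun x hx => by rw [mul_smul, k2 x hx, h2 x hx]⟩
  have hH0 : 0 < H.card := card_pos.mpr ⟨1, (hHm _).mpr ⟨one_mem _, fun x _ => one_smul _ _⟩⟩
  set C := (fixSet A V).filter fun σ => (V.filter fun y => σ • y = y).card ≤ M with hC
  have hfixeq : ∀ h ∈ H, ∀ σ : G, ∀ x ∈ V, ((h * σ) • x = x ↔ σ • x = x) := by
    intro h hh σ x hx
    rw [mul_smul, ((hHm h).mp hh).2 _ (hVG σ x hx)]
  -- Markov
  have hMarkov : ((fixSet A V).card : ℝ) - (Fintype.card G : ℝ) / M ≤ C.card := by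
    have h1 := card_filter_add_card_filter_not (s := fixSet A V)
      (fun σ => (V.filter fun y => σ • y = y).card ≤ M)
    have h2 : ((fixSet A V).filter fun σ => ¬ (V.filter fun y => σ • y = y).card ≤ M).card * M
        ≤ Fintype.card G := by
      refine le_trans ?_ (sum_fix_le V hV)
      rw [← smul_eq_mul, ← sum_const]
      refine (sum_le_sum fun σ hσ => (not_le.mp (mem_filter.mp hσ).2).le).trans ?_
      exact sum_le_sum_of_subset (subset_univ _)
    have h3 : (((fixSet A V).filter fun σ => ¬ (V.filter fun y => σ • y = y).card ≤ M).card : ℝ)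
        ≤ (Fintype.card G : ℝ) / M := by
      rw [le_div_iff₀ (by exact_mod_cast hM)]; exact_mod_cast h2
    have h4 : ((fixSet A V).card : ℝ) = C.card + (((fixSet A V).filter fun σ =>
      ¬ (V.filter fun y => σ • y = y).card ≤ M).card : ℝ) := by exact_mod_cast h1.symm
    linarith
  -- killing a positive fraction of each coset
  have hfrac : ∀ σ ∈ C, H.card ≤ Q * (H.filter fun h => h * σ ∉ fixSet A W).card := by
    intro σ hσ
    obtain ⟨hσ1, hσ2⟩ := mem_filter.mp hσ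
    obtain ⟨h0, h0A, h0V, h0W⟩ := hkill σ (mem_fixSet.mp hσ1).1
    have h0H : h0 ∈ H := (hHm _).mpr ⟨h0A, h0V⟩
    set U := W.filter fun y => σ • f y = f y with hU
    have hUc : U.card ≤ d * M := by
      refine (card_le_mul_card_image_of_maps_to (f := f) (t := V.filter fun y => σ • y = y)
        (fun y hy => ?_) d fun b _ => ?_).trans (Nat.mul_le_mul_left _ hσ2)
      · exact mem_filter.mpr ⟨hWV y (mem_filter.mp hy).1, (mem_filter.mp hy).2⟩
      · refine le_trans (card_le_card fun y hy => ?_) (hfib b)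
        simp only [hU, mem_filter] at hy ⊢
        exact ⟨hy.1.1, hy.2⟩
    have hUH : ∀ h ∈ H, ∀ y ∈ U, h • y ∈ U := by
      intro h hh y hy
      obtain ⟨h1, h2⟩ := mem_filter.mp hy
      refine mem_filter.mpr ⟨hWG h y h1, ?_⟩
      rw [hf, ((hHm h).mp hh).2 _ (hWV y h1), h2]
    set HU := H.filter fun h => ∀ y ∈ U, h • y = y with hHU
    have h1 : H.card ≤ HU.card * Q := by
      let φ : G → (U → U) := fun h y => if hy : h • (y : L) ∈ U then ⟨_, hy⟩ else y
      refine (card_le_mul_card_image_of_maps_to (f := φ) (t := univ) (fun _ _ => mem_univ _)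
        HU.card fun b _ => ?_).trans (Nat.mul_le_mul_left _ ?_)
      · rcases (H.filter fun h => φ h = b).eq_empty_or_nonempty with he | ⟨k, hk⟩
        · rw [he]; simp
        obtain ⟨hk1, hk2⟩ := mem_filter.mp hk
        refine card_le_card_of_injOn (fun h => k⁻¹ * h) (fun h hh => ?_)
          fun _ _ _ _ h => mul_left_cancel h
        obtain ⟨hh1, hh2⟩ := mem_filter.mp hh
        refine mem_filter.mpr ⟨hHmul _ (hHinv k hk1) _ hh1, fun y hy => ?_⟩
        have := congrFun (hh2.trans hk2.symm) ⟨y, hy⟩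
        simp only [φ, dif_pos (hUH h hh1 y hy), dif_pos (hUH k hk1 y hy), Subtype.mk.injEq] at this
        rw [mul_smul, this, inv_smul_smul]
      · rw [card_univ, Fintype.card_fun, Fintype.card_coe]
        exact (Nat.pow_le_pow_left hUc _).trans (Nat.pow_le_pow_right hdM hUc)
    refine h1.trans ?_
    rw [mul_comm]
    refine Nat.mul_le_mul_left _ (card_le_card_of_injOn (fun k => k * h0) (fun k hk => ?_)
      fun _ _ _ _ h => mul_right_cancel h)
    obtain ⟨hk1, hk2⟩ := mem_filter.mp hk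
    refine mem_filter.mpr ⟨hHmul _ hk1 _ h0H, fun hmem => ?_⟩
    obtain ⟨-, y, hy, hy2⟩ := mem_fixSet.mp hmem
    have hyU : y ∈ U := by
      refine mem_filter.mpr ⟨hy, (hfixeq _ (hHmul _ hk1 _ h0H) σ _ (hWV y hy)).mp ?_⟩
      rw [← hf, hy2]
    apply h0W y hy
    rw [mul_smul, mul_smul, smul_eq_iff_eq_inv_smul] at hy2
    rw [hy2, inv_smul_eq_iff, hk2 y hyU]
  have hdouble : ∑ σ ∈ C, (H.filter fun h => h * σ ∉ fixSet A W).card
      ≤ H.card * (fixSet A V \ fixSet A W).card := by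
    simp only [card_filter]
    rw [sum_comm, ← smul_eq_mul, ← sum_const]
    refine sum_le_sum fun h hh => ?_
    rw [← card_filter]
    refine card_le_card_of_injOn (fun σ => h * σ) (fun σ hσ => ?_) fun _ _ _ _ h => mul_left_cancel h
    obtain ⟨hσ1, hσ2⟩ := mem_filter.mp hσ
    obtain ⟨h1, y, hy, h2⟩ := mem_fixSet.mp (mem_filter.mp hσ1).1
    exact mem_sdiff.mpr ⟨mem_fixSet.mpr ⟨mul_mem ((hHm h).mp hh).1 h1, y, hy,
      (hfixeq h hh σ y hy).mpr h2⟩, hσ2⟩
  have hfin : C.card ≤ Q * (fixSet A V \ fixSet A W).card := by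
    have h1 := sum_le_sum hfrac
    rw [sum_const, smul_eq_mul, ← mul_sum] at h1
    have h2 := h1.trans (Nat.mul_le_mul_left _ hdouble)
    rw [mul_comm, mul_left_comm] at h2
    exact Nat.le_of_mul_le_mul_left h2 hH0
  have hsub := fixSet_subset (A := A) hf hWV
  rw [card_sdiff_of_subset hsub] at hfin
  rw [div_le_iff₀ (by exact_mod_cast hQ0), ← Nat.cast_sub (card_le_card hsub), mul_comm]
  exact hMarkov.trans (by exact_mod_cast hfin)

end Pool.Agent.Lib.MP_41de88_nt

namespace Pool.Agent.Lib.MP_41de88_nt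

universe u v in
theorem fix_small (d : ℕ) (hd : 1 ≤ d) {ε : ℝ} (hε : 0 < ε) : ∃ R : ℕ,
    ∀ (G : Type u) (L : Type v) [Group G] [Fintype G] [MulAction G L] [DecidableEq L]
      (A : Subgroup G) (V : ℕ → Finset L) (f : L → L) (N : ℕ) (good : Finset ℕ),
      (∀ (σ : G) x, f (σ • x) = σ • f x) → (∀ n, ∀ y ∈ V (n + 1), f y ∈ V n) →
      (∀ n (σ : G), ∀ y ∈ V n, σ • y ∈ V n) →
      (∀ n x, ((V (n + 1)).filter fun y => f y = x).card ≤ d) →
      (∀ n, ∀ x ∈ V n, ∀ y ∈ V n, ∃ σ : G, σ • x = y) →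
      (∀ n ∈ good, n < N ∧
        ∀ σ ∈ A, ∃ h ∈ A, (∀ x ∈ V n, h • x = x) ∧ ∀ y ∈ V (n + 1), h • σ • y ≠ y) →
      R ≤ good.card → ((fixSet A (V N)).card : ℝ) ≤ ε * Fintype.card G := by
  obtain ⟨M, hM⟩ := exists_nat_ge (max 1 (2 / ε))
  have hM1 : 1 ≤ M := by exact_mod_cast (le_max_left _ _).trans hM
  have hM2 : 2 / ε ≤ M := (le_max_right _ _).trans hM
  set Q : ℕ := (d * M) ^ (d * M) with hQ
  have hQ0 : (0 : ℝ) < Q := by exact_mod_cast pow_pos (Nat.mul_pos hd hM1) _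
  obtain ⟨R, hR⟩ := exists_nat_gt (2 * Q / ε)
  refine ⟨R, fun G L _ _ _ _ A V f N good hf hWV hVG hfib hV hkill hcard => ?_⟩
  by_contra hcon
  rw [not_le] at hcon
  set b : ℕ → ℝ := fun n => (fixSet A (V n)).card with hb
  have hG : (0 : ℝ) < Fintype.card G := by exact_mod_cast Fintype.card_pos
  have hmono : Antitone b := antitone_nat_of_succ_le fun n =>
    Nat.cast_le.mpr (card_le_card (fixSet_subset hf (hWV n)))
  have hstep : ∀ n ∈ good, ε * Fintype.card G / (2 * Q) ≤ b n - b (n + 1) := by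
    intro n hn
    refine le_trans ?_ (kill_step A hd hM1 hf (hWV n) (hVG n) (hVG (n + 1)) (hfib n) (hV n)
      (hkill n hn).2)
    rw [← div_div]
    refine div_le_div_of_nonneg_right ?_ hQ0.le
    have h1 : b N ≤ b n := hmono (hkill n hn).1.le
    have h2 : (Fintype.card G : ℝ) / M ≤ ε * Fintype.card G / 2 := by
      rw [div_le_iff₀ hε] at hM2
      rw [div_le_div_iff₀ (by exact_mod_cast hM1) two_pos]
      nlinarith
    simp only [hb] at h1
    linarith
  have h1 : ∑ n ∈ range N, (b n - b (n + 1)) = b 0 - b N := sum_range_sub' b N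
  have h2 : ∑ n ∈ good, (b n - b (n + 1)) ≤ ∑ n ∈ range N, (b n - b (n + 1)) :=
    sum_le_sum_of_subset_of_nonneg (fun n hn => mem_range.mpr (hkill n hn).1)
      fun n _ _ => sub_nonneg.mpr (hmono n.le_succ)
  have h3 := sum_le_sum hstep
  rw [sum_const, nsmul_eq_mul] at h3
  have h4 : b 0 ≤ Fintype.card G := Nat.cast_le.mpr (card_le_univ _)
  have h5 : 0 ≤ b N := Nat.cast_nonneg _
  have h6 : (R : ℝ) ≤ good.card := by exact_mod_cast hcard
  have h7 : (R : ℝ) * (ε * Fintype.card G / (2 * Q)) ≤ Fintype.card G := by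
    have := mul_le_mul_of_nonneg_right h6 (show 0 ≤ ε * Fintype.card G / (2 * Q) by positivity)
    linarith
  rw [div_lt_iff₀ hε] at hR
  rw [← mul_div_assoc, div_le_iff₀ (by positivity)] at h7
  nlinarith

end Pool.Agent.Lib.MP_41de88_nt
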