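import Pool.Agent.Lib.MP_41de88_nt.Ev

set_option autoImplicit false

open Polynomial NumberField IsDedekindDomain WithZero

namespace Pool.Agent.Lib.MP_41de88_nt

open helper22.Val

/-- the forward orbit is infinite -/
def Wand (f : ℚ[X]) {M : Type*} [Field M] [Algebra ℚ M] (c : M) : Prop :=
  (Set.range fun n => (ev f M)^[n] c).Infinite

/-- some critical point wanders, and wandering critical points are simple and alone over their
critical value -/
def CritOK (f : ℚ[X]) (M : Type*) [Field M] [Algebra ℚ M] : Prop :=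
  (∃ c : M, aeval c f.derivative = 0 ∧ Wand f c) ∧
  ∀ c : M, aeval c f.derivative = 0 → Wand f c → aeval c f.derivative.derivative ≠ 0 ∧
    ∀ c' : M, aeval c' f.derivative = 0 → aeval c' f = aeval c f → c' = c

/-- existence of an element acting on each fibre as a transposition or trivially -/
def GoodLevel (f g : ℚ[X]) (L : Type) [Field L] [Algebra ℚ L] (n : ℕ) : Prop :=
  ∃ τ ∈ fixer (L ≃ₐ[ℚ] L) (rts (itP f g n) L), (∃ y ∈ rts (itP f g (n + 1)) L, τ • y ≠ y) ∧
    ∀ y ∈ rts (itP f g (n + 1)) L, τ • y ≠ y → ∀ z ∈ rts (itP f g (n + 1)) L,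
      ev f L z = ev f L y → τ • z ≠ z → z = y ∨ z = τ • y

variable {f g : ℚ[X]}

lemma derivative_ne_zero' (hd : f.natDegree ≠ 0) : f.derivative ≠ 0 := fun h =>
  hd (derivative_eq_zero.mp h)

lemma itP_crit_ne {n : ℕ} (hirr : Irreducible (itP f g (n + 1)))
    {M : Type*} [Field M] [Algebra ℚ M] {c : M} (hc : aeval c f.derivative = 0) :
    aeval c (itP f g (n + 1)) ≠ 0 := by
  intro h
  have h1 := hirr.separable.aeval_derivative_ne_zero h
  rw [itP_succ, derivative_comp, map_mul, hc, zero_mul] at h1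
  exact h1 rfl

/-- the data at a place which is good for the critical points -/
structure Loc (f g : ℚ[X]) {M L Γ : Type*} [Field M] [Algebra ℚ M] [Field L] [Algebra ℚ L]
    [LinearOrderedCommGroupWithZero Γ] (φ : M →+* L) (v : Valuation L Γ) : Prop where
  gf : GoodP v f
  gg : GoodP v g
  gd : GoodP v f.derivative
  sep : ∀ x y : M, aeval x f.derivative = 0 → aeval y f.derivative = 0 →
    v (φ x - φ y) < 1 → x = y
  val : ∀ x y : M, aeval x f.derivative = 0 → aeval y f.derivative = 0 →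
    v (ev f L (φ x) - ev f L (φ y)) < 1 → aeval x f = aeval y f
  wand : ∀ x : M, aeval x f.derivative = 0 → ∀ n, v (aeval (φ x) (itP f g (n + 1))) < 1 →
    Wand f x
  sec : ∀ x : M, aeval x f.derivative = 0 → Wand f x →
    v (aeval (φ x) f.derivative.derivative) = 1

lemma ev_loc {M : Type} [Field M] [NumberField M] (hd : f.natDegree ≠ 0)
    (hirr : ∀ n, Irreducible (itP f g n)) (hc : CritOK f M) :
    Ev M fun L _ _ φ w => Loc f g φ (w.valuation L) := by
  have hf' := derivative_ne_zero' hd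
  have hfin : {x : M | aeval x f.derivative = 0}.Finite :=
    (rts f.derivative M).finite_toSet.subset fun x hx => (mem_rts hf').mpr hx
  have h1 := ev_units ((hfin.prod hfin).image fun z => z.1 - z.2)
  have h2 := ev_units ((hfin.prod hfin).image fun z => aeval z.1 f - aeval z.2 f)
  have h3 := ev_units (hfin.image fun z => aeval z f.derivative.derivative)
  have h4 : {z : M | ∃ x, aeval x f.derivative = 0 ∧ ¬ Wand f x ∧ ∃ n,
      z = aeval x (itP f g n)}.Finite := by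
    refine ((hfin.subset (t := {x | aeval x f.derivative = 0 ∧ ¬ Wand f x}) fun x hx => hx.1).biUnion
      fun x hx => (Set.not_infinite.mp hx.2).image fun y => aeval y g).subset ?_
    rintro _ ⟨x, h1, h2, n, rfl⟩
    exact Set.mem_biUnion (x := x) ⟨h1, h2⟩ ⟨_, ⟨n, rfl⟩, (aeval_itP n x).symm⟩
  refine ((((((ev_good f).and (ev_good g)).and (ev_good f.derivative)).and h1).and h2).and
    (h3.and (ev_units h4))).mono fun L _ _ φ w h => ?_
  obtain ⟨⟨⟨⟨⟨e1, e2⟩, e3⟩, e4⟩, e5⟩, e6, e7⟩ := h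
  refine ⟨e1, e2, e3, fun x y hx hy h => ?_, fun x y hx hy h => ?_, fun x hx n h => ?_,
    fun x hx h => ?_⟩
  · by_contra hne
    rw [← map_sub] at h
    exact h.ne (e4 _ ⟨(x, y), ⟨hx, hy⟩, rfl⟩ (sub_ne_zero.mpr hne))
  · by_contra hne
    rw [← map_ev, ← map_ev, ← map_sub] at h
    exact h.ne (e5 _ ⟨(x, y), ⟨hx, hy⟩, rfl⟩ (sub_ne_zero.mpr hne))
  · by_contra hne
    rw [← map_aeval_ringHom] at h
    exact h.ne (e7 _ ⟨x, hx, hne, _, rfl⟩ (itP_crit_ne (hirr _) hx))
  · rw [← map_aeval_ringHom]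
    exact e6 _ ⟨x, hx, rfl⟩ (hc.2 x hx h).1

section
variable {M L : Type} [Field M] [Algebra ℚ M] [Field L] [NumberField L] {φ : M →+* L}
  {w : HeightOneSpectrum (𝓞 L)}

lemma Loc.crit_fixed (h : Loc f g φ (w.valuation L)) (hd : f.natDegree ≠ 0)
    (hs : (f.derivative.map (algebraMap ℚ M)).Splits) {τ : L ≃ₐ[ℚ] L}
    (hτ : τ ∈ w.asIdeal.inertia (L ≃ₐ[ℚ] L)) {c : M} (hc : aeval c f.derivative = 0) :
    τ • φ c = φ c := by
  have hf' := derivative_ne_zero' hd
  have h1 : aeval (φ c) f.derivative = 0 := by rw [← map_aeval_ringHom, hc, map_zero]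
  obtain ⟨c', h2, h3⟩ := exists_preimage_root φ hf' hs (y := τ • φ c)
    (by rw [smul_aeval, h1, smul_zero])
  rw [← h3, h.sep c' c h2 hc (h3 ▸ val_smul_sub_lt hτ (h.gd.root_le_one hf' h1))]

lemma Loc.swap (h : Loc f g φ (w.valuation L)) (hd : f.natDegree ≠ 0) (hg : g ≠ 0)
    (hs : (f.derivative.map (algebraMap ℚ M)).Splits) (hc : CritOK f M) {τ : L ≃ₐ[ℚ] L}
    (hτ : τ ∈ w.asIdeal.inertia (L ≃ₐ[ℚ] L)) {n : ℕ}
    (hfix : τ ∈ fixer (L ≃ₐ[ℚ] L) (rts (itP f g n) L)) :
    ∀ y ∈ rts (itP f g (n + 1)) L, τ • y ≠ y → ∀ z ∈ rts (itP f g (n + 1)) L,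
      ev f L z = ev f L y → τ • z ≠ z → z = y ∨ z = τ • y := by
  have hf' := derivative_ne_zero' hd
  have hsL : (f.derivative.map (algebraMap ℚ L)).Splits := hs.of_algHom φ.toRatAlgHom
  have key : ∀ y ∈ rts (itP f g (n + 1)) L, τ • y ≠ y → w.valuation L y ≤ 1 ∧
      ev f L (τ • y) = ev f L y ∧ ∃ c : M, aeval c f.derivative = 0 ∧ Wand f c ∧
        w.valuation L (y - φ c) < 1 := by
    intro y hy hne
    rw [mem_rts (itP_ne_zero hd hg _)] at hy
    have h1 := h.gf.itP_root_le h.gg hd hg hy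
    have h2 : ev f L (τ • y) = ev f L y := by
      rw [smul_ev]
      exact hfix _ (by rwa [mem_rts (itP_ne_zero hd hg _), ← aeval_itP_succ])
    have h3 := h.gf.1.derivative_lt ((val_smul hτ y).trans_le h1) h1 hne (val_smul_sub_lt hτ h1)
      (by rwa [← ev_eq, ← ev_eq])
    rw [derivative_map, eval_map_algebraMap] at h3
    obtain ⟨c, h4, h5⟩ := h.gd.exists_root_close hf' hsL h3
    obtain ⟨c, h6, rfl⟩ := exists_preimage_root φ hf' hs h4
    refine ⟨h1, h2, c, h6, h.wand c h6 n ?_, h5⟩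
    have h7 := h.gd.root_le_one hf' h4
    have := h.gg.sub_lt (h.gf.iterate_le h7 (n + 1)) (h.gf.iterate_le h1 (n + 1))
      (h.gf.iterate_sub_lt h7 h1 (by rwa [Valuation.map_sub_swap]) (n + 1))
    rwa [← aeval_itP, ← aeval_itP, hy, sub_zero] at this
  intro y hy hne z hz hzy hne'
  obtain ⟨h1, h2, c, h3, h4, h5⟩ := key y hy hne
  obtain ⟨h1', -, c', h3', -, h5'⟩ := key z hz hne'
  have hc1 : w.valuation L (φ c) ≤ 1 := val_le_of_sub_lt h1 (by rwa [Valuation.map_sub_swap])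
  have hc2 : w.valuation L (φ c') ≤ 1 := val_le_of_sub_lt h1' (by rwa [Valuation.map_sub_swap])
  have h6 : c' = c := by
    refine (hc.2 c h3 h4).2 c' h3' (h.val c' c h3' h3 ?_)
    have e1 := h.gf.sub_lt h1 hc1 h5
    have e2 := h.gf.sub_lt h1' hc2 h5'
    have := Valuation.map_sub_lt _ e1 e2
    rwa [show aeval z f = aeval y f from hzy, sub_sub_sub_cancel_left] at this
  subst h6
  by_contra hcon
  rw [not_or] at hcon
  have h7 := h.gf.1.derivative_two_lt ((val_smul hτ y).trans_le h1) h1 h1' hne (Ne.symm hcon.2)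
    hcon.1 (val_smul_sub_lt hτ h1)
    (by have := Valuation.map_sub_lt _ h5' h5; rwa [sub_sub_sub_cancel_right] at this)
    (by rwa [← ev_eq, ← ev_eq]) (by rwa [← ev_eq, ← ev_eq])
  have h8 := h.gf.1.derivative.derivative.eval_sub_lt hc1 h1 (by rwa [Valuation.map_sub_swap])
  have h9 := val_lt_of_sub_lt h7 h8
  rw [derivative_map, derivative_map, eval_map_algebraMap] at h9
  exact h9.ne (h.sec _ h3 h4)

lemma dvd_log_mul {m : ℤ} {x y : L} (hx : m ∣ log (w.valuation L x))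
    (hy : m ∣ log (w.valuation L y)) : m ∣ log (w.valuation L (x * y)) := by
  rcases eq_or_ne x 0 with rfl | h1
  · simp
  rcases eq_or_ne y 0 with rfl | h2
  · simp
  rw [map_mul, log_mul (val_ne_zero h1) (val_ne_zero h2)]
  exact dvd_add hx hy

lemma dvd_log_prod {m : ℤ} {s : Multiset L} (h : ∀ x ∈ s, m ∣ log (w.valuation L x)) :
    m ∣ log (w.valuation L s.prod) :=
  Multiset.prod_induction (fun x => m ∣ log (w.valuation L x)) s (fun _ _ => dvd_log_mul)
    (by simp) h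

lemma Loc.even [IsGalois ℚ L] (h : Loc f g φ (w.valuation L)) (hd : f.natDegree ≠ 0) (hg : g ≠ 0)
    (hs : (f.derivative.map (algebraMap ℚ M)).Splits) {c : M} (hc : aeval c f.derivative = 0)
    (hw : Wand f c) {p : ℕ} (hp : p.Prime) (hpw : (p : 𝓞 L) ∈ w.asIdeal) {b : ℕ}
    (hsp : ∀ j ≤ b, ((itP f g j).map (algebraMap ℚ L)).Splits)
    (hfix : ∀ j ≤ b, w.asIdeal.inertia (L ≃ₐ[ℚ] L) ≤ fixer (L ≃ₐ[ℚ] L) (rts (itP f g j) L))
    (m k : ℕ) (hmk : k + m + 1 ≤ b) (t : L) (ht : aeval t (itP f g k) = 0) :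
    2 * log (w.valuation L p) ∣ log (w.valuation L ((ev f L)^[m + 1] (φ c) - t)) := by
  have hf' := derivative_ne_zero' hd
  have hf0 : f ≠ 0 := ne_zero_of_natDegree_gt (Nat.pos_of_ne_zero hd)
  have hc' : aeval (φ c) f.derivative = 0 := by rw [← map_aeval_ringHom, hc, map_zero]
  have hc1 := h.gd.root_le_one hf' hc'
  have hlead : ∀ t : L, w.valuation L (f.map (algebraMap ℚ L) - C t).leadingCoeff = 1 := by
    intro t
    rw [leadingCoeff_sub_of_degree_lt, h.gf.2 hf0]
    refine degree_C_le.trans_lt ?_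
    rw [degree_map]
    exact natDegree_pos_iff_degree_pos.mp (Nat.pos_of_ne_zero hd)
  have hspl : ∀ k, k + 1 ≤ b → ∀ t : L, aeval t (itP f g k) = 0 →
      (f.map (algebraMap ℚ L) - C t).Splits := fun k hk t ht =>
    splits_sub_C hd (itP_ne_zero hd hg k) (by rw [← itP_succ]; exact hsp _ hk) ht
  induction m generalizing k t with
  | zero =>
    have ht1 := h.gf.itP_root_le h.gg hd hg ht
    rw [zero_add, Function.iterate_one]
    rcases (Valuation.map_sub_le _ (h.gf.aeval_le hc1) ht1).eq_or_lt with e | e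
    · rw [ev, e]; simp
    obtain ⟨y, h1, h2⟩ := helper22.Val.exists_root_close (hspl k hmk t ht) (hlead t) (a := φ c)
      (by rwa [eval_sub, eval_C, eval_map_algebraMap])
    rw [eval_sub, eval_C, sub_eq_zero] at h1
    have h3 := h.gf.1.val_sub_eq_sq (y := y) hc1 (by rwa [derivative_map, eval_map_algebraMap])
      (by rw [derivative_map, derivative_map, eval_map_algebraMap]; exact h.sec c hc hw)
      (by rwa [Valuation.map_sub_swap])
    rw [Valuation.map_sub_swap, ev_eq, ← h1, h3, log_pow, nsmul_eq_mul, Nat.cast_ofNat]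
    refine mul_dvd_mul_left _ (log_prime_dvd_log_val (G := L ≃ₐ[ℚ] L) hp hpw fun σ hσ => ?_)
    rw [smul_sub, h.crit_fixed hd hs hσ hc, hfix (k + 1) hmk hσ y]
    rw [mem_rts (itP_ne_zero hd hg _), aeval_itP_succ, ev_eq, h1, ht]
  | succ m ih =>
    have h1 := (hspl k (by omega) t ht).eval_eq_prod_roots ((ev f L)^[m + 1] (φ c))
    rw [eval_sub, eval_C, ← ev_eq, ← Function.iterate_succ_apply' (ev f L)] at h1
    rw [h1]
    refine dvd_log_mul (by rw [hlead]; simp) (dvd_log_prod fun x hx => ?_)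
    obtain ⟨y, hy, rfl⟩ := Multiset.mem_map.mp hx
    refine ih (k + 1) (by omega) y ?_
    have := isRoot_of_mem_roots hy
    rw [IsRoot, eval_sub, eval_C, sub_eq_zero] at this
    rw [aeval_itP_succ, ev_eq, this, ht]

end

lemma finite_places_le {M : Type*} [Field M] [NumberField M] (N : ℕ) :
    {v : HeightOneSpectrum (𝓞 M) | ∃ p ≤ N, p.Prime ∧ (p : 𝓞 M) ∈ v.asIdeal}.Finite := by
  refine ((Set.finite_Iic N).biUnion fun p _ => finite_val_ne_one (L := M) (a := (max p 1 : ℕ))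
    (Nat.cast_ne_zero.mpr (by omega))).subset ?_
  rintro v ⟨p, h1, h2, h3⟩
  refine Set.mem_biUnion (x := p) h1 ?_
  rw [max_eq_left h2.one_le]
  exact ((val_natCast_lt_iff v p).mpr h3).ne

lemma Wand.injective {M : Type*} [Field M] [Algebra ℚ M] {c : M} (h : Wand f c) (k : ℕ) :
    (Set.range fun n => (ev f M)^[n + k] c).Infinite := by
  intro hfin
  refine h ((hfin.union ((Set.finite_Iio k).image fun n => (ev f M)^[n] c)).subset ?_)
  rintro _ ⟨n, rfl⟩
  rcases lt_or_ge n k with h | h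
  · exact Or.inr ⟨n, h, rfl⟩
  · exact Or.inl ⟨n - k, by simp only [Nat.sub_add_cancel h]⟩

theorem exists_level (hd : 3 ≤ f.natDegree) (hirr : ∀ n, Irreducible (itP f g n))
    (hc : ∀ (M : Type) [Field M] [NumberField M], (f.derivative.map (algebraMap ℚ M)).Splits →
      CritOK f M) (a : ℕ) :
    ∃ b, ∀ (L : Type) [Field L] [NumberField L] [IsGalois ℚ L],
      (f.derivative.map (algebraMap ℚ L)).Splits →
      (∀ j ≤ b, ((itP f g j).map (algebraMap ℚ L)).Splits) →
        ∃ n, a ≤ n ∧ n < b ∧ GoodLevel f g L n := by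
  have hd0 : f.natDegree ≠ 0 := by omega
  have hf' := derivative_ne_zero' hd0
  have hg : g ≠ 0 := (hirr 0).ne_zero
  let M := (bigP f g f.derivative 1).SplittingField
  have : NumberField M := NumberField.of_module_finite ℚ M
  obtain ⟨hs, hs1⟩ := (splits_bigP_iff (L := M) hd0 hg hf' 1).mp (SplittingField.splits _)
  have hcM := hc M hs
  obtain ⟨N, hN⟩ := (ev_loc hd0 hirr hcM).and (ev_forall (M := M) (Set.finite_Iic a)
    fun j _ => ev_sep (hirr j).separable)
  obtain ⟨c, hc1, hc2⟩ := hcM.1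
  obtain ⟨t1, h1, t2, h2, t3, h3, h12, h13, h23⟩ : ∃ a ∈ rts (itP f g 1) M,
      ∃ b ∈ rts (itP f g 1) M, ∃ c ∈ rts (itP f g 1) M, a ≠ b ∧ a ≠ c ∧ b ≠ c := by
    rw [← Finset.two_lt_card, card_rts (hirr 1).separable (hs1 1 le_rfl), natDegree_itP, pow_one]
    have := (hirr 0).natDegree_pos
    rw [itP_zero] at this
    nlinarith
  obtain ⟨_, ⟨m, rfl⟩, hm⟩ := (hc2.injective 1).exists_notMem_finite
    (siegel_three _ (finite_places_le (M := M) N) le_rfl h12 h13 h23)
  have hbig : ∀ v : HeightOneSpectrum (𝓞 M), v ∉ {v : HeightOneSpectrum (𝓞 M) |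
      ∃ p ≤ N, p.Prime ∧ (p : 𝓞 M) ∈ v.asIdeal} → ∃ p, p.Prime ∧ N < p ∧
        (p : 𝓞 M) ∈ v.asIdeal := by
    intro v hv
    obtain ⟨p, h1, h2⟩ := exists_prime_mem v
    exact ⟨p, h1, not_le.mp fun h => hv ⟨p, h, h1, h2⟩, h2⟩
  rw [Set.mem_ofPred_eq, not_and] at hm
  have hm' := hm fun v hv => by
    obtain ⟨p, h1, h2, h3⟩ := hbig v hv
    have := (hN M (RingHom.id M) p h1 h2 v h3).1
    exact this.gf.iterate_le (this.gd.root_le_one hf' hc1) _
  push Not at hm'
  obtain ⟨t, ht, v, hv, hodd⟩ := hm'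
  have ht' : aeval t (itP f g 1) = 0 := by
    rw [← mem_rts (itP_ne_zero hd0 hg _)]
    rcases ht with rfl | rfl | rfl <;> assumption
  obtain ⟨p, hp, hNp, hpv⟩ := hbig v hv
  refine ⟨m + 2, fun L _ _ _ hsL hsp => ?_⟩
  let φ : M →+* L := (SplittingField.lift (bigP f g f.derivative 1)
    ((splits_bigP_iff (L := L) hd0 hg hf' 1).mpr ⟨hsL, fun j hj => hsp j (by omega)⟩)).toRingHom
  obtain ⟨w, e, he, hw⟩ := exists_above φ v
  have hpw : (p : 𝓞 L) ∈ w.asIdeal := by
    rw [← val_natCast_lt_iff] at hpv ⊢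
    rw [← map_natCast φ, hw]
    exact pow_lt_one₀ zero_le hpv he.ne'
  obtain ⟨hloc, hsep⟩ := hN L φ p hp hNp w hpw
  have hex : ∃ j, j ≤ m + 2 ∧
      ¬ w.asIdeal.inertia (L ≃ₐ[ℚ] L) ≤ fixer (L ≃ₐ[ℚ] L) (rts (itP f g j) L) := by
    by_contra hcon
    push Not at hcon
    have := hloc.even hd0 hg hs hc1 hc2 hp hpw hsp hcon m 1 (by omega) (φ t)
      (by rw [← map_aeval_ringHom, ht', map_zero])
    rw [← map_ev_iterate, ← map_sub, ← map_natCast φ, hw, hw, log_pow, log_pow, nsmul_eq_mul,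
      nsmul_eq_mul, mul_left_comm, mul_dvd_mul_iff_left (by exact_mod_cast he.ne')] at this
    exact hodd (dvd_of_mul_right_dvd this)
  classical
  have hj := Nat.find_spec hex
  have hja : a < Nat.find hex := by
    by_contra hle
    refine hj.2 fun σ hσ y hy => ?_
    have hy' := smul_mem_rts (itP_ne_zero hd0 hg _) σ hy
    rw [mem_rts (itP_ne_zero hd0 hg _)] at hy hy'
    exact hsep _ (not_lt.mp hle) _ _ hy' hy
      (val_smul_sub_lt hσ (hloc.gf.itP_root_le hloc.gg hd0 hg hy))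
  obtain ⟨n, hn⟩ : ∃ n, Nat.find hex = n + 1 := ⟨Nat.find hex - 1, by omega⟩
  have hmin := Nat.find_min hex (m := n) (by omega)
  rw [hn] at hj hja
  rw [not_and, not_not] at hmin
  obtain ⟨τ, hτ, hτ'⟩ := SetLike.not_le_iff_exists.mp hj.2
  rw [mem_fixer] at hτ'
  push Not at hτ'
  exact ⟨n, by omega, by omega, τ, hmin (by omega) hτ, hτ',
    hloc.swap hd0 hg hs hcM hτ (hmin (by omega) hτ)⟩

theorem exists_levels (hd : 3 ≤ f.natDegree) (hirr : ∀ n, Irreducible (itP f g n))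
    (hc : ∀ (M : Type) [Field M] [NumberField M], (f.derivative.map (algebraMap ℚ M)).Splits →
      CritOK f M) (a R : ℕ) :
    ∃ b, a ≤ b ∧ ∀ (L : Type) [Field L] [NumberField L] [IsGalois ℚ L],
      (f.derivative.map (algebraMap ℚ L)).Splits →
      (∀ j ≤ b, ((itP f g j).map (algebraMap ℚ L)).Splits) →
        ∃ good : Finset ℕ, R ≤ good.card ∧ ∀ n ∈ good, a ≤ n ∧ n < b ∧ GoodLevel f g L n := by
  induction R with
  | zero => exact ⟨a, le_rfl, fun L _ _ _ _ _ => ⟨∅, le_rfl, by simp⟩⟩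
  | succ R ih =>
    obtain ⟨b, hab, hb⟩ := ih
    obtain ⟨b', hb'⟩ := exists_level hd hirr hc b
    refine ⟨max b b', hab.trans (le_max_left _ _), fun L _ _ _ h1 h2 => ?_⟩
    obtain ⟨good, h3, h4⟩ := hb L h1 fun j hj => h2 j (hj.trans (le_max_left _ _))
    obtain ⟨n, h5, h6, h7⟩ := hb' L h1 fun j hj => h2 j (hj.trans (le_max_right _ _))
    refine ⟨insert n good, ?_, fun k hk => ?_⟩
    · rw [Finset.card_insert_of_notMem fun h => by have := (h4 n h).2.1; omega]
      omega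
    · rcases Finset.mem_insert.mp hk with rfl | hk
      · exact ⟨by omega, by omega, h7⟩
      · exact ⟨(h4 k hk).1, by have := (h4 k hk).2.1; omega, (h4 k hk).2.2⟩

end Pool.Agent.Lib.MP_41de88_nt
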