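import Pool.Agent.Lib.MP_41de88_nt.Conj
import Pool.Agent.Lib.MP_41de88_nt.Defs

set_option autoImplicit false

open Polynomial NumberField IsDedekindDomain WithZero

namespace Pool.Agent.Lib.MP_41de88_nt

open helper22.Val

variable {f g : ℚ[X]}

lemma cast_iterate {L : Type*} [Field L] [Algebra ℚ L] (n : ℕ) (a : ℚ) :
    algebraMap ℚ L ((fun x => f.eval x)^[n] a) = (ev f L)^[n] (algebraMap ℚ L a) :=
  (Function.Semiconj.iterate_right (f := algebraMap ℚ L) (fun x => by
    rw [ev, aeval_algebraMap_apply]; simp) n) a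

lemma orbit_integral {p : ℕ} (hp : p.Prime) (h1 : ∀ i, 0 ≤ padicValRat p (f.coeff i)) {α : ℚ}
    (h2 : 0 ≤ padicValRat p α) (n : ℕ) : 0 ≤ padicValRat p ((fun x => f.eval x)^[n] α) := by
  obtain ⟨w, hw⟩ := exists_over ℚ hp
  have hf : IntP (w.valuation ℚ) f := fun i => (val_rat_le_one_iff hp hw _).mpr (h1 i)
  induction n with
  | zero => exact h2
  | succ n ih =>
    rw [Function.iterate_succ_apply']
    exact (val_rat_le_one_iff hp hw _).mp (hf.eval ((val_rat_le_one_iff hp hw _).mpr ih))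

/-- primes at which the orbit of `α` is congruent to `t` -/
def HitMod (f : ℚ[X]) (α : ℚ) {K : Type} [Field K] [NumberField K] (t : K) : Set ℕ :=
  {p | p.Prime ∧ (∀ n, 0 ≤ padicValRat p ((fun x => f.eval x)^[n] α)) ∧
    ∃ (n : ℕ) (P : HeightOneSpectrum (𝓞 K)), (p : 𝓞 K) ∈ P.asIdeal ∧
      P.valuation K ((ev f K)^[n] (algebraMap ℚ K α) - t) < 1}

variable {α : ℚ} {K : Type} [Field K] [NumberField K]

lemma small_hitMod {t : K} (ht : ∀ n, (ev f K)^[n] (algebraMap ℚ K α) ≠ t)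
    (h : Small (OrbMod f (minpoly ℚ t) α)) : Small (HitMod f α t) := by
  obtain ⟨N, hN⟩ := ev_good (M := K) (minpoly ℚ t)
  refine (h.union (small_of_finite (Set.finite_Iic N))).mono ?_
  rintro p ⟨hp, h1, n, P, h2, h3⟩
  refine (lt_or_ge N p).imp_left fun hNp => ⟨hp, h1, n, ?_⟩
  have hg := hN K (RingHom.id K) p hp hNp P h2
  have hi : IsIntegral ℚ t := Algebra.IsIntegral.isIntegral t
  rw [← cast_iterate] at h3
  set a := (fun x => f.eval x)^[n] α with ha
  have h4 := hg.root_le_one (minpoly.ne_zero hi) (minpoly.aeval ℚ t)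
  have h5 := hg.sub_lt (val_le_of_sub_lt h4 h3) h4 h3
  have h6 : aeval (algebraMap ℚ K a) (minpoly ℚ t) = (((minpoly ℚ t).eval a : ℚ) : K) := by
    rw [aeval_algebraMap_apply]; simp
  rw [minpoly.aeval, sub_zero, h6] at h5
  refine (val_rat_lt_one_iff hp h2 fun h0 => ht n ?_).mp h5
  have h7 := degree_eq_one_of_irreducible_of_root (minpoly.irreducible hi) h0
  obtain ⟨s, rfl⟩ := minpoly.degree_eq_one_iff.mp h7
  rw [minpoly.eq_X_sub_C] at h0
  rw [← cast_iterate, ← ha]
  congr 1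
  simpa [sub_eq_zero] using h0

lemma hitMod_map {L : Type} [Field L] [NumberField L] (φ : K →+* L) (t : K) :
    HitMod f α t ⊆ HitMod f α (φ t) := by
  rintro p ⟨hp, h1, n, P, h2, h3⟩
  obtain ⟨w, e, he, hw⟩ := exists_above φ P
  refine ⟨hp, h1, n, w, ?_, ?_⟩
  · rw [← val_natCast_lt_iff] at h2 ⊢
    rw [← map_natCast φ, hw]
    exact pow_lt_one₀ zero_le h2 he.ne'
  · rw [show algebraMap ℚ L α = φ (algebraMap ℚ K α) by simp, ← map_ev_iterate, ← map_sub, hw]
    exact pow_lt_one₀ zero_le h3 he.ne'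

/-- reduction from a periodic target to strictly preperiodic targets -/
lemma small_hitMod_periodic (hd : f.natDegree ≠ 0) {c : K} {m : ℕ} (hm : 0 < m)
    (hc : (ev f K)^[m] c = c) (hα : ∀ n, (ev f K)^[n] (algebraMap ℚ K α) ≠ c)
    (h : ∀ (M : Type) [Field M] [NumberField M] (φ : K →+* M) (t : M) (i : ℕ),
      ev f M t = (ev f M)^[i] (φ c) → t ∉ Function.periodicPts (ev f M) →
        (∀ n, (ev f M)^[n] (algebraMap ℚ M α) ≠ t) → Small (HitMod f α t)) :
    Small (HitMod f α c) := by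
  classical
  have hi : ∀ x : K, IsIntegral ℚ x := fun x => Algebra.IsIntegral.isIntegral x
  set Q : ℚ[X] := ∏ i ∈ Finset.range m, (minpoly ℚ ((ev f K)^[i] c)).comp f with hQ
  have hQi : ∀ i, (minpoly ℚ ((ev f K)^[i] c)).comp f ≠ 0 := fun i =>
    itP_ne_zero (n := 1) hd (minpoly.ne_zero (hi _))
  have hQ0 : Q ≠ 0 := Finset.prod_ne_zero_iff.mpr fun i _ => hQi i
  let M := (Q.map (algebraMap ℚ K)).SplittingField
  have : NumberField M := NumberField.of_module_finite K M
  let φ := algebraMap K M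
  have hs : (Q.map (algebraMap ℚ M)).Splits := by
    have := SplittingField.splits (Q.map (algebraMap ℚ K))
    rwa [Polynomial.map_map, Subsingleton.elim ((algebraMap K _).comp _) (algebraMap ℚ M)] at this
  have hc' : (ev f M)^[m] (φ c) = φ c := by rw [← map_ev_iterate, hc]
  have hper : Function.IsPeriodicPt (ev f M) m (φ c) := hc'
  have hα' : ∀ n i, (ev f M)^[n] (algebraMap ℚ M α) ≠ (ev f M)^[i] (φ c) := by
    intro n i e
    refine hα (i * (m - 1) + n) (φ.injective ?_)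
    rw [map_ev_iterate, show φ (algebraMap ℚ K α) = algebraMap ℚ M α by simp,
      Function.iterate_add_apply, e, ← Function.iterate_add_apply, ← Nat.mul_succ,
      show (m - 1).succ = m by omega]
    exact hper.const_mul i
  set T : Set M := {t | t ∈ rts Q M ∧ (∃ i, ev f M t = (ev f M)^[i] (φ c)) ∧
    ∀ i, t ≠ (ev f M)^[i] (φ c)} with hT
  have hTfin : T.Finite := (rts Q M).finite_toSet.subset fun t ht => ht.1
  have h1 : Small (⋃ t ∈ T, HitMod f α t) := small_biUnion hTfin fun t ht => by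
    obtain ⟨-, ⟨i, h1⟩, h2⟩ := ht
    refine h M φ t i h1 ?_ fun n e => hα' (n + 1) i ?_
    · rintro ⟨k, hk, e⟩
      refine h2 ((k - 1) + i) ?_
      rw [Function.iterate_add_apply, ← h1, ← Function.iterate_succ_apply,
        show (k - 1).succ = k by omega]
      exact e.symm
    · rw [Function.iterate_succ_apply', e, h1]
  obtain ⟨N, hN⟩ := (ev_good (M := M) f).and (ev_units ((Set.finite_Iio m).image
    fun i => algebraMap ℚ M α - (ev f M)^[i] (φ c)))
  refine ((h1.union (small_of_finite (Set.finite_Iic N))).mono ?_).mono (hitMod_map φ c)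
  rintro p ⟨hp, h2, n, P, h3, h4⟩
  refine (lt_or_ge N p).imp_left fun hNp => ?_
  obtain ⟨h5, h6⟩ := hN M (RingHom.id M) p hp hNp P h3
  have hex : ∃ n, ∃ i < m,
      P.valuation M ((ev f M)^[n] (algebraMap ℚ M α) - (ev f M)^[i] (φ c)) < 1 := ⟨n, 0, hm, h4⟩
  obtain ⟨i, him, h7⟩ := Nat.find_spec hex
  obtain ⟨j, hj⟩ : ∃ j, Nat.find hex = j + 1 := by
    refine Nat.exists_eq_succ_of_ne_zero fun h0 => ?_
    rw [h0] at h7
    exact h7.ne (h6 _ ⟨i, him, rfl⟩ (sub_ne_zero.mpr (hα' 0 i)))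
  have h8 := Nat.find_min hex (m := j) (by omega)
  rw [hj, Function.iterate_succ_apply'] at h7
  have hz : aeval ((ev f M)^[i] (φ c)) (minpoly ℚ ((ev f K)^[i] c)) = 0 := by
    rw [← map_ev_iterate, ← map_aeval_ringHom, minpoly.aeval, map_zero]
  have hsp := splits_sub_C hd (minpoly.ne_zero (hi _)) (hs.of_dvd (Polynomial.map_ne_zero hQ0)
    (Polynomial.map_dvd _ (Finset.dvd_prod_of_mem _ (Finset.mem_range.mpr him)))) hz
  obtain ⟨t, h9, h10⟩ := helper22.Val.exists_root_close (v := P.valuation M) hsp (by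
    rw [leadingCoeff_sub_of_degree_lt, h5.2 (ne_zero_of_natDegree_gt (Nat.pos_of_ne_zero hd))]
    refine degree_C_le.trans_lt ?_
    rw [degree_map]
    exact natDegree_pos_iff_degree_pos.mp (Nat.pos_of_ne_zero hd))
    (a := (ev f M)^[j] (algebraMap ℚ M α)) (by rwa [eval_sub, eval_C, ← ev_eq])
  rw [eval_sub, eval_C, ← ev_eq, sub_eq_zero] at h9
  refine Set.mem_biUnion (x := t) ⟨?_, ⟨i, h9⟩, fun k e => h8 ⟨k % m, Nat.mod_lt _ hm, ?_⟩⟩
    ⟨hp, h2, j, P, h3, h10⟩
  · rw [mem_rts hQ0]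
    refine (map_prod (aeval t : ℚ[X] →ₐ[ℚ] M) _ _).trans (Finset.prod_eq_zero (Finset.mem_range.mpr him) ?_)
    rw [aeval_comp]
    exact (congrArg (fun z => aeval z (minpoly ℚ ((ev f K)^[i] c))) h9).trans hz
  · rwa [hper.iterate_mod_apply, ← e]

theorem small_critPrimes (hd : f.natDegree ≠ 0)
    (hα : ∀ n, aeval ((fun x => f.eval x)^[n] α) f.derivative ≠ 0)
    (h : ∀ (M : Type) [Field M] [NumberField M] (c t : M), aeval c f.derivative = 0 →
      (t = c ∨ c ∈ Function.periodicPts (ev f M) ∧ ∃ i, ev f M t = (ev f M)^[i] c) →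
        t ∉ Function.periodicPts (ev f M) → Small (OrbMod f (minpoly ℚ t) α)) :
    Small (critPrimes f α K) := by
  have hf' := derivative_ne_zero' hd
  have h1 : Small (⋃ c ∈ (rts f.derivative K : Set K), HitMod f α c) := by
    refine small_biUnion (Finset.finite_toSet _) fun c hc => ?_
    rw [Finset.mem_coe, mem_rts hf'] at hc
    have hα' : ∀ n, (ev f K)^[n] (algebraMap ℚ K α) ≠ c := fun n e => hα n (by
      rwa [← e, ← cast_iterate, aeval_algebraMap_apply, map_eq_zero] at hc)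
    by_cases hper : c ∈ Function.periodicPts (ev f K)
    · obtain ⟨m, hm, e⟩ := hper
      refine small_hitMod_periodic hd hm e hα' fun M _ _ φ t i h1 h2 h3 => small_hitMod h3
        (h M (φ c) t (by rw [← map_aeval_ringHom, hc, map_zero]) (Or.inr ⟨⟨m, hm, ?_⟩, i, h1⟩) h2)
      change (ev f M)^[m] (φ c) = φ c
      rw [← map_ev_iterate, e]
    · exact small_hitMod hα' (h K c c hc (Or.inl rfl) hper)
  refine h1.mono ?_
  rintro p ⟨hp, h2, h3, n, c, P, h4, h5, -, h6⟩
  exact Set.mem_biUnion (x := c) ((mem_rts hf').mpr h4)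
    ⟨hp, orbit_integral hp h2 h3, n, P, h5, by rwa [← cast_iterate]⟩

end Pool.Agent.Lib.MP_41de88_nt
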