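import Pool.Agent.Lib.helper22.ValPoly

set_option autoImplicit false

open Polynomial WithZero

namespace Pool.Agent.Lib.MP_41de88_nt

open helper22.Val

section
variable {L : Type*} [Field L]

/-- abstract inertia group -/
structure Inert (v : Valuation L ℤᵐ⁰) (J : Type*) [Group J] [MulSemiringAction J L] : Prop where
  val : ∀ (σ : J) x, v (σ • x) = v x
  res : ∀ (σ : J) x, v x ≤ 1 → v (σ • x - x) < 1
  dvd : ∀ (H : Subgroup J) x, (∀ σ ∈ H, σ • x = x) → (Nat.card H : ℤ) ∣ log (v x)

variable {v : Valuation L ℤᵐ⁰} {J : Type*} [Group J] [Finite J] [MulSemiringAction J L]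

lemma Inert.orbit_dvd (h : Inert v J) (y : L) :
    (Nat.card J : ℤ) ∣ (MulAction.stabilizer J y).index * log (v y) := by
  classical
  have hfin : (MulAction.orbit J y).Finite := Set.finite_range _
  have h1 := h.dvd ⊤ (∏ z ∈ hfin.toFinset, z) fun σ _ => by
    rw [Finset.smul_prod']
    refine Finset.prod_nbij (σ • ·) (fun z hz => ?_) (fun _ _ _ _ e => MulAction.injective σ e)
      (fun z hz => ?_) fun _ _ => rfl
    · rw [Set.Finite.mem_toFinset] at hz ⊢
      exact MulAction.mapsTo_smul_orbit σ y hz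
    · rw [Finset.mem_coe, Set.Finite.mem_toFinset] at hz
      refine ⟨σ⁻¹ • z, ?_, smul_inv_smul σ z⟩
      rw [Finset.mem_coe, Set.Finite.mem_toFinset]
      exact MulAction.mapsTo_smul_orbit σ⁻¹ y hz
  rw [map_prod, Finset.prod_congr rfl (g := fun _ => v y), Finset.prod_const, log_pow,
    Subgroup.card_top, nsmul_eq_mul] at h1
  · rwa [MulAction.index_stabilizer, Set.ncard_eq_toFinset_card _ hfin]
  · intro z hz
    obtain ⟨σ, rfl⟩ := hfin.mem_toFinset.mp hz
    exact h.val σ y

omit [Finite J] in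
lemma index_stabilizer_eq {F : L → L} (hF : ∀ (σ : J) x, F (σ • x) = σ • F x) (y : L) :
    (MulAction.stabilizer J y).index = (MulAction.orbit (MulAction.stabilizer J (F y)) y).ncard
      * (MulAction.stabilizer J (F y)).index := by
  rw [← MulAction.index_stabilizer, ← Subgroup.relIndex_mul_index
    (H := MulAction.stabilizer J y) (K := MulAction.stabilizer J (F y))]
  · rfl
  · intro σ hσ
    rw [MulAction.mem_stabilizer_iff] at hσ ⊢
    rw [← hF, hσ]

omit [Finite J] in
lemma orbit_subset_fibre {F : L → L} (hF : ∀ (σ : J) x, F (σ • x) = σ • F x) (y : L) :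
    MulAction.orbit (MulAction.stabilizer J (F y)) y ⊆ {z | F z = F y} := by
  rintro _ ⟨σ, rfl⟩
  exact (hF σ y).trans σ.2

lemma fibre_finite {F : L[X]} (hF : F.natDegree ≠ 0) (x : L) : {z | F.eval z = x}.Finite ∧
    {z | F.eval z = x}.ncard ≤ F.natDegree := by
  classical
  have h0 : F - C x ≠ 0 := ne_zero_of_natDegree_gt (n := 0) (by rw [natDegree_sub_C]; omega)
  have : {z | F.eval z = x} = (F - C x).roots.toFinset := by
    ext z; simp [h0, sub_eq_zero]
  rw [this, Set.ncard_coe_finset]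
  exact ⟨Finset.finite_toSet _, (Multiset.toFinset_card_le _).trans
    ((card_roots' _).trans natDegree_sub_C.le)⟩

lemma tree_finite {F D : L[X]} (hF : F.natDegree ≠ 0) (hD : D ≠ 0) (n : ℕ) :
    {z | D.eval ((fun x => F.eval x)^[n] z) = 0}.Finite ∧
    {z | D.eval ((fun x => F.eval x)^[n] z) = 0}.ncard ≤ D.natDegree * F.natDegree ^ n := by
  classical
  have h1 : ∀ n, ((fun Q : L[X] => Q.comp F)^[n] D) ≠ 0 ∧
      ((fun Q : L[X] => Q.comp F)^[n] D).natDegree = D.natDegree * F.natDegree ^ n ∧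
      ∀ z, ((fun Q : L[X] => Q.comp F)^[n] D).eval z = D.eval ((fun x => F.eval x)^[n] z) := by
    intro n
    induction n with
    | zero => simp [hD]
    | succ n ih =>
      rw [Function.iterate_succ_apply']
      refine ⟨?_, by rw [natDegree_comp, ih.2.1, pow_succ, mul_assoc], fun z => by
        rw [eval_comp, ih.2.2, Function.iterate_succ_apply]⟩
      rw [← leadingCoeff_ne_zero, leadingCoeff_comp hF]
      exact mul_ne_zero (leadingCoeff_ne_zero.mpr ih.1) (pow_ne_zero _
        (leadingCoeff_ne_zero.mpr (ne_zero_of_natDegree_gt (Nat.pos_of_ne_zero hF))))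
  have : {z | D.eval ((fun x => F.eval x)^[n] z) = 0}
      = ((fun Q : L[X] => Q.comp F)^[n] D).roots.toFinset := by
    ext z; simp [(h1 n).1, (h1 n).2.2]
  rw [this, Set.ncard_coe_finset]
  exact ⟨Finset.finite_toSet _, (Multiset.toFinset_card_le _).trans
    ((card_roots' _).trans (h1 n).2.1.le)⟩

end

variable {L Γ : Type*} [Field L] [LinearOrderedCommGroupWithZero Γ] {v : Valuation L Γ}

lemma val_int_le (n : ℤ) : v n ≤ 1 := by
  rcases Int.natAbs_eq n with h | h <;> rw [h]
  · rw [Int.cast_natCast]; exact val_nat_le _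
  · rw [Int.cast_neg, Valuation.map_neg, Int.cast_natCast]; exact val_nat_le _

lemma val_int_le_of_dvd {q : ℕ} {n : ℤ} (h : (q : ℤ) ∣ n) : v n ≤ v q := by
  obtain ⟨c, rfl⟩ := h
  rw [Int.cast_mul, map_mul, Int.cast_natCast]
  exact mul_le_of_le_one_right' (val_int_le c)

lemma val_int_eq_one {q : ℕ} (hq : q.Prime) (hv : v q < 1) {n : ℤ} (h : ¬ (q : ℤ) ∣ n) :
    v n = 1 := by
  refine le_antisymm (val_int_le n) (not_lt.mp fun hlt => ?_)
  obtain ⟨a, b, hab⟩ := (Nat.prime_iff_prime_int.mp hq).irreducible.coprime_iff_not_dvd.mpr h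
  have h1 : v ((a * q + b * n : ℤ) : L) < 1 := by
    push_cast
    refine v.map_add_lt ?_ ?_ <;> rw [map_mul]
    · exact mul_lt_one_of_nonneg_of_lt_one_right (val_int_le a) zero_le hv
    · exact mul_lt_one_of_nonneg_of_lt_one_right (val_int_le b) zero_le hlt
  rw [hab] at h1
  simp at h1

lemma val_nat_eq_one' {q : ℕ} (hq : q.Prime) (hv : v q < 1) {n : ℕ} (h : ¬ q ∣ n) : v n = 1 := by
  have := val_int_eq_one hq hv (n := n) (by exact_mod_cast h)
  exact_mod_cast this

lemma val_pow_sub_le {x y : L} {t : Γ} (ht : 1 ≤ t) (hx : v x ≤ t) (hy : v y ≤ t) {i m : ℕ}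
    (him : i ≤ m + 1) : v (x ^ i - y ^ i) ≤ t ^ m * v (x - y) := by
  rw [← (Commute.all x y).geom_sum₂_mul, map_mul]
  refine mul_le_mul_left (v.map_sum_le fun k hk => ?_) _
  rw [Finset.mem_range] at hk
  rw [map_mul, map_pow, map_pow]
  refine (mul_le_mul' (pow_le_pow_left' hx _) (pow_le_pow_left' hy _)).trans ?_
  rw [← pow_add]
  exact pow_le_pow_right₀ ht (by omega)

lemma val_frob_sub_le {q : ℕ} (hq : q.Prime) {x y : L} {t : Γ} (hx : v x ≤ t)
    (hy : v y ≤ t) : v (x ^ q - y ^ q - (x - y) ^ q) ≤ v q * t ^ (q - 1) * v (x - y) := by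
  have h1 := add_pow_prime_eq hq (x - y) y
  rw [sub_add_cancel] at h1
  rw [h1, show ∀ a b c : L, a + b + c - b - a = c from fun a b c => by ring, map_mul, map_mul,
    map_mul]
  have h2 : v (∑ k ∈ Finset.Ioo 0 q, (x - y) ^ (k - 1) * y ^ (q - k - 1) * ↑(q.choose k / q))
      ≤ t ^ (q - 2) := by
    refine v.map_sum_le fun k hk => ?_
    rw [Finset.mem_Ioo] at hk
    rw [map_mul, map_mul, map_pow, map_pow]
    refine (mul_le_of_le_one_right' (val_nat_le _)).trans ((mul_le_mul' (pow_le_pow_left'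
      (v.map_sub_le hx hy) _) (pow_le_pow_left' hy _)).trans (le_of_eq ?_))
    rw [← pow_add]; congr 1; omega
  refine (mul_le_mul' (mul_le_mul_right hy _) h2).trans (le_of_eq ?_)
  rw [show q - 1 = q - 2 + 1 by have := hq.two_le; omega, pow_succ]
  ac_rfl

lemma exists_nat_close {q : ℕ} (hq : q.Prime) (hv : v q < 1) {x : L} (hx : v x ≤ 1)
    (h : v (x ^ q - x) < 1) : ∃ j : ℕ, v (x - j) ≤ max (v (x ^ q - x)) (v q) := by
  have : Fact q.Prime := ⟨hq⟩
  have h1 : (X ^ q - X - ∏ a : ZMod q, (X - C (a.val : ℤ)) : ℤ[X]).map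
      (Int.castRingHom (ZMod q)) = 0 := by
    have hm : (X ^ q - X : (ZMod q)[X]).Monic := by
      refine monic_X_pow_sub ?_
      rw [degree_X]; exact_mod_cast hq.one_lt
    have h2 := prod_multiset_X_sub_C_of_monic_of_roots_card_eq hm (by
      have := FiniteField.roots_X_pow_card_sub_X (ZMod q)
      rw [ZMod.card] at this
      rw [this, FiniteField.X_pow_card_sub_X_natDegree_eq _ hq.one_lt]
      simp)
    have := FiniteField.roots_X_pow_card_sub_X (ZMod q)
    rw [ZMod.card] at this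
    rw [this] at h2
    simp only [Polynomial.map_sub, Polynomial.map_pow, map_X, Polynomial.map_prod, map_C]
    rw [← h2, sub_eq_zero]
    exact Finset.prod_congr rfl fun a _ => by simp
  obtain ⟨R, hR⟩ : C (q : ℤ) ∣ (X ^ q - X - ∏ a : ZMod q, (X - C (a.val : ℤ)) : ℤ[X]) := by
    rw [C_dvd_iff_dvd_coeff]
    intro i
    rw [← ZMod.intCast_zmod_eq_zero_iff_dvd, ← eq_intCast (Int.castRingHom (ZMod q)), ← coeff_map,
      h1, coeff_zero]
  have h2 := congrArg (aeval x) hR
  simp only [map_sub, map_pow, aeval_X, map_prod, aeval_C, map_mul] at h2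
  simp only [map_natCast] at h2
  have h3 : v (q * aeval x R) ≤ v q := by
    rw [map_mul, ← eval_map_algebraMap]
    refine mul_le_of_le_one_right' (IntP.eval (fun i => ?_) hx)
    rw [coeff_map]; exact val_int_le _
  have h4 : v (∏ a : ZMod q, (x - (a.val : L))) < 1 := by
    rw [show ∏ a : ZMod q, (x - (a.val : L)) = x ^ q - x - q * aeval x R by rw [← h2]; ring]
    exact v.map_sub_lt h (h3.trans_lt hv)
  obtain ⟨a, ha⟩ : ∃ a : ZMod q, v (x - a.val) < 1 := by
    by_contra hcon
    push Not at hcon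
    rw [map_prod] at h4
    exact not_le.mpr h4 (Finset.one_le_prod' fun a _ => hcon a)
  refine ⟨a.val, ?_⟩
  set j := a.val
  have h5 := val_frob_sub_le hq hx (val_nat_le (v := v) j)
  rw [one_pow, mul_one] at h5
  have h6 : v ((j : L) ^ q - j) ≤ v q := by
    have := val_int_le_of_dvd (v := v) (Int.prime_dvd_pow_self_sub hq j)
    exact_mod_cast this
  have h7 : v ((x - j) ^ q - (x - j)) = v (x - j) := by
    rcases eq_or_ne (v (x - j)) 0 with h0 | h0
    · rw [show (x - j) ^ q - (x - j) = (x - j) * ((x - j) ^ (q - 1) - 1) by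
        rw [mul_sub, mul_pow_sub_one hq.ne_zero, mul_one], map_mul, h0, zero_mul]
    refine v.map_sub_eq_of_lt_right ?_
    rw [map_pow]
    exact pow_lt_self_of_lt_one₀ (zero_lt_iff.mpr h0) ha hq.one_lt
  rw [← h7, show (x - j) ^ q - (x - j) = (x ^ q - x) - (x ^ q - j ^ q - (x - j) ^ q)
    - ((j : L) ^ q - j) by ring]
  exact v.map_sub_le (v.map_sub_le (le_max_left _ _) (le_max_of_le_right
    (h5.trans (mul_le_of_le_one_right' ha.le)))) (le_max_of_le_right h6)

end Pool.Agent.Lib.MP_41de88_nt
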