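import Pool.Agent.Lib.MP_41de88_nt.Kill

set_option autoImplicit false

open Finset

namespace Pool.Agent.Lib.MP_41de88_nt

variable {G L : Type*} [Group G] [Fintype G] [MulAction G L] [DecidableEq L]

/-- number of fixed points -/
def nfix (V : Finset L) (σ : G) : ℕ := (V.filter fun y => σ • y = y).card

open scoped Classical in
/-- a subgroup as a finset -/
noncomputable def sgF (A : Subgroup G) : Finset G := univ.filter fun h => h ∈ A

lemma mem_sgF {A : Subgroup G} {h : G} : h ∈ sgF A ↔ h ∈ A := by simp [sgF]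

lemma sgF_card_pos (A : Subgroup G) : 0 < (sgF A).card :=
  card_pos.mpr ⟨1, mem_sgF.mpr (one_mem _)⟩

/-- the number of `h ∈ A` with `h σ y = y` -/
noncomputable def cnt (A : Subgroup G) (σ : G) (y : L) : ℕ :=
  ((sgF A).filter fun h => (h * σ) • y = y).card

lemma sum_nfix (A : Subgroup G) (W : Finset L) (σ : G) :
    ∑ h ∈ sgF A, nfix W (h * σ) = ∑ y ∈ W, cnt A σ y := by
  simp only [nfix, cnt, card_filter]
  exact sum_comm

lemma orbit_sum (A : Subgroup G) (O : Finset L) (σ : G) (hne : O.Nonempty)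
    (ht : ∀ y ∈ O, ∀ y' ∈ O, ∃ h ∈ A, h • y = y') (hA : ∀ h ∈ A, ∀ y ∈ O, h • y ∈ O)
    (hσ : ∀ y ∈ O, σ • y ∈ O) : ∑ y ∈ O, cnt A σ y = (sgF A).card := by
  obtain ⟨x, hx⟩ := hne
  rw [card_eq_sum_card_fiberwise (f := fun h : G => h • x) (t := O)
    fun h hh => hA h (mem_sgF.mp hh) x hx]
  refine sum_congr rfl fun y hy => ?_
  obtain ⟨k, hk, hkx⟩ := ht x hx _ (hσ y hy)
  refine card_bij (fun h _ => h * k) (fun h hh => ?_) (fun _ _ _ _ h => mul_right_cancel h)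
    fun h hh => ⟨h * k⁻¹, ?_, by simp⟩
  · obtain ⟨h1, h2⟩ := mem_filter.mp hh
    refine mem_filter.mpr ⟨mem_sgF.mpr (mul_mem (mem_sgF.mp h1) hk), ?_⟩
    rw [mul_smul, hkx, ← mul_smul, h2]
  · obtain ⟨h1, h2⟩ := mem_filter.mp hh
    refine mem_filter.mpr ⟨mem_sgF.mpr (mul_mem (mem_sgF.mp h1) (inv_mem hk)), ?_⟩
    rw [mul_smul, ← hkx, mul_smul, inv_smul_smul, h2]

/-- pointwise fixer of a finset -/
def fixer (G : Type*) [Group G] [MulAction G L] (V : Finset L) : Subgroup G where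
  carrier := {h | ∀ x ∈ V, h • x = x}
  one_mem' := fun x _ => one_smul _ _
  mul_mem' := fun {a b} ha hb x hx => by rw [mul_smul, hb x hx, ha x hx]
  inv_mem' := fun {a} ha x hx => by rw [inv_smul_eq_iff, ha x hx]

omit [Fintype G] [DecidableEq L] in
lemma mem_fixer {V : Finset L} {h : G} : h ∈ fixer G V ↔ ∀ x ∈ V, h • x = x := Iff.rfl

lemma martingale {V W : Finset L} {f : L → L}
    (hf : ∀ (σ : G) x, f (σ • x) = σ • f x) (hWV : ∀ y ∈ W, f y ∈ V)
    (hVG : ∀ (σ : G), ∀ y ∈ V, σ • y ∈ V) (hWG : ∀ (σ : G), ∀ y ∈ W, σ • y ∈ W)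
    (hsurj : ∀ x ∈ V, ∃ y ∈ W, f y = x)
    (hm : ∀ y ∈ W, ∀ y' ∈ W, f y = f y' → ∃ h ∈ fixer G V, h • y = y') (σ : G) :
    ∑ h ∈ sgF (fixer G V), nfix W (h * σ) = (sgF (fixer G V)).card * nfix V σ := by
  rw [sum_nfix, ← sum_fiberwise_of_maps_to (g := f) (t := V) hWV, nfix, card_filter, mul_sum]
  refine sum_congr rfl fun x hx => ?_
  split_ifs with h
  · rw [mul_one]
    refine orbit_sum _ _ _ ?_ (fun y hy y' hy' => ?_) (fun k hk y hy => ?_) fun y hy => ?_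
    · obtain ⟨y, hy, e⟩ := hsurj x hx
      exact ⟨y, mem_filter.mpr ⟨hy, e⟩⟩
    · obtain ⟨h1, h2⟩ := mem_filter.mp hy
      obtain ⟨h3, h4⟩ := mem_filter.mp hy'
      exact hm y h1 y' h3 (h2.trans h4.symm)
    · obtain ⟨h1, h2⟩ := mem_filter.mp hy
      exact mem_filter.mpr ⟨hWG k y h1, by rw [hf, h2, hk x hx]⟩
    · obtain ⟨h1, h2⟩ := mem_filter.mp hy
      exact mem_filter.mpr ⟨hWG σ y h1, by rw [hf, h2, h]⟩
  · rw [mul_zero]
    refine sum_eq_zero fun y hy => card_eq_zero.mpr (filter_eq_empty_iff.mpr fun k hk e => h ?_)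
    obtain ⟨h1, h2⟩ := mem_filter.mp hy
    have := congrArg f e
    rwa [hf, h2, mul_smul, mem_sgF.mp hk _ (hVG σ x hx)] at this

omit [Fintype G] in
lemma nfix_le {V W : Finset L} {f : L → L} {d : ℕ} (hWV : ∀ y ∈ W, f y ∈ V)
    (hfib : ∀ x, (W.filter fun y => f y = x).card ≤ d) (σ : G) :
    (W.filter fun y => σ • f y = f y).card ≤ d * nfix V σ := by
  refine card_le_mul_card_image_of_maps_to (f := f) (t := V.filter fun y => σ • y = y)
    (fun y hy => ?_) d fun b _ => ?_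
  · exact mem_filter.mpr ⟨hWV y (mem_filter.mp hy).1, (mem_filter.mp hy).2⟩
  · refine le_trans (card_le_card fun y hy => ?_) (hfib b)
    simp only [mem_filter] at hy ⊢
    exact ⟨hy.1.1, hy.2⟩

lemma card_le_mul_fixer (H : Subgroup G) (U : Finset L) (hUH : ∀ h ∈ H, ∀ y ∈ U, h • y ∈ U) :
    (sgF H).card ≤ ((sgF H).filter fun h => ∀ y ∈ U, h • y = y).card * U.card ^ U.card := by
  classical
  let φ : G → (U → U) := fun h y => if hy : h • (y : L) ∈ U then ⟨_, hy⟩ else y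
  refine (card_le_mul_card_image_of_maps_to (f := φ) (t := univ) (fun _ _ => mem_univ _)
    _ fun b _ => ?_).trans (Nat.mul_le_mul_left _ ?_)
  · rcases ((sgF H).filter fun h => φ h = b).eq_empty_or_nonempty with he | ⟨k, hk⟩
    · rw [he]; simp
    obtain ⟨hk1, hk2⟩ := mem_filter.mp hk
    refine card_le_card_of_injOn (fun h => k⁻¹ * h) (fun h hh => ?_)
      fun _ _ _ _ h => mul_left_cancel h
    obtain ⟨hh1, hh2⟩ := mem_filter.mp hh
    rw [mem_sgF] at hh1 hk1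
    refine mem_filter.mpr ⟨mem_sgF.mpr (mul_mem (inv_mem hk1) hh1), fun y hy => ?_⟩
    have := congrFun (hh2.trans hk2.symm) ⟨y, hy⟩
    simp only [φ, dif_pos (hUH h hh1 y hy), dif_pos (hUH k hk1 y hy), Subtype.mk.injEq] at this
    rw [mul_smul, this, inv_smul_smul]
  · rw [card_univ, Fintype.card_fun, Fintype.card_coe]

lemma sum_mul_sgF (H : Subgroup G) (ψ : G → ℝ) :
    ∑ σ : G, ∑ h ∈ sgF H, ψ (h * σ) = (sgF H).card * ∑ σ : G, ψ σ := by
  rw [sum_comm, ← nsmul_eq_mul, ← sum_const]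
  exact sum_congr rfl fun h _ => Fintype.sum_equiv (Equiv.mulLeft h) _ _ fun _ => rfl

lemma tangent (x k : ℝ) (hx : 0 ≤ x) (hk : 0 ≤ k) :
    1 / (x + 1) = 1 / (k + 1) - (x - k) / (k + 1) ^ 2 + (x - k) ^ 2 / ((x + 1) * (k + 1) ^ 2) := by
  field_simp
  ring

/-- one step of the potential function -/
lemma mart_step {V W : Finset L} {f : L → L}
    (hf : ∀ (σ : G) x, f (σ • x) = σ • f x) (hWV : ∀ y ∈ W, f y ∈ V)
    (hVG : ∀ (σ : G), ∀ y ∈ V, σ • y ∈ V) (hWG : ∀ (σ : G), ∀ y ∈ W, σ • y ∈ W)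
    (hsurj : ∀ x ∈ V, ∃ y ∈ W, f y = x)
    (hm : ∀ y ∈ W, ∀ y' ∈ W, f y = f y' → ∃ h ∈ fixer G V, h • y = y') (g : G → ℝ)
    (hg : ∀ σ : G, (sgF (fixer G V)).card * g σ ≤ ∑ h ∈ sgF (fixer G V),
      ((nfix W (h * σ) : ℝ) - nfix V σ) ^ 2 / ((nfix W (h * σ) + 1) * (nfix V σ + 1) ^ 2)) :
    ∑ σ : G, 1 / ((nfix V σ : ℝ) + 1) + ∑ σ : G, g σ ≤ ∑ σ : G, 1 / ((nfix W σ : ℝ) + 1) := by
  have h0 : (0 : ℝ) < (sgF (fixer G V)).card := by exact_mod_cast sgF_card_pos _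
  refine le_of_mul_le_mul_left ?_ h0
  rw [← sum_mul_sgF _ fun σ => 1 / ((nfix W σ : ℝ) + 1), ← sum_add_distrib, mul_sum]
  refine sum_le_sum fun σ _ => ?_
  have h1 : ∑ h ∈ sgF (fixer G V), ((nfix W (h * σ) : ℝ) - nfix V σ) = 0 := by
    rw [sum_sub_distrib, sum_const, nsmul_eq_mul, ← Nat.cast_sum,
      martingale hf hWV hVG hWG hsurj hm σ]
    push_cast; ring
  rw [sum_congr rfl fun h _ => tangent (nfix W (h * σ)) (nfix V σ) (Nat.cast_nonneg _)
    (Nat.cast_nonneg _), sum_add_distrib, sum_sub_distrib, ← sum_div, ← sum_div, h1, sum_const,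
    nsmul_eq_mul, mul_add]
  have := hg σ
  rw [zero_div, sub_zero, mul_one, mul_one_div]
  linarith

lemma mart_gap {V W : Finset L} {f : L → L} {d M : ℕ} (hd : 1 ≤ d)
    (hf : ∀ (σ : G) x, f (σ • x) = σ • f x) (hWV : ∀ y ∈ W, f y ∈ V)
    (hVG : ∀ (σ : G), ∀ y ∈ V, σ • y ∈ V) (hWG : ∀ (σ : G), ∀ y ∈ W, σ • y ∈ W)
    (hfib : ∀ x, (W.filter fun y => f y = x).card ≤ d)
    (hsurj : ∀ x ∈ V, ∃ y ∈ W, f y = x)
    (hm : ∀ y ∈ W, ∀ y' ∈ W, f y = f y' → ∃ h ∈ fixer G V, h • y = y')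
    (hgood : ∀ σ : G, 0 < nfix W σ → ∃ h ∈ fixer G V, nfix W (h * σ) ≠ nfix W σ)
    (σ : G) (h1 : 0 < nfix V σ) (h2 : nfix V σ ≤ M) :
    (sgF (fixer G V)).card * (1 / (((d * M) ^ (d * M) : ℕ) * ((d * M + 1 : ℝ) * (M + 1) ^ 2)))
      ≤ ∑ h ∈ sgF (fixer G V),
      ((nfix W (h * σ) : ℝ) - nfix V σ) ^ 2 / ((nfix W (h * σ) + 1) * (nfix V σ + 1) ^ 2) := by
  classical
  set H := fixer G V with hH
  have hdM : 1 ≤ d * M := Nat.mul_pos hd (h1.trans_le h2)
  have hfixeq : ∀ h ∈ H, ∀ x ∈ V, ((h * σ) • x = x ↔ σ • x = x) := by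
    intro h hh x hx
    rw [mul_smul, hh _ (hVG σ x hx)]
  obtain ⟨h0, h0H, h0ne⟩ : ∃ h0 ∈ H, nfix W (h0 * σ) ≠ nfix V σ := by
    obtain ⟨k, hk, hk0⟩ : ∃ k ∈ sgF H, nfix W (k * σ) ≠ 0 := by
      refine exists_ne_zero_of_sum_ne_zero ?_
      rw [martingale hf hWV hVG hWG hsurj hm σ]
      exact mul_ne_zero (sgF_card_pos _).ne' h1.ne'
    obtain ⟨h, hh, hne⟩ := hgood _ (Nat.pos_of_ne_zero hk0)
    by_cases e : nfix W (k * σ) = nfix V σ
    · exact ⟨h * k, mul_mem hh (mem_sgF.mp hk), by rw [mul_assoc, ← e]; exact hne⟩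
    · exact ⟨k, mem_sgF.mp hk, e⟩
  set U := W.filter fun y => σ • f y = f y with hU
  have hUc : U.card ≤ d * M := (nfix_le hWV hfib σ).trans (Nat.mul_le_mul_left _ h2)
  have hUH : ∀ h ∈ H, ∀ y ∈ U, h • y ∈ U := by
    intro h hh y hy
    obtain ⟨h1, h2⟩ := mem_filter.mp hy
    refine mem_filter.mpr ⟨hWG h y h1, ?_⟩
    rw [hf, hh _ (hWV y h1), h2]
  have hinU : ∀ h ∈ H, ∀ y ∈ W, (h * σ) • y = y → y ∈ U := fun h hh y hy e =>
    mem_filter.mpr ⟨hy, (hfixeq h hh _ (hWV y hy)).mp (by rw [← hf, e])⟩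
  set HU := (sgF H).filter fun h => ∀ y ∈ U, h • y = y with hHU
  have h3 : (sgF H).card ≤ HU.card * (d * M) ^ (d * M) :=
    (card_le_mul_fixer H U hUH).trans (Nat.mul_le_mul_left _
      ((Nat.pow_le_pow_left hUc _).trans (Nat.pow_le_pow_right hdM hUc)))
  have h4 : ∀ k ∈ HU, nfix W (k * h0 * σ) = nfix W (h0 * σ) := by
    intro k hk
    obtain ⟨hk1, hk2⟩ := mem_filter.mp hk
    rw [mem_sgF] at hk1
    refine congrArg card (filter_congr fun y hy => ⟨fun e => ?_, fun e => ?_⟩)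
    · have := hinU _ (mul_mem hk1 h0H) y hy e
      rw [mul_assoc, mul_smul, smul_eq_iff_eq_inv_smul] at e
      rw [e, inv_smul_eq_iff, hk2 y this]
    · rw [mul_assoc, mul_smul, e, hk2 y (hinU _ h0H y hy e)]
  have h5 : nfix W (h0 * σ) ≤ d * M :=
    (card_le_card fun y hy => hinU _ h0H y (mem_filter.mp hy).1 (mem_filter.mp hy).2).trans hUc
  set c : ℝ := 1 / ((d * M + 1 : ℝ) * (M + 1) ^ 2) with hc
  have h6 : c ≤ ((nfix W (h0 * σ) : ℝ) - nfix V σ) ^ 2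
      / ((nfix W (h0 * σ) + 1) * (nfix V σ + 1) ^ 2) := by
    have e1 : (1 : ℝ) ≤ ((nfix W (h0 * σ) : ℝ) - nfix V σ) ^ 2 := by
      have : (1 : ℤ) ≤ ((nfix W (h0 * σ) : ℤ) - nfix V σ) ^ 2 := by
        have : ((nfix W (h0 * σ) : ℤ) - nfix V σ) ≠ 0 := by omega
        have := sq_pos_of_ne_zero this
        omega
      exact_mod_cast this
    have e2 : (nfix W (h0 * σ) : ℝ) ≤ d * M := by exact_mod_cast h5
    have e3 : (nfix V σ : ℝ) ≤ M := by exact_mod_cast h2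
    rw [hc]
    gcongr
  calc _ ≤ (HU.card : ℝ) * c := by
        rw [hc, mul_one_div, mul_one_div, div_le_div_iff₀ (by positivity) (by positivity),
          ← mul_assoc (HU.card : ℝ)]
        have : ((sgF H).card : ℝ) ≤ HU.card * ((d * M) ^ (d * M) : ℕ) := by exact_mod_cast h3
        gcongr
    _ ≤ ∑ h ∈ HU.image (· * h0), ((nfix W (h * σ) : ℝ) - nfix V σ) ^ 2
          / ((nfix W (h * σ) + 1) * (nfix V σ + 1) ^ 2) := by
        rw [sum_image fun _ _ _ _ h => mul_right_cancel h, ← nsmul_eq_mul, ← sum_const]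
        exact sum_le_sum fun k hk => by rw [h4 k hk]; exact h6
    _ ≤ _ := by
        refine sum_le_sum_of_subset_of_nonneg (fun h hh => ?_) fun _ _ _ => by positivity
        obtain ⟨k, hk, rfl⟩ := mem_image.mp hh
        exact mem_sgF.mpr (mul_mem (mem_sgF.mp (mem_filter.mp hk).1) h0H)

end Pool.Agent.Lib.MP_41de88_nt

namespace Pool.Agent.Lib.MP_41de88_nt

universe u v in
theorem fix_small_mart (d K : ℕ) (hd : 1 ≤ d) {ε : ℝ} (hε : 0 < ε) : ∃ R : ℕ,
    ∀ (G : Type u) (L : Type v) [Group G] [Fintype G] [MulAction G L] [DecidableEq L]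
      (V : ℕ → Finset L) (f : L → L) (N : ℕ) (bad good : Finset ℕ), bad.card ≤ K →
      (∀ (σ : G) x, f (σ • x) = σ • f x) → (∀ n < N, ∀ y ∈ V (n + 1), f y ∈ V n) →
      (∀ n ≤ N, ∀ (σ : G), ∀ y ∈ V n, σ • y ∈ V n) →
      (∀ n < N, ∀ x, ((V (n + 1)).filter fun y => f y = x).card ≤ d) →
      (∀ n < N, ∀ x ∈ V n, ∃ y ∈ V (n + 1), f y = x) →
      (∀ n ≤ N, ∀ x ∈ V n, ∀ y ∈ V n, ∃ σ : G, σ • x = y) →
      (∀ n < N, n ∉ bad → ∀ y ∈ V (n + 1), ∀ y' ∈ V (n + 1), f y = f y' →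
        ∃ h ∈ fixer G (V n), h • y = y') →
      (∀ n ∈ good, n < N ∧ ∀ σ : G, 0 < nfix (V (n + 1)) σ →
        ∃ h ∈ fixer G (V n), nfix (V (n + 1)) (h * σ) ≠ nfix (V (n + 1)) σ) →
      R ≤ good.card →
      ((univ.filter fun σ : G => 0 < nfix (V N) σ).card : ℝ) ≤ ε * Fintype.card G := by
  obtain ⟨M, hM⟩ := exists_nat_ge (max 1 (2 / ε))
  have hM1 : 1 ≤ M := by exact_mod_cast (le_max_left _ _).trans hM
  have hM2 : 2 / ε ≤ M := (le_max_right _ _).trans hM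
  set c : ℝ := 1 / (((d * M) ^ (d * M) : ℕ) * ((d * M + 1 : ℝ) * (M + 1) ^ 2)) with hc
  have hc0 : 0 < c := by
    have : 0 < (d * M) ^ (d * M) := pow_pos (Nat.mul_pos hd hM1) _
    positivity
  obtain ⟨R, hR⟩ := exists_nat_gt (2 * (K + 1) / (c * ε))
  refine ⟨R + K, fun G L _ _ _ _ V f N bad good hbad hf hWV hVG hfib hsurj hV hm hgood hcard => ?_⟩
  classical
  by_contra hcon
  rw [not_le] at hcon
  have hG : (0 : ℝ) < Fintype.card G := by exact_mod_cast Fintype.card_pos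
  set Φ : ℕ → ℝ := fun n => ∑ σ : G, 1 / ((nfix (V n) σ : ℝ) + 1) with hΦ
  have hanti : ∀ n ≤ N, ∀ σ : G, 0 < nfix (V N) σ → 0 < nfix (V n) σ := by
    intro n hn σ h
    induction hn' : N - n generalizing n with
    | zero => rwa [show n = N by omega]
    | succ k ih =>
      obtain ⟨y, hy⟩ := card_pos.mp (ih (n + 1) (by omega) (by omega))
      obtain ⟨h1, h2⟩ := mem_filter.mp hy
      exact card_pos.mpr ⟨f y, mem_filter.mpr ⟨hWV n (by omega) y h1, by rw [← hf, h2]⟩⟩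
  have hmono : ∀ n < N, n ∉ bad → 0 ≤ Φ (n + 1) - Φ n := by
    intro n hn hn1
    have := mart_step hf (hWV n hn) (hVG n hn.le) (hVG (n + 1) hn) (hsurj n hn) (hm n hn hn1)
      (fun _ => 0) fun σ => by rw [mul_zero]; positivity
    simp only [sum_const_zero, add_zero] at this
    exact sub_nonneg.mpr this
  have hstep : ∀ n ∈ good \ bad, c * (ε * Fintype.card G / 2) ≤ Φ (n + 1) - Φ n := by
    intro n hn
    obtain ⟨hn, hn1⟩ := mem_sdiff.mp hn
    obtain ⟨hn2, hn3⟩ := hgood n hn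
    have h1 := mart_step hf (hWV n hn2) (hVG n hn2.le) (hVG (n + 1) hn2) (hsurj n hn2)
      (hm n hn2 hn1) (fun σ => if 0 < nfix (V n) σ ∧ nfix (V n) σ ≤ M then c else 0) fun σ => by
        split_ifs with h
        · exact mart_gap hd hf (hWV n hn2) (hVG n hn2.le) (hVG (n + 1) hn2) (hfib n hn2)
            (hsurj n hn2) (hm n hn2 hn1) hn3 σ h.1 h.2
        · rw [mul_zero]; positivity
    rw [← sum_filter, sum_const, nsmul_eq_mul] at h1
    set C := univ.filter fun σ : G => 0 < nfix (V n) σ ∧ nfix (V n) σ ≤ M with hC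
    set B := univ.filter fun σ : G => M < nfix (V n) σ with hB
    have h2 : B.card * M ≤ Fintype.card G := by
      refine le_trans ?_ (sum_fix_le (V n) (hV n hn2.le))
      rw [← smul_eq_mul, ← sum_const]
      exact (sum_le_sum fun σ hσ => (mem_filter.mp hσ).2.le).trans
        (sum_le_sum_of_subset (subset_univ _))
    have h3 : (univ.filter fun σ : G => 0 < nfix (V N) σ).card ≤ C.card + B.card := by
      refine le_trans (card_le_card fun σ hσ => ?_) (card_union_le _ _)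
      have := hanti n hn2.le σ (mem_filter.mp hσ).2
      simp only [hC, hB, mem_union, mem_filter, mem_univ, true_and]
      omega
    have h4 : (B.card : ℝ) ≤ ε * Fintype.card G / 2 := by
      have e1 : (B.card : ℝ) * M ≤ Fintype.card G := by exact_mod_cast h2
      rw [div_le_iff₀ hε] at hM2
      have e2 : (0 : ℝ) ≤ B.card := Nat.cast_nonneg _
      nlinarith
    have h5 : ((univ.filter fun σ : G => 0 < nfix (V N) σ).card : ℝ) ≤ C.card + B.card := by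
      exact_mod_cast h3
    have h6 : ε * Fintype.card G / 2 ≤ C.card := by linarith
    have := mul_le_mul_of_nonneg_left h6 hc0.le
    simp only [hΦ]
    linarith
  have h4 : ∀ n, Φ n ≤ Fintype.card G := by
    intro n
    rw [← card_univ, ← mul_one ((univ : Finset G).card : ℝ), ← nsmul_eq_mul, ← sum_const]
    refine sum_le_sum fun σ _ => ?_
    rw [div_le_one (by positivity)]
    linarith [(Nat.cast_nonneg (nfix (V n) σ) : (0 : ℝ) ≤ _)]
  have h5 : ∀ n, 0 ≤ Φ n := fun n => by positivity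
  have h1 : ∑ n ∈ range N, (Φ (n + 1) - Φ n) = Φ N - Φ 0 := sum_range_sub Φ N
  rw [← sum_sdiff (s₁ := range N ∩ bad) inter_subset_left, sdiff_inter_self_left] at h1
  have h2 : ∑ n ∈ good \ bad, (Φ (n + 1) - Φ n) ≤ ∑ n ∈ range N \ bad, (Φ (n + 1) - Φ n) :=
    sum_le_sum_of_subset_of_nonneg
      (sdiff_subset_sdiff (fun n hn => mem_range.mpr (hgood n hn).1) Subset.rfl)
      fun n hn _ => hmono n (mem_range.mp (mem_sdiff.mp hn).1) (mem_sdiff.mp hn).2
  have h3 := sum_le_sum hstep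
  rw [sum_const, nsmul_eq_mul] at h3
  have h8 : ∑ n ∈ range N ∩ bad, (-(Fintype.card G : ℝ))
      ≤ ∑ n ∈ range N ∩ bad, (Φ (n + 1) - Φ n) :=
    sum_le_sum fun n _ => by linarith [h4 n, h5 (n + 1)]
  rw [sum_const, nsmul_eq_mul] at h8
  have h9 : ((range N ∩ bad).card : ℝ) ≤ K := by
    exact_mod_cast (card_le_card inter_subset_right).trans hbad
  have h6 : (R : ℝ) ≤ (good \ bad).card := by
    have := le_card_sdiff bad good
    exact_mod_cast (show R ≤ (good \ bad).card by omega)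
  have h7 : (R : ℝ) * (c * (ε * Fintype.card G / 2)) ≤ (K + 1) * Fintype.card G := by
    have := mul_le_mul_of_nonneg_right h6
      (show 0 ≤ c * (ε * Fintype.card G / 2) by positivity)
    nlinarith [h4 N, h5 0]
  rw [div_lt_iff₀ (by positivity)] at hR
  nlinarith

end Pool.Agent.Lib.MP_41de88_nt
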