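import Pool.Agent.Lib.MP_41de88_nt.LocalBase
import Pool.Agent.Lib.MP_41de88_nt.Mart

set_option autoImplicit false

open Polynomial WithZero Finset

namespace Pool.Agent.Lib.MP_41de88_nt

open helper22.Val

section
variable {L Γ : Type*} [Field L] [LinearOrderedCommGroupWithZero Γ] {v : Valuation L Γ}

lemma val_term_le_sum {ι : Type*} {s : Finset ι} {f : ι → L}
    (h : ∀ i ∈ s, ∀ j ∈ s, i ≠ j → f i ≠ 0 → f j ≠ 0 → v (f i) ≠ v (f j)) {i : ι} (hi : i ∈ s) :
    v (f i) ≤ v (∑ j ∈ s, f j) := by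
  classical
  obtain ⟨j, hj, hmax⟩ := s.exists_max_image (fun i => v (f i)) ⟨i, hi⟩
  rcases eq_or_ne (f j) 0 with h0 | h0
  · exact (hmax i hi).trans (by simp [h0])
  rw [v.map_sum_eq_of_lt hj fun k hk => ?_]
  · exact hmax i hi
  rw [mem_sdiff, mem_singleton] at hk
  rcases eq_or_ne (f k) 0 with h1 | h1
  · rw [h1, map_zero]
    exact zero_lt_iff.mpr ((Valuation.ne_zero_iff _).mpr h0)
  · exact lt_of_le_of_ne (hmax k hk.1) (h k hk.1 j hj hk.2 h1 h0)

lemma intP_prod_mul {ι : Type*} {P : L[X]} (hP : IntP v P) (s : Finset ι) (a : ι → L)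
    (hinj : Set.InjOn a s) (h : ∀ i ∈ s, v (a i) ≤ 1 ∧ P.eval (a i) = 0) :
    ∃ R, IntP v R ∧ P = (∏ i ∈ s, (X - C (a i))) * R := by
  classical
  induction s using Finset.induction_on with
  | empty => exact ⟨P, hP, by simp⟩
  | insert i s hi ih =>
    obtain ⟨R, hR, e⟩ := ih (hinj.mono (by simp)) fun j hj => h j (mem_insert_of_mem hj)
    obtain ⟨h1, h2⟩ := h i (mem_insert_self _ _)
    obtain ⟨T, hT, e'⟩ := hR.exists_factor h1
    have h3 : R.eval (a i) = 0 := by
      rw [e, eval_mul, eval_prod, mul_eq_zero, prod_eq_zero_iff] at h2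
      refine h2.resolve_left ?_
      rintro ⟨j, hj, h4⟩
      simp only [eval_sub, eval_X, eval_C, sub_eq_zero] at h4
      exact hi (hinj (mem_insert_self _ _) (mem_insert_of_mem hj) h4 ▸ hj)
    refine ⟨T, hT, ?_⟩
    rw [prod_insert hi, e, e', h3]
    simp only [map_zero, zero_add]
    ring

lemma coeff_prod_sub_lt {ι : Type*} (s : Finset ι) (a : ι → L) (h : ∀ i ∈ s, v (a i) < 1) :
    IntP v (∏ i ∈ s, (X - C (a i))) ∧
      ∀ k, v ((∏ i ∈ s, (X - C (a i)) - X ^ s.card).coeff k) < 1 := by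
  classical
  induction s using Finset.induction_on with
  | empty => exact ⟨by simpa using IntP.C (v := v) (a := 1) (by simp), by simp⟩
  | insert i s hi ih =>
    obtain ⟨h1, h2⟩ := ih fun j hj => h j (mem_insert_of_mem hj)
    have h3 := h i (mem_insert_self _ _)
    rw [prod_insert hi, card_insert_of_notMem hi]
    refine ⟨(IntP.X.sub (IntP.C h3.le)).mul h1, fun k => ?_⟩
    rw [show (X - C (a i)) * ∏ i ∈ s, (X - C (a i)) - X ^ (s.card + 1)
      = X * (∏ i ∈ s, (X - C (a i)) - X ^ s.card) - C (a i) * ∏ i ∈ s, (X - C (a i)) by ring,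
      coeff_sub, coeff_C_mul]
    refine v.map_sub_lt ?_ ?_
    · rcases k with _ | k
      · simp
      · rw [coeff_X_mul]; exact h2 k
    · rw [map_mul]
      exact mul_lt_one_of_nonneg_of_lt_one_left zero_le h3 (h1 k)

lemma coeff_mul_lt {P Q : L[X]} (hP : ∀ k, v (P.coeff k) < 1) (hQ : IntP v Q) (k : ℕ) :
    v ((P * Q).coeff k) < 1 := by
  rw [coeff_mul]
  refine v.map_sum_lt one_ne_zero fun j _ => ?_
  rw [map_mul]
  exact mul_lt_one_of_nonneg_of_lt_one_left zero_le (hP _) (hQ _)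

lemma intP_pow {P : L[X]} (hP : IntP v P) (n : ℕ) : IntP v (P ^ n) := by
  induction n with
  | zero => simpa using IntP.C (v := v) (a := 1) (by simp)
  | succ n ih => rw [pow_succ]; exact ih.mul hP

lemma intP_comp {P Q : L[X]} (hP : IntP v P) (hQ : IntP v Q) : IntP v (P.comp Q) := by
  intro k
  rw [comp_eq_sum_left, Polynomial.sum, finsetSum_coeff]
  exact v.map_sum_le fun j _ => (IntP.C (hP j)).mul (intP_pow hQ j) k

lemma pow_le_val_nat {q : ℕ} (hq : q.Prime) (hv : v q < 1) {n : ℕ} (hn : n ≠ 0) :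
    v q ^ n ≤ v n := by
  obtain ⟨k, m, h1, rfl⟩ := Nat.exists_eq_pow_mul_and_not_dvd hn q hq.ne_one
  rw [Nat.cast_mul, map_mul, val_nat_eq_one' hq hv h1, mul_one, Nat.cast_pow, map_pow]
  refine pow_le_pow_of_le_one zero_le hv.le ((Nat.lt_pow_self hq.one_lt).le.trans
    (Nat.le_mul_of_pos_right _ (Nat.pos_of_ne_zero fun h => h1 (h ▸ dvd_zero q))))

end

variable {L : Type*} [Field L] {v : Valuation L ℤᵐ⁰}

/-- additive valuation -/
noncomputable def od (v : Valuation L ℤᵐ⁰) (x : L) : ℤ := -log (v x)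

lemma vne {x : L} (hx : x ≠ 0) : v x ≠ 0 := (Valuation.ne_zero_iff _).mpr hx

lemma od_mul {x y : L} (hx : x ≠ 0) (hy : y ≠ 0) : od v (x * y) = od v x + od v y := by
  rw [od, od, od, map_mul, log_mul (vne hx) (vne hy), neg_add]

lemma od_pow (x : L) (n : ℕ) : od v (x ^ n) = n * od v x := by
  rw [od, od, map_pow, log_pow, nsmul_eq_mul, mul_neg]

lemma od_inv (x : L) : od v x⁻¹ = -od v x := by
  rw [od, od, map_inv₀, log_inv]

lemma od_zero : od v 0 = 0 := by simp [od]

lemma od_congr {x y : L} (h : v x = v y) : od v x = od v y := by rw [od, od, h]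

lemma od_le_od {x y : L} (hx : x ≠ 0) (hy : y ≠ 0) : od v x ≤ od v y ↔ v y ≤ v x := by
  rw [od, od, neg_le_neg_iff, log_le_log (vne hy) (vne hx)]

lemma od_lt_od {x y : L} (hx : x ≠ 0) (hy : y ≠ 0) : od v x < od v y ↔ v y < v x := by
  rw [od, od, neg_lt_neg_iff, log_lt_log (vne hy) (vne hx)]

lemma od_le_of_le {x y : L} (hy : y ≠ 0) (h : v y ≤ v x) : od v x ≤ od v y :=
  (od_le_od (fun h0 => vne hy (by rwa [h0, map_zero, le_zero_iff] at h)) hy).mpr h

lemma od_one : od v 1 = 0 := by simp [od]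

lemma od_of_eq_one {x : L} (h : v x = 1) : od v x = 0 := by simp [od, h]

lemma od_nonneg {x : L} (h : v x ≤ 1) : 0 ≤ od v x := by
  rcases eq_or_ne x 0 with rfl | hx
  · exact od_zero.ge
  · rw [← od_one (v := v), od_le_od one_ne_zero hx, map_one]; exact h

lemma od_pos {x : L} (hx : x ≠ 0) : 0 < od v x ↔ v x < 1 := by
  rw [← od_one (v := v), od_lt_od one_ne_zero hx, map_one]

lemma od_nonneg_iff {x : L} (hx : x ≠ 0) : 0 ≤ od v x ↔ v x ≤ 1 := by
  rw [← od_one (v := v), od_le_od one_ne_zero hx, map_one]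

lemma od_prod {ι : Type*} {s : Finset ι} {f : ι → L} (h : ∀ i ∈ s, f i ≠ 0) :
    od v (∏ i ∈ s, f i) = ∑ i ∈ s, od v (f i) := by
  classical
  induction s using Finset.induction_on with
  | empty => simp [od_one]
  | insert i s hi ih =>
    rw [prod_insert hi, sum_insert hi, od_mul (h i (mem_insert_self _ _))
      (prod_ne_zero_iff.mpr fun j hj => h j (mem_insert_of_mem hj)),
      ih fun j hj => h j (mem_insert_of_mem hj)]

lemma od_sub_swap (x y : L) : od v (x - y) = od v (y - x) := od_congr (v.map_sub_swap x y)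

variable {J : Type*} [Group J] [Fintype J] [MulSemiringAction J L]

lemma card_sgF (H : Subgroup J) : (sgF H).card = Nat.card H := by
  classical
  rw [Nat.card_eq_fintype_card, Fintype.card_subtype]
  congr

lemma exists_interp (z x : L) (hx : ∀ σ : J, σ • z = z → σ • x = x) : ∃ P : L[X],
    (∀ (σ : J) i, σ • P.coeff i = P.coeff i) ∧ P.degree < (MulAction.stabilizer J z).index ∧
      ∀ σ : J, P.eval (σ • z) = σ • x := by
  classical
  set O : Finset L := univ.image fun σ : J => σ • z with hO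
  have hOc : O.card = (MulAction.stabilizer J z).index := by
    rw [MulAction.index_stabilizer, ← Set.ncard_coe_finset, hO, coe_image, coe_univ,
      Set.image_univ]
    rfl
  let r : L → L := fun y => if h : ∃ σ : J, σ • z = y then h.choose • x else 0
  have hr : ∀ σ : J, r (σ • z) = σ • x := by
    intro σ
    have h : ∃ τ : J, τ • z = σ • z := ⟨σ, rfl⟩
    simp only [r, dif_pos h]
    have := hx (σ⁻¹ * h.choose) (by rw [mul_smul, h.choose_spec, inv_smul_smul])
    rwa [mul_smul, inv_smul_eq_iff] at this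
  have hd := Lagrange.degree_interpolate_lt (s := O) (v := id) r (Set.injOn_id _)
  have he : ∀ σ : J, (Lagrange.interpolate O id r).eval (σ • z) = σ • x := fun σ =>
    (Lagrange.eval_interpolate_at_node (s := O) (v := id) r (Set.injOn_id _)
      (mem_image_of_mem _ (mem_univ σ))).trans (hr σ)
  refine ⟨Lagrange.interpolate O id r, fun σ i => ?_, hOc ▸ hd, he⟩
  have : σ • Lagrange.interpolate O id r = Lagrange.interpolate O id r := by
    refine eq_of_degrees_lt_of_eval_finset_eq O ?_ hd fun y hy => ?_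
    · rw [smul_eq_map]; exact degree_map_le.trans_lt hd
    · obtain ⟨τ, -, rfl⟩ := mem_image.mp hy
      rw [Polynomial.smul_eval, ← mul_smul, he, he, ← mul_smul, mul_inv_cancel_left]
  conv_rhs => rw [← this]
  rfl

omit [Fintype J] in
lemma Inert.od_smul (h : Inert v J) (σ : J) (x : L) : od v (σ • x) = od v x := od_congr (h.val σ x)

omit [Fintype J] in
lemma Inert.od_dvd (h : Inert v J) (H : Subgroup J) {x : L} (hx : ∀ σ ∈ H, σ • x = x) :
    (Nat.card H : ℤ) ∣ od v x := (h.dvd H x hx).neg_right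

lemma Inert.index_dvd (h : Inert v J) {z : L} (hz : od v z = Nat.card (MulAction.stabilizer J z))
    {a : L} (ha : ∀ σ : J, σ • a = a) (ha0 : a ≠ 0) (hz0 : z ≠ 0) (i : ℕ) : ∃ m : ℤ,
      od v a = m * Nat.card J ∧ od v (a * z ^ i)
        = (m * (MulAction.stabilizer J z).index + i) * Nat.card (MulAction.stabilizer J z) := by
  obtain ⟨m, hm⟩ := h.od_dvd ⊤ (x := a) fun σ _ => ha σ
  rw [Subgroup.card_top] at hm
  refine ⟨m, by rw [hm, mul_comm], ?_⟩
  rw [od_mul ha0 (pow_ne_zero _ hz0), od_pow, hm, hz, ← (MulAction.stabilizer J z).index_mul_card]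
  push_cast
  ring

lemma ne_zero_of_od_card {z : L} {H : Subgroup J} (hz : od v z = Nat.card H) : z ≠ 0 := by
  rintro rfl
  rw [od_zero] at hz
  exact Nat.card_pos.ne (by exact_mod_cast hz)

lemma Inert.term_le (h : Inert v J) {z : L} (hz : od v z = Nat.card (MulAction.stabilizer J z))
    {P : L[X]} (hP : ∀ (σ : J) i, σ • P.coeff i = P.coeff i)
    (hd : P.degree < (MulAction.stabilizer J z).index) (i : ℕ) :
    v (P.coeff i * z ^ i) ≤ v (P.eval z) := by
  have hz0 := ne_zero_of_od_card hz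
  rcases eq_or_ne (P.coeff i) 0 with h0 | h0
  · simp [h0]
  rw [eval_eq_sum, Polynomial.sum]
  refine val_term_le_sum (v := v) (f := fun i => P.coeff i * z ^ i)
    (fun i hi j hj hij h1 h2 e => hij ?_) (mem_support_iff.mpr h0)
  obtain ⟨m, -, hm⟩ := h.index_dvd hz (hP · i) (left_ne_zero_of_mul h1) hz0 i
  obtain ⟨n, -, hn⟩ := h.index_dvd hz (hP · j) (left_ne_zero_of_mul h2) hz0 j
  rw [od_congr e, hn, mul_left_inj' (by exact_mod_cast Nat.card_pos.ne')] at hm
  have hi' : i < (MulAction.stabilizer J z).index := by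
    exact_mod_cast (le_degree_of_ne_zero (mem_support_iff.mp hi)).trans_lt hd
  have hj' : j < (MulAction.stabilizer J z).index := by
    exact_mod_cast (le_degree_of_ne_zero (mem_support_iff.mp hj)).trans_lt hd
  have : n = m := by
    rcases lt_trichotomy n m with h | h | h
    · nlinarith
    · exact h
    · nlinarith
  subst this
  omega

lemma Inert.exists_expansion (h : Inert v J) {z : L}
    (hz : od v z = Nat.card (MulAction.stabilizer J z)) {x : L}
    (hx : ∀ σ : J, σ • z = z → σ • x = x) (hx1 : v x ≤ 1) : ∃ P : L[X],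
      (∀ (σ : J) i, σ • P.coeff i = P.coeff i) ∧ P.degree < (MulAction.stabilizer J z).index ∧
        (∀ σ : J, P.eval (σ • z) = σ • x) ∧ IntP v P := by
  obtain ⟨P, h1, h2, h3⟩ := exists_interp z x hx
  refine ⟨P, h1, h2, h3, fun i => ?_⟩
  have hz0 := ne_zero_of_od_card hz
  rcases eq_or_ne (P.coeff i) 0 with h0 | h0
  · simp [h0]
  have h4 := h.term_le hz h1 h2 i
  rw [show P.eval z = x by simpa using h3 1] at h4
  obtain ⟨m, h5, h6⟩ := h.index_dvd hz (h1 · i) h0 hz0 i
  have h7 := od_nonneg (h4.trans hx1)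
  have hi' : i < (MulAction.stabilizer J z).index := by
    exact_mod_cast (le_degree_of_ne_zero h0).trans_lt h2
  have h8 : (0 : ℤ) < Nat.card (MulAction.stabilizer J z) := by exact_mod_cast Nat.card_pos
  rw [h6] at h7
  have h9 := nonneg_of_mul_nonneg_left h7 h8
  rw [← od_nonneg_iff h0, h5]
  refine mul_nonneg (not_lt.mp fun hm => ?_) (Nat.cast_nonneg _)
  nlinarith

lemma Inert.coeff_unit (h : Inert v J) {z : L}
    (hz : od v z = Nat.card (MulAction.stabilizer J z)) {P : L[X]}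
    (hP : ∀ (σ : J) i, σ • P.coeff i = P.coeff i)
    (hd : P.degree < (MulAction.stabilizer J z).index) {a : ℕ}
    (ha : a < (MulAction.stabilizer J z).index) (h0 : P.eval z ≠ 0)
    (he : od v (P.eval z) = a * Nat.card (MulAction.stabilizer J z)) : v (P.coeff a) = 1 := by
  have hz0 := ne_zero_of_od_card hz
  obtain ⟨j, hj, e⟩ : ∃ j ∈ P.support, v (P.coeff j * z ^ j) = v (P.eval z) := by
    by_contra hcon
    push Not at hcon
    refine lt_irrefl (v (P.eval z)) ?_
    conv_lhs => rw [eval_eq_sum, Polynomial.sum]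
    exact v.map_sum_lt (vne h0) fun j hj => lt_of_le_of_ne (h.term_le hz hP hd j) (hcon j hj)
  obtain ⟨m, h5, h6⟩ := h.index_dvd hz (hP · j) (mem_support_iff.mp hj) hz0 j
  rw [od_congr e, he, mul_left_inj' (by exact_mod_cast Nat.card_pos.ne')] at h6
  have hj' : j < (MulAction.stabilizer J z).index := by
    exact_mod_cast (le_degree_of_ne_zero (mem_support_iff.mp hj)).trans_lt hd
  have : m = 0 := by
    rcases lt_trichotomy m 0 with h | h | h
    · nlinarith
    · exact h
    · nlinarith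
  subst this
  have : a = j := by omega
  subst this
  rw [zero_mul] at h5
  have h7 := mem_support_iff.mp hj
  exact le_antisymm ((od_nonneg_iff h7).mp h5.ge) (not_lt.mp fun hlt => ((od_pos h7).mpr hlt).ne' h5)

section
variable {π : L} (h : Inert v J) (hπ : od v π = 1)
include h hπ

omit [Fintype J] in
lemma Inert.stab_bot : MulAction.stabilizer J π = ⊥ := by
  have := h.od_dvd (MulAction.stabilizer J π) fun σ hσ => hσ
  rw [hπ] at this
  exact Subgroup.eq_bot_of_card_eq _ (by exact_mod_cast Int.eq_one_of_dvd_one (by positivity) this)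

omit [Fintype J] in
lemma Inert.smul_inj : Function.Injective fun σ : J => σ • π := by
  intro σ τ e
  have : τ⁻¹ * σ ∈ MulAction.stabilizer J π := by
    rw [MulAction.mem_stabilizer_iff, mul_smul, inv_smul_eq_iff]; exact e
  rw [h.stab_bot hπ, Subgroup.mem_bot, inv_mul_eq_one] at this
  exact this.symm

omit [Fintype J] in
lemma Inert.val_unif_lt (σ : J) : v (σ • π) < 1 := by
  rw [h.val, ← od_pos, hπ]
  · exact one_pos
  · rintro rfl
    rw [od_zero] at hπ
    exact zero_ne_one hπ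

omit [Fintype J] in
lemma Inert.unif_ne {σ : J} (hσ : σ ≠ 1) : σ • π - π ≠ 0 := fun e =>
  hσ (h.smul_inj hπ ((sub_eq_zero.mp e).trans (one_smul J π).symm))

omit [Fintype J] in
lemma Inert.od_sub_nonneg (σ : J) : 0 ≤ od v (σ • π - π) :=
  od_nonneg (v.map_sub_le (h.val_unif_lt hπ σ).le (by simpa using (h.val_unif_lt hπ 1).le))

lemma Inert.exists_poly {x : L} (hx : v x ≤ 1) : ∃ P : L[X],
    (∀ (σ : J) i, σ • P.coeff i = P.coeff i) ∧ P.degree < Nat.card J ∧
      (∀ σ : J, P.eval (σ • π) = σ • x) ∧ IntP v P := by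
  have := h.exists_expansion (z := π) (by rw [h.stab_bot hπ, hπ]; simp) (x := x)
    (fun σ e => by rw [h.smul_inj hπ (e.trans (one_smul J π).symm), one_smul]) hx
  rwa [h.stab_bot hπ, Subgroup.index_bot] at this

lemma Inert.exists_factor (H : Subgroup J) {P : L[X]} (hP : IntP v P) {x : L} (hx : v x ≤ 1)
    (he : ∀ σ ∈ H, P.eval (σ • π) = x) :
    ∃ R, IntP v R ∧ P - C x = (∏ σ ∈ sgF H, (X - C (σ • π))) * R :=
  intP_prod_mul (hP.sub (IntP.C hx)) _ _ (h.smul_inj hπ).injOn fun σ hσ =>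
    ⟨(h.val_unif_lt hπ σ).le, by rw [eval_sub, eval_C, he σ (mem_sgF.mp hσ), sub_self]⟩

omit hπ in
lemma Inert.val_eval_prod (H : Subgroup J) (τ : J) :
    v ((∏ σ ∈ sgF H, (X - C (σ • π))).eval (τ⁻¹ • π)) = ∏ σ ∈ sgF H, v ((τ * σ) • π - π) := by
  rw [eval_prod, map_prod]
  refine prod_congr rfl fun σ _ => ?_
  rw [eval_sub, eval_X, eval_C, ← h.val τ, smul_sub, smul_inv_smul, mul_smul, v.map_sub_swap]

lemma Inert.val_sub_le (H : Subgroup J) {x : L} (hx : v x ≤ 1) (hH : ∀ σ ∈ H, σ • x = x) (τ : J) :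
    v (τ • x - x) ≤ ∏ σ ∈ sgF H, v ((τ * σ) • π - π) := by
  obtain ⟨P, -, -, h1, h2⟩ := h.exists_poly hπ hx
  obtain ⟨R, h3, h4⟩ := h.exists_factor hπ H h2 hx fun σ hσ => (h1 σ).trans (hH σ hσ)
  have h5 := congrArg (fun Q => v (Q.eval (τ⁻¹ • π))) h4
  simp only [eval_sub, eval_C, eval_mul, map_mul, h1] at h5
  rw [← h.val τ⁻¹, smul_sub, inv_smul_smul, v.map_sub_swap, h5, h.val_eval_prod]
  exact mul_le_of_le_one_right' (h3.eval (h.val_unif_lt hπ _).le)

lemma Inert.od_prod_smul {s : Finset J} (hs : (1 : J) ∉ s) :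
    -log (∏ σ ∈ s, v (σ • π - π)) = ∑ σ ∈ s, od v (σ • π - π) := by
  rw [← od_prod fun σ hσ => h.unif_ne hπ (fun e => hs (e ▸ hσ)), od, map_prod]

lemma Inert.eval_derivative_prod (H : Subgroup J) :
    (∏ σ ∈ sgF H, (X - C (σ • π))).derivative.eval π ≠ 0 ∧
    od v ((∏ σ ∈ sgF H, (X - C (σ • π))).derivative.eval π) = ∑ σ ∈ sgF H, od v (σ • π - π) := by
  classical
  have h1 : (1 : J) ∈ sgF H := mem_sgF.mpr (one_mem _)
  have h2 : (∏ σ ∈ sgF H, (X - C (σ • π))).derivative.eval π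
      = ∏ σ ∈ (sgF H).erase 1, (π - σ • π) := by
    rw [← mul_prod_erase _ _ h1]
    simp [eval_prod]
  have h3 : ∀ σ ∈ (sgF H).erase 1, π - σ • π ≠ 0 := fun σ hσ e =>
    h.unif_ne hπ (mem_erase.mp hσ).1 (by rw [← neg_sub, e, neg_zero])
  rw [h2, od_prod h3, ← add_sum_erase _ _ h1, one_smul, sub_self, od_zero, zero_add]
  exact ⟨prod_ne_zero_iff.mpr h3, sum_congr rfl fun σ _ => od_sub_swap _ _⟩

omit h hπ in
lemma eval_derivative_factor {H : Subgroup J} {P R : L[X]} {x : L}
    (e : P - C x = (∏ σ ∈ sgF H, (X - C (σ • π))) * R) : P.derivative.eval π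
      = (∏ σ ∈ sgF H, (X - C (σ • π))).derivative.eval π * R.eval π := by
  have h1 := congrArg (fun Q => Q.derivative.eval π) e
  have h2 : (∏ σ ∈ sgF H, (X - C (σ • π))).eval π = 0 := by
    rw [eval_prod]
    exact prod_eq_zero (mem_sgF.mpr (one_mem _)) (by simp)
  simpa [h2] using h1

lemma Inert.derivative_le (H : Subgroup J) {P : L[X]} (hP : IntP v P) {x : L} (hx : v x ≤ 1)
    (he : ∀ σ ∈ H, P.eval (σ • π) = x) (h0 : P.derivative.eval π ≠ 0) :
    ∑ σ ∈ sgF H, od v (σ • π - π) ≤ od v (P.derivative.eval π) := by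
  obtain ⟨R, h1, h2⟩ := h.exists_factor hπ H hP hx he
  rw [eval_derivative_factor h2] at h0 ⊢
  rw [od_mul (left_ne_zero_of_mul h0) (right_ne_zero_of_mul h0), (h.eval_derivative_prod hπ H).2]
  have := od_nonneg (h1.eval (x := π) (by simpa using (h.val_unif_lt hπ 1).le))
  omega

/-- a uniformizer of the fixed field of `H` -/
lemma Inert.exists_unif (H : Subgroup J) (hH : 1 < H.index) : ∃ (z : L) (Q : L[X]),
    MulAction.stabilizer J z = H ∧ od v z = Nat.card H ∧ IntP v Q ∧
      (∀ σ : J, Q.eval (σ • π) = σ • z) ∧ Q.derivative.eval π ≠ 0 ∧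
      od v (Q.derivative.eval π) = ∑ σ ∈ sgF H, od v (σ • π - π) ∧
      ∀ τ : J, v (τ • z - z) = ∏ σ ∈ sgF H, v ((τ * σ) • π - π) := by
  have hπ0 : π ≠ 0 := by
    rintro rfl
    rw [od_zero] at hπ
    exact zero_ne_one hπ
  set z := ∏ σ ∈ sgF H, σ • π with hz
  have h1 : od v z = Nat.card H := by
    rw [hz, od_prod fun σ _ => (smul_ne_zero_iff_ne σ).mpr hπ0, ← card_sgF]
    simp [h.od_smul, hπ]
  have h2 : H ≤ MulAction.stabilizer J z := fun τ hτ => by
    rw [MulAction.mem_stabilizer_iff, hz, smul_prod']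
    refine prod_nbij (τ * ·) (fun σ hσ => mem_sgF.mpr (mul_mem hτ (mem_sgF.mp hσ)))
      (fun _ _ _ _ e => mul_left_cancel e) (fun σ hσ => ⟨τ⁻¹ * σ, mem_coe.mpr (mem_sgF.mpr
        (mul_mem (inv_mem hτ) (mem_sgF.mp hσ))), by simp⟩) fun σ _ => (mul_smul _ _ _).symm
  have h3 : MulAction.stabilizer J z = H := by
    refine (Subgroup.eq_of_le_of_card_ge h2 (Nat.le_of_dvd Nat.card_pos ?_)).symm
    have := h.od_dvd (MulAction.stabilizer J z) fun σ hσ => hσ
    rw [h1] at this
    exact_mod_cast this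
  have hz0 := ne_zero_of_od_card h1
  have hz1 : v z ≤ 1 := (od_nonneg_iff hz0).mp (by rw [h1]; positivity)
  obtain ⟨Q, h4, h5, h6, h7⟩ := h.exists_poly hπ hz1
  obtain ⟨R, h8, h9⟩ := h.exists_factor hπ H h7 hz1 fun σ hσ => (h6 σ).trans (h2 hσ)
  have hQπ : Q.eval π = z := by simpa using h6 1
  have h10 : v (Q.coeff (Nat.card H)) = 1 := by
    refine h.coeff_unit (z := π) (by rw [h.stab_bot hπ, hπ]; simp) h4 ?_ ?_ (hQπ ▸ hz0) ?_ <;>
      rw [h.stab_bot hπ]
    · rwa [Subgroup.index_bot]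
    · rw [Subgroup.index_bot, ← H.index_mul_card]
      exact lt_mul_of_one_lt_left Nat.card_pos hH
    · rw [hQπ, h1]; simp
  have h11 : v (R.coeff 0) = 1 := by
    have e1 := coeff_mul_lt (coeff_prod_sub_lt (v := v) (sgF H) (fun σ => σ • π)
      fun σ _ => h.val_unif_lt hπ σ).2 h8 (Nat.card H)
    rw [sub_mul, ← h9, card_sgF, coeff_sub, coeff_sub, coeff_C_of_ne_zero Nat.card_pos.ne',
      sub_zero, coeff_X_pow_mul', if_pos le_rfl, Nat.sub_self, v.map_sub_swap] at e1
    exact val_eq_one_of_sub_lt h10 e1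
  have h12 : ∀ σ : J, v (R.eval (σ • π)) = 1 := fun σ => by
    refine val_eq_one_of_sub_lt h11 ?_
    rw [coeff_zero_eq_eval_zero]
    exact h8.eval_sub_lt (h.val_unif_lt hπ σ).le (by simp) (by simpa using h.val_unif_lt hπ σ)
  have h13 : v (R.eval π) = 1 := by simpa using h12 1
  have h14 : R.eval π ≠ 0 := fun e => by simp [e] at h13
  refine ⟨z, Q, h3, h1, h7, h6, ?_, ?_, fun τ => ?_⟩
  · rw [eval_derivative_factor h9]
    exact mul_ne_zero (h.eval_derivative_prod hπ H).1 h14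
  · rw [eval_derivative_factor h9, od_mul (h.eval_derivative_prod hπ H).1 h14,
      (h.eval_derivative_prod hπ H).2, od_of_eq_one h13, add_zero]
  · have h5 := congrArg (fun Q => v (Q.eval (τ⁻¹ • π))) h9
    simp only [eval_sub, eval_C, eval_mul, map_mul, h6, h12, mul_one] at h5
    rw [← h.val τ⁻¹, smul_sub, inv_smul_smul, v.map_sub_swap, h5, h.val_eval_prod]

end

end Pool.Agent.Lib.MP_41de88_nt
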