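import Pool.Agent.Lib.MP_41de88_nt.Ramif
import Pool.Agent.Lib.MP_41de88_nt.WildSep

set_option autoImplicit false

open Polynomial WithZero Finset

namespace Pool.Agent.Lib.MP_41de88_nt

open helper22.Val

variable {L : Type*} [Field L] {v : Valuation L ℤᵐ⁰} {J : Type*} [Group J] [Fintype J]
  [MulSemiringAction J L]

/-- valuation of the different of `L` over the fixed field of `H` -/
noncomputable def Din (v : Valuation L ℤᵐ⁰) (π : L) (H : Subgroup J) : ℤ :=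
  ∑ σ ∈ sgF H, od v (σ • π - π)

lemma sum_orbit_le [DecidableEq L] (H : Subgroup J) (x : L) (hx : MulAction.stabilizer J x ≤ H)
    (g : J → ℤ) (c : L → ℤ)
    (h : ∀ τ ∈ H, τ • x ≠ x → ∑ σ ∈ sgF (MulAction.stabilizer J x), g (τ * σ) ≤ c (τ • x)) :
    ∑ σ ∈ sgF H, g σ ≤ ∑ σ ∈ sgF (MulAction.stabilizer J x), g σ
      + ∑ y ∈ ((sgF H).image (· • x)).erase x, c y := by
  have h1 : x ∈ (sgF H).image (· • x) := mem_image.mpr ⟨1, mem_sgF.mpr (one_mem _), one_smul _ _⟩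
  have key : ∀ τ ∈ H, ∑ σ ∈ (sgF H).filter (fun σ => σ • x = τ • x), g σ
      = ∑ σ ∈ sgF (MulAction.stabilizer J x), g (τ * σ) := by
    intro τ hτ
    refine (sum_nbij (τ * ·) (fun σ hσ => ?_) (fun _ _ _ _ e => mul_left_cancel e)
      (fun σ hσ => ⟨τ⁻¹ * σ, ?_, by simp⟩) fun _ _ => rfl).symm
    · rw [mem_sgF] at hσ
      exact mem_filter.mpr ⟨mem_sgF.mpr (mul_mem hτ (hx hσ)), by rw [mul_smul, hσ]⟩
    · rw [mem_coe, mem_sgF, MulAction.mem_stabilizer_iff, mul_smul, inv_smul_eq_iff]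
      exact (mem_filter.mp hσ).2
  rw [← sum_fiberwise_of_maps_to (g := (· • x)) fun σ hσ => mem_image_of_mem _ hσ,
    ← add_sum_erase _ _ h1]
  refine add_le_add (le_of_eq ?_) (sum_le_sum fun y hy => ?_)
  · simpa using key 1 (one_mem _)
  · obtain ⟨h2, h3⟩ := mem_erase.mp hy
    obtain ⟨τ, hτ, rfl⟩ := mem_image.mp h3
    rw [key τ (mem_sgF.mp hτ)]
    exact h τ (mem_sgF.mp hτ) h2

variable {π : L} (h : Inert v J) (hπ : od v π = 1)
include h hπ

lemma Inert.log_prod_coset {H : Subgroup J} {τ : J} (hτ : τ ∉ H) :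
    ∏ σ ∈ sgF H, v ((τ * σ) • π - π) ≠ 0 ∧
    -log (∏ σ ∈ sgF H, v ((τ * σ) • π - π)) = ∑ σ ∈ sgF H, od v ((τ * σ) • π - π) := by
  have h1 : ∀ σ ∈ sgF H, (τ * σ) • π - π ≠ 0 := fun σ hσ => h.unif_ne hπ fun e =>
    hτ (by rw [eq_inv_of_mul_eq_one_left e]; exact inv_mem (mem_sgF.mp hσ))
  rw [← od_prod h1, od, map_prod]
  exact ⟨prod_ne_zero_iff.mpr fun σ hσ => vne (h1 σ hσ), rfl⟩

lemma Inert.sum_coset_le (H : Subgroup J) {x : L} (hx : v x ≤ 1) (hH : ∀ σ ∈ H, σ • x = x) {τ : J}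
    (hτ : τ • x ≠ x) : ∑ σ ∈ sgF H, od v ((τ * σ) • π - π) ≤ od v (τ • x - x) := by
  obtain ⟨h1, h2⟩ := h.log_prod_coset hπ (H := H) fun e => hτ (hH τ e)
  rw [← h2, od, neg_le_neg_iff, log_le_log (vne (sub_ne_zero.mpr hτ)) h1]
  exact h.val_sub_le hπ H hx hH τ

lemma Inert.Din_sub_le [DecidableEq L] (H : Subgroup J) {x : L} (hx1 : v x ≤ 1)
    (hx : MulAction.stabilizer J x ≤ H) : Din v π H ≤ Din v π (MulAction.stabilizer J x)
      + ∑ y ∈ ((sgF H).image (· • x)).erase x, od v (y - x) :=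
  sum_orbit_le H x hx _ (fun y => od v (y - x)) fun _ _ hτ =>
    h.sum_coset_le hπ _ hx1 (fun _ e => e) hτ

lemma Inert.Din_mono {H H' : Subgroup J} (hle : H' ≤ H) : Din v π H' ≤ Din v π H :=
  sum_le_sum_of_subset_of_nonneg (fun _ hσ => mem_sgF.mpr (hle (mem_sgF.mp hσ)))
    fun σ _ _ => h.od_sub_nonneg hπ σ

/-- approximation of an element with close conjugates by an invariant element -/
lemma Inert.ax {H H' : Subgroup J} (hle : H' ≤ H) (hi : 1 < H'.index) {x : L} (hx0 : x ≠ 0)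
    (hx : ∀ σ ∈ H', σ • x = x)
    (hb : ∀ τ ∈ H, τ • x ≠ x → od v x + (Din v π H - Din v π H') < od v (τ • x - x)) :
    (Nat.card H : ℤ) ∣ od v x := by
  classical
  obtain ⟨z, -, rfl, h1, -, -, -, -, h2⟩ := h.exists_unif hπ H' hi
  obtain ⟨P, h3, h4, h5⟩ := exists_interp (J := H) z x fun σ e => hx σ e
  set O := (sgF H).image (· • z) with hO
  have hOc : O.card = (MulAction.stabilizer H z).index := by
    rw [MulAction.index_stabilizer, ← Set.ncard_coe_finset]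
    congr 1
    ext y
    simp only [hO, coe_image, Set.mem_image, mem_coe, mem_sgF]
    exact ⟨fun ⟨σ, h1, h2⟩ => ⟨⟨σ, h1⟩, h2⟩, fun ⟨σ, h2⟩ => ⟨σ, σ.2, h2⟩⟩
  have hz0 := ne_zero_of_od_card h1
  have h6 : ∑ y ∈ O.erase z, od v (y - z) ≤ Din v π H - Din v π (MulAction.stabilizer J z) := by
    have := sum_orbit_le H z hle (fun σ => -od v (σ • π - π)) (fun y => -od v (y - z))
      fun τ _ hτ => by
        rw [sum_neg_distrib, ← (h.log_prod_coset hπ (H := MulAction.stabilizer J z) hτ).2, ← h2]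
        rfl
    simp only [sum_neg_distrib] at this
    rw [Din, Din, hO]
    omega
  have h7 : (P - C x).degree < O.card := by
    rw [hOc]
    refine (degree_sub_le _ _).trans_lt (max_lt h4 (degree_C_le.trans_lt ?_))
    exact_mod_cast Nat.pos_of_ne_zero Subgroup.FiniteIndex.index_ne_zero
  have h8 : v (P.eval 0 - x) < v x := by
    have e := congrArg (eval 0) (Lagrange.eq_interpolate (s := O) (v := id) (Set.injOn_id _) h7)
    rw [eval_sub, eval_C, Lagrange.interpolate_apply, eval_finsetSum] at e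
    rw [e]
    refine v.map_sum_lt (vne hx0) fun y hy => ?_
    obtain ⟨τ, hτ, rfl⟩ := mem_image.mp hy
    rw [mem_sgF] at hτ
    have e1 : P.eval (τ • z) = τ • x := h5 ⟨τ, hτ⟩
    simp only [id, eval_mul, eval_C, eval_sub, e1]
    by_cases e2 : τ • x = x
    · rw [e2, sub_self, zero_mul, map_zero]
      exact zero_lt_iff.mpr (vne hx0)
    have e3 : (Lagrange.basis O id (τ • z)).eval 0
        = ∏ y ∈ O.erase (τ • z), ((τ • z - y)⁻¹ * (0 - y)) := by
      simp [Lagrange.basis, Lagrange.basisDivisor, eval_prod]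
    have e4 : ∀ y ∈ O.erase (τ • z), τ • z - y ≠ 0 ∧ 0 - y ≠ 0 ∧ 0 ≤ od v (0 - y) := by
      intro y hy
      obtain ⟨h9, h10⟩ := mem_erase.mp hy
      obtain ⟨σ, -, rfl⟩ := mem_image.mp h10
      refine ⟨sub_ne_zero.mpr h9.symm, by simpa using (smul_ne_zero_iff_ne σ).mpr hz0, ?_⟩
      rw [zero_sub, od_congr (v.map_neg _), h.od_smul, h1]
      positivity
    have e5 : ∀ y ∈ O.erase (τ • z), (τ • z - y)⁻¹ * (0 - y) ≠ 0 := fun y hy =>
      mul_ne_zero (inv_ne_zero (e4 y hy).1) (e4 y hy).2.1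
    have e6 : ∑ y ∈ O.erase z, od v (y - z) = ∑ y ∈ O.erase (τ • z), od v (τ • z - y) := by
      refine sum_nbij (τ • ·) (fun y hy => ?_) (fun _ _ _ _ e => MulAction.injective τ e)
        (fun y hy => ⟨τ⁻¹ • y, ?_, smul_inv_smul _ _⟩) fun y _ => by
          rw [← smul_sub, h.od_smul, od_sub_swap]
      · obtain ⟨h9, h10⟩ := mem_erase.mp hy
        obtain ⟨σ, hσ, rfl⟩ := mem_image.mp h10
        exact mem_erase.mpr ⟨fun e => h9 (MulAction.injective τ e), mem_image.mpr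
          ⟨τ * σ, mem_sgF.mpr (mul_mem hτ (mem_sgF.mp hσ)), mul_smul _ _ _⟩⟩
      · obtain ⟨h9, h10⟩ := mem_erase.mp hy
        obtain ⟨σ, hσ, rfl⟩ := mem_image.mp h10
        exact mem_erase.mpr ⟨fun e => h9 (inv_smul_eq_iff.mp e), mem_image.mpr
          ⟨τ⁻¹ * σ, mem_sgF.mpr (mul_mem (inv_mem hτ) (mem_sgF.mp hσ)), mul_smul _ _ _⟩⟩
    rw [e3, ← od_lt_od hx0 (mul_ne_zero (sub_ne_zero.mpr e2) (prod_ne_zero_iff.mpr e5)),
      od_mul (sub_ne_zero.mpr e2) (prod_ne_zero_iff.mpr e5), od_prod e5]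
    have e7 : -∑ y ∈ O.erase (τ • z), od v (τ • z - y)
        ≤ ∑ y ∈ O.erase (τ • z), od v ((τ • z - y)⁻¹ * (0 - y)) := by
      rw [← sum_neg_distrib]
      refine sum_le_sum fun y hy => ?_
      rw [od_mul (inv_ne_zero (e4 y hy).1) (e4 y hy).2.1, od_inv]
      linarith [(e4 y hy).2.2]
    linarith [hb τ hτ e2]
  rw [← od_congr (v.map_eq_of_sub_lt h8), ← coeff_zero_eq_eval_zero]
  exact h.od_dvd H fun σ hσ => h3 ⟨σ, hσ⟩ 0

lemma Inert.derivative_ge {H : Subgroup J} {x : L} (hx0 : x ≠ 0) (hx : ∀ σ ∈ H, σ • x = x)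
    {a : ℕ} (ha0 : 0 < a) (ha : a < H.index) (hxa : od v x = a * Nat.card H) {q : ℕ}
    (hq : q.Prime) (hq1 : v q < 1) (hq0 : (q : L) ≠ 0) (hxq : od v x ≤ od v q) {P : L[X]}
    (hP : IntP v P) (he : ∀ σ : J, P.eval (σ • π) = σ • x)
    (hD : (a + 1) * od v q < Din v π (⊤ : Subgroup J) - Din v π H) :
    P.derivative.eval π ≠ 0 ∧ od v (P.derivative.eval π) ≤ Din v π H + (a + 1) * od v q := by
  obtain ⟨z, Q, rfl, h1, h2, h3, h4, h5, -⟩ := h.exists_unif hπ H (by omega)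
  have hx1 : v x ≤ 1 := (od_nonneg_iff hx0).mp (by rw [hxa]; positivity)
  obtain ⟨A, h6, h7, h8, h9⟩ := h.exists_expansion h1 hx hx1
  have hAz : A.eval z = x := by simpa using h8 1
  have hQz : Q.eval π = z := by simpa using h3 1
  have hz0 := ne_zero_of_od_card h1
  have h10 := h.coeff_unit h1 h6 h7 ha (hAz ▸ hx0) (hAz ▸ hxa)
  have h11 := h.term_le h1 (coeff_derivative_smul h6) (degree_derivative_le.trans_lt h7) (a - 1)
  rw [coeff_derivative, ← Nat.cast_succ, show a - 1 + 1 = a by omega,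
    show (a - 1).succ = a by omega] at h11
  have h12 := pow_le_val_nat hq hq1 ha0.ne'
  rw [← map_pow] at h12
  have ha' : (a : L) ≠ 0 := fun e => vne (pow_ne_zero a hq0) (by rwa [e, map_zero, le_zero_iff] at h12)
  have hc : A.coeff a ≠ 0 := fun e => by simp [e] at h10
  have h13 := mul_ne_zero (mul_ne_zero hc ha') (pow_ne_zero (a - 1) hz0)
  have h14 : A.derivative.eval z ≠ 0 := fun e => vne h13 (by rwa [e, map_zero, le_zero_iff] at h11)
  have h15 := od_le_of_le h13 h11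
  have h16 := od_le_of_le (pow_ne_zero a hq0) h12
  rw [od_mul (mul_ne_zero hc ha') (pow_ne_zero _ hz0), od_mul hc ha', od_of_eq_one h10, od_pow,
    h1, Nat.cast_sub ha0] at h15
  rw [od_pow] at h16
  have h17 : (A.comp Q).derivative.eval π = Q.derivative.eval π * A.derivative.eval z := by
    rw [derivative_comp, eval_mul, eval_comp, hQz]
  have h18 : od v ((A.comp Q).derivative.eval π)
      ≤ Din v π (MulAction.stabilizer J z) + (a + 1) * od v q := by
    rw [h17, od_mul h4 h14, h5, Din]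
    have : (0 : ℤ) ≤ Nat.card (MulAction.stabilizer J z) := by positivity
    push_cast at h15
    linarith
  have h19 : (A.comp Q).derivative.eval π ≠ 0 := h17 ▸ mul_ne_zero h4 h14
  have h20 : v (P.derivative.eval π - (A.comp Q).derivative.eval π)
      < v ((A.comp Q).derivative.eval π) := by
    rw [← eval_sub, ← derivative_sub]
    rcases eq_or_ne ((P - A.comp Q).derivative.eval π) 0 with e | e
    · rw [e, map_zero]; exact zero_lt_iff.mpr (vne h19)
    have := h.derivative_le hπ ⊤ (hP.sub (intP_comp h9 h2)) (x := 0) (by simp)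
      (fun σ _ => by rw [eval_sub, eval_comp, he, h3, h8, sub_self]) e
    rw [← od_lt_od h19 e]
    rw [Din] at hD
    linarith
  have h21 := v.map_eq_of_sub_lt h20
  exact ⟨fun e => vne h19 (by rw [← h21, e, map_zero]), od_congr h21 ▸ h18⟩

/-- an element in the last ramification group which moves `W` fixes `U` -/
lemma Inert.exists_fix (W U : Set L)
    (h0 : ∃ σ : J, ∃ y ∈ W, σ • y ≠ y)
    (hU : ∀ x ∈ U, ∃ (τ : J) (x0 : L), ∃ y0 ∈ W, x = τ • x0 ∧ v x0 ≤ 1 ∧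
      MulAction.stabilizer J y0 ≤ MulAction.stabilizer J x0 ∧ ∀ σ : J, σ • x0 ≠ x0 →
        od v (σ • x0 - x0) < Din v π (MulAction.stabilizer J x0)
          - Din v π (MulAction.stabilizer J y0)) :
    ∃ σ : J, (∀ x ∈ U, σ • x = x) ∧ ∃ y ∈ W, σ • y ≠ y := by
  classical
  obtain ⟨σ, hσ, hmin⟩ := (univ.filter fun σ : J => ∃ y ∈ W, σ • y ≠ y).exists_min_image
    (fun σ => v (σ • π - π)) (by obtain ⟨σ, h⟩ := h0; exact ⟨σ, mem_filter.mpr ⟨mem_univ _, h⟩⟩)
  refine ⟨σ, fun x hx => ?_, (mem_filter.mp hσ).2⟩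
  obtain ⟨τ, x0, y0, hy0, rfl, h1, h2, h3⟩ := hU x hx
  set ρ := τ⁻¹ * σ * τ with hρ
  have h4 : v (ρ • π - π) ≤ v (σ • π - π) := by
    have := h.val_sub_le hπ ⊥ (h.val_unif_lt hπ τ).le (fun σ hσ => by
      rw [Subgroup.mem_bot.mp hσ, one_smul]) σ
    rw [show sgF (⊥ : Subgroup J) = {1} by ext; simp [mem_sgF], prod_singleton, mul_one] at this
    rwa [← h.val τ, smul_sub, hρ, mul_smul, mul_smul, smul_inv_smul]
  by_contra hne
  have h5 : ρ • x0 ≠ x0 := by rwa [hρ, mul_smul, mul_smul, Ne, inv_smul_eq_iff]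
  have h6 := h.sum_coset_le hπ (MulAction.stabilizer J x0) h1 (fun _ e => e) h5
  have h7 := h3 ρ h5
  have hsub : sgF (MulAction.stabilizer J y0) ⊆ sgF (MulAction.stabilizer J x0) :=
    fun _ hσ => mem_sgF.mpr (h2 (mem_sgF.mp hσ))
  rw [Din, Din, ← sum_sdiff hsub, add_sub_cancel_right] at h7
  rw [← sum_sdiff hsub] at h6
  have h8 : ∑ κ ∈ sgF (MulAction.stabilizer J x0) \ sgF (MulAction.stabilizer J y0),
      od v (κ • π - π) ≤ ∑ κ ∈ sgF (MulAction.stabilizer J x0) \ sgF (MulAction.stabilizer J y0),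
      od v ((ρ * κ) • π - π) := by
    refine sum_le_sum fun κ hκ => ?_
    obtain ⟨h9, h10⟩ := mem_sdiff.mp hκ
    rw [mem_sgF, MulAction.mem_stabilizer_iff] at h9 h10
    refine od_le_of_le (h.unif_ne hπ fun e => h5 ?_) ?_
    · rw [← h9, ← mul_smul, e, one_smul, h9]
    · have := hmin κ (mem_filter.mpr ⟨mem_univ _, y0, hy0, h10⟩)
      rw [show (ρ * κ) • π - π = ρ • (κ • π - π) + (ρ • π - π) by rw [smul_sub, mul_smul]; ring]
      exact v.map_add_le (h.val _ _).le (h4.trans this)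
  have h9 : 0 ≤ ∑ κ ∈ sgF (MulAction.stabilizer J y0), od v ((ρ * κ) • π - π) :=
    sum_nonneg fun κ _ => h.od_sub_nonneg hπ _
  linarith

end Pool.Agent.Lib.MP_41de88_nt
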