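import Pool.Agent.Lib.MP_41de88_nt.Mart

set_option autoImplicit false

open Finset

namespace Pool.Agent.Lib.MP_41de88_nt

variable {G L : Type*} [Group G] [Fintype G] [MulAction G L] [DecidableEq L]

/-- Elements acting on every fibre as a transposition or trivially force the number of fixed points
to be non constant on every coset, as soon as the fibres have odd size. -/
theorem nonconst {V W : Finset L} {f : L → L}
    (hf : ∀ (σ : G) x, f (σ • x) = σ • f x) (hWV : ∀ y ∈ W, f y ∈ V)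
    (hVG : ∀ (σ : G), ∀ y ∈ V, σ • y ∈ V) (hWG : ∀ (σ : G), ∀ y ∈ W, σ • y ∈ W)
    (hW : ∀ x ∈ W, ∀ y ∈ W, ∃ σ : G, σ • x = y)
    (hodd : ∀ y ∈ W, Odd (W.filter fun z => f z = f y).card)
    (τ : G) (hτ : τ ∈ fixer G V) (hτ1 : ∃ y ∈ W, τ • y ≠ y)
    (hτ2 : ∀ y ∈ W, τ • y ≠ y → ∀ z ∈ W, f z = f y → τ • z ≠ z → z = y ∨ z = τ • y)
    (σ : G) (hσ : 0 < nfix W σ) : ∃ h ∈ fixer G V, nfix W (h * σ) ≠ nfix W σ := by
  classical
  set T : Set G := {t | ∃ g : G, t = g * τ * g⁻¹} with hT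
  have hTc : ∀ t ∈ T, ∀ g : G, g * t * g⁻¹ ∈ T := by
    rintro _ ⟨k, rfl⟩ g
    exact ⟨g * k, by group⟩
  have hTV : ∀ t ∈ T, t ∈ fixer G V := by
    rintro _ ⟨k, rfl⟩ x hx
    rw [mul_smul, mul_smul, hτ _ (hVG _ x hx), smul_inv_smul]
  have hTf : ∀ t ∈ fixer G V, ∀ y ∈ W, f (t • y) = f y := fun t ht y hy => by
    rw [hf, ht _ (hWV y hy)]
  have hT2 : ∀ t ∈ T, ∀ y ∈ W, t • y ≠ y → ∀ z ∈ W, f z = f y → z ≠ y → z ≠ t • y → t • z = z := by
    rintro _ ⟨k, rfl⟩ y hy h1 z hz h2 h3 h4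
    by_contra h5
    rw [mul_smul, mul_smul, Ne, smul_eq_iff_eq_inv_smul] at h1
    rw [mul_smul, mul_smul, smul_eq_iff_eq_inv_smul] at h5
    rcases hτ2 _ (hWG _ y hy) h1 _ (hWG k⁻¹ z hz) (by rw [hf, hf, h2]) h5 with h | h
    · exact h3 (MulAction.injective _ h)
    · exact h4 (by rw [mul_smul, mul_smul, ← h, smul_inv_smul])
  have hT3 : ∀ t ∈ T, ∀ y ∈ W, t • t • y = y := by
    intro t ht y hy
    by_cases h1 : t • y = y
    · rw [h1, h1]
    by_contra h2
    have h3 : t • t • y ≠ t • y := fun h => h1 (MulAction.injective t h)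
    have := hT2 t ht y hy h1 (t • t • y) (hWG _ _ (hWG _ _ hy))
      (by rw [hTf t (hTV t ht) _ (hWG _ _ hy), hTf t (hTV t ht) _ hy]) h2 h3
    exact h3 (MulAction.injective t this)
  -- the relation
  let r : L → L → Prop := fun y z => z = y ∨ ∃ t ∈ T, t • y = z
  have rW : ∀ y ∈ W, ∀ z, r y z → z ∈ W := by
    rintro y hy z (rfl | ⟨t, -, rfl⟩)
    · exact hy
    · exact hWG _ _ hy
  have rf : ∀ y ∈ W, ∀ z, r y z → f z = f y := by
    rintro y hy z (rfl | ⟨t, ht, rfl⟩)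
    · rfl
    · exact hTf t (hTV t ht) y hy
  have rsymm : ∀ y ∈ W, ∀ z, r y z → r z y := by
    rintro y hy z (rfl | ⟨t, ht, rfl⟩)
    · exact Or.inl rfl
    · exact Or.inr ⟨t, ht, hT3 t ht y hy⟩
  have rG : ∀ (g : G) y z, r y z → r (g • y) (g • z) := by
    rintro g y z (rfl | ⟨t, ht, rfl⟩)
    · exact Or.inl rfl
    · exact Or.inr ⟨_, hTc t ht g, by rw [mul_smul, mul_smul, inv_smul_smul]⟩
  have rtrans : ∀ y ∈ W, ∀ z u, r y z → r z u → r y u := by
    intro y hy z u h1 h2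
    have hz := rW y hy z h1
    rcases h2 with rfl | ⟨t, ht, rfl⟩
    · exact h1
    by_cases e1 : t • z = z
    · rwa [e1]
    by_cases e2 : y = z
    · rw [e2]; exact Or.inr ⟨t, ht, rfl⟩
    by_cases e3 : y = t • z
    · exact Or.inl e3.symm
    have := rG t y z h1
    rwa [hT2 t ht z hz e1 y hy (rf y hy z h1).symm e2 e3] at this
  set N := Subgroup.closure T with hN
  have hNV : N ≤ fixer G V := (Subgroup.closure_le _).mpr hTV
  have hTN : ∀ t ∈ T, t ∈ N := fun t ht => Subgroup.subset_closure ht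
  have hNr : ∀ h ∈ N, ∀ y ∈ W, r y (h • y) := by
    intro h hh
    induction hh using Subgroup.closure_induction with
    | mem t ht => exact fun y _ => Or.inr ⟨t, ht, rfl⟩
    | one => exact fun y _ => Or.inl (one_smul _ _)
    | mul a b _ _ ha hb =>
      intro y hy
      rw [mul_smul]
      exact rtrans y hy _ _ (hb y hy) (ha _ (hWG _ _ hy))
    | inv a _ ha =>
      intro y hy
      have := ha _ (hWG a⁻¹ y hy)
      rw [smul_inv_smul] at this
      exact rsymm _ (hWG _ _ hy) _ this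
  have hNc : ∀ h ∈ N, ∀ g : G, g * h * g⁻¹ ∈ N := by
    intro h hh g
    induction hh using Subgroup.closure_induction with
    | mem t ht => exact hTN _ (hTc t ht g)
    | one => simp
    | mul a b _ _ ha hb =>
      have := mul_mem ha hb
      rwa [show g * a * g⁻¹ * (g * b * g⁻¹) = g * (a * b) * g⁻¹ by group] at this
    | inv a _ ha =>
      have := inv_mem ha
      rwa [show (g * a * g⁻¹)⁻¹ = g * a⁻¹ * g⁻¹ by group] at this
  -- every class has at least two points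
  have h2pt : ∀ y ∈ W, ∃ z, r y z ∧ z ≠ y := by
    intro y hy
    obtain ⟨x, hx, hne⟩ := hτ1
    obtain ⟨g, rfl⟩ := hW x hx y hy
    exact ⟨g • τ • x, rG g _ _ (Or.inr ⟨τ, ⟨1, by simp⟩, rfl⟩),
      fun h => hne (MulAction.injective g h)⟩
  -- every class has at least three points
  have h3pt : ∀ y ∈ W, ∀ z, r y z → ∃ u, r y u ∧ u ≠ y ∧ u ≠ z := by
    have : ∃ x ∈ W, ∃ z u, r x z ∧ r x u ∧ z ≠ x ∧ u ≠ x ∧ z ≠ u := by
      by_contra hcon
      push Not at hcon
      obtain ⟨x, hx, -⟩ := hτ1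
      choose! p hp1 hp2 using h2pt
      have hs : ∑ _z ∈ W.filter fun z => f z = f x, (1 : ZMod 2) = 0 := by
        refine sum_involution (fun z _ => p z) (fun _ _ => rfl)
          (fun z hz _ => hp2 z (mem_filter.mp hz).1) (fun z hz => ?_) fun z hz => ?_
        · obtain ⟨h1, h2⟩ := mem_filter.mp hz
          exact mem_filter.mpr ⟨rW z h1 _ (hp1 z h1), (rf z h1 _ (hp1 z h1)).trans h2⟩
        · have h1 := (mem_filter.mp hz).1
          have h2 := rW z h1 _ (hp1 z h1)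
          exact hcon _ h2 _ _ (hp1 _ h2) (rsymm z h1 _ (hp1 z h1)) (hp2 _ h2) (hp2 z h1).symm
      rw [sum_const, nsmul_eq_mul, mul_one, ZMod.natCast_eq_zero_iff_even] at hs
      exact Nat.not_even_iff_odd.mpr (hodd x hx) hs
    intro y hy z _
    obtain ⟨x, hx, a, b, h1, h2, h3, h4, h5⟩ := this
    obtain ⟨g, rfl⟩ := hW x hx y hy
    by_cases e : g • a = z
    · exact ⟨g • b, rG g _ _ h2, fun h => h4 (MulAction.injective g h),
        fun h => h5 (MulAction.injective g (e.trans h.symm))⟩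
    · exact ⟨g • a, rG g _ _ h1, fun h => h3 (MulAction.injective g h), e⟩
  obtain ⟨y0, hy0⟩ := card_pos.mp hσ
  obtain ⟨hy0, hσ0⟩ := mem_filter.mp hy0
  set U := N ⊓ MulAction.stabilizer G y0 with hU
  have hUm : ∀ h, h ∈ U ↔ h ∈ N ∧ h • y0 = y0 := fun h => Iff.rfl
  have hUc : ∀ h ∈ U, σ⁻¹ * h * σ ∈ U := by
    intro h hh
    refine ⟨by simpa using hNc h hh.1 σ⁻¹, ?_⟩
    have : h • y0 = y0 := hh.2
    change (σ⁻¹ * h * σ) • y0 = y0
    rw [mul_smul, mul_smul, hσ0, this, inv_smul_eq_iff, hσ0]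
  have hUc' : ∀ h ∈ U, σ * h * σ⁻¹ ∈ U := by
    intro h hh
    refine ⟨hNc h hh.1 σ, ?_⟩
    have : h • y0 = y0 := hh.2
    change (σ * h * σ⁻¹) • y0 = y0
    rw [mul_smul, mul_smul, inv_smul_eq_iff.mpr hσ0.symm, this, hσ0]
  have hkey : ∀ t ∈ T, ∀ s ∈ T, t ∈ U ∨ s ∈ U ∨ t * s ∈ U ∨ t * s * t ∈ U := by
    intro t ht s hs
    by_cases e1 : t • y0 = y0
    · exact Or.inl ⟨hTN t ht, e1⟩
    by_cases e2 : s • y0 = y0
    · exact Or.inr (Or.inl ⟨hTN s hs, e2⟩)
    by_cases e3 : t • y0 = s • y0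
    · refine Or.inr (Or.inr (Or.inl ⟨mul_mem (hTN t ht) (hTN s hs), ?_⟩))
      change (t * s) • y0 = y0
      rw [mul_smul, ← e3, hT3 t ht y0 hy0]
    · refine Or.inr (Or.inr (Or.inr ⟨mul_mem (mul_mem (hTN t ht) (hTN s hs)) (hTN t ht), ?_⟩))
      change (t * s * t) • y0 = y0
      rw [mul_smul, mul_smul, hT2 s hs y0 hy0 e2 _ (hWG _ _ hy0) (hTf t (hTV t ht) y0 hy0) e1 e3,
        hT3 t ht y0 hy0]
  have hswap : ∀ a ∈ W, ∀ b, r a b → b ≠ a → ∃ t ∈ T, t • a = b ∧ t • b = a ∧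
      ∀ z, r a z → z ≠ a → z ≠ b → t • z = z := by
    rintro a ha b (rfl | ⟨t, ht, rfl⟩) hne
    · exact absurd rfl hne
    exact ⟨t, ht, rfl, hT3 t ht a ha, fun z hz h1 h2 =>
      hT2 t ht a ha hne z (rW a ha z hz) (rf a ha z hz) h1 h2⟩
  let cls : L → Finset L := fun y => W.filter fun z => r y z
  have hcls : ∀ y ∈ W, ∀ z, z ∈ cls y ↔ r y z := fun y hy z =>
    ⟨fun h => (mem_filter.mp h).2, fun h => mem_filter.mpr ⟨rW y hy z h, h⟩⟩
  have rr : ∀ y ∈ W, ∀ a b, r y a → r y b → r a b := fun y hy a b h1 h2 =>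
    rtrans a (rW y hy a h1) y b (rsymm y hy a h1) h2
  have hfilt : ∀ y ∈ W, (W.filter fun z => cls z = cls y) = cls y := by
    intro y hy
    refine filter_congr fun z hz => ⟨fun h => ?_, fun h => filter_congr fun u _ => ?_⟩
    · exact (hcls y hy z).mp (h ▸ (hcls z hz z).mpr (Or.inl rfl))
    · exact ⟨fun h' => rtrans y hy _ _ h h', fun h' => rr y hy _ _ h h'⟩
  -- a stable orbit of the stabilizer in each stable class
  have hA : ∀ y ∈ W, (∀ z, r y z → r y (σ • z)) → (sgF U).card ≤ ∑ z ∈ cls y, cnt U σ z := by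
    intro y hy hst
    by_cases hfix : ∃ a, r y a ∧ ∀ h ∈ U, h • a = a
    · obtain ⟨a, ha, hUa⟩ := hfix
      have haW := rW y hy a ha
      have hσa : σ • a = a := by
        by_contra hne
        have hUb : ∀ h ∈ U, h • σ • a = σ • a := fun h hh => by
          have := hUa _ (hUc h hh)
          rwa [mul_smul, mul_smul, inv_smul_eq_iff] at this
        have hab : r a (σ • a) := rr y hy _ _ ha (hst a ha)
        obtain ⟨c, hc, hc1, hc2⟩ := h3pt a haW _ hab
        obtain ⟨t, ht, t1, t2, t3⟩ := hswap _ (hWG σ a haW) c (rr a haW _ _ hab hc) hc2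
        obtain ⟨s, hs, s1, s2, s3⟩ := hswap a haW c hc hc1
        have t4 : t • a = a := t3 a (rsymm a haW _ hab) (Ne.symm hne) hc1.symm
        rcases hkey t ht s hs with h | h | h | h
        · exact hc2 (t1.symm.trans (hUb t h))
        · exact hc1 (s1.symm.trans (hUa s h))
        · have := hUa _ h
          rw [mul_smul, s1, t2] at this
          exact hne this
        · have := hUa _ h
          rw [mul_smul, mul_smul, t4, s1, t2] at this
          exact hne this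
      rw [← orbit_sum U {a} σ (singleton_nonempty a) (by simpa using ⟨1, one_mem _, one_smul _ _⟩)
        (by simpa using hUa) (by simpa using hσa)]
      exact sum_le_sum_of_subset (by simpa using (hcls y hy a).mpr ha)
    · push Not at hfix
      refine (orbit_sum U (cls y) σ ⟨y, (hcls y hy y).mpr (Or.inl rfl)⟩ (fun a ha c hc => ?_)
        (fun h hh a ha => ?_) fun a ha => ?_).ge
      · rw [hcls y hy] at ha hc
        by_contra hcon
        push Not at hcon
        obtain ⟨u, hu, hua⟩ := hfix a ha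
        obtain ⟨v, hv, hvc⟩ := hfix c hc
        have haW := rW y hy a ha
        have hcW := rW y hy c hc
        have hac : c ≠ a := fun h => hcon 1 (one_mem _) (by rw [one_smul, h])
        have hgen : ∀ h ∈ U, ∀ k ∈ U, h • a ≠ k • c := fun h hh k hk e =>
          hcon (k⁻¹ * h) (mul_mem (inv_mem hk) hh) (by rw [mul_smul, e, inv_smul_smul])
        have ra : r a (u • a) := hNr u hu.1 a haW
        have rc : r a (v • c) := rtrans a haW _ _ (rr y hy _ _ ha hc) (hNr v hv.1 c hcW)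
        obtain ⟨t, ht, t1, t2, t3⟩ := hswap a haW c (rr y hy _ _ ha hc) hac
        obtain ⟨s, hs, s1, s2, s3⟩ := hswap _ (hWG u a haW) (v • c) (rr a haW _ _ ra rc)
          (hgen u hu v hv).symm
        have e1 : u • a ≠ c := hcon u hu
        have e2 : v • c ≠ a := fun h => hgen 1 (one_mem _) v hv (by rw [one_smul, h])
        rcases hkey t ht s hs with h | h | h | h
        · exact hcon t h t1
        · exact hgen _ (mul_mem h hu) v hv (by rw [mul_smul, s1])
        · refine hcon _ h ?_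
          rw [mul_smul, s3 a (rsymm a haW _ ra) hua.symm e2.symm, t1]
        · refine hgen _ (mul_mem h hu) v hv ?_
          rw [mul_smul, mul_smul, mul_smul, t3 _ ra hua e1, s1, t3 _ rc e2 hvc]
      · rw [hcls y hy] at ha ⊢
        exact rtrans y hy _ _ ha (hNr h hh.1 a (rW y hy a ha))
      · rw [hcls y hy] at ha ⊢
        exact hst a ha
  have hstab : ∀ y ∈ W, ∀ a, r y a → r y (σ • a) → ∀ z, r y z → r y (σ • z) :=
    fun y hy a h1 h2 z hz => rtrans y hy _ _ h2 (rG σ _ _ (rr y hy _ _ h1 hz))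
  have hB : (sgF U).card < ∑ z ∈ cls y0, cnt U σ z := by
    have hm : y0 ∈ cls y0 := (hcls y0 hy0 y0).mpr (Or.inl rfl)
    have hst := hstab y0 hy0 y0 (Or.inl rfl) (Or.inl hσ0)
    rw [← add_sum_erase _ _ hm, orbit_sum U ((cls y0).erase y0) σ ?_ (fun a ha c hc => ?_)
      (fun h hh a ha => ?_) fun a ha => ?_]
    · refine Nat.lt_add_of_pos_left (card_pos.mpr ⟨1, mem_filter.mpr ⟨mem_sgF.mpr (one_mem _), ?_⟩⟩)
      rw [one_mul, hσ0]
    · obtain ⟨z, h1, h2⟩ := h2pt y0 hy0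
      exact ⟨z, mem_erase.mpr ⟨h2, (hcls y0 hy0 z).mpr h1⟩⟩
    · rw [mem_erase, hcls y0 hy0] at ha hc
      by_cases e : c = a
      · exact ⟨1, one_mem _, by rw [one_smul, e]⟩
      obtain ⟨t, ht, t1, -, t3⟩ := hswap a (rW y0 hy0 a ha.2) c (rr y0 hy0 _ _ ha.2 hc.2) e
      exact ⟨t, ⟨hTN t ht, t3 y0 (rsymm y0 hy0 a ha.2) ha.1.symm hc.1.symm⟩, t1⟩
    · rw [mem_erase, hcls y0 hy0] at ha ⊢
      refine ⟨fun e => ha.1 (MulAction.injective h (e.trans (Eq.symm hh.2))), ?_⟩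
      exact rtrans y0 hy0 _ _ ha.2 (hNr h hh.1 a (rW y0 hy0 a ha.2))
    · rw [mem_erase, hcls y0 hy0] at ha ⊢
      exact ⟨fun e => ha.1 (MulAction.injective σ (e.trans hσ0.symm)), hst a ha.2⟩
  have hC : ∀ y ∈ W, (∀ z, r y z → r y (σ • z)) → ∑ z ∈ cls y, cnt N σ z = (sgF N).card := by
    intro y hy hst
    refine orbit_sum N (cls y) σ ⟨y, (hcls y hy y).mpr (Or.inl rfl)⟩ (fun a ha c hc => ?_)
      (fun h hh a ha => ?_) fun a ha => ?_
    · rw [hcls y hy] at ha hc
      rcases rr y hy _ _ ha hc with rfl | ⟨t, ht, e⟩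
      · exact ⟨1, one_mem _, one_smul _ _⟩
      · exact ⟨t, hTN t ht, e⟩
    · rw [hcls y hy] at ha ⊢
      exact rtrans y hy _ _ ha (hNr h hh a (rW y hy a ha))
    · rw [hcls y hy] at ha ⊢
      exact hst a ha
  by_contra hcon
  push Not at hcon
  have hsum : ∀ A ≤ N, ∑ B ∈ W.image cls, ∑ z ∈ B, cnt A σ z = (sgF A).card * nfix W σ := by
    intro A hAN
    rw [← smul_eq_mul, ← sum_const, ← sum_congr rfl fun h hh => hcon h (hNV (hAN (mem_sgF.mp hh))),
      sum_nfix, ← sum_fiberwise_of_maps_to (g := cls) (t := W.image cls)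
        fun y hy => mem_image_of_mem _ hy]
    refine sum_congr rfl fun B hB => ?_
    obtain ⟨y, hy, rfl⟩ := mem_image.mp hB
    rw [hfilt y hy]
  have hlt : ∑ B ∈ W.image cls, (sgF U).card * ∑ z ∈ B, cnt N σ z
      < ∑ B ∈ W.image cls, (sgF N).card * ∑ z ∈ B, cnt U σ z := by
    refine sum_lt_sum (fun B hB => ?_) ⟨cls y0, mem_image_of_mem _ hy0, ?_⟩
    · obtain ⟨y, hy, rfl⟩ := mem_image.mp hB
      by_cases hst : ∀ z, r y z → r y (σ • z)
      · rw [hC y hy hst, mul_comm]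
        exact Nat.mul_le_mul_left _ (hA y hy hst)
      · rw [sum_eq_zero, mul_zero]
        · exact Nat.zero_le _
        intro z hz
        refine card_eq_zero.mpr (filter_eq_empty_iff.mpr fun k hk e => hst ?_)
        rw [hcls y hy] at hz
        refine hstab y hy z hz (rtrans y hy _ _ hz ?_)
        have h1 := hWG σ z (rW y hy z hz)
        have := hNr k (mem_sgF.mp hk) _ h1
        rw [← mul_smul, e] at this
        exact rsymm _ h1 _ this
    · rw [hC y0 hy0 (hstab y0 hy0 y0 (Or.inl rfl) (Or.inl hσ0)), mul_comm]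
      exact Nat.mul_lt_mul_of_pos_left hB (sgF_card_pos _)
  rw [← mul_sum, ← mul_sum, hsum N le_rfl, hsum U inf_le_left, mul_left_comm] at hlt
  exact lt_irrefl _ hlt

end Pool.Agent.Lib.MP_41de88_nt
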