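import Pool.Agent.Lib.MP_41de88_nt.Link
import Pool.Agent.Lib.MP_41de88_nt.Ramif

set_option autoImplicit false

open Polynomial NumberField IsDedekindDomain WithZero UniqueFactorizationMonoid

namespace Pool.Agent.Lib.MP_41de88_nt

open helper22.Val

variable {f g : ℚ[X]}

lemma dvd_ncard {J L : Type*} [Group J] [MulAction J L] (s : ℕ) (W : Set L) (hfin : W.Finite)
    (hW : ∀ (σ : J), ∀ y ∈ W, σ • y ∈ W) (hs : ∀ y ∈ W, s ∣ (MulAction.orbit J y).ncard) :
    s ∣ W.ncard := by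
  induction hn : W.ncard using Nat.strong_induction_on generalizing W with
  | _ n ih =>
  rcases W.eq_empty_or_nonempty with rfl | ⟨y, hy⟩
  · rw [← hn]; simp
  have h1 : MulAction.orbit J y ⊆ W := by
    rintro _ ⟨σ, rfl⟩
    exact hW σ y hy
  have h2 := Set.ncard_sdiff_add_ncard_of_subset h1 hfin
  have h3 : 0 < (MulAction.orbit J y).ncard :=
    (Set.ncard_pos (hfin.subset h1)).mpr ⟨y, MulAction.mem_orbit_self y⟩
  rw [← hn, ← h2]
  exact dvd_add (ih _ (by omega) (W \ MulAction.orbit J y) (hfin.subset Set.sdiff_subset)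
    (fun σ z hz => ⟨hW σ z hz.1, fun e => hz.2 (by
      simpa using MulAction.mapsTo_smul_orbit σ⁻¹ y e)⟩) (fun z hz => hs z hz.1) rfl) (hs y hy)

section
variable {L : Type} [Field L] [NumberField L] [IsGalois ℚ L] {n : ℕ} (hd : f.natDegree ≠ 0)
  (hg : g ≠ 0) (hirr : Irreducible (itP f g (n + 1)))
  (hs : ((itP f g (n + 1)).map (algebraMap ℚ L)).Splits)
include hd hg

omit [IsGalois ℚ L] in
lemma fixer_ev {σ : L ≃ₐ[ℚ] L} (hσ : σ ∈ fixer (L ≃ₐ[ℚ] L) (rts (itP f g n) L)) {y : L}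
    (hy : y ∈ rts (itP f g (n + 1)) L) : ev f L (σ • y) = ev f L y := by
  rw [smul_ev]
  exact hσ _ (by rwa [mem_rts (itP_ne_zero hd hg _), ← aeval_itP_succ,
    ← mem_rts (itP_ne_zero hd hg _)])

include hirr

lemma orbit_ncard_eq {y y' : L} (hy : y ∈ rts (itP f g (n + 1)) L)
    (hy' : y' ∈ rts (itP f g (n + 1)) L) :
    (MulAction.orbit (fixer (L ≃ₐ[ℚ] L) (rts (itP f g n) L)) y').ncard
      = (MulAction.orbit (fixer (L ≃ₐ[ℚ] L) (rts (itP f g n) L)) y).ncard := by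
  obtain ⟨τ, rfl⟩ := exists_smul_eq hirr hy hy'
  have key : ∀ τ σ : L ≃ₐ[ℚ] L, σ ∈ fixer (L ≃ₐ[ℚ] L) (rts (itP f g n) L) →
      τ * σ * τ⁻¹ ∈ fixer (L ≃ₐ[ℚ] L) (rts (itP f g n) L) := fun τ σ hσ x hx => by
    rw [mul_smul, mul_smul, hσ _ (smul_mem_rts (itP_ne_zero hd hg _) _ hx), smul_inv_smul]
  rw [← Set.ncard_image_of_injective (MulAction.orbit _ y) (MulAction.injective τ)]
  congr 1
  ext z
  constructor
  · rintro ⟨σ, rfl⟩
    exact ⟨_, ⟨⟨_, key τ⁻¹ σ σ.2⟩, rfl⟩, by simp [Subgroup.smul_def, mul_smul]⟩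
  · rintro ⟨_, ⟨σ, rfl⟩, rfl⟩
    exact ⟨⟨_, key τ σ σ.2⟩, by simp [Subgroup.smul_def, mul_smul]⟩

lemma mart_of_orbit {y : L} (hy : y ∈ rts (itP f g (n + 1)) L) (h : f.natDegree ≤
    (MulAction.orbit (fixer (L ≃ₐ[ℚ] L) (rts (itP f g n) L)) y).ncard) : MartLevel f g L n := by
  intro z hz z' _ e
  rw [← orbit_ncard_eq hd hg hirr hy hz] at h
  obtain ⟨h1, h2⟩ := fibre_finite (F := f.map (algebraMap ℚ L)) (by rwa [natDegree_map]) (ev f L z)
  rw [natDegree_map] at h2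
  have h3 := Set.eq_of_subset_of_ncard_le (s := MulAction.orbit (fixer (L ≃ₐ[ℚ] L)
    (rts (itP f g n) L)) z) (by
      rintro _ ⟨σ, rfl⟩
      exact (ev_eq _).symm.trans (fixer_ev hd hg σ.2 hz)) (h2.trans h) h1
  obtain ⟨σ, hσ⟩ : z' ∈ MulAction.orbit (fixer (L ≃ₐ[ℚ] L) (rts (itP f g n) L)) z := by
    rw [h3]; exact (ev_eq _).symm.trans e.symm
  exact ⟨σ, σ.2, hσ⟩

include hs in
lemma mart_of_prime (hq : f.natDegree.Prime) {σ : L ≃ₐ[ℚ] L}
    (hσ : σ ∈ fixer (L ≃ₐ[ℚ] L) (rts (itP f g n) L)) {y : L} (hy : y ∈ rts (itP f g (n + 1)) L)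
    (hne : σ • y ≠ y) : MartLevel f g L n := by
  classical
  refine mart_of_orbit hd hg hirr hy ?_
  have h1 := dvd_ncard (J := fixer (L ≃ₐ[ℚ] L) (rts (itP f g n) L))
    (MulAction.orbit (fixer (L ≃ₐ[ℚ] L) (rts (itP f g n) L)) y).ncard
    ((rts (itP f g (n + 1)) L).filter fun z => ev f L z = ev f L y) (Finset.finite_toSet _)
    (fun τ z hz => by
      obtain ⟨h1, h2⟩ := Finset.mem_filter.mp hz
      exact Finset.mem_filter.mpr ⟨smul_mem_rts (itP_ne_zero hd hg _) _ h1,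
        (fixer_ev hd hg τ.2 h1).trans h2⟩)
    fun z hz => (orbit_ncard_eq hd hg hirr hy (Finset.mem_filter.mp hz).1).symm.dvd
  have h0 := card_fib hd (itP_ne_zero hd hg n) (itP_succ n ▸ hirr.separable) (itP_succ n ▸ hs)
    (x := ev f L y) (by rwa [← aeval_itP_succ, ← mem_rts (itP_ne_zero hd hg _)])
  rw [← itP_succ] at h0
  rw [Set.ncard_coe_finset, h0] at h1
  refine ((Nat.dvd_prime hq).mp h1).elim (fun e => absurd ?_ hne) fun e => e.ge
  obtain ⟨a, ha⟩ := Set.ncard_eq_one.mp e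
  have h2 : y ∈ ({a} : Set L) := ha ▸ MulAction.mem_orbit_self y
  have h3 : σ • y ∈ ({a} : Set L) := ha ▸ ⟨⟨σ, hσ⟩, rfl⟩
  exact h3.trans h2.symm

lemma mart_of_pow (hne : (rts (itP f g (n + 1)) L).Nonempty)
    (h : ∀ l k : ℕ, l.Prime → l ^ k ∣ f.natDegree → ∃ P : Subgroup (L ≃ₐ[ℚ] L),
      P ≤ fixer (L ≃ₐ[ℚ] L) (rts (itP f g n) L) ∧ ∃ y ∈ rts (itP f g (n + 1)) L,
        ∀ z, ev f L z = ev f L y → l ^ k ∣ (MulAction.orbit P z).ncard) : MartLevel f g L n := by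
  obtain ⟨y, hy⟩ := hne
  refine mart_of_orbit hd hg hirr hy (Nat.le_of_dvd ((Set.ncard_pos (Set.finite_range _)).mpr
    ⟨y, MulAction.mem_orbit_self y⟩) ((Nat.dvd_iff_prime_pow_dvd_dvd _ _).mpr fun l k hl hk => ?_))
  obtain ⟨P, h1, y', h2, h3⟩ := h l k hl hk
  rw [← orbit_ncard_eq hd hg hirr hy h2]
  refine dvd_ncard (J := P) _ _ (Set.finite_range _) ?_ ?_
  · rintro σ _ ⟨τ, rfl⟩
    exact ⟨⟨σ, h1 σ.2⟩ * τ, mul_smul _ _ _⟩
  · rintro _ ⟨τ, rfl⟩
    exact h3 _ (fixer_ev hd hg τ.2 h2)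

end

/-- number of irreducible factors -/
noncomputable def nf (P : ℚ[X]) : ℕ := (normalizedFactors P).card

lemma nf_mul {P Q : ℚ[X]} (hP : P ≠ 0) (hQ : Q ≠ 0) : nf (P * Q) = nf P + nf Q := by
  rw [nf, normalizedFactors_mul hP hQ, Multiset.card_add]; rfl

lemma nf_irreducible {P : ℚ[X]} (hP : Irreducible P) : nf P = 1 := by
  rw [nf, normalizedFactors_irreducible hP, Multiset.card_singleton]

lemma nf_pos {P : ℚ[X]} (hP : P.natDegree ≠ 0) : 0 < nf P :=
  Multiset.card_pos.mpr ((normalizedFactors_pos P (ne_zero_of_natDegree_gt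
    (Nat.pos_of_ne_zero hP))).mpr fun h => hP (natDegree_eq_zero_of_isUnit h)).ne'

lemma irreducible_of_nf {P : ℚ[X]} (hP : nf P = 1) : Irreducible P := by
  obtain ⟨p, hp⟩ := Multiset.card_eq_one.mp hP
  have h0 : P ≠ 0 := by
    rintro rfl
    simp at hp
  have h1 := prod_normalizedFactors h0
  rw [hp, Multiset.prod_singleton] at h1
  exact h1.irreducible (irreducible_of_normalized_factor p (hp ▸ Multiset.mem_singleton_self p))

lemma itP_mul (P Q : ℚ[X]) (k : ℕ) : itP f (P * Q) k = itP f P k * itP f Q k := by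
  induction k with
  | zero => rfl
  | succ k ih => rw [itP_succ, itP_succ, itP_succ, ih, mul_comp]

lemma nf_le_itP (hd : f.natDegree ≠ 0) (k : ℕ) (P : ℚ[X]) : nf P ≤ nf (itP f P k) := by
  induction P using induction_on_prime with
  | h₁ => simp [nf]
  | h₂ x hx => simp [nf, normalizedFactors_of_isUnit hx]
  | h₃ a p ha hp ih =>
    rw [itP_mul, nf_mul hp.ne_zero ha, nf_mul (itP_ne_zero hd hp.ne_zero k) (itP_ne_zero hd ha k),
      nf_irreducible hp.irreducible]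
    refine Nat.add_le_add (nf_pos ?_) ih
    rw [natDegree_itP]
    exact mul_ne_zero hp.irreducible.natDegree_pos.ne' (pow_ne_zero _ hd)

lemma nf_mul_le {s C : ℕ} (P : ℚ[X])
    (h : ∀ p, Irreducible p → p ∣ P → s ≤ C * p.natDegree) : nf P * s ≤ C * P.natDegree := by
  induction P using induction_on_prime with
  | h₁ => simp [nf]
  | h₂ x hx => simp [nf, normalizedFactors_of_isUnit hx]
  | h₃ a p ha hp ih =>
    rw [nf_mul hp.ne_zero ha, nf_irreducible hp.irreducible, natDegree_mul hp.ne_zero ha, add_mul,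
      one_mul, mul_add]
    exact Nat.add_le_add (h p hp.irreducible (dvd_mul_right _ _))
      (ih fun p' h1 h2 => h p' h1 (h2.mul_left _))

lemma small_orbMod_of_factors {α : ℚ} (P : ℚ[X])
    (h : ∀ p, Irreducible p → p ∣ P → Small (OrbMod f p α)) : Small (OrbMod f P α) := by
  induction P using induction_on_prime with
  | h₁ => exact (small_of_finite Set.finite_empty).mono fun p hp => by simpa using hp.2.2
  | h₂ x hx =>
    obtain ⟨c, -, rfl⟩ := isUnit_iff.mp hx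
    exact (small_of_finite (finite_padicValRat_pos c)).mono fun p hp =>
      ⟨hp.1, by simpa using hp.2.2⟩
  | h₃ a p ha hp ih =>
    refine ((h p hp.irreducible (dvd_mul_right _ _)).union
      (ih fun p' h1 h2 => h p' h1 (h2.mul_left _))).mono ?_
    rintro l ⟨h1, h2, n, h3⟩
    have := Fact.mk h1
    rw [eval_mul] at h3
    have h4 : p.eval ((fun x => f.eval x)^[n] α) * a.eval ((fun x => f.eval x)^[n] α) ≠ 0 :=
      fun e => by simp [e] at h3
    rw [padicValRat.mul (left_ne_zero_of_mul h4) (right_ne_zero_of_mul h4)] at h3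
    by_cases h5 : 0 < padicValRat l (p.eval ((fun x => f.eval x)^[n] α))
    · exact Or.inl ⟨h1, h2, n, h5⟩
    · exact Or.inr ⟨h1, h2, n, by omega⟩

lemma small_orbMod_of_itP {α : ℚ} (N : ℕ) (h : Small (OrbMod f (itP f g N) α)) :
    Small (OrbMod f g α) := by
  refine (h.union (small_of_finite ((Set.finite_Iio N).biUnion fun n _ =>
    finite_padicValRat_pos (g.eval ((fun x => f.eval x)^[n] α))))).mono ?_
  rintro p ⟨hp, h1, n, h2⟩
  rcases lt_or_ge n N with h | h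
  · exact Or.inr (Set.mem_biUnion (x := n) h ⟨hp, h2⟩)
  · refine Or.inl ⟨hp, h1, n - N, ?_⟩
    rwa [eval_itP, ← Function.iterate_add_apply, Nat.add_sub_cancel' h]

/-- reduction to stable polynomials -/
theorem small_of_stable {α : ℚ} (hd : f.natDegree ≠ 0) (hg : g ≠ 0) (C : ℕ)
    (hC : ∀ n p, Irreducible p → p ∣ itP f g n → f.natDegree ^ n ≤ C * p.natDegree)
    (h : ∀ n p, p ∣ itP f g n → (∀ k, Irreducible (itP f p k)) → Small (OrbMod f p α)) :
    Small (OrbMod f g α) := by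
  have h1 : ∀ n, nf (itP f g n) ≤ C * g.natDegree := fun n => by
    have := nf_mul_le _ (hC n)
    rw [natDegree_itP, ← mul_assoc] at this
    exact le_of_mul_le_mul_right this (pow_pos (Nat.pos_of_ne_zero hd) _)
  obtain ⟨_, ⟨N, rfl⟩, hN⟩ := ((Set.finite_Iic (C * g.natDegree)).subset
    (t := Set.range fun n => nf (itP f g n)) (by rintro _ ⟨n, rfl⟩; exact h1 n)).exists_maximal
      (Set.range_nonempty _)
  refine small_orbMod_of_itP N (small_orbMod_of_factors _ fun p hp hpd => h N p hpd fun k => ?_)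
  obtain ⟨R, hR⟩ := hpd
  have hR0 : R ≠ 0 := right_ne_zero_of_mul (hR ▸ itP_ne_zero hd hg N)
  have h2 : nf (itP f g (k + N)) ≤ nf (itP f g N) :=
    not_lt.mp fun hlt => not_le.mpr hlt (hN ⟨k + N, rfl⟩ hlt.le)
  rw [itP_add, hR, itP_mul, nf_mul (itP_ne_zero hd hp.ne_zero k) (itP_ne_zero hd hR0 k),
    nf_mul hp.ne_zero hR0, nf_irreducible hp] at h2
  have h3 := nf_le_itP hd k R
  have h4 := nf_le_itP hd k p
  rw [nf_irreducible hp] at h4
  exact irreducible_of_nf (by omega)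

/-- the roots of `g` are not periodic and lie in the grand orbit of a critical point -/
def Tgt (f g : ℚ[X]) : Prop :=
  ∀ (L : Type) [Field L] [NumberField L], (f.derivative.map (algebraMap ℚ L)).Splits →
    ∀ t : L, aeval t g = 0 → t ∉ Function.periodicPts (ev f L) ∧
      ∃ (c : L) (k i : ℕ), aeval c f.derivative = 0 ∧ (ev f L)^[k] t = (ev f L)^[i] c

lemma Tgt.of_dvd (h : Tgt f g) {n : ℕ} {p : ℚ[X]} (hp : p ∣ itP f g n) : Tgt f p := by
  intro L _ _ hs t ht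
  have h1 := aeval_eq_zero_of_dvd_aeval_eq_zero hp ht
  rw [aeval_itP] at h1
  obtain ⟨h2, c, k, i, h3, h4⟩ := h L hs _ h1
  exact ⟨fun ⟨m, hm, e⟩ => h2 ⟨m, hm, e.apply_iterate n⟩, c, k + n, i, h3,
    by rw [Function.iterate_add_apply, h4]⟩

lemma tgt_minpoly (hd : f.natDegree ≠ 0) {M : Type} [Field M] [NumberField M] {c t : M}
    (hc : aeval c f.derivative = 0) {k i : ℕ} (e : (ev f M)^[k] t = (ev f M)^[i] c)
    (ht : t ∉ Function.periodicPts (ev f M)) : Tgt f (minpoly ℚ t) := by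
  intro L _ _ hs t' ht'
  have hi : IsIntegral ℚ t := Algebra.IsIntegral.isIntegral t
  have : Algebra.IsAlgebraic ℚ (AlgebraicClosure L) := Algebra.IsAlgebraic.trans ℚ L _
  have : IsAlgClosure ℚ (AlgebraicClosure L) := ⟨inferInstance, inferInstance⟩
  let φ : M →ₐ[ℚ] AlgebraicClosure L := IsAlgClosed.lift
  let ι := algebraMap L (AlgebraicClosure L)
  obtain ⟨σ, hσ⟩ := exists_smul_eq (L := AlgebraicClosure L) (minpoly.irreducible hi)
    (x := φ.toRingHom t) (y := ι t')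
    (by rw [mem_rts (minpoly.ne_zero hi), ← map_aeval_ringHom, minpoly.aeval, map_zero])
    (by rw [mem_rts (minpoly.ne_zero hi), ← map_aeval_ringHom, ht', map_zero])
  let ψ : M →+* AlgebraicClosure L := σ.toRingEquiv.toRingHom.comp φ.toRingHom
  have h1 : ψ t = ι t' := hσ
  obtain ⟨c', h2, h3⟩ := exists_preimage_root ι (derivative_ne_zero' hd) hs (y := ψ c)
    (by rw [← map_aeval_ringHom, hc, map_zero])
  refine ⟨fun ⟨m, hm, e⟩ => ht ⟨m, hm, ψ.injective ?_⟩, c', k, i, h2, ι.injective ?_⟩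
  · rw [map_ev_iterate, h1, ← map_ev_iterate, e]
  · rw [map_ev_iterate, map_ev_iterate, h3, ← h1, ← map_ev_iterate, e, map_ev_iterate]

theorem small_of_tgt {α : ℚ} {K : Type} [Field K] [NumberField K] (hd : f.natDegree ≠ 0)
    (hα : ∀ n, aeval ((fun x => f.eval x)^[n] α) f.derivative ≠ 0)
    (h : ∀ g, g ≠ 0 → Tgt f g → Small (OrbMod f g α)) : Small (critPrimes f α K) := by
  refine small_critPrimes hd hα fun M _ _ c t hc ht hp =>
    h _ (minpoly.ne_zero (Algebra.IsIntegral.isIntegral t)) ?_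
  rcases ht with rfl | ⟨-, i, e⟩
  · exact tgt_minpoly hd hc (k := 0) (i := 0) rfl hp
  · exact tgt_minpoly hd hc (k := 1) e hp

lemma exists_od_le {M : Type} [Field M] [NumberField M] {q : ℕ} (hq : q.Prime) {S : Set M}
    (hS : S.Finite) : ∃ C : ℕ, ∀ (L : Type) [Field L] [NumberField L] (φ : M →+* L)
      (w : HeightOneSpectrum (𝓞 L)), (q : 𝓞 L) ∈ w.asIdeal → ∀ a ∈ S,
        od (w.valuation L) (φ a) ≤ C * od (w.valuation L) q := by
  choose n hn r hr using fun a : M => (show IsAlgebraic ℤ a⁻¹ from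
    (IsFractionRing.isAlgebraic_iff ℤ ℚ M).mpr (.of_finite ℚ _)).exists_nsmul_eq (𝓞 M)
  obtain ⟨C, hC⟩ := (hS.image n).bddAbove
  refine ⟨C, fun L _ _ φ w hw a ha => ?_⟩
  have h1 := (val_natCast_lt_iff w q).mpr hw
  have hq0 : (q : L) ≠ 0 := Nat.cast_ne_zero.mpr hq.ne_zero
  have h2 := (od_pos hq0).mpr h1
  rcases eq_or_ne a 0 with rfl | h0
  · rw [map_zero, od_zero]; positivity
  obtain ⟨v, e, -, he⟩ := exists_under φ w
  have h3 : w.valuation L (n a) ≤ w.valuation L (φ a) := by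
    rw [← map_natCast φ, show (n a : M) = algebraMap (𝓞 M) M (hn a) * a by
      rw [← hr, nsmul_eq_mul, mul_assoc, inv_mul_cancel₀ h0, mul_one], map_mul, map_mul]
    refine mul_le_of_le_one_left' ?_
    rw [he]
    exact pow_le_one' (v.valuation_le_one _) _
  have h4 := (pow_le_val_nat hq h1 (r a)).trans h3
  rw [← map_pow] at h4
  refine (od_le_of_le (pow_ne_zero _ hq0) h4).trans ?_
  rw [od_pow]
  exact mul_le_mul_of_nonneg_right (by exact_mod_cast hC ⟨a, ha, rfl⟩) h2.le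

end Pool.Agent.Lib.MP_41de88_nt
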