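import Pool.Agent.Lib.MP_41de88_nt.WildInsep2

set_option autoImplicit false

open Polynomial WithZero Finset

namespace Pool.Agent.Lib.MP_41de88_nt

open helper22.Val

variable {L : Type*} [Field L] {v : Valuation L ℤᵐ⁰} {F D : L[X]}

lemma val_pow_sub_le' {x y : L} {t : ℤᵐ⁰} (hx : v x ≤ t) (hy : v y ≤ t) (i : ℕ) :
    v (x ^ i - y ^ i) ≤ t ^ (i - 1) * v (x - y) := by
  rw [← (Commute.all x y).geom_sum₂_mul, map_mul]
  refine mul_le_mul_left (v.map_sum_le fun k hk => ?_) _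
  rw [mem_range] at hk
  rw [map_mul, map_pow, map_pow]
  refine (mul_le_mul' (pow_le_pow_left' hx _) (pow_le_pow_left' hy _)).trans (le_of_eq ?_)
  rw [← pow_add]
  congr 1
  omega

lemma pow_dvd_of_not_dvd {l a r β M : ℕ} (hl : l.Prime) (h : l ^ (a + r) ∣ β * M)
    (hβ : ¬ l ^ (r + 1) ∣ β) : l ^ a ∣ M := by
  obtain ⟨s, m, h1, rfl⟩ := Nat.exists_eq_pow_mul_and_not_dvd
    (show β ≠ 0 by rintro rfl; simp at hβ) l hl.ne_one
  have h2 : s ≤ r := not_lt.mp fun e => hβ ((pow_dvd_pow l e).mul_right _)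
  have h3 := (pow_dvd_pow l (show s + a ≤ a + r by omega)).trans h
  rw [pow_add, mul_assoc, Nat.mul_dvd_mul_iff_left (pow_pos hl.pos _)] at h3
  exact (((Nat.Prime.coprime_iff_not_dvd hl).mpr h1).pow_left a).dvd_of_dvd_mul_left h3

lemma pow_self_mono {a b : ℕ} (h : a ≤ b) : a ^ a ≤ b ^ b := by
  rcases Nat.eq_zero_or_pos b with rfl | hb
  · rw [Nat.le_zero.mp h]
  · exact (Nat.pow_le_pow_left h a).trans (Nat.pow_le_pow_right hb h)

/-- the standing assumptions in the tame case -/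
structure TA (v : Valuation L ℤᵐ⁰) (J : Type*) [Group J] [MulSemiringAction J L]
    (F D : L[X]) (C0 : ℕ) : Prop where
  inert : Inert v J
  monic : F.Monic
  two : 2 ≤ F.natDegree
  vd : v F.natDegree = 1
  lt : ∀ i < F.natDegree, v (F.coeff i) < 1
  fixF : ∀ (σ : J) i, σ • F.coeff i = F.coeff i
  fixD : ∀ (σ : J) i, σ • D.coeff i = D.coeff i
  D0 : D ≠ 0
  base : ∀ t, D.eval t = 0 → v t < 1 ∧ F.eval t ≠ t ∧ od v (F.eval t - t) ≤ C0 * Nat.card J

lemma intP_of_lt (hm : F.Monic) (h : ∀ i < F.natDegree, v (F.coeff i) < 1) : IntP v F := by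
  intro i
  rcases lt_trichotomy i F.natDegree with hi | rfl | hi
  · exact (h i hi).le
  · rw [hm.coeff_natDegree, map_one]
  · rw [coeff_eq_zero_of_natDegree_lt hi, map_zero]; exact zero_le

lemma eval_sub_pow (hm : F.Monic) (x : L) :
    F.eval x - x ^ F.natDegree = ∑ i ∈ range F.natDegree, F.coeff i * x ^ i := by
  rw [eval_eq_sum_range, sum_range_succ, hm.coeff_natDegree]
  ring

lemma lt_one_iff_of_lt (hm : F.Monic) (hd : F.natDegree ≠ 0)
    (h : ∀ i < F.natDegree, v (F.coeff i) < 1) (y : L) : v (F.eval y) < 1 ↔ v y < 1 := by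
  have key : v y ≤ 1 → v (F.eval y - y ^ F.natDegree) < 1 := fun hy => by
    rw [eval_sub_pow hm]
    refine v.map_sum_lt one_ne_zero fun i hi => ?_
    rw [map_mul, map_pow]
    exact mul_lt_one_of_nonneg_of_lt_one_left zero_le (h i (mem_range.mp hi)) (pow_le_one' hy _)
  constructor
  · intro e
    have h1 := key ((intP_of_lt hm h).le_one_of_eval (by rw [hm, map_one]) hd e.le)
    rw [v.map_sub_swap] at h1
    have h2 := val_lt_of_sub_lt e h1
    rwa [map_pow, pow_lt_one_iff_of_nonneg zero_le hd] at h2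
  · intro e
    exact val_lt_of_sub_lt (by rw [map_pow]; exact pow_lt_one₀ zero_le e hd) (key e.le)

lemma Fi_lt_one_iff (hm : F.Monic) (hd : F.natDegree ≠ 0)
    (h : ∀ i < F.natDegree, v (F.coeff i) < 1) (n : ℕ) (y : L) : v (Fi F n y) < 1 ↔ v y < 1 := by
  induction n with
  | zero => rfl
  | succ n ih => rw [Fi_succ', lt_one_iff_of_lt hm hd h, ih]

variable {J : Type*} [Group J] [Fintype J] [MulSemiringAction J L] {C0 : ℕ} {π : L}

lemma Inert.val_sub_lt (h : Inert v J) (hπ : od v π = 1) (H : Subgroup J) {x : L} (hx : x ≠ 0)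
    (h0 : 0 ≤ od v x) (hd : (Nat.card H : ℤ) ∣ od v x) {σ : J} (hσ : σ ∈ H) :
    v (σ • x - x) < v x := by
  have hπ0 : π ≠ 0 := by
    rintro rfl
    rw [od_zero] at hπ
    exact zero_ne_one hπ
  set z := ∏ σ ∈ sgF H, σ • π with hz
  have h1 : od v z = Nat.card H := by
    rw [hz, od_prod fun σ _ => (smul_ne_zero_iff_ne σ).mpr hπ0, ← card_sgF]
    simp [h.od_smul, hπ]
  have h2 : σ • z = z := by
    rw [hz, smul_prod']
    refine prod_nbij (σ * ·) (fun τ hτ => mem_sgF.mpr (mul_mem hσ (mem_sgF.mp hτ)))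
      (fun _ _ _ _ e => mul_left_cancel e) (fun τ hτ => ⟨σ⁻¹ * τ, mem_coe.mpr (mem_sgF.mpr
        (mul_mem (inv_mem hσ) (mem_sgF.mp hτ))), by simp⟩) fun τ _ => (mul_smul _ _ _).symm
  obtain ⟨c, hc⟩ := hd
  lift c to ℕ using nonneg_of_mul_nonneg_right (hc ▸ h0) (by exact_mod_cast Nat.card_pos)
  have hz0 := pow_ne_zero c (ne_zero_of_od_card h1)
  have h3 : v (z ^ c) = v x := le_antisymm
    ((od_le_od hx hz0).mp (by rw [od_pow, h1, hc, mul_comm]))
    ((od_le_od hz0 hx).mp (by rw [od_pow, h1, hc, mul_comm]))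
  have h4 := h.res σ (x / z ^ c) (by rw [map_div₀, h3, div_self (vne hx)])
  rwa [div_eq_mul_inv, smul_mul', smul_inv'', smul_pow', h2, ← sub_mul, map_mul, map_inv₀, h3,
    mul_inv_lt_iff₀ (zero_lt_iff.mpr (vne hx)), one_mul] at h4

variable (h : TA v J F D C0)
include h

omit [Fintype J] in
lemma TA.int : IntP v F := intP_of_lt h.monic h.lt

omit [Fintype J] in
lemma TA.d0 : F.natDegree ≠ 0 := by have := h.two; omega

omit [Fintype J] in
lemma TA.lt_one {n : ℕ} {y : L} (hy : D.eval (Fi F n y) = 0) : v y < 1 :=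
  (Fi_lt_one_iff h.monic h.d0 h.lt n y).mp (h.base _ hy).1

omit [Fintype J] in
lemma TA.coeff_le {i : ℕ} (hi : i < F.natDegree) : v (F.coeff i) ≤ exp (-(Nat.card J : ℤ)) := by
  rcases eq_or_ne (F.coeff i) 0 with h0 | h0
  · rw [h0, map_zero]; exact zero_le
  have := Int.le_of_dvd ((od_pos h0).mpr (h.lt i hi)) (h.inert.od_dvd ⊤ fun σ _ => h.fixF σ i)
  rw [Subgroup.card_top, od, le_neg] at this
  exact (log_le_iff_le_exp (vne h0)).mp this

omit [Fintype J] in
lemma TA.eval_le {x : L} (hx : v x ≤ 1) :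
    v (F.eval x - x ^ F.natDegree) ≤ exp (-(Nat.card J : ℤ)) := by
  rw [eval_sub_pow h.monic]
  refine v.map_sum_le fun i hi => ?_
  rw [map_mul, map_pow]
  exact (mul_le_of_le_one_right' (pow_le_one' hx _)).trans (h.coeff_le (mem_range.mp hi))

omit [Fintype J] in
lemma TA.sub_le {x y : L} (hx : v x ≤ 1) (hy : v y ≤ 1) :
    v (F.eval x - F.eval y - (x ^ F.natDegree - y ^ F.natDegree))
      ≤ exp (-(Nat.card J : ℤ)) * v (x - y) := by
  rw [sub_sub_sub_comm, eval_sub_pow h.monic, eval_sub_pow h.monic, ← sum_sub_distrib]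
  refine v.map_sum_le fun i hi => ?_
  rw [← mul_sub, map_mul]
  exact mul_le_mul' (h.coeff_le (mem_range.mp hi)) (by simpa using val_pow_sub_le' hx hy i)

omit [Fintype J] in
lemma TA.val_eval {y : L} (hy : v y ≤ 1) (hs : exp (-(Nat.card J : ℤ)) < v y ^ F.natDegree) :
    v (F.eval y) = v y ^ F.natDegree := by
  rw [← map_pow] at hs ⊢
  exact v.map_eq_of_sub_lt ((h.eval_le hy).trans_lt hs)

omit [Fintype J] in
lemma TA.sep {y y' : L} (hy : v y ≤ 1) (hs : exp (-(Nat.card J : ℤ)) < v y ^ F.natDegree)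
    (e : F.eval y' = F.eval y) (hlt : v (y' - y) < v y) : y' = y := by
  have hy0 : y ≠ 0 := fun e => by simp [e] at hlt
  obtain ⟨r, rfl⟩ : ∃ r, y' = r * y := ⟨y' / y, (div_mul_cancel₀ _ hy0).symm⟩
  by_contra hne
  have h0 : 0 < v (r - 1) := zero_lt_iff.mpr (vne (sub_ne_zero.mpr fun e => hne (by rw [e, one_mul])))
  have h1 := h.sub_le ((v.map_eq_of_sub_lt hlt).trans_le hy) hy
  rw [← sub_one_mul, map_mul, mul_lt_iff_lt_one_left (zero_lt_iff.mpr (vne hy0))] at hlt
  rw [e, sub_self, zero_sub, Valuation.map_neg, mul_pow, ← sub_one_mul, ← sub_one_mul, map_mul,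
    map_mul, val_pow_sub_one_eq h.vd hlt, map_pow, mul_left_comm] at h1
  exact not_le.mpr hs ((le_of_mul_le_mul_left h1 h0).trans (mul_le_of_le_one_right' hy))

omit [Fintype J] in
lemma TA.small_or {n : ℕ} {y : L} (hy : D.eval (Fi F n y) = 0) : F.eval y ≠ y ∧
    (exp (-(Nat.card J : ℤ)) < v y ^ F.natDegree ∨
      2 * od v (F.eval y - y) + n * Nat.card J ≤ 2 * C0 * Nat.card J) := by
  induction n generalizing y with
  | zero =>
    obtain ⟨-, h1, h2⟩ := h.base y hy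
    exact ⟨h1, Or.inr (by push_cast; linarith)⟩
  | succ n ih =>
    obtain ⟨h1, h2⟩ := ih (y := F.eval y) hy
    have hy1 := (h.lt_one hy).le
    have hx1 := h.int.eval hy1
    have h3 : F.eval y ≠ y := fun e => h1 (by rw [e, e])
    refine ⟨h3, or_iff_not_imp_left.mpr fun h4 => ?_⟩
    rw [not_lt] at h4
    have h5 : v (F.eval y) ≤ exp (-(Nat.card J : ℤ)) := by
      have := v.map_add_le (h.eval_le hy1) ((map_pow v _ _).trans_le h4)
      rwa [sub_add_cancel] at this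
    have h6 : v (F.eval y) ^ F.natDegree ≤ exp (-(Nat.card J : ℤ)) :=
      (pow_le_of_le_one zero_le hx1 h.d0).trans h5
    have h7 := h2.resolve_left (not_lt.mpr h6)
    have h8 : v ((F.eval (F.eval y) - F.eval y) ^ 2)
        ≤ exp (-(Nat.card J : ℤ)) * v ((F.eval y - y) ^ 2) := by
      have e1 := h.sub_le hx1 hy1
      have e2 := val_pow_sub_le' (le_max_left (v (F.eval y)) (v y)) (le_max_right _ _) F.natDegree
      have e3 := v.map_add_le (e1.trans (le_max_left _ _)) (e2.trans (le_max_right _ _))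
      rw [sub_add_cancel, ← max_mul] at e3
      rw [map_pow, map_pow]
      refine (pow_le_pow_left' e3 2).trans ?_
      rw [mul_pow]
      refine mul_le_mul_left ?_ _
      have e4 : exp (-(Nat.card J : ℤ)) ≤ 1 := by
        rw [← exp_zero, exp_le_exp]; simp
      rcases max_cases (exp (-(Nat.card J : ℤ))) (max (v (F.eval y)) (v y) ^ (F.natDegree - 1))
        with ⟨e, -⟩ | ⟨e, -⟩ <;> rw [e]
      · exact pow_le_of_le_one zero_le e4 two_ne_zero
      · rw [← pow_mul]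
        refine (pow_le_pow_of_le_one zero_le (max_le hx1 hy1)
          (show F.natDegree ≤ _ by have := h.two; omega)).trans ?_
        rcases max_cases (v (F.eval y)) (v y) with ⟨e, -⟩ | ⟨e, -⟩ <;> rw [e] <;> assumption
    have h9 := (log_le_log (vne (pow_ne_zero 2 (sub_ne_zero.mpr h1))) (mul_ne_zero exp_ne_zero
      (vne (pow_ne_zero 2 (sub_ne_zero.mpr h3))))).mpr h8
    rw [log_mul exp_ne_zero (vne (pow_ne_zero 2 (sub_ne_zero.mpr h3))), log_exp, map_pow, map_pow,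
      log_pow, log_pow, nsmul_eq_mul, nsmul_eq_mul] at h9
    rw [od] at h7 ⊢
    push_cast at h9 ⊢
    linarith

omit [Fintype J] in
lemma TA.small {n : ℕ} (hn : 2 * C0 ≤ n) {y : L} (hy : D.eval (Fi F n y) = 0) :
    exp (-(Nat.card J : ℤ)) < v y ^ F.natDegree := by
  obtain ⟨h1, h2⟩ := h.small_or hy
  refine h2.resolve_right (not_le.mpr ?_)
  have h3 := h.lt_one hy
  have h4 := (od_pos (sub_ne_zero.mpr h1)).mpr
    (v.map_sub_lt ((lt_one_iff_of_lt h.monic h.d0 h.lt y).mpr h3) h3)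
  have h5 : (2 * C0 : ℤ) * Nat.card J ≤ n * Nat.card J :=
    mul_le_mul_of_nonneg_right (by exact_mod_cast hn) (by positivity)
  linarith

omit [Fintype J] in
lemma TA.od_small {n : ℕ} (hn : 2 * C0 ≤ n) {y : L} (hy : D.eval (Fi F n y) = 0) :
    y ≠ 0 ∧ 0 < od v y ∧ od v y < Nat.card J := by
  have h1 := h.small hn hy
  have h2 : y ≠ 0 := fun e => by simp [e, h.d0] at h1
  have h3 := h1.trans_le (pow_le_of_le_one zero_le (h.lt_one hy).le h.d0)
  refine ⟨h2, (od_pos h2).mpr (h.lt_one hy), ?_⟩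
  rw [od, neg_lt]
  exact (lt_log_iff_exp_lt (vne h2)).mpr h3

omit [Fintype J] in
lemma TA.od_Fi {n : ℕ} (hn : 2 * C0 ≤ n) (r : ℕ) {y : L} (hy : D.eval (Fi F (n + r) y) = 0) :
    od v (Fi F r y) = F.natDegree ^ r * od v y := by
  induction r generalizing y with
  | zero => rw [pow_zero, one_mul]; rfl
  | succ r ih =>
    rw [Fi_succ, ih (y := F.eval y) hy, pow_succ, mul_assoc, ← od_pow]
    congr 1
    exact od_congr ((h.val_eval (h.lt_one hy).le (h.small (by omega) hy)).trans (map_pow v _ _).symm)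

lemma TA.lt_index {r : ℕ} {y : L} (hy : D.eval (Fi F (2 * C0 + r) y) = 0) :
    F.natDegree ^ r < (MulAction.stabilizer J y).index := by
  have h1 := (h.od_small le_rfl (y := Fi F r y) (by rwa [← Fi_add])).2.2
  have h2 := (h.od_small (by omega) hy).2.1
  have h3 := (h.inert.orbit_dvd y).neg_right
  rw [← mul_neg, ← od] at h3
  have h4 := Int.le_of_dvd (mul_pos (by
    exact_mod_cast Nat.pos_of_ne_zero Subgroup.FiniteIndex.index_ne_zero) h2) h3
  rw [h.od_Fi le_rfl r hy] at h1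
  exact_mod_cast lt_of_mul_lt_mul_right (h1.trans_le h4) h2.le

theorem TA.exists_sub (hπ : od v π = 1) {n : ℕ}
    (hn : 2 * C0 + (D.natDegree * F.natDegree ^ (2 * C0)) ^ (D.natDegree * F.natDegree ^ (2 * C0))
      ≤ n) (hsp : ∀ j < n + 1, ∀ x, D.eval (Fi F j x) = 0 → (F - C x).Splits) {l k : ℕ}
    (hl : l.Prime) (hk : l ^ k ∣ F.natDegree) {y : L} (hy : D.eval (Fi F (n + 1) y) = 0) :
    ∃ P : Subgroup J, (∀ σ ∈ P, ∀ x, D.eval (Fi F n x) = 0 → σ • x = x) ∧
      ∃ y, D.eval (Fi F (n + 1) y) = 0 ∧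
        ∀ z, F.eval z = F.eval y → l ^ k ∣ (MulAction.orbit P z).ncard := by
  classical
  rcases Nat.eq_zero_or_pos k with rfl | hk0
  · exact ⟨⊥, fun σ hσ x _ => by rw [Subgroup.mem_bot.mp hσ, one_smul], y, hy, by simp⟩
  obtain ⟨r, rfl⟩ : ∃ r, n = 2 * C0 + r := ⟨n - 2 * C0, by omega⟩
  have hex : ∃ m, ∃ y, D.eval (Fi F (2 * C0 + r + 1) y) = 0 ∧ ¬ (l : ℤ) ^ m ∣ od v y := by
    have h1 := (h.od_small (by omega) hy).2.1
    refine ⟨(od v y).toNat, y, hy, fun e => not_lt.mpr (Int.le_of_dvd h1 e) ?_⟩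
    conv_lhs => rw [← Int.toNat_of_nonneg h1.le]
    exact_mod_cast Nat.lt_pow_self hl.one_lt
  obtain ⟨y0, hy0, h1⟩ := Nat.find_spec hex
  obtain ⟨μ, hμ⟩ := Nat.exists_eq_succ_of_ne_zero (show Nat.find hex ≠ 0 from fun e => by
    simp [e] at h1)
  have h2 := Nat.find_min hex (m := μ) (by omega)
  push Not at h2
  rw [hμ] at h1
  have hk' : (l : ℤ) ^ k ∣ F.natDegree := by exact_mod_cast hk
  obtain ⟨e1, e2⟩ := tree_finite (F := F) h.d0 h.D0 (2 * C0)
  set J0 := fixer J e1.toFinset with hJ0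
  have h3 : Nat.card J ≤ Nat.card J0 * r := by
    have := card_le_mul_fixer (⊤ : Subgroup J) e1.toFinset fun σ _ y hy =>
      e1.mem_toFinset.mpr (tree_smul h.fixF h.fixD σ (e1.mem_toFinset.mp hy))
    rw [card_sgF, Subgroup.card_top, show (sgF ⊤).filter (fun σ : J => ∀ y ∈ e1.toFinset, σ • y = y)
      = sgF J0 by ext; simp only [mem_filter, mem_sgF, Subgroup.mem_top, true_and]; rfl,
      card_sgF] at this
    refine this.trans (Nat.mul_le_mul_left _ ((pow_self_mono ?_).trans (Nat.le_of_add_le_add_left hn)))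
    rwa [← Set.ncard_eq_toFinset_card _ e1]
  have h4 : l ^ (μ + k) ∣ Nat.card J0 := by
    have hx : D.eval (Fi F (2 * C0) (Fi F (r + 1) y0)) = 0 := by rwa [← Fi_add]
    obtain ⟨β, hβ⟩ := h.inert.od_dvd J0 fun σ hσ => hσ _ (e1.mem_toFinset.mpr hx)
    obtain ⟨-, h5, h6⟩ := h.od_small le_rfl hx
    have h7 : (0 : ℤ) < Nat.card J0 := by exact_mod_cast Nat.card_pos
    have h8 := (mul_pos_iff_of_pos_left h7).mp (hβ ▸ h5)
    lift β to ℕ using h8.le
    have h9 : β < r := by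
      rw [hβ] at h6
      exact lt_of_mul_lt_mul_left (lt_of_lt_of_le (by exact_mod_cast h6) h3) (Nat.zero_le _)
    refine pow_dvd_of_not_dvd (r := r) (β := β) hl ?_ (Nat.not_dvd_of_pos_of_lt
      (by exact_mod_cast h8) (h9.trans ((Nat.lt_succ_self r).trans (Nat.lt_pow_self hl.one_lt))))
    rw [← Int.natCast_dvd_natCast, Nat.cast_mul, mul_comm, ← hβ, h.od_Fi le_rfl (r + 1) hy0,
      Nat.cast_pow, add_assoc, pow_add, mul_comm, pow_add, pow_succ']
    exact mul_dvd_mul (mul_dvd_mul hk' (pow_dvd_pow_of_dvd ((dvd_pow_self _ hk0.ne').trans hk') _))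
      (h2 y0 hy0)
  have := Fact.mk hl
  obtain ⟨P0, hP0⟩ := Sylow.exists_subgroup_card_pow_prime l h4
  rw [← Subgroup.card_map_of_injective J0.subtype_injective] at hP0
  set P := P0.map J0.subtype with hP
  have h5 : ∀ j ≤ r, ∀ σ ∈ P, ∀ x, D.eval (Fi F (2 * C0 + j) x) = 0 → σ • x = x := by
    intro j
    induction j with
    | zero => exact fun _ σ hσ x hx => Subgroup.map_subtype_le _ hσ _ (e1.mem_toFinset.mpr hx)
    | succ j ih =>
      intro hj σ hσ x hx
      obtain ⟨h6, h7, -⟩ := h.od_small (by omega) hx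
      refine h.sep (h.lt_one hx).le (h.small (by omega) hx)
        ((eval_smul_of_coeff h.fixF σ x).trans (ih (by omega) σ hσ _ hx))
        (h.inert.val_sub_lt hπ P h6 h7.le ?_ hσ)
      obtain ⟨i, rfl⟩ : ∃ i, r = j + 1 + i := ⟨r - (j + 1), by omega⟩
      obtain ⟨z, rfl⟩ := exists_lift h.d0 hsp (i + 1) _ (by omega) hx
      rw [← Fi_add] at hx
      rw [hP0, h.od_Fi (by omega) _ hx, Nat.cast_pow, pow_add, mul_comm]
      exact mul_dvd_mul (hk'.trans (dvd_pow_self _ i.succ_ne_zero)) (h2 z (by convert hx using 3; omega))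
  refine ⟨P, h5 r le_rfl, y0, hy0, fun z hz => ?_⟩
  have h6 : od v z = od v y0 := by
    have e3 := h.od_Fi (n := 2 * C0 + r) (by omega) 1 (y := z) (by rw [Fi_succ, hz]; exact hy0)
    have e4 := h.od_Fi (n := 2 * C0 + r) (by omega) 1 hy0
    exact mul_left_cancel₀ (pow_ne_zero 1 (Nat.cast_ne_zero.mpr h.d0))
      (e3.symm.trans ((congrArg (od v) hz).trans e4))
  have h7 := h.inert.od_dvd ((MulAction.stabilizer P z).map P.subtype) (x := z) (by
    rintro _ ⟨σ, hσ, rfl⟩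
    exact hσ)
  rw [Subgroup.card_map_of_injective P.subtype_injective, h6] at h7
  rw [← MulAction.index_stabilizer]
  refine pow_dvd_of_not_dvd (r := μ) (β := Nat.card (MulAction.stabilizer P z)) hl ?_
    fun e => h1 (dvd_trans (by exact_mod_cast e) h7)
  rw [Subgroup.card_mul_index, hP0, add_comm]

end Pool.Agent.Lib.MP_41de88_nt
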