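import Pool.Agent.Lib.MP_41de88_nt.Aff
import Pool.Agent.Lib.MP_41de88_nt.Tame

set_option autoImplicit false

open Polynomial NumberField IsDedekindDomain WithZero

namespace Pool.Agent.Lib.MP_41de88_nt

open helper22.Val

variable {f g : ℚ[X]} {q : ℕ} {b : ℚ}

/-- potentially good reduction to `X^d` at a prime not dividing `d` -/
def TameAt (f : ℚ[X]) (q : ℕ) (b : ℚ) : Prop :=
  q.Prime ∧ ¬ q ∣ f.natDegree ∧ ∀ i < f.natDegree, (ctr f b).coeff i ≠ 0 →
    ((i : ℤ) - 1) * padicValRat q f.leadingCoeff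
      < (f.natDegree - 1) * padicValRat q ((ctr f b).coeff i)

lemma crit_lt_one {L : Type*} [Field L] {v : Valuation L ℤᵐ⁰} {F : L[X]} (hm : F.Monic)
    (hd : v F.natDegree = 1) (h : ∀ i < F.natDegree, v (F.coeff i) < 1) {z : L}
    (hz : F.derivative.eval z = 0) : v z < 1 := by
  by_contra hcon
  rw [not_lt] at hcon
  have h0 : 0 < v z ^ (F.natDegree - 1) := pow_pos (zero_lt_one.trans_le hcon) _
  rw [derivative_eval, sum_over_range _ (by simp), Finset.sum_range_succ, hm.coeff_natDegree,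
    one_mul, add_eq_zero_iff_eq_neg] at hz
  have h2 : v (∑ i ∈ Finset.range F.natDegree, F.coeff i * i * z ^ (i - 1))
      < v z ^ (F.natDegree - 1) := by
    refine v.map_sum_lt h0.ne' fun i hi => ?_
    rw [Finset.mem_range] at hi
    rw [map_mul, map_mul, map_pow]
    exact (mul_le_mul_right (pow_le_pow_right₀ hcon (by omega)) _).trans_lt
      (mul_lt_of_lt_one_left h0
        (mul_lt_one_of_nonneg_of_lt_one_left zero_le (h i hi) (val_nat_le _)))
  rw [hz, Valuation.map_neg, map_mul, hd, one_mul, map_pow] at h2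
  exact lt_irrefl _ h2

section
variable (h : TameAt f q b) (hd : 2 ≤ f.natDegree)
include h hd

lemma exists_TA (hg : g ≠ 0) (hT : Tgt f g) : ∃ C0 : ℕ,
    ∀ (L : Type) [Field L] [NumberField L] [IsGalois ℚ L],
      ((f.derivative * (scal f * g)).map (algebraMap ℚ L)).Splits →
      ∃ (u : L) (w : HeightOneSpectrum (𝓞 L)), aeval u (scal f) = 0 ∧
        TA (w.valuation L) (inJ w u) (cj f b u) (aff g b u) C0 := by
  obtain ⟨M, _, _, hM, hlift⟩ := exists_model (f.derivative * (scal f * g))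
  obtain ⟨-, hM2, hM3⟩ := splits_three hd hg hM
  obtain ⟨u0, hu0⟩ := exists_scal hd hM2
  obtain ⟨C, hC⟩ := exists_od_le (M := M) h.1 ((rts g M).finite_toSet.image
    fun T => ((ev f M)^[1] T - T) / u0)
  refine ⟨C * f.natDegree, fun L _ _ _ hs => ?_⟩
  obtain ⟨hL1, hL2, hL3⟩ := splits_three hd hg hs
  obtain ⟨φ⟩ := hlift L hs
  obtain ⟨w, hw⟩ := exists_over L h.1
  have hu : aeval (φ u0) (scal f) = 0 := by rw [← map_aeval_ringHom, hu0, map_zero]
  have hu' := ne_zero_of_scal hd hu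
  have hdeg := natDegree_cj (f := f) (b := b) hu'
  have hm := monic_cj (b := b) hd hu
  have hvd : w.valuation L (cj f b (φ u0)).natDegree = 1 :=
    hdeg ▸ val_nat_eq_one' h.1 ((val_natCast_lt_iff w q).mpr hw) h.2.1
  have hlt : ∀ i < (cj f b (φ u0)).natDegree, w.valuation L ((cj f b (φ u0)).coeff i) < 1 :=
    fun i hi => val_coeff_cj_lt hd hu h.1 hw (h.2.2 i (hdeg ▸ hi))
  obtain ⟨k, -, hk2, hk3⟩ := log_val_inJ hd hu h.1 hw
  refine ⟨φ u0, w, hu, inert_inJ, hm, hdeg ▸ hd, hvd, hlt, fun σ i => smul_coeff_cj σ.2.2 i,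
    fun σ i => smul_coeff_aff σ.2.2 i, aff_ne_zero hu' hg, fun t ht => ?_⟩
  rw [eval_aff] at ht
  obtain ⟨h2, c, j, i, h3, h4⟩ := hT L hL1 _ ht
  obtain ⟨z, rfl⟩ := exists_affine hu' b c
  rw [← eval_derivative_cj hu'] at h3
  rw [← iterate_cj hu', ← iterate_cj hu'] at h4
  have hd0 : (cj f b (φ u0)).natDegree ≠ 0 := by omega
  refine ⟨(Fi_lt_one_iff hm hd0 hlt j t).mp ((congrArg _ (affine_inj hu' h4)).trans_lt
    ((Fi_lt_one_iff hm hd0 hlt i z).mpr (crit_lt_one hm hvd hlt h3))),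
    fun e => h2 ⟨1, one_pos, (eval_cj hu' _).symm.trans (congrArg (φ u0 * · + b) e)⟩, ?_⟩
  obtain ⟨T, h5, h6⟩ := exists_preimage_root φ hg hM3 ht
  have h7 := hC L φ w hw _ ⟨T, (mem_rts hg).mpr h5, rfl⟩
  rw [map_div₀, map_sub, map_ev_iterate, h6, ← sub_Fi_cj hu',
    show od (w.valuation L) q = _ from congrArg Neg.neg hk3, neg_neg] at h7
  refine le_trans h7 ?_
  rw [Nat.cast_mul, mul_assoc]
  exact mul_le_mul_of_nonneg_left (mul_le_mul_of_nonneg_right (by omega) (by positivity))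
    (by positivity)

lemma tame_degree (hg : g ≠ 0) (hT : Tgt f g) : ∃ C, ∀ n p, Irreducible p → p ∣ itP f g n →
    f.natDegree ^ n ≤ C * p.natDegree := by
  obtain ⟨C0, hW⟩ := exists_TA h hd hg hT
  refine ⟨f.natDegree ^ (2 * C0), fun n p hp hpd => ?_⟩
  rcases le_total n (2 * C0) with hn | hn
  · exact (Nat.pow_le_pow_right (by omega) hn).trans (Nat.le_mul_of_pos_right _ hp.natDegree_pos)
  obtain ⟨L, _, _, _, h2, h3⟩ := exists_galois (mul_ne_zero (derivative_ne_zero' (f := f) (by omega))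
    (mul_ne_zero (scal_ne_zero hd) hg)) hp.ne_zero
  obtain ⟨u, w, hu, hW⟩ := hW L h2
  have hu0 := ne_zero_of_scal hd hu
  obtain ⟨y, hy⟩ := h3.exists_eval_eq_zero (by rw [degree_map]; exact hp.degree_pos.ne')
  rw [eval_map_algebraMap] at hy
  obtain ⟨z, rfl⟩ := exists_affine hu0 b y
  obtain ⟨j, rfl⟩ := Nat.exists_eq_add_of_le hn
  have := Fintype.ofFinite (inJ w u)
  rw [pow_add]
  refine Nat.mul_le_mul_left _ ((natDegree_cj (f := f) (b := b) hu0 ▸ hW.lt_index ?_).le.trans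
    (index_le_natDegree hu0 w hp.ne_zero hy))
  rw [eval_aff_Fi hu0]
  exact aeval_eq_zero_of_dvd_aeval_eq_zero hpd hy

lemma tame_mart (hirr : ∀ n, Irreducible (itP f g n)) (hT : Tgt f g) : ∃ K : ℕ,
    ∀ (N : ℕ) (L : Type) [Field L] [NumberField L] [IsGalois ℚ L],
      ((f.derivative * (scal f * g)).map (algebraMap ℚ L)).Splits →
      (∀ j ≤ N, ((itP f g j).map (algebraMap ℚ L)).Splits) →
        ∃ B : Finset ℕ, B.card ≤ K ∧ ∀ n < N, n ∉ B → MartLevel f g L n := by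
  have hd0 : f.natDegree ≠ 0 := by omega
  have hg : g ≠ 0 := (hirr 0).ne_zero
  obtain ⟨C0, hW⟩ := exists_TA h hd hg hT
  refine ⟨_, fun N L _ _ _ hs hsp => ⟨Finset.range (2 * C0 + (g.natDegree * f.natDegree ^ (2 * C0))
    ^ (g.natDegree * f.natDegree ^ (2 * C0))), (Finset.card_range _).le, fun n hn hB y hy => ?_⟩⟩
  obtain ⟨u, w, hu, hW⟩ := hW L hs
  have hu0 := ne_zero_of_scal hd hu
  obtain ⟨π, hπ⟩ := exists_od_eq_one w
  have := Fintype.ofFinite (inJ w u)
  refine mart_of_pow hd0 hg (hirr _) ⟨y, hy⟩ (fun l k hl hk => ?_) _ hy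
  obtain ⟨z, rfl⟩ := exists_affine hu0 b y
  obtain ⟨P, h1, z', h2, h3⟩ := hW.exists_sub hπ (n := n)
    (by rwa [natDegree_aff hu0, natDegree_cj hu0, ← not_lt, ← Finset.mem_range])
    (fun j hj x hx => splits_cj_sub hd0 hg hu0 (hsp _ (by omega)) hx) hl
    (by rwa [natDegree_cj hu0]) ((mem_rts_aff hd0 hg hu0 _ _).mp hy)
  refine ⟨P.map (inJ w u).subtype, ?_, _, (mem_rts_aff hd0 hg hu0 _ _).mpr h2, fun x hx => ?_⟩
  · rintro _ ⟨σ, hσ, rfl⟩ x hx
    obtain ⟨x, rfl⟩ := exists_affine hu0 b x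
    exact (smul_affine σ.2.2 x).trans
      (congrArg (u * · + b) (h1 σ hσ x ((mem_rts_aff hd0 hg hu0 _ _).mp hx)))
  · obtain ⟨x, rfl⟩ := exists_affine hu0 b x
    have h4 := h3 x (affine_inj hu0 ((eval_cj hu0 _).trans (hx.trans (eval_cj hu0 _).symm)))
    rw [← Set.ncard_image_of_injective _ fun _ _ e => affine_inj (b := b) hu0 e] at h4
    convert h4 using 2
    ext y
    constructor
    · rintro ⟨⟨_, σ, hσ, rfl⟩, rfl⟩
      exact ⟨_, ⟨⟨σ, hσ⟩, rfl⟩, (smul_affine σ.2.2 x).symm⟩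
    · rintro ⟨_, ⟨σ, rfl⟩, rfl⟩
      exact ⟨⟨_, σ, σ.2, rfl⟩, smul_affine σ.1.2.2 x⟩

end

theorem small_tame (h : TameAt f q b) (hd : 3 ≤ f.natDegree) (hodd : Odd f.natDegree)
    (hc : ∀ (M : Type) [Field M] [NumberField M],
      (f.derivative.map (algebraMap ℚ M)).Splits → CritOK f M) {α : ℚ}
    (hα : ∀ n, aeval ((fun x => f.eval x)^[n] α) f.derivative ≠ 0)
    (K : Type) [Field K] [NumberField K] : Small (critPrimes f α K) := by
  refine small_of_tgt (by omega) hα fun g hg hT => ?_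
  obtain ⟨C, hC⟩ := tame_degree h (by omega) hg hT
  refine small_of_stable (by omega) hg C hC fun n p hp hirr => ?_
  obtain ⟨K, hK⟩ := tame_mart h (by omega) hirr (hT.of_dvd hp)
  exact small_orbMod α fun ε hε => core_rootMod hd hodd hirr hc _
    (mul_ne_zero (derivative_ne_zero' (by omega)) (mul_ne_zero (scal_ne_zero (by omega))
      (hirr 0).ne_zero)) K hK hε

end Pool.Agent.Lib.MP_41de88_nt
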