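import Pool.Agent.Lib.MP_41de88_nt.Rigid

set_option autoImplicit false

open Polynomial Finset

namespace Pool.Agent.Lib.MP_41de88_nt

/-- `g ∘ f ∘ ⋯ ∘ f` -/
noncomputable def itP (f g : ℚ[X]) (n : ℕ) : ℚ[X] := (fun Q => Q.comp f)^[n] g

/-- the map induced by `f` on `L` -/
noncomputable def ev (f : ℚ[X]) (L : Type*) [Field L] [Algebra ℚ L] : L → L := fun y => aeval y f

variable {f g : ℚ[X]}

lemma itP_zero : itP f g 0 = g := rfl

lemma itP_succ (n : ℕ) : itP f g (n + 1) = (itP f g n).comp f := Function.iterate_succ_apply' _ _ _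

lemma itP_add (m n : ℕ) : itP f g (m + n) = itP f (itP f g n) m := Function.iterate_add_apply _ _ _ _

lemma natDegree_itP (n : ℕ) : (itP f g n).natDegree = g.natDegree * f.natDegree ^ n := by
  induction n with
  | zero => simp [itP_zero]
  | succ n ih => rw [itP_succ, natDegree_comp, ih, pow_succ, mul_assoc]

lemma itP_ne_zero (hf : f.natDegree ≠ 0) (hg : g ≠ 0) (n : ℕ) : itP f g n ≠ 0 := by
  induction n with
  | zero => exact hg
  | succ n ih =>
    rw [itP_succ, ← leadingCoeff_ne_zero, leadingCoeff_comp hf]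
    exact mul_ne_zero (leadingCoeff_ne_zero.mpr ih)
      (pow_ne_zero _ (leadingCoeff_ne_zero.mpr (ne_zero_of_natDegree_gt (Nat.pos_of_ne_zero hf))))

variable {L : Type*} [Field L] [Algebra ℚ L]

lemma ev_eq (y : L) : ev f L y = (f.map (algebraMap ℚ L)).eval y := by
  rw [eval_map_algebraMap]; rfl

lemma aeval_itP_succ (n : ℕ) (y : L) : aeval y (itP f g (n + 1)) = aeval (ev f L y) (itP f g n) := by
  rw [itP_succ, aeval_comp]; rfl

lemma aeval_itP (n : ℕ) (y : L) : aeval y (itP f g n) = aeval ((ev f L)^[n] y) g := by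
  induction n generalizing y with
  | zero => rfl
  | succ n ih => rw [aeval_itP_succ, ih, Function.iterate_succ_apply]

lemma map_aeval_ringHom {M : Type*} [Field M] [Algebra ℚ M] (φ : M →+* L) (P : ℚ[X]) (y : M) :
    φ (aeval y P) = aeval (φ y) P := (aeval_algHom_apply φ.toRatAlgHom y P).symm

lemma map_ev {M : Type*} [Field M] [Algebra ℚ M] (φ : M →+* L) (y : M) :
    φ (ev f M y) = ev f L (φ y) := map_aeval_ringHom φ f y

lemma map_ev_iterate {M : Type*} [Field M] [Algebra ℚ M] (φ : M →+* L) (n : ℕ) (y : M) :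
    φ ((ev f M)^[n] y) = (ev f L)^[n] (φ y) :=
  (Function.Semiconj.iterate_right (map_ev φ) n) y

lemma smul_aeval (σ : L ≃ₐ[ℚ] L) (P : ℚ[X]) (y : L) : aeval (σ • y) P = σ • aeval y P :=
  aeval_algHom_apply σ y P

lemma smul_ev (σ : L ≃ₐ[ℚ] L) (y : L) : ev f L (σ • y) = σ • ev f L y := smul_aeval σ f y

open scoped Classical in
/-- the roots of a rational polynomial in `L` -/
noncomputable def rts (P : ℚ[X]) (L : Type*) [Field L] [Algebra ℚ L] : Finset L :=
  (P.aroots L).toFinset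

lemma mem_rts {P : ℚ[X]} (hP : P ≠ 0) {y : L} : y ∈ rts P L ↔ aeval y P = 0 := by
  simp [rts, hP]

lemma card_rts_le (P : ℚ[X]) : (rts P L).card ≤ P.natDegree := by
  classical
  refine le_trans (le_of_eq (by congr)) ((Multiset.toFinset_card_le (P.aroots L)).trans ?_)
  exact (card_roots' _).trans natDegree_map_le

lemma card_rts {P : ℚ[X]} (h : P.Separable) (hs : (P.map (algebraMap ℚ L)).Splits) :
    (rts P L).card = P.natDegree := by
  classical
  rw [← natDegree_map (algebraMap ℚ L), hs.natDegree_eq_card_roots,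
    ← Multiset.toFinset_card_of_nodup (nodup_roots h.map)]
  congr

lemma smul_mem_rts {P : ℚ[X]} (hP : P ≠ 0) (σ : L ≃ₐ[ℚ] L) {y : L} (hy : y ∈ rts P L) :
    σ • y ∈ rts P L := by
  rw [mem_rts hP] at hy ⊢
  rw [smul_aeval, hy, smul_zero]

lemma exists_smul_eq [Normal ℚ L] {P : ℚ[X]} (hP : Irreducible P) {x y : L} (hx : x ∈ rts P L)
    (hy : y ∈ rts P L) : ∃ σ : L ≃ₐ[ℚ] L, σ • x = y := by
  rw [mem_rts hP.ne_zero] at hx hy
  exact (Normal.minpoly_eq_iff_mem_orbit L).mp
    ((minpoly.eq_of_irreducible hP hy).symm.trans (minpoly.eq_of_irreducible hP hx))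

lemma exists_preimage_root {M : Type*} [Field M] [Algebra ℚ M] (φ : M →+* L) {P : ℚ[X]}
    (hP : P ≠ 0) (hs : (P.map (algebraMap ℚ M)).Splits) {y : L} (hy : aeval y P = 0) :
    ∃ x : M, aeval x P = 0 ∧ φ x = y := by
  obtain ⟨x, hx⟩ := hs.mem_range_of_isRoot (Polynomial.map_ne_zero hP) (i := φ) (x := y) (by
    rw [Polynomial.map_map, IsRoot, Subsingleton.elim (φ.comp (algebraMap ℚ M)) (algebraMap ℚ L),
      eval_map_algebraMap, hy])
  refine ⟨x, φ.injective ?_, hx⟩
  rw [map_aeval_ringHom, hx, hy, map_zero]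

lemma natDegree_map_sub_C (x : L) :
    (f.map (algebraMap ℚ L) - C x).natDegree = f.natDegree := by
  rw [natDegree_sub_C, natDegree_map]

lemma splits_sub_C (hf : f.natDegree ≠ 0) {P : ℚ[X]} (hP : P ≠ 0)
    (hs : ((P.comp f).map (algebraMap ℚ L)).Splits) {x : L} (hx : aeval x P = 0) :
    (f.map (algebraMap ℚ L) - C x).Splits := by
  refine hs.of_dvd (Polynomial.map_ne_zero (itP_ne_zero (n := 1) hf hP)) ?_
  rw [← eval_map_algebraMap] at hx
  obtain ⟨R, hR⟩ := dvd_iff_isRoot.mpr hx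
  rw [map_comp, hR]
  simp

variable [DecidableEq L]

lemma fib_eq (hf : f.natDegree ≠ 0) {P : ℚ[X]} (hP : P ≠ 0) {x : L} (hx : aeval x P = 0) :
    ((rts (P.comp f) L).filter fun y => ev f L y = x)
      = (f.map (algebraMap ℚ L) - C x).roots.toFinset := by
  have h0 : f.map (algebraMap ℚ L) - C x ≠ 0 :=
    ne_zero_of_natDegree_gt (n := 0) (by rw [natDegree_map_sub_C]; omega)
  ext y
  rw [mem_filter, mem_rts (P := P.comp f) (itP_ne_zero (n := 1) hf hP), Multiset.mem_toFinset,
    mem_roots h0, IsRoot, eval_sub, eval_C, ← ev_eq, sub_eq_zero, aeval_comp]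
  exact ⟨fun h => h.2, fun h => ⟨(congrArg (fun z => aeval z P) h).trans hx, h⟩⟩

lemma card_fib_le (hf : f.natDegree ≠ 0) (W : Finset L) (x : L) :
    (W.filter fun y => ev f L y = x).card ≤ f.natDegree := by
  have h0 : f.map (algebraMap ℚ L) - C x ≠ 0 :=
    ne_zero_of_natDegree_gt (n := 0) (by rw [natDegree_map_sub_C]; omega)
  rw [← natDegree_map_sub_C (f := f) x]
  refine card_le_degree_of_subset_roots fun y hy => ?_
  rw [mem_roots h0, IsRoot, eval_sub, eval_C, ← ev_eq, sub_eq_zero]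
  exact (mem_filter.mp hy).2

lemma card_fib (hf : f.natDegree ≠ 0) {P : ℚ[X]} (hP : P ≠ 0) (hsep : (P.comp f).Separable)
    (hs : ((P.comp f).map (algebraMap ℚ L)).Splits) {x : L} (hx : aeval x P = 0) :
    ((rts (P.comp f) L).filter fun y => ev f L y = x).card = f.natDegree := by
  rw [fib_eq hf hP hx, Multiset.toFinset_card_of_nodup (nodup_roots ?_),
    ← (splits_sub_C hf hP hs hx).natDegree_eq_card_roots, natDegree_map_sub_C]
  refine (hsep.map (f := algebraMap ℚ L)).of_dvd ?_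
  rw [← eval_map_algebraMap] at hx
  obtain ⟨R, hR⟩ := dvd_iff_isRoot.mpr hx
  rw [map_comp, hR]
  simp

omit [Algebra ℚ L] [Field L] [DecidableEq L] in
lemma pow_factorial_smul {G : Type*} [Group G] [MulAction G L] (σ : G) (F : Finset L)
    (hF : ∀ y ∈ F, σ • y ∈ F) {D : ℕ} (hD : F.card ≤ D) {y : L} (hy : y ∈ F) :
    σ ^ D.factorial • y = y := by
  have h1 : ∀ k : ℕ, σ ^ k • y ∈ F := fun k => by
    induction k with
    | zero => simpa using hy
    | succ k ih => rw [pow_succ', mul_smul]; exact hF _ ih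
  obtain ⟨a, ha, b, hb, hab, e⟩ := exists_ne_map_eq_of_card_lt_of_maps_to (s := range (D + 1))
    (t := F) (by simpa using Nat.lt_succ_of_le hD) (f := fun k => σ ^ k • y) fun k _ => h1 k
  wlog h : a < b generalizing a b
  · exact this b hb a ha hab.symm e.symm (by omega)
  have h2 : σ ^ (b - a) • y = y := by
    apply MulAction.injective (σ ^ a)
    simp only [← mul_smul, ← pow_add]
    rw [Nat.add_sub_cancel' h.le]
    exact e.symm
  obtain ⟨c, hc⟩ := Nat.dvd_factorial (show 0 < b - a by omega)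
    (show b - a ≤ D by rw [mem_range] at hb; omega)
  rw [hc, pow_mul]
  exact MulAction.mem_stabilizer_iff.mp (pow_mem (MulAction.mem_stabilizer_iff.mpr h2) c)

lemma le_factorial_mul_totient {m D k : ℕ} (h : m ∣ D.factorial ^ k) :
    m ≤ D.factorial * m.totient := by
  have h0 : m ≠ 0 := by
    rintro rfl
    exact (pow_pos D.factorial_pos k).ne' (zero_dvd_iff.mp h)
  have h1 : ∏ p ∈ m.primeFactors, p ≤ D.factorial := by
    refine Nat.le_of_dvd D.factorial_pos ((prod_dvd_prod_of_subset _ _ _ fun p hp => ?_).trans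
      (Nat.prod_primeFactors_dvd _))
    have hp' := Nat.prime_of_mem_primeFactors hp
    exact Nat.mem_primeFactors.mpr ⟨hp', hp'.dvd_of_dvd_pow
      ((Nat.dvd_of_mem_primeFactors hp).trans h), D.factorial_ne_zero⟩
  calc m ≤ m * ∏ p ∈ m.primeFactors, (p - 1) := Nat.le_mul_of_pos_right _ (prod_pos fun p hp => by
        have := (Nat.prime_of_mem_primeFactors hp).two_le
        omega)
    _ = _ := (Nat.totient_mul_prod_primeFactors m).symm
    _ ≤ _ := by rw [mul_comm]; exact Nat.mul_le_mul_right _ h1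

/-- the product of the first levels -/
noncomputable def bigP (f g h : ℚ[X]) (N : ℕ) : ℚ[X] := h * ∏ j ∈ range (N + 1), itP f g j

lemma bigP_ne_zero {h : ℚ[X]} (hf : f.natDegree ≠ 0) (hg : g ≠ 0) (hh : h ≠ 0) (N : ℕ) :
    bigP f g h N ≠ 0 := mul_ne_zero hh (prod_ne_zero_iff.mpr fun j _ => itP_ne_zero hf hg j)

omit [DecidableEq L] in
lemma splits_bigP_iff {h : ℚ[X]} (hf : f.natDegree ≠ 0) (hg : g ≠ 0) (hh : h ≠ 0) (N : ℕ) :
    ((bigP f g h N).map (algebraMap ℚ L)).Splits ↔ (h.map (algebraMap ℚ L)).Splits ∧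
      ∀ j ≤ N, ((itP f g j).map (algebraMap ℚ L)).Splits := by
  rw [bigP, Polynomial.map_mul, splits_mul (Polynomial.map_ne_zero hh) (Polynomial.map_ne_zero
    (prod_ne_zero_iff.mpr fun j _ => itP_ne_zero hf hg j)), Polynomial.map_prod,
    splits_prod_iff fun j _ => Polynomial.map_ne_zero (itP_ne_zero hf hg j)]
  simp only [mem_range, Nat.lt_succ_iff]

omit [DecidableEq L] in
lemma orderOf_le {h : ℚ[X]} (hf : f.natDegree ≠ 0) (hg : g ≠ 0) (hh : h ≠ 0) {N D : ℕ}
    [IsSplittingField ℚ L (bigP f g h N)] (h1 : f.natDegree ≤ D) (h2 : g.natDegree ≤ D)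
    (h3 : h.natDegree ≤ D) (σ : L ≃ₐ[ℚ] L) : orderOf σ ≤ D.factorial * (orderOf σ).totient := by
  classical
  refine le_factorial_mul_totient (k := N + 1) (orderOf_dvd_of_pow_eq_one ?_)
  have key : ∀ j, ∀ y ∈ rts (itP f g j) L, σ ^ D.factorial ^ (j + 1) • y = y := by
    intro j
    induction j with
    | zero =>
      intro y hy
      rw [zero_add, pow_one]
      exact pow_factorial_smul σ _ (fun z hz => smul_mem_rts hg σ hz)
        ((card_rts_le _).trans h2) hy
    | succ j ih =>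
      intro y hy
      rw [pow_succ, pow_mul]
      refine pow_factorial_smul _ ((rts (itP f g (j + 1)) L).filter fun z => ev f L z = ev f L y)
        (fun z hz => ?_) ((card_fib_le hf _ _).trans h1) (mem_filter.mpr ⟨hy, rfl⟩)
      obtain ⟨e1, e2⟩ := mem_filter.mp hz
      refine mem_filter.mpr ⟨smul_mem_rts (itP_ne_zero hf hg _) _ e1, ?_⟩
      rw [smul_ev, e2, ih]
      rwa [mem_rts (itP_ne_zero hf hg _), ← aeval_itP_succ, ← mem_rts (itP_ne_zero hf hg _)]
  have key2 : ∀ (j : ℕ) (y : L), j ≤ N → σ ^ D.factorial ^ (j + 1) • y = y →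
      σ ^ D.factorial ^ (N + 1) • y = y := by
    intro j y hj e
    obtain ⟨c, hc⟩ := pow_dvd_pow D.factorial (show j + 1 ≤ N + 1 by omega)
    rw [hc, pow_mul]
    exact MulAction.mem_stabilizer_iff.mp (pow_mem (MulAction.mem_stabilizer_iff.mpr e) c)
  apply AlgEquiv.coe_toAlgHom_injective
  refine AlgHom.ext_of_adjoin_eq_top (IsSplittingField.adjoin_rootSet L (bigP f g h N))
    fun y hy => ?_
  change σ ^ D.factorial ^ (N + 1) • y = y
  rw [mem_rootSet_of_ne (bigP_ne_zero hf hg hh N), bigP, map_mul, map_prod, mul_eq_zero,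
    prod_eq_zero_iff] at hy
  rcases hy with hy | ⟨j, hj, hy⟩
  · refine key2 0 y (Nat.zero_le _) ?_
    rw [zero_add, pow_one]
    exact pow_factorial_smul σ _ (fun z hz => smul_mem_rts hh σ hz)
      ((card_rts_le _).trans h3) ((mem_rts hh).mpr hy)
  · exact key2 j y (Nat.lt_succ_iff.mp (mem_range.mp hj))
      (key j y ((mem_rts (itP_ne_zero hf hg _)).mpr hy))

end Pool.Agent.Lib.MP_41de88_nt
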