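import Pool.Agent.Lib.MP_41de88_nt.WildInsep

set_option autoImplicit false

open Polynomial WithZero Finset

namespace Pool.Agent.Lib.MP_41de88_nt

open helper22.Val

variable {L : Type*} [Field L] {v : Valuation L ℤᵐ⁰} {q : ℕ} {F D : L[X]}

lemma exists_reps {J L : Type*} [Group J] [Finite J] [MulAction J L] (s : ℕ) (W : Set L)
    (hfin : W.Finite) (hW : ∀ (σ : J), ∀ y ∈ W, σ • y ∈ W)
    (hs : ∀ y ∈ W, s ≤ (MulAction.stabilizer J y).index) :
    ∃ R : Finset L, (∀ r ∈ R, r ∈ W) ∧ R.card * s ≤ W.ncard ∧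
      ∀ y ∈ W, ∃ r ∈ R, ∃ τ : J, y = τ • r := by
  classical
  induction hn : W.ncard using Nat.strong_induction_on generalizing W with
  | _ n ih =>
  rcases W.eq_empty_or_nonempty with rfl | ⟨y, hy⟩
  · exact ⟨∅, by simp, by simp, by simp⟩
  have h1 : MulAction.orbit J y ⊆ W := by
    rintro _ ⟨σ, rfl⟩
    exact hW σ y hy
  have h2 := Set.ncard_sdiff_add_ncard_of_subset h1 hfin
  have h3 : 0 < (MulAction.orbit J y).ncard :=
    (Set.ncard_pos (hfin.subset h1)).mpr ⟨y, MulAction.mem_orbit_self y⟩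
  obtain ⟨R, h4, h5, h6⟩ := ih _ (by omega) (W \ MulAction.orbit J y) (hfin.subset Set.sdiff_subset)
    (fun σ z hz => ⟨hW σ z hz.1, fun e => hz.2 (by
      simpa using MulAction.mapsTo_smul_orbit σ⁻¹ y e)⟩) (fun z hz => hs z hz.1) rfl
  refine ⟨insert y R, fun r hr => ?_, ?_, fun z hz => ?_⟩
  · rcases mem_insert.mp hr with rfl | hr
    · exact hy
    · exact (h4 r hr).1
  · have h7 := hs y hy
    rw [MulAction.index_stabilizer] at h7
    have h8 := Nat.mul_le_mul_right s (card_insert_le y R)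
    rw [add_mul] at h8
    omega
  · by_cases e : z ∈ MulAction.orbit J y
    · obtain ⟨τ, rfl⟩ := e
      exact ⟨y, mem_insert_self _ _, τ, rfl⟩
    · obtain ⟨r, hr, e'⟩ := h6 z ⟨hz, e⟩
      exact ⟨r, mem_insert_of_mem hr, e'⟩

lemma exists_lift (hd : F.natDegree ≠ 0) {N : ℕ}
    (hsp : ∀ n < N, ∀ x, D.eval (Fi F n x) = 0 → (F - C x).Splits) (k n : ℕ) (hn : n + k ≤ N)
    {x : L} (hx : D.eval (Fi F n x) = 0) : ∃ y, Fi F k y = x := by
  induction k generalizing n x with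
  | zero => exact ⟨x, rfl⟩
  | succ k ih =>
    obtain ⟨z, hz⟩ := (hsp n (by omega) x hx).exists_eval_eq_zero (by
      refine (natDegree_pos_iff_degree_pos.mp ?_).ne'
      rw [natDegree_sub_C]; omega)
    rw [eval_sub, eval_C, sub_eq_zero] at hz
    obtain ⟨y, hy⟩ := ih (n + 1) (by omega) (x := z) (by rw [Fi_succ, hz, hx])
    exact ⟨y, by rw [Fi_succ', hy, hz]⟩

variable {J : Type*} [Group J] [Fintype J] [MulSemiringAction J L] {m C1 : ℕ} {π : L}
  (h : WI v J q F D m C1) (hπ : od v π = 1)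
include h hπ

lemma WI.block {n : ℕ} (hn : C1 ≤ n) {y : L}
    (hy : D.eval (Fi F (n + D.natDegree * q ^ C1) y) = 0) :
    od v q < 2 * q ^ (D.natDegree * q ^ C1) * (Din v π (MulAction.stabilizer J
      (Fi F (D.natDegree * q ^ C1) y)) - Din v π (MulAction.stabilizer J y)) := by
  set k := D.natDegree * q ^ C1 with hk
  obtain ⟨j, rfl⟩ : ∃ j, n = C1 + j := ⟨n - C1, by omega⟩
  obtain ⟨h1, h2, -⟩ := h.disp hy
  have h3q : (3 : ℤ) ≤ q := by exact_mod_cast h.three
  have hy1 := h.int hy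
  by_contra hcon
  obtain ⟨b, hb⟩ := h.inert.ax hπ (h.stab_le k y) (by simpa using h.lt_index 0 (by omega) hy)
    (sub_ne_zero.mpr h1) (fun σ hσ => by rw [smul_sub, h.smul_Fi, hσ]) fun τ hτ hne => by
      have h4 : τ • y ≠ y := fun e => hne (by rw [smul_sub, h.smul_Fi, e])
      have h5 : v (τ • y) ≤ 1 := (h.inert.val τ y).trans_le hy1
      have h6 := h.wp.close_conj h.c1 k h5 hy1 h4 (by rw [← h.smul_Fi]; exact hτ)
      have h7 := disp_sub_le h.wp.int h5 hy1 m
      rw [← h.smul_Fi, ← smul_sub] at h7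
      have h8 := od_le_of_le (sub_ne_zero.mpr hne) h7
      have h9 := h.disp_small' k (by omega) hy
      have h10 : (0 : ℤ) < q ^ k := by positivity
      refine lt_of_mul_lt_mul_left (a := (2 * q ^ k : ℤ)) ?_ (by positivity)
      have h11 := mul_le_mul_of_nonneg_left h8 h10.le
      have h12 := mul_pos h10 h2
      nlinarith
  obtain ⟨a, -, h4, -, h5⟩ := h.exists_a j (y := Fi F k y) (by rwa [← Fi_add])
  rw [h.disp_pow (n := C1 + j) (by omega) k hy, hb, mul_left_comm, mul_comm,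
    mul_left_inj' (by exact_mod_cast Nat.card_pos.ne')] at h4
  have h6 : 0 < b := (mul_pos_iff_of_pos_left (by exact_mod_cast Nat.card_pos)).mp (hb ▸ h2)
  have h7 : (a : ℤ) < q ^ k := by exact_mod_cast h5.trans (Nat.lt_pow_self h.wp.prime.one_lt)
  have h10 : (0 : ℤ) < q ^ k := by positivity
  nlinarith

lemma WI.blocks (T : ℕ) {y : L}
    (hy : D.eval (Fi F (C1 + T * (D.natDegree * q ^ C1)) y) = 0) :
    T * od v q ≤ 2 * q ^ (D.natDegree * q ^ C1)
      * (Din v π (⊤ : Subgroup J) - Din v π (MulAction.stabilizer J y)) := by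
  induction T generalizing y with
  | zero =>
    rw [Nat.cast_zero, zero_mul]
    exact mul_nonneg (by positivity) (sub_nonneg.mpr (h.inert.Din_mono hπ le_top))
  | succ T ih =>
    rw [add_mul, one_mul, ← add_assoc] at hy
    have h1 := h.block hπ (Nat.le_add_right _ _) hy
    have h2 := ih (y := Fi F (D.natDegree * q ^ C1) y) (by rwa [← Fi_add])
    push_cast
    linarith

lemma WI.step_le {y : L} (hy : v y ≤ 1) (hs : (F - C (F.eval y)).Splits)
    (h0 : F.derivative.eval y ≠ 0) : Din v π (MulAction.stabilizer J (F.eval y))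
      ≤ Din v π (MulAction.stabilizer J y) + od v (F.derivative.eval y) := by
  classical
  refine (h.inert.Din_sub_le hπ _ hy (h.stab_le 1 y)).trans (add_le_add_right ?_ _)
  have hm : (F - C (F.eval y)).Monic := h.wp.monic.sub_of_left (degree_C_le.trans_lt
    (natDegree_pos_iff_degree_pos.mp (h.wp.deg ▸ h.wp.prime.pos)))
  have hr : ∀ z, z ∈ (F - C (F.eval y)).roots ↔ F.eval z = F.eval y := fun z => by
    simp [hm.ne_zero, sub_eq_zero]
  have h2 := hs.eval_root_derivative hm ((hr y).mpr rfl)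
  rw [derivative_sub, derivative_C, sub_zero] at h2
  have h4 : ∀ x ∈ ((F - C (F.eval y)).roots.erase y).map (y - ·), x ≠ 0 := fun x hx e =>
    h0 (h2 ▸ Multiset.prod_eq_zero (e ▸ hx))
  obtain ⟨u, hu⟩ := Multiset.le_iff_exists_add.mp ((Multiset.le_iff_subset (Finset.nodup
    (((sgF (MulAction.stabilizer J (F.eval y))).image (· • y)).erase y))
    (t := (F - C (F.eval y)).roots.erase y)).mpr fun z hz => by
      obtain ⟨h5, h6⟩ := mem_erase.mp hz
      obtain ⟨σ, hσ, rfl⟩ := mem_image.mp h6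
      exact (Multiset.mem_erase_of_ne h5).mpr ((hr _).mpr
        ((eval_smul_of_coeff h.fixF σ y).trans (mem_sgF.mp hσ))))
  rw [h2, od_multiset_prod h4, hu, Multiset.map_add, Multiset.map_add, Multiset.sum_add,
    Multiset.map_map]
  refine le_add_of_le_of_nonneg (le_of_eq (sum_congr rfl fun z _ => od_sub_swap _ _))
    (Multiset.sum_nonneg fun x hx => ?_)
  simp only [Multiset.mem_map] at hx
  obtain ⟨_, ⟨c, hc, rfl⟩, rfl⟩ := hx
  have hc2 := (hr c).mp (Multiset.mem_of_mem_erase (hu ▸ Multiset.mem_add.mpr (Or.inr hc)))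
  exact od_nonneg (v.map_sub_le hy (h.wp.le_one_of_Fi (n := 1) (hc2 ▸ h.wp.int.eval hy :)))

omit hπ [Fintype J] in
lemma WI.exists_iter {P : L[X]} (hP : IntP v P) {y : L} (he : ∀ σ : J, P.eval (σ • π) = σ • y)
    (j : ℕ) : ∃ Q, IntP v Q ∧ (∀ σ : J, Q.eval (σ • π) = σ • Fi F j y) ∧
      Q.derivative.eval π = P.derivative.eval π * ∏ i ∈ range j, F.derivative.eval (Fi F i y) := by
  induction j with
  | zero => exact ⟨P, hP, he, by simp⟩
  | succ j ih =>
    obtain ⟨Q, h1, h2, h3⟩ := ih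
    refine ⟨F.comp Q, intP_comp h.wp.int h1, fun σ => ?_, ?_⟩
    · rw [eval_comp, h2, eval_smul_of_coeff h.fixF, Fi_succ']
    · rw [derivative_comp, eval_mul, eval_comp, h3, prod_range_succ, mul_assoc,
        show Q.eval π = Fi F j y by simpa using h2 1]

/-- the level from which the different is large -/
def lvl (a q C1 : ℕ) : ℕ := C1 + 2 * q ^ (a * q ^ C1) * (a * q ^ C1 + 1) * (a * q ^ C1)

lemma WI.chain {r : ℕ} {y : L} (hy : D.eval (Fi F (lvl D.natDegree q C1 + r) y) = 0) :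
    (∀ i < r, F.derivative.eval (Fi F i y) ≠ 0) ∧
    Din v π (MulAction.stabilizer J y) + ∑ i ∈ range r, od v (F.derivative.eval (Fi F i y))
      ≤ Din v π (MulAction.stabilizer J (Fi F r y)) + (D.natDegree * q ^ C1 : ℕ) * od v q := by
  have hy1 := h.int hy
  have hq := h.wp.od_q_pos
  have h3q : (3 : ℤ) ≤ q := by exact_mod_cast h.three
  obtain ⟨P, -, -, h1, h2⟩ := h.inert.exists_poly hπ hy1
  obtain ⟨Q, h3, h4, h5⟩ := h.exists_iter h2 h1 r
  obtain ⟨Q', h6, h7, h8⟩ := h.exists_iter h3 h4 m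
  have hz : D.eval (Fi F (lvl D.natDegree q C1) (Fi F r y)) = 0 := by rwa [← Fi_add]
  obtain ⟨a, h9, h10, h11, h12⟩ := h.exists_a _ hz
  obtain ⟨h13, h14, -⟩ := h.disp hz
  have h15 := h.disp_small (Nat.le_add_right _ _) hz
  have h16 := h.blocks hπ _ hz
  have h17 : ((a : ℤ) + 1) * od v q ≤ (D.natDegree * q ^ C1 : ℕ) * od v q :=
    mul_le_mul_of_nonneg_right (by exact_mod_cast h12) hq.le
  obtain ⟨h18, h19⟩ := h.inert.derivative_ge hπ (sub_ne_zero.mpr h13)
    (fun σ hσ => by rw [smul_sub, h.smul_Fi, hσ]) h9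
    ((Nat.le_mul_of_pos_right _ (pow_pos h.wp.prime.pos _)).trans_lt h11) h10 h.wp.prime h.wp.lt
    h.wp.q_ne (by nlinarith) (h6.sub h3) (fun σ => by rw [eval_sub, h7, h4, smul_sub]) (by
      rw [Nat.cast_mul, Nat.cast_mul, mul_assoc, Nat.cast_pow, Nat.cast_ofNat, Nat.cast_succ] at h16
      have := le_of_mul_le_mul_left h16 (by positivity)
      linarith)
  rw [derivative_sub, eval_sub, h8, ← mul_sub_one] at h18 h19
  have h20 : v (∏ i ∈ range m, F.derivative.eval (Fi F i (Fi F r y)) - 1) = 1 := by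
    rw [v.map_sub_eq_of_lt_right, map_one]
    obtain ⟨k, rfl⟩ := Nat.exists_eq_succ_of_ne_zero h.mpos.ne'
    have e : ∀ i, v (F.derivative.eval (Fi F i (Fi F r y))) < 1 := fun i =>
      (h.wp.deriv_le h.c1 (Fi_le h.wp.int (h.int hz) i)).trans_lt h.wp.lt
    rw [map_one, prod_range_succ, map_mul, map_prod]
    exact mul_lt_one_of_nonneg_of_lt_one_right (prod_le_one' fun i _ => (e i).le) zero_le (e k)
  have h21 := left_ne_zero_of_mul h18
  rw [od_mul h21 (right_ne_zero_of_mul h18), od_of_eq_one h20, add_zero, h5] at h19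
  rw [h5] at h21
  have h22 := prod_ne_zero_iff.mp (right_ne_zero_of_mul h21)
  rw [od_mul (left_ne_zero_of_mul h21) (right_ne_zero_of_mul h21), od_prod h22] at h19
  have h23 := h.inert.derivative_le hπ (MulAction.stabilizer J y) h2 hy1
    (fun σ hσ => (h1 σ).trans hσ) (left_ne_zero_of_mul h21)
  refine ⟨fun i hi => h22 i (mem_range.mpr hi), ?_⟩
  rw [Din]
  linarith

lemma WI.bad {r : ℕ}
    (hsp : ∀ n < lvl D.natDegree q C1 + r, ∀ x, D.eval (Fi F n x) = 0 → (F - C x).Splits) {y : L}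
    (hy : D.eval (Fi F (lvl D.natDegree q C1 + r) y) = 0) :
    ((range r).filter fun i => 4 * (Din v π (MulAction.stabilizer J (Fi F (i + 1) y))
      - Din v π (MulAction.stabilizer J (Fi F i y))) ≤ 3 * od v q).card
        ≤ 4 * (D.natDegree * q ^ C1) := by
  obtain ⟨h1, h2⟩ := h.chain hπ hy
  have hq := h.wp.od_q_pos
  have h3 := sum_range_sub (fun i => Din v π (MulAction.stabilizer J (Fi F i y))) r
  set d := fun i => Din v π (MulAction.stabilizer J (Fi F (i + 1) y))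
      - Din v π (MulAction.stabilizer J (Fi F i y)) with hd
  have hi1 : ∀ i, v (Fi F i y) ≤ 1 := Fi_le h.wp.int (h.int hy)
  have h4 : ∀ i ∈ range r, 0 ≤ 4 * (od v (F.derivative.eval (Fi F i y)) - d i) := fun i hi => by
    rw [mem_range] at hi
    have := h.step_le hπ (hi1 i) (hsp (lvl D.natDegree q C1 + r - (i + 1)) (by omega) _ (by
      rw [← Fi_succ', ← Fi_add, Nat.sub_add_cancel (by omega), hy])) (h1 i hi)
    rw [← Fi_succ'] at this
    simp only [hd]
    linarith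
  have h5 := (card_nsmul_le_sum ((range r).filter fun i => 4 * d i ≤ 3 * od v q)
    (fun i => 4 * (od v (F.derivative.eval (Fi F i y)) - d i)) (od v q) fun i hi => by
      obtain ⟨e1, e2⟩ := mem_filter.mp hi
      have := od_le_of_le (h1 i (mem_range.mp e1)) (h.wp.deriv_le h.c1 (hi1 i))
      linarith).trans (sum_le_sum_of_subset_of_nonneg (filter_subset _ _) fun i hi _ => h4 i hi)
  rw [← mul_sum, sum_sub_distrib, h3, nsmul_eq_mul] at h5
  have h6 : (((range r).filter fun i => 4 * d i ≤ 3 * od v q).card : ℤ) * od v q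
      ≤ (4 * (D.natDegree * q ^ C1) : ℕ) * od v q := by
    rw [Nat.cast_mul 4, Nat.cast_ofNat]
    have : Fi F 0 y = y := rfl
    rw [this] at h5
    linarith
  exact_mod_cast le_of_mul_le_mul_right h6 hq

theorem WI.exists_fix (hs : F.derivative.Splits) {N C5 : ℕ}
    (hsp : ∀ n < N, ∀ x, D.eval (Fi F n x) = 0 → (F - C x).Splits)
    (h5 : C1 + 2 ≤ N → ∀ y y', D.eval (Fi F (C1 + 2) y) = 0 → D.eval (Fi F (C1 + 2) y') = 0 →
      y ≠ y' → od v (y - y') ≤ C5 * od v q) :
    ∃ B : Finset ℕ, B.card ≤ lvl D.natDegree q C1 + C5 + 3 + 4 * (D.natDegree * q ^ C1) ^ 2 ∧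
      ∀ n < N, n ∉ B → ∀ y, D.eval (Fi F (n + 1) y) = 0 → ∃ σ : J,
        (∀ x, D.eval (Fi F n x) = 0 → σ • x = x) ∧ ∃ y, D.eval (Fi F (n + 1) y) = 0 ∧ σ • y ≠ y := by
  classical
  have hl : C1 ≤ lvl D.natDegree q C1 := Nat.le_add_right _ _
  rcases le_or_gt N (lvl D.natDegree q C1 + C5 + 3) with hN | hN
  · exact ⟨range N, by rw [card_range]; omega, fun n hn h => absurd (mem_range.mpr hn) h⟩
  obtain ⟨r, rfl⟩ : ∃ r, N = lvl D.natDegree q C1 + r := ⟨N - lvl D.natDegree q C1, by omega⟩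
  have hd0 : F.natDegree ≠ 0 := by rw [h.wp.deg]; exact h.wp.prime.ne_zero
  obtain ⟨e1, e2⟩ := tree_finite (F := F) hd0 h.D0 (lvl D.natDegree q C1 + r)
  obtain ⟨R, h1, h2, h3⟩ := exists_reps (J := J) (q ^ (lvl D.natDegree q C1 + r - C1)) _ e1
    (fun σ y hy => tree_smul h.fixF h.fixD σ hy) fun y hy => (h.lt_index _ (by omega) hy).le
  have h4 : R.card ≤ D.natDegree * q ^ C1 := by
    refine le_of_mul_le_mul_right (h2.trans (e2.trans (le_of_eq ?_))) (pow_pos h.wp.prime.pos _)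
    rw [mul_assoc, ← pow_add, h.wp.deg, Nat.add_sub_cancel' (by omega)]
  refine ⟨range (lvl D.natDegree q C1 + C5 + 3) ∪ R.biUnion fun y => ((range r).filter fun i =>
    4 * (Din v π (MulAction.stabilizer J (Fi F (i + 1) y))
      - Din v π (MulAction.stabilizer J (Fi F i y))) ≤ 3 * od v q).image
        fun i => lvl D.natDegree q C1 + r - (i + 1), (card_union_le _ _).trans ?_,
          fun n hn hB y hy => ?_⟩
  · rw [card_range]
    refine Nat.add_le_add_left ((card_biUnion_le_card_mul _ _ _ fun y hy =>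
      card_image_le.trans (h.bad hπ hsp (h1 y hy))).trans ?_) _
    rw [sq, mul_left_comm]
    exact Nat.mul_le_mul_left _ (Nat.mul_le_mul_right _ h4)
  rw [mem_union, not_or, mem_range, not_lt] at hB
  refine h.inert.exists_fix hπ {y | D.eval (Fi F (n + 1) y) = 0} {y | D.eval (Fi F n y) = 0} ?_
    fun x hx => ?_
  · by_contra hcon
    push Not at hcon
    have := h.lt_index 0 (n := n + 1) (by omega) hy
    rw [(Subgroup.eq_top_iff' (MulAction.stabilizer J y)).mpr fun σ => hcon σ y hy,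
      Subgroup.index_top] at this
    simp at this
  obtain ⟨i, hi⟩ : ∃ i, lvl D.natDegree q C1 + r = n + (i + 1) :=
    ⟨lvl D.natDegree q C1 + r - n - 1, by omega⟩
  obtain ⟨z, rfl⟩ := exists_lift hd0 hsp (i + 1) n hi.ge hx
  obtain ⟨z, hz, τ, rfl⟩ := h3 z (by rw [hi]; rwa [Set.mem_ofPred_eq, ← Fi_add] at hx)
  have hz1 : D.eval (Fi F (n + (i + 1)) z) = 0 := hi ▸ h1 z hz
  have hz2 : D.eval (Fi F n (Fi F (i + 1) z)) = 0 := by rwa [← Fi_add]
  refine ⟨τ, Fi F (i + 1) z, Fi F i z, ?_, (h.smul_Fi _ _ _).symm, h.int hz2,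
    Fi_succ' (F := F) i z ▸ h.stab_le 1 _, fun σ hσ => ?_⟩
  · rwa [Set.mem_ofPred_eq, ← Fi_add, add_right_comm]
  have h6 : 3 * od v q < 4 * (Din v π (MulAction.stabilizer J (Fi F (i + 1) z))
      - Din v π (MulAction.stabilizer J (Fi F i z))) := not_le.mp fun e => hB.2 (mem_biUnion.mpr
    ⟨z, hz, mem_image.mpr ⟨i, mem_filter.mpr ⟨mem_range.mpr (by omega), e⟩, by omega⟩⟩)
  obtain ⟨j, rfl⟩ : ∃ j, n = C1 + 2 + j := ⟨n - (C1 + 2), by omega⟩
  have hq := h.wp.od_q_pos
  rcases h.dist hs hsp (h5 (by omega)) j (by omega) (tree_smul h.fixF h.fixD σ hz2) hz2 hσ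
    with h7 | h7
  · linarith
  · have : (C5 : ℤ) ≤ j := by exact_mod_cast (by omega : C5 ≤ j)
    nlinarith

end Pool.Agent.Lib.MP_41de88_nt
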