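import Pool.Agent.Lib.MP_41de88_nt.Link

set_option autoImplicit false

open Polynomial NumberField IsDedekindDomain WithZero

namespace Pool.Agent.Lib.MP_41de88_nt

open helper22.Val

variable {f g : ℚ[X]} {q : ℕ} {b : ℚ}

/-- potentially good reduction to `X^q + a X + c` with middle coefficients divisible by `q` -/
def WildAt (f : ℚ[X]) (q : ℕ) (b : ℚ) : Prop :=
  q.Prime ∧ f.natDegree = q ∧ ∀ i < q, (ctr f b).coeff i ≠ 0 →
    ((i : ℤ) - 1) * padicValRat q f.leadingCoeff + (q - 1) * (if 2 ≤ i then 1 else 0)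
      ≤ (q - 1) * padicValRat q ((ctr f b).coeff i)

lemma WildAt.wp (h : WildAt f q b) {L : Type*} [Field L] [NumberField L] {u : L}
    (hu : aeval u (scal f) = 0) {w : HeightOneSpectrum (𝓞 L)} (hw : (q : 𝓞 L) ∈ w.asIdeal) :
    WP (w.valuation L) q (cj f b u) := by
  obtain ⟨hq, hd, h⟩ := h
  have hd2 : 2 ≤ f.natDegree := hd ▸ hq.two_le
  refine ⟨hq, (val_natCast_lt_iff w q).mpr hw, val_ne_zero (Nat.cast_ne_zero.mpr hq.ne_zero),
    (natDegree_cj (ne_zero_of_scal hd2 hu)).trans hd, monic_cj hd2 hu, ?_, ?_, fun i h1 h2 => ?_⟩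
  · simpa using val_coeff_cj_le hd2 hu hq hw 0 fun h0 => by
      simpa [hd] using h 0 hq.pos h0
  · simpa using val_coeff_cj_le hd2 hu hq hw 0 fun h0 => by
      simpa [hd] using h 1 hq.one_lt h0
  · simpa using val_coeff_cj_le hd2 hu hq hw 1 fun h0 => by
      simpa [hd, h1] using h i h2 h0

lemma val_coeff_one_cj {L : Type*} [Field L] [NumberField L] {u : L} (hu : u ≠ 0) (hq : q.Prime)
    {w : HeightOneSpectrum (𝓞 L)} (hw : (q : 𝓞 L) ∈ w.asIdeal) (h1 : (ctr f b).coeff 1 ≠ 0)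
    (h2 : padicValRat q ((ctr f b).coeff 1) = 0) : w.valuation L ((cj f b u).coeff 1) = 1 := by
  rw [coeff_cj, pow_one, mul_left_comm, inv_mul_cancel₀ hu, mul_one]
  exact (val_rat_eq_one_iff hq hw h1).mpr h2

section
variable (h : WildAt f q b) (h1 : (ctr f b).coeff 1 ≠ 0)
  (h2 : padicValRat q ((ctr f b).coeff 1) = 0)
include h h1 h2

lemma sep_iterate {L : Type*} [Field L] [NumberField L]
    (hs : ((scal f).map (algebraMap ℚ L)).Splits) {c : L} (hc : aeval c f.derivative = 0) :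
    (Function.Injective fun n => (ev f L)^[n] c) ∧
      ∀ n, aeval ((ev f L)^[n + 1] c) f.derivative ≠ 0 := by
  have hd2 : 2 ≤ f.natDegree := h.2.1 ▸ h.1.two_le
  obtain ⟨u, hu⟩ := exists_scal hd2 hs
  have hu0 := ne_zero_of_scal hd2 hu
  obtain ⟨w, hw⟩ := exists_over L h.1
  have hW := h.wp hu hw
  have hW1 := val_coeff_one_cj hu0 h.1 hw h1 h2
  obtain ⟨z, rfl⟩ := exists_affine hu0 b c
  rw [← eval_derivative_cj hu0] at hc
  have hz := (hW.crit hW1 hc).1
  have key : ∀ m n, w.valuation L ((fun x => (cj f b u).eval x)^[m] z)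
      = w.valuation L ((fun x => (cj f b u).eval x)^[n] z) → m = n := by
    intro m n e
    rw [hW.iterate_gt hz, hW.iterate_gt hz] at e
    exact Nat.pow_right_injective h.1.two_le (pow_right_injective₀ (zero_lt_one.trans hz) hz.ne' e)
  refine ⟨fun m n e => key m n ?_, fun n e => ?_⟩
  · simp only [← iterate_cj hu0] at e
    rw [affine_inj hu0 e]
  · rw [← iterate_cj hu0, ← eval_derivative_cj hu0] at e
    exact n.succ_ne_zero (key _ 0 (hW.crit_eq hW1 hc e))

lemma sep_critOK (M : Type) [Field M] [NumberField M]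
    (hM : (f.derivative.map (algebraMap ℚ M)).Splits) : CritOK f M := by
  have hd2 : 2 ≤ f.natDegree := h.2.1 ▸ h.1.two_le
  have hf' := derivative_ne_zero' (f := f) (by omega)
  obtain ⟨L, _, _, _, hs⟩ := exists_galois hf' (scal_ne_zero hd2)
  refine critOK_of_critOK (M := L) hf' hs.1 hM ⟨?_, fun c hc _ => ?_⟩
  · obtain ⟨c, hc⟩ := hs.1.exists_eval_eq_zero (by
      rw [degree_map]
      refine (natDegree_pos_iff_degree_pos.mp ?_).ne'
      rw [natDegree_derivative]; omega)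
    rw [eval_map_algebraMap] at hc
    exact ⟨c, hc, Set.infinite_range_of_injective (sep_iterate h h1 h2 hs.2 hc).1⟩
  · obtain ⟨u, hu⟩ := exists_scal hd2 hs.2
    have hu0 := ne_zero_of_scal hd2 hu
    obtain ⟨w, hw⟩ := exists_over L h.1
    have hW := h.wp hu hw
    have hW1 := val_coeff_one_cj hu0 h.1 hw h1 h2
    obtain ⟨z, rfl⟩ := exists_affine hu0 b c
    rw [← eval_derivative_cj hu0] at hc
    refine ⟨fun e => hW.crit_simple hW1 hc (by rw [eval_derivative_two_cj hu0, e, mul_zero]),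
      fun c' hc' e => ?_⟩
    obtain ⟨z', rfl⟩ := exists_affine hu0 b c'
    rw [← eval_derivative_cj hu0] at hc'
    rw [hW.crit_value_inj hW1 hc hc' (affine_inj hu0 ((eval_cj hu0 _).trans
      (e.trans (eval_cj hu0 _).symm)))]

lemma sep_mart (hg : g ∣ f.derivative) (L : Type) [Field L] [NumberField L] [IsGalois ℚ L]
    (hs : ((scal f).map (algebraMap ℚ L)).Splits) (n : ℕ) : MartLevel f g L n := by
  have hd2 : 2 ≤ f.natDegree := h.2.1 ▸ h.1.two_le
  have hf' := derivative_ne_zero' (f := f) (by omega)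
  have hg0 : g ≠ 0 := ne_zero_of_dvd_ne_zero hf' hg
  obtain ⟨u, hu⟩ := exists_scal hd2 hs
  have hu0 := ne_zero_of_scal hd2 hu
  obtain ⟨w, hw⟩ := exists_over L h.1
  have hW := h.wp hu hw
  have hW1 := val_coeff_one_cj hu0 h.1 hw h1 h2
  obtain ⟨k, hk1, hk2, hk3⟩ := log_val_inJ hd2 hu h.1 hw
  have key : ∀ m x, u * x + b ∈ rts (itP f g m) L →
      (cj f b u).derivative.eval ((fun x => (cj f b u).eval x)^[m] x) = 0 := by
    intro m x hx
    rw [mem_rts (itP_ne_zero (by omega) hg0 _), aeval_itP] at hx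
    rw [eval_derivative_cj hu0, iterate_cj hu0]
    exact aeval_eq_zero_of_dvd_aeval_eq_zero hg hx
  intro y hy y' _ e
  obtain ⟨z, rfl⟩ := exists_affine hu0 b y
  obtain ⟨z', rfl⟩ := exists_affine hu0 b y'
  obtain ⟨σ, h3, h4⟩ := wildSep_mart inert_inJ hW hW1 (fun σ i => smul_coeff_cj σ.2.2 i)
    (Nat.not_dvd_of_pos_of_lt hk1 (h.2.1 ▸ hk2)) hk3 (key _ z hy) (y' := z')
    (affine_inj hu0 ((eval_cj hu0 _).trans (e.symm.trans (eval_cj hu0 _).symm)))
  refine ⟨σ, fun x hx => ?_, by rw [smul_affine σ.2.2]; exact congrArg (u * · + b) h4⟩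
  obtain ⟨x, rfl⟩ := exists_affine hu0 b x
  rw [smul_affine σ.2.2]
  exact congrArg (u * · + b) (h3 x (key _ x hx))

lemma sep_irreducible (hg : g ∣ f.derivative) (hirr : Irreducible g) (n : ℕ) :
    Irreducible (itP f g n) := by
  have hd2 : 2 ≤ f.natDegree := h.2.1 ▸ h.1.two_le
  induction n with
  | zero => exact hirr
  | succ n ih =>
    have hP := itP_ne_zero (f := f) (by omega) hirr.ne_zero (n + 1)
    obtain ⟨L, _, _, _, hs⟩ := exists_galois hP (scal_ne_zero hd2)
    have hm := sep_mart h h1 h2 hg L hs.2 n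
    rw [MartLevel, itP_succ] at hm
    rw [itP_succ]
    refine irreducible_comp (L := L) (by omega) ih (itP_succ n ▸ hs.1) (fun c hc e => ?_)
      fun y hy y' hy' e => ?_
    · rw [← itP_succ, aeval_itP] at e
      exact (sep_iterate h h1 h2 hs.2 hc).2 n (aeval_eq_zero_of_dvd_aeval_eq_zero hg e)
    · obtain ⟨σ, -, hσ⟩ := hm y hy y' hy' e
      exact ⟨σ, hσ⟩

theorem small_wildSep (hq : q ≠ 2) {α : ℚ}
    (hα : ∀ n, aeval ((fun x => f.eval x)^[n] α) f.derivative ≠ 0)
    (K : Type) [Field K] [NumberField K] : Small (critPrimes f α K) := by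
  have hd2 : 2 ≤ f.natDegree := h.2.1 ▸ h.1.two_le
  refine small_critPrimes (by omega) hα fun M _ _ c t hc ht _ => ?_
  have hi : IsIntegral ℚ t := Algebra.IsIntegral.isIntegral t
  have hct : t = c := by
    refine ht.resolve_right ?_
    rintro ⟨⟨m, hm, e⟩, -⟩
    obtain ⟨L, _, _, φ, hs⟩ := exists_ext M (scal f)
    have := (sep_iterate h h1 h2 hs (c := φ c)
      (by rw [← map_aeval_ringHom, hc, map_zero])).1 (a₁ := m) (a₂ := 0)
      (by simp only [← map_ev_iterate]; rw [e]; rfl)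
    omega
  subst hct
  have hg := minpoly.dvd ℚ t hc
  refine small_orbMod α fun ε hε => core_rootMod ?_ (h.2.1 ▸ h.1.odd_of_ne_two hq)
    (sep_irreducible h h1 h2 hg (minpoly.irreducible hi)) (sep_critOK h h1 h2) (scal f)
    (scal_ne_zero hd2) 0 (fun N L _ _ _ hs _ => ⟨∅, le_rfl, fun n _ _ => sep_mart h h1 h2 hg L hs n⟩)
    hε
  have := h.2.1
  omega

end

end Pool.Agent.Lib.MP_41de88_nt
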