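import Pool.Agent.Lib.MP_41de88_nt.Aff
import Pool.Agent.Lib.MP_41de88_nt.WildInsep2
import Pool.Agent.Lib.MP_41de88_nt.WildSepMain

set_option autoImplicit false

open Polynomial NumberField IsDedekindDomain WithZero

namespace Pool.Agent.Lib.MP_41de88_nt

open helper22.Val

variable {f g : ℚ[X]} {q : ℕ} {b : ℚ}

section
variable {L : Type*} [Field L] {v : Valuation L ℤᵐ⁰} {F : L[X]}

lemma WP.crit_le_one (h : WP v q F) (h1 : v (F.coeff 1) ≤ v q) {z : L}
    (hz : F.derivative.eval z = 0) (hq : 3 ≤ q) : v z ≤ 1 := by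
  by_contra hcon
  rw [not_le] at hcon
  have h0 := zero_lt_iff.mpr h.ne
  have h2 : v (F.coeff 1 + ∑ i ∈ Finset.Ico 2 q, F.coeff i * i * z ^ (i - 1))
      < v (q * z ^ (q - 1)) := by
    rw [map_mul, map_pow]
    refine v.map_add_lt (h1.trans_lt (lt_mul_of_one_lt_right h0 (one_lt_pow₀ hcon (by omega))))
      (v.map_sum_lt (mul_ne_zero h.ne (pow_ne_zero _ (zero_lt_one.trans hcon).ne')) fun i hi => ?_)
    rw [Finset.mem_Ico] at hi
    rw [map_mul, map_mul, map_pow]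
    exact mul_lt_mul_of_le_of_lt_of_nonneg_of_pos
      ((mul_le_of_le_one_right' (val_nat_le _)).trans (h.ci i hi.1 hi.2))
      (pow_lt_pow_right₀ hcon (by omega)) zero_le h0
  rw [h.deriv_eq, add_assoc, add_eq_zero_iff_eq_neg] at hz
  rw [hz, Valuation.map_neg] at h2
  exact lt_irrefl _ h2

lemma WP.lt_of_Fi (h : WP v q F) (h1 : v (F.coeff 1) ≤ v q) {x y : L} (hx : v x ≤ 1)
    (hy : v y ≤ 1) (n : ℕ) (e : v (Fi F n x - Fi F n y) < 1) : v (x - y) < 1 := by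
  induction n with
  | zero => exact e
  | succ n ih =>
    refine ih ?_
    have hx' := Fi_le h.int hx n
    have hy' := Fi_le h.int hy n
    have h2 := v.map_sub_le hx' hy'
    rw [Fi_succ', Fi_succ'] at e
    have h3 := (h.sub_le le_rfl hx' hy').trans_lt (by
      rw [one_pow, mul_one]; exact mul_lt_one_of_nonneg_of_lt_one_left zero_le h.lt h2)
    rw [v.map_sub_swap] at h3
    have h4 := val_lt_of_sub_lt e h3
    have h5 : v (F.coeff 1 * (Fi F n x - Fi F n y)) < 1 := by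
      rw [map_mul]; exact mul_lt_one_of_nonneg_of_lt_one_left zero_le (h1.trans_lt h.lt) h2
    have h6 := v.map_sub_lt h4 h5
    rw [add_sub_cancel_right, map_pow] at h6
    exact (pow_lt_one_iff_of_nonneg zero_le h.prime.ne_zero).mp h6

end

lemma WP.exists_period {L : Type*} [Field L] [NumberField L] {w : HeightOneSpectrum (𝓞 L)}
    {F : L[X]} (h : WP (w.valuation L) q F) (h1 : w.valuation L (F.coeff 1) ≤ w.valuation L q)
    {t : L} (ht : w.valuation L t ≤ 1) :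
    ∃ m, 0 < m ∧ ∀ k, w.valuation L (Fi F (m * k) t - t) < 1 := by
  obtain ⟨i, j, hij, e⟩ := exists_close w (fun n => Fi F n t) (Fi_le h.int ht)
  obtain ⟨m, rfl⟩ := Nat.exists_eq_add_of_le hij.le
  rw [Fi_add] at e
  have h2 := h.lt_of_Fi h1 (Fi_le h.int ht m) ht i e
  refine ⟨m, by omega, fun k => ?_⟩
  induction k with
  | zero => simp [Fi]
  | succ k ih =>
    rw [Nat.mul_succ, Fi_add, ← sub_add_sub_cancel _ (Fi F (m * k) t)]
    exact Valuation.map_add_lt _ ((Fi_sub_le h.int (Fi_le h.int ht m) ht _).trans_lt h2) ih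

section
variable (h : WildAt f q b) (hq : q ≠ 2)
  (h1 : (ctr f b).coeff 1 ≠ 0 → 1 ≤ padicValRat q ((ctr f b).coeff 1))
include h

lemma WildAt.three (hq : q ≠ 2) : 3 ≤ q := by have := h.1.two_le; omega

include h1

lemma WildAt.c1 {L : Type*} [Field L] [NumberField L] {u : L}
    (hu : aeval u (scal f) = 0) {w : HeightOneSpectrum (𝓞 L)} (hw : (q : 𝓞 L) ∈ w.asIdeal) :
    w.valuation L ((cj f b u).coeff 1) ≤ w.valuation L q := by
  have hd2 : 2 ≤ f.natDegree := h.2.1 ▸ h.1.two_le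
  simpa using val_coeff_cj_le hd2 hu h.1 hw 1 fun h0 => by
    simpa using mul_le_mul_of_nonneg_left (h1 h0) (show (0 : ℤ) ≤ f.natDegree - 1 by omega)

include hq

lemma WildAt.tgt_int (hT : Tgt f g) {L : Type} [Field L] [NumberField L]
    (hs : (f.derivative.map (algebraMap ℚ L)).Splits) {u : L} (hu : aeval u (scal f) = 0)
    {w : HeightOneSpectrum (𝓞 L)} (hw : (q : 𝓞 L) ∈ w.asIdeal) {t : L}
    (ht : aeval (u * t + b) g = 0) : w.valuation L t ≤ 1 := by
  have hu0 := ne_zero_of_scal (h.2.1 ▸ h.1.two_le) hu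
  obtain ⟨-, c, k, i, h2, h3⟩ := hT L hs _ ht
  obtain ⟨z, rfl⟩ := exists_affine hu0 b c
  rw [← eval_derivative_cj hu0] at h2
  rw [← iterate_cj hu0, ← iterate_cj hu0] at h3
  have hW := h.wp hu hw
  exact hW.le_one_of_Fi (n := k) ((congrArg _ (affine_inj hu0 h3)).trans_le
    (Fi_le hW.int (hW.crit_le_one (h.c1 h1 hu hw) h2 (h.three hq)) i))

lemma exists_WI (hg : g ≠ 0) (hT : Tgt f g) : ∃ m C1 : ℕ,
    ∀ (L : Type) [Field L] [NumberField L] [IsGalois ℚ L],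
      ((f.derivative * (scal f * g)).map (algebraMap ℚ L)).Splits →
      ∃ (u : L) (w : HeightOneSpectrum (𝓞 L)), aeval u (scal f) = 0 ∧ (q : 𝓞 L) ∈ w.asIdeal ∧
        WI (w.valuation L) (inJ w u) q (cj f b u) (aff g b u) m C1 := by
  have hd2 : 2 ≤ f.natDegree := h.2.1 ▸ h.1.two_le
  obtain ⟨M, _, _, hM, hlift⟩ := exists_model (f.derivative * (scal f * g))
  obtain ⟨hM1, hM2, hM3⟩ := splits_three hd2 hg hM
  obtain ⟨u0, hu0⟩ := exists_scal hd2 hM2
  have hu0' := ne_zero_of_scal hd2 hu0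
  obtain ⟨w0, hw0⟩ := exists_over M h.1
  choose! m hm hm' using fun (T : M) (hT' : T ∈ rts g M) => (h.wp hu0 hw0).exists_period
    (h.c1 h1 hu0 hw0) (h.tgt_int hq h1 hT hM1 hu0 hw0 (t := (T - b) / u0) (by
      rwa [mul_div_cancel₀ _ hu0', sub_add_cancel, ← mem_rts hg]))
  set m0 := ∏ T ∈ rts g M, m T with hm0
  have hm0' : 0 < m0 := Finset.prod_pos hm
  obtain ⟨C1, hC1⟩ := exists_od_le (M := M) h.1 ((rts g M).finite_toSet.image
    fun T => ((ev f M)^[m0] T - T) / u0)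
  refine ⟨m0, C1, fun L _ _ _ hs => ?_⟩
  obtain ⟨hL1, hL2, hL3⟩ := splits_three hd2 hg hs
  obtain ⟨φ⟩ := hlift L hs
  obtain ⟨w, e, he, hw⟩ := exists_above φ w0
  have hqw := mem_of_above he hw hw0
  have hu : aeval (φ u0) (scal f) = 0 := by rw [← map_aeval_ringHom, hu0, map_zero]
  have hu' := ne_zero_of_scal hd2 hu
  obtain ⟨k, -, hk2, hk3⟩ := log_val_inJ hd2 hu h.1 hqw
  refine ⟨φ u0, w, hu, hqw, inert_inJ, h.wp hu hqw, h.three hq, h.c1 h1 hu hqw,
    fun σ i => smul_coeff_cj σ.2.2 i, fun σ i => smul_coeff_aff σ.2.2 i, aff_ne_zero hu' hg, ?_,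
    hm0', fun t ht => ?_⟩
  · rw [od, hk3, neg_neg]
    rw [h.2.1] at hk2
    exact mul_le_mul_of_nonneg_right (by omega) (by positivity)
  rw [eval_aff] at ht
  obtain ⟨T, h2, h3⟩ := exists_preimage_root φ hg hM3 ht
  rw [← mem_rts hg] at h2
  have h4 : Fi (cj f b (φ u0)) m0 t - t = φ (((ev f M)^[m0] T - T) / u0) := by
    rw [sub_Fi_cj hu', map_div₀, map_sub, map_ev_iterate, h3]
  refine ⟨h.tgt_int hq h1 hT hL1 hu hqw ht, fun e => (hT L hL1 _ ht).1 ⟨m0, hm0', ?_⟩, ?_,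
    h4 ▸ hC1 L φ w hqw _ ⟨T, h2, rfl⟩⟩
  · exact (iterate_cj hu' _ _).symm.trans (congrArg (φ u0 * · + b) e)
  · obtain ⟨k, hk⟩ := Finset.dvd_prod_of_mem m h2
    have h5 := hm' T h2 k
    rw [← hk, sub_Fi_cj hu0', mul_div_cancel₀ _ hu0', sub_add_cancel] at h5
    rw [h4, hw]
    exact pow_lt_one₀ zero_le h5 he.ne'

lemma insep_degree (hg : g ≠ 0) (hT : Tgt f g) : ∃ C, ∀ n p, Irreducible p → p ∣ itP f g n →
    f.natDegree ^ n ≤ C * p.natDegree := by
  have hd2 : 2 ≤ f.natDegree := h.2.1 ▸ h.1.two_le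
  obtain ⟨m, C1, hW⟩ := exists_WI h hq h1 hg hT
  refine ⟨q ^ C1, fun n p hp hpd => ?_⟩
  rw [h.2.1]
  rcases le_total n C1 with hn | hn
  · exact (Nat.pow_le_pow_right h.1.pos hn).trans (Nat.le_mul_of_pos_right _ hp.natDegree_pos)
  obtain ⟨L, _, _, _, h2, h3⟩ := exists_galois (mul_ne_zero (derivative_ne_zero' (f := f) (by omega))
    (mul_ne_zero (scal_ne_zero hd2) hg)) hp.ne_zero
  obtain ⟨u, w, hu, -, hW⟩ := hW L h2
  have hu0 := ne_zero_of_scal hd2 hu
  obtain ⟨y, hy⟩ := h3.exists_eval_eq_zero (by rw [degree_map]; exact hp.degree_pos.ne')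
  rw [eval_map_algebraMap] at hy
  obtain ⟨z, rfl⟩ := exists_affine hu0 b y
  obtain ⟨j, rfl⟩ := Nat.exists_eq_add_of_le hn
  have := Fintype.ofFinite (inJ w u)
  rw [pow_add]
  refine Nat.mul_le_mul_left _ ((hW.lt_index j le_rfl ?_).le.trans
    (index_le_natDegree hu0 w hp.ne_zero hy))
  rw [eval_aff_Fi hu0]
  exact aeval_eq_zero_of_dvd_aeval_eq_zero hpd hy

lemma insep_mart (hirr : ∀ n, Irreducible (itP f g n)) (hT : Tgt f g) : ∃ K : ℕ,
    ∀ (N : ℕ) (L : Type) [Field L] [NumberField L] [IsGalois ℚ L],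
      ((f.derivative * (scal f * g)).map (algebraMap ℚ L)).Splits →
      (∀ j ≤ N, ((itP f g j).map (algebraMap ℚ L)).Splits) →
        ∃ B : Finset ℕ, B.card ≤ K ∧ ∀ n < N, n ∉ B → MartLevel f g L n := by
  have hd2 : 2 ≤ f.natDegree := h.2.1 ▸ h.1.two_le
  have hd0 : f.natDegree ≠ 0 := by omega
  have hg : g ≠ 0 := (hirr 0).ne_zero
  obtain ⟨m, C1, hW⟩ := exists_WI h hq h1 hg hT
  obtain ⟨C5, hC5⟩ := exists_od_sub (b := b) hd2 h.1 (hirr (C1 + 2)).ne_zero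
  refine ⟨lvl g.natDegree q C1 + C5 + 3 + 4 * (g.natDegree * q ^ C1) ^ 2,
    fun N L _ _ _ hs hsp => ?_⟩
  obtain ⟨u, w, hu, hw, hW⟩ := hW L hs
  have hu0 := ne_zero_of_scal hd2 hu
  replace hs := splits_three hd2 hg hs
  obtain ⟨π, hπ⟩ := exists_od_eq_one w
  have := Fintype.ofFinite (inJ w u)
  obtain ⟨B, h2, h3⟩ := hW.exists_fix hπ (splits_derivative_cj hu0 hs.1) (N := N) (C5 := C5)
    (fun n hn x hx => splits_cj_sub hd0 hg hu0 (hsp _ hn) hx) fun hN y y' hy hy' _ =>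
      hC5 L hs.2.1 (hsp _ hN) u hu w hw y y' (eval_aff_Fi hu0 _ y ▸ hy) (eval_aff_Fi hu0 _ y' ▸ hy')
  refine ⟨B, natDegree_aff (g := g) (b := b) hu0 ▸ h2, fun n hn hB y hy => ?_⟩
  obtain ⟨z, rfl⟩ := exists_affine hu0 b y
  obtain ⟨σ, h4, z', h5, h6⟩ := h3 n hn hB z ((mem_rts_aff hd0 hg hu0 _ _).mp hy)
  refine mart_of_prime hd0 hg (hirr _) (hsp _ hn) (h.2.1 ▸ h.1) (σ := σ) (fun x hx => ?_)
    ((mem_rts_aff hd0 hg hu0 _ _).mpr h5) (fun e => h6 ?_) _ hy
  · obtain ⟨x, rfl⟩ := exists_affine hu0 b x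
    rw [smul_affine σ.2.2]
    exact congrArg (u * · + b) (h4 x ((mem_rts_aff hd0 hg hu0 _ _).mp hx))
  · rw [smul_affine σ.2.2] at e
    exact affine_inj hu0 e

theorem small_wildInsep (hc : ∀ (M : Type) [Field M] [NumberField M],
      (f.derivative.map (algebraMap ℚ M)).Splits → CritOK f M) {α : ℚ}
    (hα : ∀ n, aeval ((fun x => f.eval x)^[n] α) f.derivative ≠ 0)
    (K : Type) [Field K] [NumberField K] : Small (critPrimes f α K) := by
  have hd3 : 3 ≤ f.natDegree := h.2.1 ▸ h.three hq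
  refine small_of_tgt (by omega) hα fun g hg hT => ?_
  obtain ⟨C, hC⟩ := insep_degree h hq h1 hg hT
  refine small_of_stable (by omega) hg C hC fun n p hp hirr => ?_
  obtain ⟨K, hK⟩ := insep_mart h hq h1 hirr (hT.of_dvd hp)
  exact small_orbMod α fun ε hε => core_rootMod hd3 (h.2.1 ▸ h.1.odd_of_ne_two hq) hirr hc _
    (mul_ne_zero (derivative_ne_zero' (by omega)) (mul_ne_zero (scal_ne_zero (by omega))
      (hirr 0).ne_zero)) K hK hε

end

theorem small_wild (h : WildAt f q b) (hq : q ≠ 2) (hc : ∀ (M : Type) [Field M] [NumberField M],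
      (f.derivative.map (algebraMap ℚ M)).Splits → CritOK f M) {α : ℚ}
    (hα : ∀ n, aeval ((fun x => f.eval x)^[n] α) f.derivative ≠ 0)
    (K : Type) [Field K] [NumberField K] : Small (critPrimes f α K) := by
  by_cases h1 : (ctr f b).coeff 1 ≠ 0 → 1 ≤ padicValRat q ((ctr f b).coeff 1)
  · exact small_wildInsep h hq h1 hc hα K
  · rw [Classical.not_imp, not_le] at h1
    have h2 := h.2.2 1 h.1.one_lt h1.1
    have h3 : (0 : ℤ) < q - 1 := by have := h.1.two_le; omega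
    refine small_wildSep h h1.1 (le_antisymm (by omega) ?_) hq hα K
    exact nonneg_of_mul_nonneg_right (by simpa using h2) h3

end Pool.Agent.Lib.MP_41de88_nt
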